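import Pool.Agent.Lib.MP_0430e4_lc.Impr.Defs

/-!
# Radial convolution on the cube as a double binomial sum
-/

set_option autoImplicit false

namespace Pool.Agent.Lib.MP_0430e4_lc.Impr

open Finset

/-- words and subsets -/
def wordEquiv (α : Type*) [Fintype α] [DecidableEq α] : (α → Bool) ≃ Finset α where
  toFun y := univ.filter fun i => y i = true
  invFun s i := decide (i ∈ s)
  left_inv y := by
    funext i
    simp
  right_inv s := by
    ext i
    simp

theorem sum_wt {α : Type*} [Fintype α] [DecidableEq α] (H : ℕ → ℝ) :
    ∑ y : α → Bool, H (univ.filter fun i => y i = true).card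
      = ∑ i ∈ range (Fintype.card α + 1), ((Nat.choose (Fintype.card α) i : ℕ) : ℝ) * H i := by
  have h1 := Finset.sum_powerset_apply_card H (x := (univ : Finset α))
  simp only [nsmul_eq_mul, Finset.card_univ] at h1
  rw [← h1, Finset.powerset_univ]
  exact Fintype.sum_equiv (wordEquiv α) _ _ (fun y => rfl)

theorem card_filter_split {n : ℕ} (x y : Fin n → Bool) :
    (univ.filter fun i => y i = true).card
      = (univ.filter fun i : {i // x i = true} => y i = true).card
        + (univ.filter fun i : {i // ¬ x i = true} => y i = true).card := by
  rw [Finset.card_filter, Finset.card_filter, Finset.card_filter]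
  exact (Fintype.sum_subtype_add_sum_subtype (fun i => x i = true)
    (fun i => if y i = true then 1 else 0)).symm

/-- Radial convolution: group `y` by the number `i` of ones inside the support of `x` and the
number `l` of ones outside. -/
theorem cv_radial {n : ℕ} (F G : ℤ → ℝ) (x : Fin n → Bool) :
    cv (fun y => F (wt y)) (fun y => G (wt y)) x = conv n (wt x) F G := by
  classical
  have hk : Fintype.card {i // x i = true} = wt x := by
    rw [Fintype.card_subtype]
    rfl
  have hk' : Fintype.card {i // ¬ x i = true} = n - wt x := by
    rw [Fintype.card_subtype_compl, hk, Fintype.card_fin]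
  have h1 : cv (fun y => F (wt y)) (fun y => G (wt y)) x
      = ∑ p : ({i // x i = true} → Bool) × ({i // ¬ x i = true} → Bool),
        F ((((univ.filter fun i => p.1 i = true).card : ℕ) : ℤ)
            + (((univ.filter fun i => p.2 i = true).card : ℕ) : ℤ))
          * G ((wt x : ℤ) - (((univ.filter fun i => p.1 i = true).card : ℕ) : ℤ)
            + (((univ.filter fun i => p.2 i = true).card : ℕ) : ℤ)) := by
    unfold cv
    refine Fintype.sum_equiv (Equiv.piEquivPiSubtypeProd (fun i => x i = true) (fun _ => Bool))
      _ _ (fun y => ?_)
    have e1 : (wt y : ℤ)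
        = (((univ.filter fun i : {i // x i = true} => y i = true).card : ℕ) : ℤ)
          + (((univ.filter fun i : {i // ¬ x i = true} => y i = true).card : ℕ) : ℤ) := by
      unfold wt
      rw [card_filter_split x y]
      push_cast
      rfl
    have e2 : (wt (fun i => xor (x i) (y i)) : ℤ)
        = (wt x : ℤ) - (((univ.filter fun i : {i // x i = true} => y i = true).card : ℕ) : ℤ)
          + (((univ.filter fun i : {i // ¬ x i = true} => y i = true).card : ℕ) : ℤ) := by
      unfold wt
      rw [card_filter_split x (fun i => xor (x i) (y i))]
      have e3 : (univ.filter fun i : {i // ¬ x i = true} => (xor (x i) (y i)) = true)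
          = univ.filter fun i : {i // ¬ x i = true} => y i = true := by
        apply Finset.filter_congr
        rintro ⟨i, hi⟩ _
        simp only [Bool.not_eq_true] at hi
        simp [hi]
      have e4 : (univ.filter fun i : {i // x i = true} => (xor (x i) (y i)) = true).card
          + (univ.filter fun i : {i // x i = true} => y i = true).card = wt x := by
        rw [← hk]
        have : (univ.filter fun i : {i // x i = true} => (xor (x i) (y i)) = true)
            = univ.filter fun i : {i // x i = true} => ¬ (y i = true) := by
          apply Finset.filter_congr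
          rintro ⟨i, hi⟩ _
          simp [hi]
        rw [this, add_comm, Finset.card_filter_add_card_filter_not]
        simp
      rw [e3]
      have e5 := congrArg (fun z : ℕ => (z : ℤ)) e4
      simp only [Nat.cast_add] at e5
      unfold wt at e5
      push_cast
      linarith
    show F (wt y) * G (wt (fun i => xor (x i) (y i))) = _
    rw [e1, e2]
    rfl
  rw [h1, Fintype.sum_prod_type]
  have h2 : ∀ y₁ : {i // x i = true} → Bool,
      ∑ y₂ : {i // ¬ x i = true} → Bool,
        F ((((univ.filter fun i => y₁ i = true).card : ℕ) : ℤ)
            + (((univ.filter fun i => y₂ i = true).card : ℕ) : ℤ))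
          * G ((wt x : ℤ) - (((univ.filter fun i => y₁ i = true).card : ℕ) : ℤ)
            + (((univ.filter fun i => y₂ i = true).card : ℕ) : ℤ))
      = ∑ l ∈ range (n - wt x + 1), (((n - wt x).choose l : ℕ) : ℝ) *
        (F ((((univ.filter fun i => y₁ i = true).card : ℕ) : ℤ) + (l : ℤ))
          * G ((wt x : ℤ) - (((univ.filter fun i => y₁ i = true).card : ℕ) : ℤ) + (l : ℤ))) := by
    intro y₁
    have := sum_wt (α := {i // ¬ x i = true}) (fun l =>
      F ((((univ.filter fun i => y₁ i = true).card : ℕ) : ℤ) + (l : ℤ))
          * G ((wt x : ℤ) - (((univ.filter fun i => y₁ i = true).card : ℕ) : ℤ) + (l : ℤ)))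
    rw [hk'] at this
    exact this
  simp only [h2]
  have h3 := sum_wt (α := {i // x i = true}) (fun i =>
    ∑ l ∈ range (n - wt x + 1), (((n - wt x).choose l : ℕ) : ℝ) *
        (F ((i : ℤ) + (l : ℤ)) * G ((wt x : ℤ) - (i : ℤ) + (l : ℤ))))
  rw [hk] at h3
  rw [h3]
  unfold conv
  apply Finset.sum_congr rfl
  intro i _
  rw [Finset.mul_sum]
  apply Finset.sum_congr rfl
  intro l _
  ring

end Pool.Agent.Lib.MP_0430e4_lc.Impr
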