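import Pool.Agent.Lib.MP_0430e4_lc.TensorRate

/-!
# Delsarte's linear programming value and the tensorisable certificates
-/

set_option autoImplicit false

namespace Pool.Agent.Lib.MP_0430e4_lc.Impr

open Finset Filter Topology
open Tensor (chi flp IsCert Lam)

/-- `lpBound n d` is the value of Delsarte's linear program (before symmetrisation). -/
noncomputable def lpBound (n d : ℕ) : ℝ :=
  sSup {s : ℝ | ∃ β : (Fin n → Bool) → ℝ, β (fun _ => false) = 1 ∧ (∀ x, 0 ≤ β x) ∧
    (∀ x, x ≠ (fun _ => false) → (univ.filter fun i => x i = true).card < d → β x = 0) ∧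
    (∀ y, 0 ≤ ∑ x, β x * Tensor.chi x y) ∧ s = ∑ x, β x}

theorem lpBound_bdd (n d : ℕ) :
    BddAbove {s : ℝ | ∃ β : (Fin n → Bool) → ℝ, β (fun _ => false) = 1 ∧ (∀ x, 0 ≤ β x) ∧
    (∀ x, x ≠ (fun _ => false) → (univ.filter fun i => x i = true).card < d → β x = 0) ∧
    (∀ y, 0 ≤ ∑ x, β x * Tensor.chi x y) ∧ s = ∑ x, β x} := by
  refine ⟨2 ^ n, ?_⟩
  rintro s ⟨β, h1, h2, h3, h4, rfl⟩
  have e1 : ∑ y, ∑ x, β x * Tensor.chi x y = 2 ^ n := by
    rw [Finset.sum_comm]
    have : ∀ x : Fin n → Bool, ∑ y, β x * Tensor.chi x y =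
        if x = (fun _ => false) then (2 : ℝ) ^ n else 0 := by
      intro x
      rw [← Finset.mul_sum, Tensor.sum_chi]
      split_ifs with hx
      · subst hx
        simp [h1]
      · have : ∃ i, x i = true := by
          by_contra hcon
          push Not at hcon
          apply hx
          funext i
          simpa using hcon i
        obtain ⟨i, hi⟩ := this
        rw [Finset.prod_eq_zero (Finset.mem_univ i) (by simp [hi]), mul_zero]
    simp only [this]
    rw [Finset.sum_ite_eq' Finset.univ]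
    simp
  have e2 : ∑ x, β x = ∑ x, β x * Tensor.chi x (fun _ => false) := by
    simp only [Tensor.chi_zero_right, mul_one]
  rw [← e1, e2]
  exact Finset.single_le_sum (f := fun y => ∑ x, β x * Tensor.chi x y) (fun y _ => h4 y)
    (Finset.mem_univ _)

/-- The LP value is at least 1 (take `β = δ_0`). -/
theorem one_le_lpBound (n d : ℕ) : 1 ≤ lpBound n d := by
  apply le_csSup (lpBound_bdd n d)
  refine ⟨fun x => if x = (fun _ => false) then 1 else 0, by simp, ?_, ?_, ?_, by simp⟩
  · intro x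
    simp only
    split_ifs <;> norm_num
  · intro x hx _
    simp only [if_neg hx]
  · intro y
    simp only [ite_mul, one_mul, zero_mul]
    rw [Finset.sum_ite_eq' Finset.univ]
    simp [Tensor.chi_zero_left]

/-- Delsarte: the LP value bounds the size of codes. -/
theorem maxCode_le_lpBound (n d : ℕ) : (Tensor.maxCode n d : ℝ) ≤ lpBound n d := by
  classical
  obtain ⟨C, hC, hcard⟩ := Tensor.maxCode_attained n d
  have hpos : 0 < C.card := by
    rw [hcard]
    exact Tensor.one_le_maxCode n d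
  have hposR : (0 : ℝ) < C.card := by exact_mod_cast hpos
  rw [← hcard]
  apply le_csSup (lpBound_bdd n d)
  have key : ∀ F : (Fin n → Bool) → ℝ,
      ∑ x, (∑ c ∈ C, ∑ c' ∈ C, (if (fun i => xor (c i) (c' i)) = x then (1 : ℝ) else 0)) * F x
        = ∑ c ∈ C, ∑ c' ∈ C, F (fun i => xor (c i) (c' i)) := by
    intro F
    simp only [Finset.sum_mul]
    rw [Finset.sum_comm]
    apply Finset.sum_congr rfl
    intro c _
    rw [Finset.sum_comm]
    apply Finset.sum_congr rfl
    intro c' _
    simp only [ite_mul, one_mul, zero_mul]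
    rw [Finset.sum_ite_eq Finset.univ]
    simp
  refine ⟨fun x => (∑ c ∈ C, ∑ c' ∈ C,
    (if (fun i => xor (c i) (c' i)) = x then (1 : ℝ) else 0)) / C.card, ?_, ?_, ?_, ?_, ?_⟩
  · have h1 : ∀ c ∈ C, ∑ c' ∈ C,
        (if (fun i => xor (c i) (c' i)) = (fun _ => false) then (1 : ℝ) else 0) = 1 := by
      intro c hc
      rw [Finset.sum_eq_single c]
      · simp
      · intro c' _ hne
        rw [if_neg]
        intro h
        apply hne
        funext i
        have := congrFun h i
        revert this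
        cases c i <;> cases c' i <;> simp
      · intro h
        exact absurd hc h
    simp only
    rw [Finset.sum_congr rfl h1]
    simp only [Finset.sum_const, nsmul_eq_mul, mul_one]
    exact div_self hposR.ne'
  · intro x
    refine div_nonneg (Finset.sum_nonneg fun c _ => Finset.sum_nonneg fun c' _ => ?_) hposR.le
    split_ifs <;> norm_num
  · intro x hx hlt
    have : ∀ c ∈ C, ∀ c' ∈ C, ¬ ((fun i => xor (c i) (c' i)) = x) := by
      intro c hc c' hc' h
      have hne : c ≠ c' := by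
        rintro rfl
        apply hx
        rw [← h]
        funext i
        simp
      have := hC c hc c' hc' hne
      rw [Tensor.hammingDist_eq_card_xor] at this
      rw [← h] at hlt
      simp only at hlt
      omega
    have h0 : ∑ c ∈ C, ∑ c' ∈ C, (if (fun i => xor (c i) (c' i)) = x then (1 : ℝ) else 0) = 0 := by
      apply Finset.sum_eq_zero
      intro c hc
      apply Finset.sum_eq_zero
      intro c' hc'
      exact if_neg (this c hc c' hc')
    simp only [h0, zero_div]
  · intro y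
    have e : ∑ x, (∑ c ∈ C, ∑ c' ∈ C,
        (if (fun i => xor (c i) (c' i)) = x then (1 : ℝ) else 0)) / C.card * Tensor.chi x y
        = (∑ c ∈ C, Tensor.chi c y) ^ 2 / C.card := by
      have : ∀ x, (∑ c ∈ C, ∑ c' ∈ C,
          (if (fun i => xor (c i) (c' i)) = x then (1 : ℝ) else 0)) / C.card * Tensor.chi x y
          = ((∑ c ∈ C, ∑ c' ∈ C,
          (if (fun i => xor (c i) (c' i)) = x then (1 : ℝ) else 0)) * Tensor.chi x y) / C.card := by
        intro x
        ring
      simp only [this]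
      rw [← Finset.sum_div, key]
      congr 1
      simp only [Tensor.chi_xor]
      rw [sq, Finset.sum_mul_sum]
    rw [e]
    positivity
  · have e := key (fun _ => 1)
    simp only [mul_one, Finset.sum_const, nsmul_eq_mul] at e
    rw [← Finset.sum_div, e]
    field_simp

/-- a certificate bounds the LP value -/
theorem lp_le_of_cert {n : ℕ} {l : ℝ} {h : (Fin n → Bool) → ℝ} (hh : IsCert l h) (D : ℕ)
    (hl : (n : ℝ) - 2 * D < l) {β : (Fin n → Bool) → ℝ} (b0 : β (fun _ => false) = 1)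
    (b1 : ∀ x, 0 ≤ β x)
    (b2 : ∀ x, x ≠ (fun _ => false) → (univ.filter fun i => x i = true).card < D → β x = 0)
    (b3 : ∀ y, 0 ≤ ∑ x, β x * Tensor.chi x y) :
    (∑ x, β x) * ((l - (n - 2 * D)) * h (fun _ => false)) ≤ 2 * D * ∑ y, h y := by
  classical
  set μ : ℝ := n - 2 * D with hμ
  set g : (Fin n → Bool) → ℝ := fun y => (∑ i, h (flp y i)) - μ * h y with hg
  have hg0 : ∀ y, (l - μ) * h y ≤ g y := by
    intro y
    have := hh.adj y
    simp only [hg]
    linarith
  have hgnn : ∀ y, 0 ≤ g y := fun y => le_trans (mul_nonneg (by linarith) (hh.nonneg y)) (hg0 y)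
  have e2 : ∑ x, β x = ∑ x, β x * Tensor.chi x (fun _ => false) := by
    simp only [Tensor.chi_zero_right, mul_one]
  have h1 : (∑ x, β x) * ((l - μ) * h (fun _ => false)) ≤
      ∑ y, g y * ∑ x, β x * Tensor.chi x y := by
    calc (∑ x, β x) * ((l - μ) * h (fun _ => false))
        ≤ (∑ x, β x) * g (fun _ => false) :=
          mul_le_mul_of_nonneg_left (hg0 _) (Finset.sum_nonneg fun x _ => b1 x)
      _ = g (fun _ => false) * ∑ x, β x * Tensor.chi x (fun _ => false) := by
          rw [← e2, mul_comm]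
      _ ≤ _ := Finset.single_le_sum (f := fun y => g y * ∑ x, β x * Tensor.chi x y)
          (fun y _ => mul_nonneg (hgnn y) (b3 y)) (Finset.mem_univ _)
  have h3 : ∀ z : Fin n → Bool, ∑ y, g y * chi z y
      = ((n - 2 * (univ.filter fun i => z i = true).card) - μ) * ∑ y, h y * chi z y := by
    intro z
    have := Tensor.sum_adj_chi h z
    rw [Fintype.card_fin] at this
    rw [sub_mul, ← this, Finset.mul_sum, ← Finset.sum_sub_distrib]
    apply Finset.sum_congr rfl
    intro y _
    simp only [hg]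
    ring
  have h2 : ∑ y, g y * ∑ x, β x * Tensor.chi x y = ∑ x, β x * ∑ y, g y * chi x y := by
    simp only [Finset.mul_sum]
    rw [Finset.sum_comm]
    apply Finset.sum_congr rfl
    intro x _
    apply Finset.sum_congr rfl
    intro y _
    ring
  refine h1.trans ?_
  rw [h2, ← Finset.add_sum_erase Finset.univ _ (Finset.mem_univ (fun _ : Fin n => false))]
  have e3 : β (fun _ => false) * ∑ y, g y * chi (fun _ => false) y = 2 * D * ∑ y, h y := by
    rw [h3, b0]
    simp only [Tensor.chi_zero_left, mul_one, one_mul]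
    simp [hμ]
  have e4 : ∑ x ∈ Finset.univ.erase (fun _ : Fin n => false), β x * ∑ y, g y * chi x y ≤ 0 := by
    apply Finset.sum_nonpos
    intro x hx
    have hne := Finset.ne_of_mem_erase hx
    by_cases hD : (univ.filter fun i => x i = true).card < D
    · rw [b2 x hne hD, zero_mul]
    · rw [h3]
      apply mul_nonpos_of_nonneg_of_nonpos (b1 x)
      apply mul_nonpos_of_nonpos_of_nonneg
      · rw [hμ]
        have : (D : ℝ) ≤ ((univ.filter fun i => x i = true).card : ℝ) := by
          exact_mod_cast not_lt.1 hD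
        linarith
      · exact hh.fourier _
  linarith

theorem lp_le_lam {n : ℕ} {l : ℝ} (hln : l ≤ n) (D : ℕ) (hl : (n : ℝ) - 2 * D < l) :
    lpBound n D * (l - (n - 2 * D)) ≤ 2 * D * Lam n l := by
  have hgap : 0 < l - (n - 2 * D) := by linarith
  rcases Nat.eq_zero_or_pos D with h0 | h0
  · exfalso
    subst h0
    simp at hl
    linarith
  have hD : (0 : ℝ) < 2 * D := by positivity
  rw [← le_div_iff₀ hgap]
  refine csSup_le ⟨1, ?_⟩ ?_
  · refine ⟨fun x => if x = (fun _ => false) then 1 else 0, by simp, ?_, ?_, ?_, by simp⟩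
    · intro x
      simp only
      split_ifs <;> norm_num
    · intro x hx _
      simp only [if_neg hx]
    · intro y
      simp only [ite_mul, one_mul, zero_mul]
      rw [Finset.sum_ite_eq' Finset.univ]
      simp [Tensor.chi_zero_left]
  rintro s ⟨β, b0, b1, b2, b3, rfl⟩
  rw [le_div_iff₀ hgap, ← div_le_iff₀' hD]
  apply le_csInf (Tensor.lam_nonempty hln)
  rintro v ⟨h, hh, rfl⟩
  rw [div_le_iff₀' hD]
  have h1 := lp_le_of_cert hh D hl b0 b1 b2 b3
  unfold Tensor.val
  rw [mul_div_assoc', le_div_iff₀ hh.pos]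
  linarith

theorem lp_le {δ δ' : ℝ} (hδ' : 0 ≤ δ') (h : δ' < δ) (h1 : δ < 1 / 2) {n : ℕ} (hn : 1 ≤ n) :
    lpBound n ⌈δ * n⌉₊ ≤ (1 / (δ - δ')) * Lam n ((1 - 2 * δ') * n) := by
  have hn0 : (0 : ℝ) < n := by exact_mod_cast hn
  have hc : δ * n ≤ (⌈δ * n⌉₊ : ℝ) := Nat.le_ceil _
  have hcn : (⌈δ * n⌉₊ : ℝ) ≤ n := by
    have : ⌈δ * n⌉₊ ≤ n := by
      apply Nat.ceil_le.2
      nlinarith
    exact_mod_cast this
  have hlt : (n : ℝ) - 2 * (⌈δ * n⌉₊ : ℝ) < (1 - 2 * δ') * n := by nlinarith
  have h2 := lp_le_lam (Tensor.level_le hδ' n) ⌈δ * n⌉₊ hlt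
  have hL := Tensor.one_le_lam (Tensor.level_le hδ' n)
  have hB := one_le_lpBound n ⌈δ * n⌉₊
  have h3 : 2 * ((δ - δ') * n) ≤ (1 - 2 * δ') * n - (n - 2 * (⌈δ * n⌉₊ : ℝ)) := by nlinarith
  have h4 : lpBound n ⌈δ * n⌉₊ * (2 * ((δ - δ') * n)) ≤ 2 * n * Lam n ((1 - 2 * δ') * n) := by
    calc lpBound n ⌈δ * n⌉₊ * (2 * ((δ - δ') * n))
        ≤ lpBound n ⌈δ * n⌉₊ * ((1 - 2 * δ') * n - (n - 2 * (⌈δ * n⌉₊ : ℝ))) :=
          mul_le_mul_of_nonneg_left h3 (by linarith)
      _ ≤ 2 * (⌈δ * n⌉₊ : ℝ) * Lam n ((1 - 2 * δ') * n) := h2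
      _ ≤ 2 * n * Lam n ((1 - 2 * δ') * n) := by
          gcongr
  have h5 : 0 < δ - δ' := by linarith
  rw [one_div, ← div_eq_inv_mul, le_div_iff₀ h5]
  have h6 : (2 * (n : ℝ)) * (lpBound n ⌈δ * n⌉₊ * (δ - δ'))
      ≤ (2 * n) * Lam n ((1 - 2 * δ') * n) := by
    linarith
  exact le_of_mul_le_mul_left h6 (by positivity)

theorem limsup_lp_le_ell_of_lt {δ δ' : ℝ} (hδ' : 0 ≤ δ') (h : δ' < δ) (h1 : δ < 1 / 2) :
    limsup (fun n : ℕ => Real.logb 2 (lpBound n ⌈δ * n⌉₊) / n) atTop ≤ Tensor.ell δ' := by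
  have h5 : 0 < δ - δ' := by linarith
  have hlim : Tendsto (fun n : ℕ => Real.logb 2 (1 / (δ - δ')) / (n : ℝ)
      + Tensor.lexp δ' n / n) atTop (𝓝 (0 + Tensor.ell δ')) :=
    (tendsto_const_div_atTop_nhds_zero_nat _).add (Tensor.tendsto_ell hδ')
  rw [zero_add] at hlim
  rw [← hlim.limsup_eq]
  apply limsup_le_limsup
  · filter_upwards [eventually_ge_atTop 1] with n hn
    have hpos : (0 : ℝ) < lpBound n ⌈δ * n⌉₊ := lt_of_lt_of_le one_pos (one_le_lpBound _ _)
    have h4 := Real.logb_le_logb_of_le (b := 2) (by norm_num) hpos (lp_le hδ' h h1 hn)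
    have hL := Tensor.one_le_lam (Tensor.level_le hδ' n)
    rw [Real.logb_mul (by positivity) (by linarith)] at h4
    rw [← add_div]
    unfold Tensor.lexp
    gcongr
  · apply IsCoboundedUnder.of_frequently_ge (a := 0)
    apply Eventually.frequently
    filter_upwards with n
    exact div_nonneg (Real.logb_nonneg (by norm_num) (one_le_lpBound _ _)) (Nat.cast_nonneg _)
  · exact hlim.isBoundedUnder_le

/-- As `Tensor.limsup_le_ell`, for the LP value. -/
theorem limsup_lp_le_ell {δ : ℝ} (hδ : 0 < δ) (h1 : δ < 1 / 2) :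
    limsup (fun n : ℕ => Real.logb 2 (lpBound n ⌈δ * n⌉₊) / n) atTop ≤ Tensor.ell δ := by
  have hc : ContinuousAt Tensor.ell δ := Tensor.ell_continuousOn.continuousAt (Ioi_mem_nhds hδ)
  have ht : Tendsto Tensor.ell (𝓝[<] δ) (𝓝 (Tensor.ell δ)) :=
    hc.tendsto.mono_left nhdsWithin_le_nhds
  apply ge_of_tendsto ht
  have : Set.Ioo 0 δ ∈ 𝓝[<] δ := Ioo_mem_nhdsLT hδ
  filter_upwards [this] with x hx
  exact limsup_lp_le_ell_of_lt hx.1.le hx.2 h1

end Pool.Agent.Lib.MP_0430e4_lc.Impr
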