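import Pool.Agent.Lib.MP_0430e4_lc.Impr.Defs

/-!
# Expansion of the convolution over pairs of levels
-/

set_option autoImplicit false

namespace Pool.Agent.Lib.MP_0430e4_lc.Impr

open Finset

theorem expand_supp {v : ℤ → ℝ} {T : Finset ℕ}
    (hv : ∀ z : ℤ, v z ≠ 0 → ∃ b ∈ T, (b : ℤ) = z) (z : ℤ) :
    v z = ∑ b ∈ T, if (b : ℤ) = z then v b else 0 := by
  by_cases h : ∃ b ∈ T, (b : ℤ) = z
  · obtain ⟨b, hb, hbz⟩ := h
    rw [Finset.sum_eq_single b]
    · rw [if_pos hbz, hbz]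
    · intro c _ hc
      rw [if_neg]
      intro hcz
      exact hc (by exact_mod_cast hcz.trans hbz.symm)
    · intro hb'
      exact absurd hb hb'
  · have h0 : v z = 0 := by
      by_contra hne
      exact h (hv z hne)
    rw [h0, Finset.sum_eq_zero]
    intro b hb
    rw [if_neg]
    intro hbz
    exact h ⟨b, hb, hbz⟩

theorem conv_eq_pk {n k : ℕ} (hk : k ≤ n) {w v : ℤ → ℝ} {S T : Finset ℕ}
    (hw : ∀ z : ℤ, w z ≠ 0 → ∃ a ∈ S, (a : ℤ) = z) (hv : ∀ z : ℤ, v z ≠ 0 → ∃ b ∈ T, (b : ℤ) = z) :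
    conv n k w v = ∑ a ∈ S, ∑ b ∈ T, w a * v b * pk n k a b := by
  have key : ∀ i ∈ range (k + 1), ∀ l ∈ range (n - k + 1),
      ((k.choose i : ℕ) : ℝ) * (((n - k).choose l : ℕ) : ℝ) *
        (w ((i : ℤ) + (l : ℤ)) * v ((k : ℤ) - (i : ℤ) + (l : ℤ)))
      = ∑ a ∈ S, ∑ b ∈ T, w a * v b * (if i + l = a ∧ k + l = b + i then
        ((k.choose i : ℕ) : ℝ) * (((n - k).choose l : ℕ) : ℝ) else 0) := by
    intro i hi l _
    have hik : i ≤ k := Nat.lt_succ_iff.mp (Finset.mem_range.mp hi)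
    rw [expand_supp hw ((i : ℤ) + (l : ℤ)), expand_supp hv ((k : ℤ) - (i : ℤ) + (l : ℤ)),
      Finset.sum_mul_sum, Finset.mul_sum]
    refine Finset.sum_congr rfl fun a _ => ?_
    rw [Finset.mul_sum]
    refine Finset.sum_congr rfl fun b _ => ?_
    by_cases h1 : (a : ℤ) = (i : ℤ) + (l : ℤ)
    · by_cases h2 : (b : ℤ) = (k : ℤ) - (i : ℤ) + (l : ℤ)
      · rw [if_pos h1, if_pos h2, if_pos (by omega)]
        ring
      · rw [if_pos h1, if_neg h2, if_neg (by omega)]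
        ring
    · rw [if_neg h1, zero_mul, mul_zero, if_neg (by omega), mul_zero]
  unfold conv pk
  calc _ = ∑ i ∈ range (k + 1), ∑ l ∈ range (n - k + 1),
        ∑ a ∈ S, ∑ b ∈ T, w a * v b * (if i + l = a ∧ k + l = b + i then
        ((k.choose i : ℕ) : ℝ) * (((n - k).choose l : ℕ) : ℝ) else 0) :=
        Finset.sum_congr rfl fun i hi => Finset.sum_congr rfl fun l hl => key i hi l hl
    _ = ∑ a ∈ S, ∑ b ∈ T, ∑ i ∈ range (k + 1), ∑ l ∈ range (n - k + 1),
        w a * v b * (if i + l = a ∧ k + l = b + i then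
        ((k.choose i : ℕ) : ℝ) * (((n - k).choose l : ℕ) : ℝ) else 0) := by
        have s1 : ∀ i ∈ range (k + 1), (∑ l ∈ range (n - k + 1),
            ∑ a ∈ S, ∑ b ∈ T, w a * v b * (if i + l = a ∧ k + l = b + i then
            ((k.choose i : ℕ) : ℝ) * (((n - k).choose l : ℕ) : ℝ) else 0))
            = ∑ a ∈ S, ∑ b ∈ T, ∑ l ∈ range (n - k + 1),
            w a * v b * (if i + l = a ∧ k + l = b + i then
            ((k.choose i : ℕ) : ℝ) * (((n - k).choose l : ℕ) : ℝ) else 0) := by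
          intro i _
          rw [Finset.sum_comm]
          refine Finset.sum_congr rfl fun a _ => ?_
          rw [Finset.sum_comm]
        rw [Finset.sum_congr rfl s1, Finset.sum_comm]
        refine Finset.sum_congr rfl fun a _ => ?_
        rw [Finset.sum_comm]
    _ = _ := by
        refine Finset.sum_congr rfl fun a _ => Finset.sum_congr rfl fun b _ => ?_
        simp only [Finset.mul_sum]

theorem conv_shift {n k : ℕ} (hk : k ≤ n) {w v : ℤ → ℝ} {S T : Finset ℕ}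
    (hw : ∀ z : ℤ, w z ≠ 0 → ∃ a ∈ S, (a : ℤ) = z) (hv : ∀ z : ℤ, v z ≠ 0 → ∃ b ∈ T, (b : ℤ) = z)
    (i j : ℕ) :
    conv n k (fun z => w (z - 2 * (i : ℤ))) (fun z => v (z - 2 * (j : ℤ)))
      = ∑ a ∈ S, ∑ b ∈ T, w a * v b * pk n k (a + 2 * i) (b + 2 * j) := by
  classical
  have ia : Set.InjOn (fun a : ℕ => a + 2 * i) (S : Set ℕ) := by
    intro a _ b _ h
    simpa using h
  have ib : Set.InjOn (fun a : ℕ => a + 2 * j) (T : Set ℕ) := by
    intro a _ b _ h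
    simpa using h
  rw [conv_eq_pk hk (S := S.image fun a => a + 2 * i) (T := T.image fun b => b + 2 * j)]
  · rw [Finset.sum_image ia]
    refine Finset.sum_congr rfl fun a _ => ?_
    rw [Finset.sum_image ib]
    refine Finset.sum_congr rfl fun b _ => ?_
    push_cast
    rw [add_sub_cancel_right, add_sub_cancel_right]
  · intro z hz
    obtain ⟨a, ha, haz⟩ := hw _ hz
    exact ⟨a + 2 * i, Finset.mem_image_of_mem _ ha, by push_cast; omega⟩
  · intro z hz
    obtain ⟨b, hb, hbz⟩ := hv _ hz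
    exact ⟨b + 2 * j, Finset.mem_image_of_mem _ hb, by push_cast; omega⟩

theorem conv_De_expand {n k : ℕ} {s : ℝ} {w v : ℤ → ℝ} :
    conv n k (De n s w) (De n s v) = ∑ i ∈ range (n + 1), ∑ j ∈ range (n + 1),
      ew s i * ew s j * conv n k (fun z => w (z - 2 * (i : ℤ))) (fun z => v (z - 2 * (j : ℤ))) := by
  unfold conv De
  simp only [Finset.mul_sum]
  have key : ∀ p ∈ range (k + 1), ∀ l ∈ range (n - k + 1),
      ((k.choose p : ℕ) : ℝ) * (((n - k).choose l : ℕ) : ℝ) *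
        ((∑ m ∈ range (n + 1), ew s m * w ((p : ℤ) + (l : ℤ) - 2 * (m : ℤ))) *
        ∑ m ∈ range (n + 1), ew s m * v ((k : ℤ) - (p : ℤ) + (l : ℤ) - 2 * (m : ℤ)))
      = ∑ i ∈ range (n + 1), ∑ j ∈ range (n + 1), ew s i * ew s j *
        (((k.choose p : ℕ) : ℝ) * (((n - k).choose l : ℕ) : ℝ) *
        (w ((p : ℤ) + (l : ℤ) - 2 * (i : ℤ)) * v ((k : ℤ) - (p : ℤ) + (l : ℤ) - 2 * (j : ℤ)))) := by
    intro p _ l _
    rw [Finset.sum_mul_sum, Finset.mul_sum]
    refine Finset.sum_congr rfl fun i _ => ?_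
    rw [Finset.mul_sum]
    refine Finset.sum_congr rfl fun j _ => ?_
    ring
  calc _ = ∑ p ∈ range (k + 1), ∑ l ∈ range (n - k + 1),
        ((k.choose p : ℕ) : ℝ) * (((n - k).choose l : ℕ) : ℝ) *
        ((∑ m ∈ range (n + 1), ew s m * w ((p : ℤ) + (l : ℤ) - 2 * (m : ℤ))) *
        ∑ m ∈ range (n + 1), ew s m * v ((k : ℤ) - (p : ℤ) + (l : ℤ) - 2 * (m : ℤ))) := by
        refine Finset.sum_congr rfl fun p _ => Finset.sum_congr rfl fun l _ => ?_
        simp only [Finset.mul_sum]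
    _ = ∑ p ∈ range (k + 1), ∑ l ∈ range (n - k + 1),
        ∑ i ∈ range (n + 1), ∑ j ∈ range (n + 1), ew s i * ew s j *
        (((k.choose p : ℕ) : ℝ) * (((n - k).choose l : ℕ) : ℝ) *
        (w ((p : ℤ) + (l : ℤ) - 2 * (i : ℤ)) * v ((k : ℤ) - (p : ℤ) + (l : ℤ) - 2 * (j : ℤ)))) :=
        Finset.sum_congr rfl fun i hi => Finset.sum_congr rfl fun l hl => key i hi l hl
    _ = _ := by
        have s1 : ∀ p ∈ range (k + 1), (∑ l ∈ range (n - k + 1),
            ∑ i ∈ range (n + 1), ∑ j ∈ range (n + 1), ew s i * ew s j *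
            (((k.choose p : ℕ) : ℝ) * (((n - k).choose l : ℕ) : ℝ) *
            (w ((p : ℤ) + (l : ℤ) - 2 * (i : ℤ)) * v ((k : ℤ) - (p : ℤ) + (l : ℤ) - 2 * (j : ℤ)))))
            = ∑ i ∈ range (n + 1), ∑ j ∈ range (n + 1), ∑ l ∈ range (n - k + 1), ew s i * ew s j *
            (((k.choose p : ℕ) : ℝ) * (((n - k).choose l : ℕ) : ℝ) *
            (w ((p : ℤ) + (l : ℤ) - 2 * (i : ℤ)) * v ((k : ℤ) - (p : ℤ) + (l : ℤ) - 2 * (j : ℤ)))) := by
          intro i _
          rw [Finset.sum_comm]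
          refine Finset.sum_congr rfl fun a _ => ?_
          rw [Finset.sum_comm]
        rw [Finset.sum_congr rfl s1, Finset.sum_comm]
        refine Finset.sum_congr rfl fun a _ => ?_
        rw [Finset.sum_comm]

theorem conv_De {n k : ℕ} (hk : k ≤ n) {s : ℝ} {w v : ℤ → ℝ} {S T : Finset ℕ}
    (hw : ∀ z : ℤ, w z ≠ 0 → ∃ a ∈ S, (a : ℤ) = z) (hv : ∀ z : ℤ, v z ≠ 0 → ∃ b ∈ T, (b : ℤ) = z) :
    conv n k (De n s w) (De n s v) = ∑ a ∈ S, ∑ b ∈ T, w a * v b * LamP n k s a b := by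
  rw [conv_De_expand]
  unfold LamP
  simp only [conv_shift hk hw hv]
  simp only [Finset.mul_sum]
  have s1 : ∀ i ∈ range (n + 1), (∑ j ∈ range (n + 1), ∑ a ∈ S, ∑ b ∈ T,
      ew s i * ew s j * (w a * v b * pk n k (a + 2 * i) (b + 2 * j)))
      = ∑ a ∈ S, ∑ b ∈ T, ∑ j ∈ range (n + 1),
        ew s i * ew s j * (w a * v b * pk n k (a + 2 * i) (b + 2 * j)) := by
    intro i _
    rw [Finset.sum_comm]
    refine Finset.sum_congr rfl fun a _ => ?_
    rw [Finset.sum_comm]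
  rw [Finset.sum_congr rfl s1, Finset.sum_comm]
  refine Finset.sum_congr rfl fun a _ => ?_
  rw [Finset.sum_comm]
  refine Finset.sum_congr rfl fun b _ => Finset.sum_congr rfl fun i _ =>
    Finset.sum_congr rfl fun j _ => ?_
  ring

end Pool.Agent.Lib.MP_0430e4_lc.Impr
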