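import Pool.Agent.Lib.MP_0430e4_lc.Impr.Defs

/-!
MODULE PK: intersection numbers of the cube.
-/

set_option autoImplicit false

namespace Pool.Agent.Lib.MP_0430e4_lc.Impr

open Finset

namespace Pk

theorem sum_ite_bz (k : ℕ) (m : ℤ) :
    ∑ i ∈ range (k + 1), (if (i : ℤ) = m then ((k.choose i : ℕ) : ℝ) else 0) = bz k m := by
  unfold bz
  by_cases hm : 0 ≤ m
  · obtain ⟨m', rfl⟩ := Int.eq_ofNat_of_zero_le hm
    rw [if_pos hm]
    by_cases hk : m' ∈ range (k + 1)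
    · rw [Finset.sum_eq_single m']
      · simp
      · intro b _ hb
        have : ¬ ((b : ℤ) = (m' : ℤ)) := by exact_mod_cast hb
        rw [if_neg this]
      · intro h
        exact absurd hk h
    · have h1 : k < m' := by
        rw [Finset.mem_range] at hk
        omega
      rw [Finset.sum_eq_zero]
      · simp [Nat.choose_eq_zero_of_lt h1]
      · intro i hi
        have : ¬ ((i : ℤ) = (m' : ℤ)) := by
          rw [Finset.mem_range] at hi
          omega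
        rw [if_neg this]
  · rw [if_neg hm]
    apply Finset.sum_eq_zero
    intro i _
    have : ¬ ((i : ℤ) = m) := by omega
    rw [if_neg this]

theorem bz_nn (k : ℕ) (m : ℤ) : 0 ≤ bz k m := by
  unfold bz
  split_ifs
  · positivity
  · exact le_rfl

theorem bz_up {k : ℕ} {m : ℤ} (h : (k : ℤ) ≤ 2 * m + 1) : bz k (m + 1) ≤ bz k m := by
  have hm : 0 ≤ m := by omega
  obtain ⟨m', rfl⟩ := Int.eq_ofNat_of_zero_le hm
  unfold bz
  rw [if_pos (by omega), if_pos hm]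
  have e1 : ((m' : ℤ) + 1).toNat = m' + 1 := by omega
  have e2 : ((m' : ℤ)).toNat = m' := by omega
  rw [e1, e2]
  have h1 := Nat.choose_succ_right_eq k m'
  have h2 : k - m' ≤ m' + 1 := by omega
  have h3 : k.choose (m' + 1) * (m' + 1) ≤ k.choose m' * (m' + 1) := by
    rw [h1]
    exact Nat.mul_le_mul_left _ h2
  have h4 := Nat.le_of_mul_le_mul_right h3 (Nat.succ_pos m')
  exact_mod_cast h4

theorem bz_down {k : ℕ} {m : ℤ} (h : 2 * m ≤ (k : ℤ) + 1) : bz k (m - 1) ≤ bz k m := by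
  by_cases hm : 0 ≤ m - 1
  · obtain ⟨m', hm'⟩ := Int.eq_ofNat_of_zero_le hm
    have hmm : m = (m' : ℤ) + 1 := by omega
    subst hmm
    unfold bz
    rw [if_pos hm, if_pos (by omega)]
    have e1 : ((m' : ℤ) + 1).toNat = m' + 1 := by omega
    have e2 : ((m' : ℤ) + 1 - 1).toNat = m' := by omega
    rw [e1, e2]
    have h1 := Nat.choose_succ_right_eq k m'
    have h2 : m' + 1 ≤ k - m' := by omega
    have h3 : k.choose m' * (m' + 1) ≤ k.choose (m' + 1) * (m' + 1) := by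
      rw [h1]
      exact Nat.mul_le_mul_left _ h2
    have h4 := Nat.le_of_mul_le_mul_right h3 (Nat.succ_pos m')
    exact_mod_cast h4
  · have : bz k (m - 1) = 0 := by
      unfold bz
      rw [if_neg hm]
    rw [this]
    exact bz_nn k m

theorem bz_step {N : ℕ} {L : ℤ} {r : ℝ} (hL : 0 ≤ L) (h : (N : ℝ) ≤ r * (L + 1)) :
    bz N (L + 1) ≤ r * bz N L := by
  obtain ⟨L', rfl⟩ := Int.eq_ofNat_of_zero_le hL
  unfold bz
  rw [if_pos (by omega), if_pos hL]
  have e1 : ((L' : ℤ) + 1).toNat = L' + 1 := by omega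
  have e2 : ((L' : ℤ)).toNat = L' := by omega
  rw [e1, e2]
  have h1 := Nat.choose_succ_right_eq N L'
  have h2 : ((N.choose (L' + 1) : ℕ) : ℝ) * ((L' : ℝ) + 1) =
      ((N.choose L' : ℕ) : ℝ) * (((N - L' : ℕ)) : ℝ) := by exact_mod_cast h1
  have h3 : ((N - L' : ℕ) : ℝ) ≤ (N : ℝ) := by exact_mod_cast Nat.sub_le N L'
  have h4 : (N : ℝ) ≤ r * ((L' : ℝ) + 1) := by
    push_cast at h
    exact h
  have h5 : (0 : ℝ) < (L' : ℝ) + 1 := by positivity
  have h6 : (0 : ℝ) ≤ ((N.choose L' : ℕ) : ℝ) := by positivity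
  have h7 : ((N.choose (L' + 1) : ℕ) : ℝ) * ((L' : ℝ) + 1) ≤
      r * ((N.choose L' : ℕ) : ℝ) * ((L' : ℝ) + 1) := by
    rw [h2]
    calc ((N.choose L' : ℕ) : ℝ) * (((N - L' : ℕ)) : ℝ)
        ≤ ((N.choose L' : ℕ) : ℝ) * (r * ((L' : ℝ) + 1)) := by
          apply mul_le_mul_of_nonneg_left (h3.trans h4) h6
      _ = r * ((N.choose L' : ℕ) : ℝ) * ((L' : ℝ) + 1) := by ring
  exact le_of_mul_le_mul_right h7 h5

end Pk

open Pk

theorem pk_nonneg (n k a b : ℕ) : 0 ≤ pk n k a b := by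
  unfold pk
  apply Finset.sum_nonneg
  intro i _
  apply Finset.sum_nonneg
  intro l _
  split_ifs
  · positivity
  · exact le_rfl

theorem pk_eq {n k a b : ℕ} (hk : k ≤ n) {m L : ℤ} (hm : 2 * m = k + a - b)
    (hL : 2 * L = a + b - k) : pk n k a b = bz k m * bz (n - k) L := by
  rw [← sum_ite_bz k m, ← sum_ite_bz (n - k) L, Finset.sum_mul_sum]
  unfold pk
  apply Finset.sum_congr rfl
  intro i _
  apply Finset.sum_congr rfl
  intro l _
  by_cases h : i + l = a ∧ k + l = b + i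
  · have h1 : (i : ℤ) = m := by omega
    have h2 : (l : ℤ) = L := by omega
    rw [if_pos h, if_pos h1, if_pos h2]
  · rw [if_neg h]
    by_cases h1 : (i : ℤ) = m
    · by_cases h2 : (l : ℤ) = L
      · exact absurd (by omega) h
      · rw [if_neg h2, mul_zero]
    · rw [if_neg h1, zero_mul]

theorem pk_odd {n k a b : ℕ} (h : (k + a + b) % 2 = 1) : pk n k a b = 0 := by
  unfold pk
  apply Finset.sum_eq_zero
  intro i _
  apply Finset.sum_eq_zero
  intro l _
  rw [if_neg]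
  rintro ⟨h1, h2⟩
  omega

namespace Pk

theorem exists_mL {k a b : ℕ} (h : ¬ (k + a + b) % 2 = 1) :
    ∃ m L : ℤ, 2 * m = (k : ℤ) + a - b ∧ 2 * L = (a : ℤ) + b - k := by
  refine ⟨((k : ℤ) + a - b) / 2, ((a : ℤ) + b - k) / 2, ?_, ?_⟩ <;> omega

theorem L_pos {n k a b : ℕ} {r : ℝ} (hr : 0 < r) (hn : 0 < n)
    (h : 2 * (n : ℝ) ≤ r * ((a : ℝ) + b - k)) {L : ℤ} (hL : 2 * L = (a : ℤ) + b - k) :
    0 ≤ L ∧ (n : ℝ) ≤ r * L := by
  have hn' : (0 : ℝ) < n := by exact_mod_cast hn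
  have e : (2 : ℝ) * L = (a : ℝ) + b - k := by exact_mod_cast hL
  rw [← e] at h
  have h1 : (n : ℝ) ≤ r * L := by linarith
  have h2 : (0 : ℝ) < r * L := by linarith
  have h3 : (0 : ℝ) < L := by
    by_contra hcon
    have : r * (L : ℝ) ≤ 0 := mul_nonpos_of_nonneg_of_nonpos hr.le (not_lt.1 hcon)
    linarith
  have h4 : 0 < L := by exact_mod_cast h3
  exact ⟨h4.le, h1⟩

end Pk

theorem pk_shift1 {n k a b : ℕ} (hk : k ≤ n) {r : ℝ} (hr : 0 < r) (hab : b ≤ a + 1)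
    (hn : 0 < n) (hL : 2 * (n : ℝ) ≤ r * ((a : ℝ) + b - k)) :
    pk n k (a + 2) b ≤ r * pk n k a b := by
  by_cases h : (k + a + b) % 2 = 1
  · rw [pk_odd (n := n) h, pk_odd (n := n) (by omega), mul_zero]
  · obtain ⟨m, L, hm, hLL⟩ := exists_mL h
    obtain ⟨hL0, hL1⟩ := L_pos hr hn hL hLL
    rw [pk_eq hk hm hLL, pk_eq (m := m + 1) (L := L + 1) hk (by push_cast; omega)
      (by push_cast; omega)]
    have h1 : bz k (m + 1) ≤ bz k m := bz_up (by omega)
    have h2 : bz (n - k) (L + 1) ≤ r * bz (n - k) L := by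
      apply bz_step hL0
      have : ((n - k : ℕ) : ℝ) ≤ n := by exact_mod_cast Nat.sub_le n k
      linarith
    calc bz k (m + 1) * bz (n - k) (L + 1) ≤ bz k m * (r * bz (n - k) L) :=
          mul_le_mul h1 h2 (bz_nn _ _) (bz_nn _ _)
      _ = r * (bz k m * bz (n - k) L) := by ring

theorem pk_shift2 {n k a b : ℕ} (hk : k ≤ n) {r : ℝ} (hr : 0 < r) (hab : a ≤ b + 1)
    (hn : 0 < n) (hL : 2 * (n : ℝ) ≤ r * ((a : ℝ) + b - k)) :
    pk n k a (b + 2) ≤ r * pk n k a b := by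
  by_cases h : (k + a + b) % 2 = 1
  · rw [pk_odd (n := n) h, pk_odd (n := n) (by omega), mul_zero]
  · obtain ⟨m, L, hm, hLL⟩ := exists_mL h
    obtain ⟨hL0, hL1⟩ := L_pos hr hn hL hLL
    rw [pk_eq hk hm hLL, pk_eq (m := m - 1) (L := L + 1) hk (by push_cast; omega)
      (by push_cast; omega)]
    have h1 : bz k (m - 1) ≤ bz k m := bz_down (by omega)
    have h2 : bz (n - k) (L + 1) ≤ r * bz (n - k) L := by
      apply bz_step hL0
      have : ((n - k : ℕ) : ℝ) ≤ n := by exact_mod_cast Nat.sub_le n k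
      linarith
    calc bz k (m - 1) * bz (n - k) (L + 1) ≤ bz k m * (r * bz (n - k) L) :=
          mul_le_mul h1 h2 (bz_nn _ _) (bz_nn _ _)
      _ = r * (bz k m * bz (n - k) L) := by ring

theorem pk_shift11 {n k a b : ℕ} (hk : k ≤ n) {r : ℝ} (hr : 0 < r)
    (hn : 0 < n) (hL : 2 * (n : ℝ) ≤ r * ((a : ℝ) + b - k)) :
    pk n k (a + 1) (b + 1) ≤ r * pk n k a b := by
  by_cases h : (k + a + b) % 2 = 1
  · rw [pk_odd (n := n) h, pk_odd (n := n) (by omega), mul_zero]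
  · obtain ⟨m, L, hm, hLL⟩ := exists_mL h
    obtain ⟨hL0, hL1⟩ := L_pos hr hn hL hLL
    rw [pk_eq hk hm hLL, pk_eq (m := m) (L := L + 1) hk (by push_cast; omega)
      (by push_cast; omega)]
    have h2 : bz (n - k) (L + 1) ≤ r * bz (n - k) L := by
      apply bz_step hL0
      have : ((n - k : ℕ) : ℝ) ≤ n := by exact_mod_cast Nat.sub_le n k
      linarith
    calc bz k m * bz (n - k) (L + 1) ≤ bz k m * (r * bz (n - k) L) :=
          mul_le_mul_of_nonneg_left h2 (bz_nn _ _)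
      _ = r * (bz k m * bz (n - k) L) := by ring

theorem pk_shift12 {n k a b : ℕ} (hk : k ≤ n) {r : ℝ} (hr : 0 < r)
    (hn : 0 < n) (hL : 2 * (n : ℝ) ≤ r * ((a : ℝ) + b - k)) :
    pk n k (a + 2) (b + 2) ≤ r ^ 2 * pk n k a b := by
  have h1 : pk n k (a + 1) (b + 1) ≤ r * pk n k a b := pk_shift11 hk hr hn hL
  have h2 : pk n k (a + 1 + 1) (b + 1 + 1) ≤ r * pk n k (a + 1) (b + 1) := by
    apply pk_shift11 hk hr hn
    push_cast
    nlinarith
  calc pk n k (a + 2) (b + 2) = pk n k (a + 1 + 1) (b + 1 + 1) := rfl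
    _ ≤ r * pk n k (a + 1) (b + 1) := h2
    _ ≤ r * (r * pk n k a b) := mul_le_mul_of_nonneg_left h1 hr.le
    _ = r ^ 2 * pk n k a b := by ring

end Pool.Agent.Lib.MP_0430e4_lc.Impr
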