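import Pool.Agent.Lib.MP_0430e4_lc.Impr.ASY0

/-!
# Improvement of the MRRW bound near `δ = 1/2`: the entropy bound for the binomial coefficient
-/

set_option autoImplicit false

namespace Pool.Agent.Lib.MP_0430e4_lc.Impr

open Finset

/-- The tangent line bound for the entropy of a binomial coefficient. -/
theorem log_choose_le {n t : ℕ} {p : ℝ} (hp0 : 0 < p) (hp1 : p < 1) (ht : t ≤ n) :
    Real.log ((n.choose t : ℕ) : ℝ)
      ≤ (n : ℝ) * Real.binEntropy p + ((t : ℝ) - n * p) * (Real.log (1 - p) - Real.log p) := by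
  have h1p : 0 < 1 - p := by linarith
  have hc : (0 : ℝ) < ((n.choose t : ℕ) : ℝ) := by exact_mod_cast Nat.choose_pos ht
  have h1 : p ^ t * (1 - p) ^ (n - t) * ((n.choose t : ℕ) : ℝ) ≤ 1 := by
    have h2 := add_pow p (1 - p) n
    rw [add_sub_cancel, one_pow] at h2
    have hmem : t ∈ Finset.range (n + 1) := Finset.mem_range.2 (by omega)
    refine le_of_le_of_eq ?_ h2.symm
    exact Finset.single_le_sum (f := fun m => p ^ m * (1 - p) ^ (n - m) * ((n.choose m : ℕ) : ℝ))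
      (fun m _ => by positivity) hmem
  have h3 : Real.log (p ^ t * (1 - p) ^ (n - t) * ((n.choose t : ℕ) : ℝ)) ≤ 0 :=
    Real.log_nonpos (by positivity) h1
  rw [Real.log_mul (by positivity) hc.ne', Real.log_mul (by positivity) (by positivity),
    Real.log_pow, Real.log_pow, Nat.cast_sub ht] at h3
  unfold Real.binEntropy
  rw [Real.log_inv, Real.log_inv]
  nlinarith

theorem asy_choose : ∃ x0 : ℝ, ∀ x ≥ x0,
    Real.log (((nX x).choose (tX x) : ℕ) : ℝ)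
      ≤ (nX x : ℝ) * Real.binEntropy ((x ^ 5)⁻¹) + 200 * x ^ 3 * Real.log x := by
  refine ⟨10, fun x hx => ?_⟩
  have hx' : (10 : ℝ) ≤ x := hx
  obtain ⟨hn1, hn2, hJ1, hJ2, ht1, ht2, ht3, -, -, -, -⟩ := asy_bounds hx'
  have hx0 : 0 < x := by linarith
  have h5 : 1 < x ^ 5 := one_lt_pow₀ (by linarith) (by norm_num)
  have hp0 : 0 < (x ^ 5)⁻¹ := by positivity
  have hp1 : (x ^ 5)⁻¹ < 1 := inv_lt_one_of_one_lt₀ h5
  have htn : tX x ≤ nX x := by
    have h : (tX x : ℝ) ≤ nX x := by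
      refine ht2.trans (le_trans ?_ hn1)
      have e1 : x ^ 9 + 25 * x ^ 3 ≤ 26 * x ^ 9 := by
        have : x ^ 3 ≤ x ^ 9 := pow_le_pow_right₀ (by linarith) (by norm_num)
        linarith
      have e2 : 26 * x ^ 9 ≤ x ^ 14 := by
        have e3 : (26 : ℝ) ≤ x ^ 5 := by
          calc (26 : ℝ) ≤ 10 ^ 5 := by norm_num
            _ ≤ x ^ 5 := by gcongr
        calc 26 * x ^ 9 ≤ x ^ 5 * x ^ 9 := by gcongr
          _ = x ^ 14 := by ring
      linarith
    exact_mod_cast h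
  have hmain := log_choose_le hp0 hp1 htn
  have hlog : 0 ≤ Real.log x := Real.log_nonneg (by linarith)
  have hl1 : Real.log (1 - (x ^ 5)⁻¹) ≤ 0 :=
    Real.log_nonpos (by linarith) (by linarith)
  have hl2 : Real.log ((x ^ 5)⁻¹) = -(5 * Real.log x) := by
    rw [Real.log_inv, Real.log_pow]; norm_num
  have hnp : x ^ 9 ≤ (nX x : ℝ) * (x ^ 5)⁻¹ := by
    rw [← div_eq_mul_inv, le_div_iff₀ (by positivity)]
    calc x ^ 9 * x ^ 5 = x ^ 14 := by ring
      _ ≤ _ := hn1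
  have hx3 : 0 < x ^ 3 := by positivity
  have hb : ((tX x : ℝ) - nX x * (x ^ 5)⁻¹) * (Real.log (1 - (x ^ 5)⁻¹) - Real.log ((x ^ 5)⁻¹))
      ≤ 200 * x ^ 3 * Real.log x := by
    rw [hl2]
    have hpos : 0 ≤ (tX x : ℝ) - nX x * (x ^ 5)⁻¹ := by
      have e1 : 0 ≤ (x ^ 5)⁻¹ * (nX x : ℝ) * (20 / (jX x : ℝ) ^ 2) := by positivity
      have e2 : (0 : ℝ) ≤ jX x := Nat.cast_nonneg _
      have e3 : (x ^ 5)⁻¹ * (nX x : ℝ) * (1 + 20 / (jX x : ℝ) ^ 2)
          = nX x * (x ^ 5)⁻¹ + (x ^ 5)⁻¹ * (nX x : ℝ) * (20 / (jX x : ℝ) ^ 2) := by ring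
      linarith
    calc ((tX x : ℝ) - nX x * (x ^ 5)⁻¹) * (Real.log (1 - (x ^ 5)⁻¹) - -(5 * Real.log x))
        ≤ ((tX x : ℝ) - nX x * (x ^ 5)⁻¹) * (5 * Real.log x) := by gcongr; linarith
      _ ≤ (25 * x ^ 3) * (5 * Real.log x) := by gcongr; linarith
      _ ≤ 200 * x ^ 3 * Real.log x := by nlinarith [mul_nonneg hx3.le hlog]
  linarith

end Pool.Agent.Lib.MP_0430e4_lc.Impr
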