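import Pool.Agent.Lib.MP_0430e4_lc.Impr.Defs

/-!
# Commutation of the adjacency operator with `exp (s E^2)`
-/

set_option autoImplicit false

namespace Pool.Agent.Lib.MP_0430e4_lc.Impr

open Finset

theorem ew_succ_mul (s : ℝ) (m : ℕ) : ew s (m + 1) * ((m : ℝ) + 1) = s * ew s m := by
  unfold ew
  rw [Nat.factorial_succ]
  have h1 : ((m : ℝ) + 1) ≠ 0 := by positivity
  have h2 : ((m.factorial : ℕ) : ℝ) ≠ 0 := by positivity
  push_cast
  field_simp
  ring

theorem sum_ew_shift (n : ℕ) (s : ℝ) (f : ℕ → ℝ) :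
    ∑ m ∈ range (n + 1), ew s m * ((m : ℝ) * f m) = ∑ m ∈ range n, s * ew s m * f (m + 1) := by
  rw [Finset.sum_range_succ']
  simp only [Nat.cast_zero, zero_mul, mul_zero, add_zero]
  refine Finset.sum_congr rfl fun m _ => ?_
  rw [← ew_succ_mul]
  push_cast
  ring

theorem comm_De {n : ℕ} {l s : ℝ} {v : ℤ → ℝ} (hv : ∀ z < 0, v z = 0) {a : ℤ} (ha : a ≤ n) :
    adjP n (De n s v) a - l * De n s v a = De n s (wOf n l s v) a := by
  have e1 := sum_ew_shift n s (fun m => v (a + 1 - 2 * (m : ℤ)))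
  have e2 := sum_ew_shift n s (fun m => v (a - 1 - 2 * (m : ℤ)))
  have z1 : v (a - 1 - 2 * (n : ℤ)) = 0 := hv _ (by omega)
  have z2 : v (a - 3 - 2 * (n : ℤ)) = 0 := hv _ (by omega)
  have f1 : ∑ m ∈ range n, s * ew s m * v (a + 1 - 2 * ((m + 1 : ℕ) : ℤ))
      = ∑ m ∈ range (n + 1), s * ew s m * v (a - 1 - 2 * (m : ℤ)) := by
    rw [Finset.sum_range_succ, z1, mul_zero, add_zero]
    refine Finset.sum_congr rfl fun m _ => ?_
    congr 2
    push_cast
    ring
  have f2 : ∑ m ∈ range n, s * ew s m * v (a - 1 - 2 * ((m + 1 : ℕ) : ℤ))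
      = ∑ m ∈ range (n + 1), s * ew s m * v (a - 3 - 2 * (m : ℤ)) := by
    rw [Finset.sum_range_succ, z2, mul_zero, add_zero]
    refine Finset.sum_congr rfl fun m _ => ?_
    congr 2
    push_cast
    ring
  rw [f1] at e1
  rw [f2] at e2
  have key : De n s (wOf n l s v) a - (adjP n (De n s v) a - l * De n s v a)
      = 2 * (∑ m ∈ range (n + 1), ew s m * ((m : ℝ) * v (a + 1 - 2 * (m : ℤ))))
        - 2 * (∑ m ∈ range (n + 1), s * ew s m * v (a - 1 - 2 * (m : ℤ)))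
        - (2 * (∑ m ∈ range (n + 1), ew s m * ((m : ℝ) * v (a - 1 - 2 * (m : ℤ))))
        - 2 * (∑ m ∈ range (n + 1), s * ew s m * v (a - 3 - 2 * (m : ℤ)))) := by
    unfold De adjP wOf adjP
    simp only [Finset.mul_sum, ← Finset.sum_sub_distrib, ← Finset.sum_add_distrib]
    refine Finset.sum_congr rfl fun m _ => ?_
    have g1 : a - 2 * (m : ℤ) - 1 = a - 1 - 2 * (m : ℤ) := by ring
    have g2 : a - 2 * (m : ℤ) + 1 = a + 1 - 2 * (m : ℤ) := by ring
    have g3 : a - 2 * (m : ℤ) - 3 = a - 3 - 2 * (m : ℤ) := by ring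
    rw [g1, g2, g3]
    push_cast
    ring
  rw [e1, e2] at key
  linarith

end Pool.Agent.Lib.MP_0430e4_lc.Impr
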