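import Pool.Agent.Lib.MP_0430e4_lc.Impr.CUBE1
import Pool.Agent.Lib.MP_0430e4_lc.TensorRate

/-!
# The certificate on the cube from profile inequalities
-/

set_option autoImplicit false

namespace Pool.Agent.Lib.MP_0430e4_lc.Impr

open Finset

/-- translation on the cube -/
def xorPerm {n : ℕ} (z : Fin n → Bool) : Equiv.Perm (Fin n → Bool) where
  toFun y := fun i => xor (y i) (z i)
  invFun y := fun i => xor (y i) (z i)
  left_inv y := by
    funext i
    simp
  right_inv y := by
    funext i
    simp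

theorem sum_xorPerm {n : ℕ} (z : Fin n → Bool) (f : (Fin n → Bool) → ℝ) :
    ∑ y : Fin n → Bool, f (fun i => xor (y i) (z i)) = ∑ y, f y :=
  Equiv.sum_comp (xorPerm z) f

theorem cv_fourier {n : ℕ} (f g : (Fin n → Bool) → ℝ) (x : Fin n → Bool) :
    ∑ y, cv f g y * Tensor.chi x y = (∑ y, f y * Tensor.chi x y) * ∑ y, g y * Tensor.chi x y := by
  unfold cv
  simp only [Finset.sum_mul]
  rw [Finset.sum_comm]
  apply Finset.sum_congr rfl
  intro z _
  rw [← sum_xorPerm z, Finset.mul_sum]
  apply Finset.sum_congr rfl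
  intro y _
  have e1 : (fun i => xor (xor (y i) (z i)) (z i)) = y := by
    funext i
    simp
  rw [e1, Tensor.chi_comm x (fun i => xor (y i) (z i)), Tensor.chi_xor, Tensor.chi_comm y x,
    Tensor.chi_comm z x]
  ring

theorem cv_sum {n : ℕ} (f g : (Fin n → Bool) → ℝ) :
    ∑ y, cv f g y = (∑ y, f y) * ∑ y, g y := by
  have := cv_fourier f g (fun _ => false)
  simpa [Tensor.chi_zero_left] using this

theorem wt_flp {n : ℕ} (y : Fin n → Bool) (i : Fin n) :
    (wt (Tensor.flp y i) : ℤ) = if y i = true then (wt y : ℤ) - 1 else (wt y : ℤ) + 1 := by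
  unfold wt Tensor.flp
  split_ifs with h
  · have e : (univ.filter fun j => Function.update y i (!(y i)) j = true)
        = (univ.filter fun j => y j = true).erase i := by
      ext j
      by_cases hj : j = i
      · subst hj
        simp [h]
      · simp [hj]
    rw [e, Finset.card_erase_of_mem (by simp [h])]
    have : 0 < (univ.filter fun j => y j = true).card := Finset.card_pos.2 ⟨i, by simp [h]⟩
    omega
  · have e : (univ.filter fun j => Function.update y i (!(y i)) j = true)
        = insert i (univ.filter fun j => y j = true) := by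
      ext j
      by_cases hj : j = i
      · subst hj
        simp [h]
      · simp [hj]
    rw [e, Finset.card_insert_of_notMem (by simp [h])]
    push_cast
    ring

theorem sum_flp_radial {n : ℕ} (F : ℤ → ℝ) (y : Fin n → Bool) :
    ∑ i, F (wt (Tensor.flp y i)) = adjP n F (wt y) := by
  have h1 : ∀ i, F (wt (Tensor.flp y i))
      = if y i = true then F ((wt y : ℤ) - 1) else F ((wt y : ℤ) + 1) := by
    intro i
    rw [wt_flp]
    split_ifs <;> rfl
  simp only [h1]
  rw [Finset.sum_ite, Finset.sum_const, Finset.sum_const]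
  have h2 : ((univ.filter fun i => ¬ y i = true).card : ℝ) = (n : ℝ) - (wt y : ℝ) := by
    have := Finset.card_filter_add_card_filter_not (s := (univ : Finset (Fin n)))
      (fun i => y i = true)
    rw [Finset.card_univ, Fintype.card_fin] at this
    have h3 : ((univ.filter fun i => y i = true).card : ℝ)
      + ((univ.filter fun i => ¬ y i = true).card : ℝ) = n := by exact_mod_cast this
    unfold wt
    linarith
  unfold adjP
  rw [nsmul_eq_mul, nsmul_eq_mul, h2]
  simp only [Int.cast_natCast]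
  rfl

theorem cv_flp {n : ℕ} (f g : (Fin n → Bool) → ℝ) (x : Fin n → Bool) :
    ∑ i, cv f g (Tensor.flp x i) = cv (fun y => ∑ i, f (Tensor.flp y i)) g x := by
  unfold cv
  rw [Finset.sum_comm]
  have h1 : ∀ i : Fin n, ∑ y, f y * g (fun j => xor (Tensor.flp x i j) (y j))
      = ∑ y, f (Tensor.flp y i) * g (fun j => xor (x j) (y j)) := by
    intro i
    rw [← Tensor.sum_flp i]
    apply Finset.sum_congr rfl
    intro y _
    congr 2
    funext j
    unfold Tensor.flp
    by_cases hj : j = i
    · subst hj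
      simp
    · simp [hj]
  rw [Finset.sum_comm]
  simp only [h1]
  rw [Finset.sum_comm]
  apply Finset.sum_congr rfl
  intro y _
  rw [Finset.sum_mul]

theorem wt_le {n : ℕ} (y : Fin n → Bool) : wt y ≤ n := by
  unfold wt
  exact (Finset.card_le_univ _).trans (by simp)

theorem cert_adj {n : ℕ} {l : ℝ} {F G : ℤ → ℝ}
    (hG : ∀ a : ℤ, 0 ≤ a → a ≤ n → adjP n F a - l * F a = G a) (x : Fin n → Bool) :
    ∑ i, cv (fun y => F (wt y)) (fun y => F (wt y)) (Tensor.flp x i)
      - l * cv (fun y => F (wt y)) (fun y => F (wt y)) x = conv n (wt x) G F := by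
  rw [cv_flp, ← cv_radial]
  unfold cv
  rw [Finset.mul_sum, ← Finset.sum_sub_distrib]
  apply Finset.sum_congr rfl
  intro y _
  simp only []
  rw [sum_flp_radial, ← hG (wt y) (by positivity) (by exact_mod_cast wt_le y)]
  ring

theorem cert_of_profiles {n : ℕ} {α l : ℝ} (hα : 0 ≤ α) {Fm Fp Gm Gp : ℤ → ℝ}
    (hGm : ∀ a : ℤ, 0 ≤ a → a ≤ n → adjP n Fm a - l * Fm a = Gm a)
    (hGp : ∀ a : ℤ, 0 ≤ a → a ≤ n → adjP n Fp a - l * Fp a = Gp a)
    (h1 : ∀ k ≤ n, 0 ≤ conv n k Fm Fm + α * conv n k Fp Fp)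
    (h2 : ∀ k ≤ n, 0 ≤ conv n k Gm Fm + α * conv n k Gp Fp)
    (h0 : 0 < conv n 0 Fm Fm + α * conv n 0 Fp Fp) :
    ∃ h : (Fin n → Bool) → ℝ, Tensor.IsCert l h ∧
      Tensor.val h = ((∑ b ∈ range (n + 1), ((n.choose b : ℕ) : ℝ) * Fm b) ^ 2
        + α * (∑ b ∈ range (n + 1), ((n.choose b : ℕ) : ℝ) * Fp b) ^ 2)
        / (conv n 0 Fm Fm + α * conv n 0 Fp Fp) := by
  set fm : (Fin n → Bool) → ℝ := fun y => Fm (wt y) with hfm
  set fp : (Fin n → Bool) → ℝ := fun y => Fp (wt y) with hfp
  have hz : wt (fun _ : Fin n => false) = 0 := by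
    unfold wt
    simp
  have hzero : cv fm fm (fun _ => false) + α * cv fp fp (fun _ => false)
      = conv n 0 Fm Fm + α * conv n 0 Fp Fp := by
    rw [hfm, hfp, cv_radial, cv_radial, hz]
  refine ⟨fun x => cv fm fm x + α * cv fp fp x, ⟨?_, ?_, ?_, ?_⟩, ?_⟩
  · intro x
    have := h1 (wt x) (wt_le x)
    rw [← cv_radial, ← cv_radial] at this
    exact this
  · intro x
    have e : ∑ y, (cv fm fm y + α * cv fp fp y) * Tensor.chi x y
        = (∑ y, fm y * Tensor.chi x y) ^ 2 + α * (∑ y, fp y * Tensor.chi x y) ^ 2 := by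
      rw [sq, sq, ← cv_fourier, ← cv_fourier, Finset.mul_sum, ← Finset.sum_add_distrib]
      apply Finset.sum_congr rfl
      intro y _
      ring
    rw [e]
    positivity
  · intro x
    have := h2 (wt x) (wt_le x)
    rw [← cert_adj hGm x, ← cert_adj hGp x] at this
    simp only [Finset.sum_add_distrib, ← Finset.mul_sum]
    simp only [← hfm, ← hfp] at this
    nlinarith [this]
  · rw [hzero]
    exact h0
  · unfold Tensor.val
    simp only []
    rw [hzero]
    congr 1
    have e : ∑ y, (cv fm fm y + α * cv fp fp y) = (∑ y, fm y) ^ 2 + α * (∑ y, fp y) ^ 2 := by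
      rw [Finset.sum_add_distrib, ← Finset.mul_sum, cv_sum, cv_sum]
      ring
    rw [e]
    have e1 : ∀ F : ℤ → ℝ, ∑ y : Fin n → Bool, F (wt y)
        = ∑ b ∈ range (n + 1), ((n.choose b : ℕ) : ℝ) * F b := by
      intro F
      have := sum_wt (α := Fin n) (fun b => F b)
      rw [Fintype.card_fin] at this
      exact this
    rw [hfm, hfp, e1, e1]

end Pool.Agent.Lib.MP_0430e4_lc.Impr
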