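import Pool.Agent.Lib.MP_0430e4_lc.Impr.Defs

/-! MODULE MASS1: the masses of the deformed levels -/

set_option autoImplicit false

namespace Pool.Agent.Lib.MP_0430e4_lc.Impr

open Finset

namespace Mass1

theorem ew_succ_mul (s : ℝ) (M : ℕ) : ew s (M + 1) * ((M : ℝ) + 1) = s * ew s M := by
  unfold ew
  rw [Nat.factorial_succ, pow_succ]
  push_cast
  have h1 : (M.factorial : ℝ) ≠ 0 := by exact_mod_cast M.factorial_ne_zero
  have h2 : (M : ℝ) + 1 ≠ 0 := by positivity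
  field_simp

theorem shift_sum (n c : ℕ) (s : ℝ) :
    ∑ M ∈ range (n + 1), ew s M * (M : ℝ) * ((n.choose (c + 2 * M) : ℕ) : ℝ)
      = s * Psi n (c + 2) s := by
  unfold Psi
  rw [Finset.sum_range_succ', Finset.sum_range_succ, mul_add, Finset.mul_sum]
  have h0 : n.choose (c + 2 + 2 * n) = 0 := Nat.choose_eq_zero_of_lt (by omega)
  rw [h0]
  simp only [Nat.cast_zero, mul_zero, zero_mul, add_zero]
  refine Finset.sum_congr rfl fun M _ => ?_
  have h1 : c + 2 * (M + 1) = c + 2 + 2 * M := by ring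
  rw [h1]
  push_cast
  rw [ew_succ_mul]
  ring

theorem choose_rec (n b : ℕ) (hb : 1 ≤ b) :
    (b : ℝ) * ((n.choose b : ℕ) : ℝ) = ((n : ℝ) - b + 1) * ((n.choose (b - 1) : ℕ) : ℝ) := by
  obtain ⟨c, rfl⟩ : ∃ c, b = c + 1 := ⟨b - 1, by omega⟩
  simp only [Nat.add_sub_cancel]
  rcases Nat.lt_or_ge n c with h | h
  · rw [Nat.choose_eq_zero_of_lt (by omega), Nat.choose_eq_zero_of_lt h]
    simp
  · have h1 := Nat.choose_succ_right_eq n c
    have h2 : ((n.choose (c + 1) : ℕ) : ℝ) * ((c : ℝ) + 1) =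
        ((n.choose c : ℕ) : ℝ) * ((n : ℝ) - c) := by
      have h3 : ((n.choose (c + 1) * (c + 1) : ℕ) : ℝ) = ((n.choose c * (n - c) : ℕ) : ℝ) := by
        exact_mod_cast h1
      push_cast [Nat.cast_sub h] at h3
      exact h3
    push_cast
    linarith

theorem Psi_rec (n b : ℕ) (hb : 1 ≤ b) (s : ℝ) :
    ((n : ℝ) - b + 1) * Psi n (b - 1) s =
      b * Psi n b s + 2 * s * Psi n (b + 1) s + 2 * s * Psi n (b + 2) s := by
  have h1 := shift_sum n b s
  have h2 := shift_sum n (b - 1) s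
  have e0 : b - 1 + 2 = b + 1 := by omega
  rw [e0] at h2
  have h3 : ∑ M ∈ range (n + 1), ew s M * (((b : ℝ) + 2 * M) * ((n.choose (b + 2 * M) : ℕ) : ℝ)) =
      ∑ M ∈ range (n + 1), ew s M *
        (((n : ℝ) - b + 1 - 2 * M) * ((n.choose (b - 1 + 2 * M) : ℕ) : ℝ)) := by
    refine Finset.sum_congr rfl fun M _ => ?_
    have h4 := choose_rec n (b + 2 * M) (by omega)
    have e1 : b + 2 * M - 1 = b - 1 + 2 * M := by omega
    rw [e1] at h4
    push_cast at h4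
    rw [h4]
    ring
  have h5 : ∑ M ∈ range (n + 1), ew s M * (((b : ℝ) + 2 * M) * ((n.choose (b + 2 * M) : ℕ) : ℝ)) =
      b * Psi n b s + 2 * ∑ M ∈ range (n + 1), ew s M * (M : ℝ) *
        ((n.choose (b + 2 * M) : ℕ) : ℝ) := by
    unfold Psi
    rw [Finset.mul_sum, Finset.mul_sum, ← Finset.sum_add_distrib]
    refine Finset.sum_congr rfl fun M _ => ?_
    ring
  have h6 : ∑ M ∈ range (n + 1), ew s M *
        (((n : ℝ) - b + 1 - 2 * M) * ((n.choose (b - 1 + 2 * M) : ℕ) : ℝ)) =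
      ((n : ℝ) - b + 1) * Psi n (b - 1) s - 2 * ∑ M ∈ range (n + 1), ew s M * (M : ℝ) *
        ((n.choose (b - 1 + 2 * M) : ℕ) : ℝ) := by
    unfold Psi
    rw [Finset.mul_sum, Finset.mul_sum, ← Finset.sum_sub_distrib]
    refine Finset.sum_congr rfl fun M _ => ?_
    ring
  rw [h5, h6, h1, h2] at h3
  linarith

theorem Psi_big (n b : ℕ) (s : ℝ) (h : n < b) : Psi n b s = 0 := by
  unfold Psi
  refine Finset.sum_eq_zero fun M _ => ?_
  rw [Nat.choose_eq_zero_of_lt (by omega)]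
  simp

theorem Psi_self (n : ℕ) (s : ℝ) : Psi n n s = 1 := by
  unfold Psi
  rw [Finset.sum_range_succ', Finset.sum_eq_zero]
  · simp [ew]
  · intro M _
    rw [Nat.choose_eq_zero_of_lt (by omega)]
    simp

theorem Psi_at_zero (n b : ℕ) : Psi n b 0 = ((n.choose b : ℕ) : ℝ) := by
  unfold Psi
  rw [Finset.sum_range_succ', Finset.sum_eq_zero]
  · simp [ew]
  · intro M _
    simp [ew]

theorem ew_hasDerivAt (m : ℕ) (s : ℝ) :
    HasDerivAt (fun s => ew s (m + 1)) (ew s m) s := by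
  unfold ew
  have h := (hasDerivAt_pow (m + 1) s).div_const (((m + 1).factorial : ℕ) : ℝ)
  refine h.congr_deriv ?_
  rw [Nat.factorial_succ]
  push_cast
  have h1 : (m.factorial : ℝ) ≠ 0 := by exact_mod_cast m.factorial_ne_zero
  have h2 : (m : ℝ) + 1 ≠ 0 := by positivity
  field_simp

theorem Psi_hasDerivAt (n b : ℕ) (s : ℝ) :
    HasDerivAt (fun s => Psi n b s) (Psi n (b + 2) s) s := by
  have h1 : (fun s => Psi n b s) = fun s => ∑ m ∈ range n, ew s (m + 1) *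
      ((n.choose (b + 2 * (m + 1)) : ℕ) : ℝ) + ((n.choose b : ℕ) : ℝ) := by
    funext s
    unfold Psi
    rw [Finset.sum_range_succ']
    simp [ew]
  have h2 : Psi n (b + 2) s = ∑ m ∈ range n, ew s m *
      ((n.choose (b + 2 * (m + 1)) : ℕ) : ℝ) := by
    unfold Psi
    rw [Finset.sum_range_succ]
    have h0 : n.choose (b + 2 + 2 * n) = 0 := Nat.choose_eq_zero_of_lt (by omega)
    rw [h0]
    simp only [Nat.cast_zero, mul_zero, add_zero]
    refine Finset.sum_congr rfl fun m _ => ?_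
    rw [show b + 2 + 2 * m = b + 2 * (m + 1) by ring]
  rw [h1, h2]
  refine HasDerivAt.add_const _ ?_
  refine HasDerivAt.fun_sum fun m _ => ?_
  exact (ew_hasDerivAt m s).mul_const _

/-- Positivity by downward induction. -/
theorem Psi_pos {n b0 : ℕ} {y u : ℝ} (hu0 : 0 ≤ u) (huy : 2 * u ≤ y)
    (hC : ∀ b : ℕ, b0 ≤ b → 8 * y * (n : ℝ) ^ 2 + 4 * y * n * b ≤ (b : ℝ) ^ 3) (b : ℕ)
    (hb : b0 ≤ b) :
    0 ≤ Psi n b (-u) ∧ (b ≤ n → 0 < Psi n b (-u)) ∧
      ((b : ℝ) + 1) * Psi n (b + 1) (-u) ≤ 2 * ((n : ℝ) - b) * Psi n b (-u) := by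
  have hbig : ∀ b : ℕ, n < b → 0 ≤ Psi n b (-u) ∧ (b ≤ n → 0 < Psi n b (-u)) ∧
      ((b : ℝ) + 1) * Psi n (b + 1) (-u) ≤ 2 * ((n : ℝ) - b) * Psi n b (-u) := by
    intro b hb
    rw [Psi_big n b _ hb, Psi_big n (b + 1) _ (by omega)]
    exact ⟨le_rfl, fun h => absurd h (by omega), by simp⟩
  have hbase : 0 ≤ Psi n n (-u) ∧ (n ≤ n → 0 < Psi n n (-u)) ∧
      ((n : ℝ) + 1) * Psi n (n + 1) (-u) ≤ 2 * ((n : ℝ) - n) * Psi n n (-u) := by
    rw [Psi_self, Psi_big n (n + 1) _ (by omega)]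
    refine ⟨zero_le_one, fun _ => zero_lt_one, ?_⟩
    simp
  have key : ∀ j b : ℕ, b + j = n + 1 → b0 ≤ b → 0 ≤ Psi n b (-u) ∧ (b ≤ n → 0 < Psi n b (-u)) ∧
      ((b : ℝ) + 1) * Psi n (b + 1) (-u) ≤ 2 * ((n : ℝ) - b) * Psi n b (-u) := by
    intro j
    induction j using Nat.strong_induction_on with
    | _ j ih =>
      intro b hbj hb
      rcases Nat.lt_or_ge n b with h | h
      · exact hbig b h
      rcases Nat.eq_or_lt_of_le h with h | h
      · rw [h]; exact hbase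
      -- now b < n, use b + 1 and b + 2
      have i1 : 0 ≤ Psi n (b + 1) (-u) ∧ (b + 1 ≤ n → 0 < Psi n (b + 1) (-u)) ∧
          (((b + 1 : ℕ) : ℝ) + 1) * Psi n (b + 1 + 1) (-u) ≤
            2 * ((n : ℝ) - ((b + 1 : ℕ) : ℝ)) * Psi n (b + 1) (-u) :=
        ih (j - 1) (by omega) (b + 1) (by omega) (by omega)
      have i2 : 0 ≤ Psi n (b + 2) (-u) ∧ (b + 2 ≤ n → 0 < Psi n (b + 2) (-u)) ∧
          (((b + 2 : ℕ) : ℝ) + 1) * Psi n (b + 2 + 1) (-u) ≤
            2 * ((n : ℝ) - ((b + 2 : ℕ) : ℝ)) * Psi n (b + 2) (-u) := by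
        rcases Nat.lt_or_ge n (b + 2) with h' | h'
        · exact hbig _ h'
        · exact ih (j - 2) (by omega) (b + 2) (by omega) (by omega)
      have hrec := Psi_rec n (b + 1) (by omega) (-u)
      simp only [Nat.add_sub_cancel] at hrec
      rw [show b + 1 + 1 = b + 2 by ring, show b + 1 + 2 = b + 3 by ring] at hrec
      rw [show b + 1 + 1 = b + 2 by ring] at i1
      rw [show b + 2 + 1 = b + 3 by ring] at i2
      have hCb := hC (b + 1) (by omega)
      obtain ⟨A, hA⟩ : ∃ A : ℝ, A = Psi n b (-u) := ⟨_, rfl⟩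
      obtain ⟨B, hB⟩ : ∃ B : ℝ, B = Psi n (b + 1) (-u) := ⟨_, rfl⟩
      obtain ⟨C, hC'⟩ : ∃ C : ℝ, C = Psi n (b + 2) (-u) := ⟨_, rfl⟩
      obtain ⟨D, hD⟩ : ∃ D : ℝ, D = Psi n (b + 3) (-u) := ⟨_, rfl⟩
      rw [← hA, ← hB]
      rw [← hA, ← hB, ← hC', ← hD] at hrec
      rw [← hB, ← hC'] at i1
      rw [← hC', ← hD] at i2
      have hD0 : 0 ≤ D := by
        rw [hD]
        rcases Nat.lt_or_ge n (b + 3) with h' | h'
        · exact (hbig _ h').1
        · exact (ih (j - 3) (by omega) (b + 3) (by omega) (by omega)).1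
      obtain ⟨hB0, hB1, hB2⟩ := i1
      obtain ⟨hC0, -, hC2⟩ := i2
      have hBpos := hB1 (by omega)
      obtain ⟨c, hc⟩ : ∃ c : ℝ, c = (b : ℝ) + 1 := ⟨_, rfl⟩
      have hc1 : 1 ≤ c := by rw [hc]; have : (0 : ℝ) ≤ b := Nat.cast_nonneg b; linarith
      obtain ⟨N, hN⟩ : ∃ N : ℝ, N = (n : ℝ) := ⟨_, rfl⟩
      have hN0 : 0 ≤ N := by rw [hN]; exact Nat.cast_nonneg n
      push_cast at hB2 hC2 hrec hCb
      rw [← hN] at hB2 hC2 hrec hCb
      rw [← hN]
      have ec1 : (b : ℝ) = c - 1 := by rw [hc]; ring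
      rw [ec1] at hB2 hC2 hrec hCb
      rw [ec1]
      -- hB2 : (c - 1 + 1 + 1) C ≤ 2 (N - (c-1+1)) B
      have k1 : c * C ≤ 2 * N * B := by nlinarith
      have k2 : c * D ≤ 2 * N * C := by nlinarith
      have k3 : c ^ 2 * D ≤ 4 * N ^ 2 * B := by
        have h1 : c * (c * D) ≤ c * (2 * N * C) := mul_le_mul_of_nonneg_left k2 (by linarith)
        have h2 : 2 * N * (c * C) ≤ 2 * N * (2 * N * B) :=
          mul_le_mul_of_nonneg_left k1 (by positivity)
        nlinarith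
      have k4 : 2 * u * (C + D) ≤ c / 2 * B := by
        have hy0 : 0 ≤ y := by linarith
        have h1 : c ^ 2 * (C + D) ≤ (2 * N * c + 4 * N ^ 2) * B := by
          have : c * (c * C) ≤ c * (2 * N * B) := mul_le_mul_of_nonneg_left k1 (by linarith)
          nlinarith
        have h2 : y * (c ^ 2 * (C + D)) ≤ y * ((2 * N * c + 4 * N ^ 2) * B) :=
          mul_le_mul_of_nonneg_left h1 hy0
        have h3 : (8 * y * N ^ 2 + 4 * y * N * c) * B ≤ c ^ 3 * B := by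
          refine mul_le_mul_of_nonneg_right ?_ hB0
          have : c - 1 + 1 = c := by ring
          rw [this] at hCb
          exact hCb
        have h4 : c ^ 2 * (y * (C + D)) ≤ c ^ 2 * (c / 2 * B) := by nlinarith
        have h5 : y * (C + D) ≤ c / 2 * B := le_of_mul_le_mul_left h4 (by positivity)
        have h6 : 2 * u * (C + D) ≤ y * (C + D) :=
          mul_le_mul_of_nonneg_right huy (by linarith)
        linarith
      have hNc : 0 < N - (c - 1) := by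
        rw [hN, ← ec1]
        have : (b : ℝ) < n := by exact_mod_cast h
        linarith
      have k5 : c / 2 * B ≤ (N - (c - 1)) * A := by
        have : (N - (c - 1)) * A = c * B - 2 * u * (C + D) := by
          have e : c - 1 + 1 = c := by ring
          rw [e] at hrec
          have e2 : N - c + 1 = N - (c - 1) := by ring
          rw [e2] at hrec
          rw [hrec]; ring
        rw [this]
        linarith
      have hApos : 0 < A := by
        have h1 : 0 < (N - (c - 1)) * A := lt_of_lt_of_le (by positivity) k5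
        exact (mul_pos_iff_of_pos_left hNc).1 h1
      refine ⟨hApos.le, fun _ => hApos, ?_⟩
      have e : c - 1 + 1 = c := by ring
      rw [e]
      nlinarith
  rcases Nat.lt_or_ge (n + 1) b with h | h
  · exact hbig b (by omega)
  · exact key (n + 1 - b) b (by omega) hb

end Mass1

open Mass1

theorem Psi_minus {n t b0 b : ℕ} {y : ℝ} (hy : 0 < y) (h1 : t ≤ 2 * b0) (hbt : b0 ≤ b)
    (hbt' : b ≤ t) (htn : 100 * t ≤ n) (ht : 100 ≤ t) (hm : 10 * y * (n : ℝ) ^ 2 ≤ (t : ℝ) ^ 3)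
    (h2 : 100 * (t - b0) ≤ t) :
    0 ≤ Psi n b (-(y / 2)) ∧ Psi n b (-(y / 2)) ≤ ((n.choose b : ℕ) : ℝ)
      * Real.exp (-(y / 2 * (((n : ℝ) - t - 1) / ((t : ℝ) + 2)) ^ 2)) := by
  have hb0 : 1 ≤ b0 := by omega
  have htR : (100 : ℝ) ≤ t := by exact_mod_cast ht
  have htnR : 100 * (t : ℝ) ≤ n := by exact_mod_cast htn
  have hb099 : 99 * (t : ℝ) ≤ 100 * b0 := by
    have : 99 * t ≤ 100 * b0 := by omega
    exact_mod_cast this
  have hC : ∀ c : ℕ, b0 ≤ c → 8 * y * (n : ℝ) ^ 2 + 4 * y * n * c ≤ (c : ℝ) ^ 3 := by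
    intro c hc
    have hcR : 99 / 100 * (t : ℝ) ≤ c := by
      have : (b0 : ℝ) ≤ c := by exact_mod_cast hc
      linarith
    obtain ⟨T, hT⟩ : ∃ T : ℝ, T = (t : ℝ) := ⟨_, rfl⟩
    obtain ⟨N, hN⟩ : ∃ N : ℝ, N = (n : ℝ) := ⟨_, rfl⟩
    obtain ⟨X, hX⟩ : ∃ X : ℝ, X = (c : ℝ) := ⟨_, rfl⟩
    rw [← hT] at htR htnR hcR hm
    rw [← hN] at htnR hm
    rw [← hX] at hcR
    rw [← hN, ← hX]
    have hT0 : 0 < T := by linarith
    have hX0 : 0 < X := by linarith
    have hN0 : 0 < N := by linarith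
    -- y N ≤ T^2 / 1000
    have h3 : 1000 * (y * N) ≤ T ^ 2 := by
      have h4 : 10 * (y * N) * (100 * T) ≤ 10 * (y * N) * N :=
        mul_le_mul_of_nonneg_left htnR (by positivity)
      have h5 : T * (1000 * (y * N)) ≤ T * T ^ 2 := by nlinarith
      exact le_of_mul_le_mul_left h5 hT0
    have hX2 : (9801 / 10000) * T ^ 2 ≤ X ^ 2 := by nlinarith
    have hX3 : (97 / 100) * T ^ 3 ≤ X ^ 3 := by
      have h6 : (99 / 100 * T) ^ 3 ≤ X ^ 3 := pow_le_pow_left₀ (by positivity) hcR 3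
      nlinarith [pow_pos hT0 3]
    have h7 : 4 * y * N * X ≤ 5 / 1000 * X ^ 3 := by
      have h8 : 4 * (y * N) ≤ 5 / 1000 * X ^ 2 := by nlinarith
      have h9 : 4 * (y * N) * X ≤ 5 / 1000 * X ^ 2 * X := mul_le_mul_of_nonneg_right h8 hX0.le
      nlinarith
    nlinarith [pow_pos hX0 3]
  have hpos : ∀ u : ℝ, 0 ≤ u → u ≤ y / 2 → ∀ c : ℕ, b0 ≤ c → 0 ≤ Psi n c (-u) := by
    intro u hu0 hu1 c hc
    exact (Psi_pos hu0 (by linarith) hC c hc).1
  refine ⟨hpos (y / 2) (by positivity) le_rfl b hbt, ?_⟩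
  obtain ⟨κ, hκ⟩ : ∃ κ : ℝ, κ = (((n : ℝ) - t - 1) / ((t : ℝ) + 2)) ^ 2 := ⟨_, rfl⟩
  rw [← hκ]
  have hkey : ∀ u : ℝ, 0 ≤ u → u ≤ y / 2 → κ * Psi n b (-u) ≤ Psi n (b + 2) (-u) := by
    intro u hu0 hu1
    have r1 := Psi_rec n (b + 1) (by omega) (-u)
    have r2 := Psi_rec n (b + 2) (by omega) (-u)
    simp only [Nat.add_sub_cancel] at r1
    rw [show b + 2 - 1 = b + 1 by omega] at r2
    rw [show b + 1 + 1 = b + 2 by ring, show b + 1 + 2 = b + 3 by ring] at r1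
    rw [show b + 2 + 1 = b + 3 by ring, show b + 2 + 2 = b + 4 by ring] at r2
    have p0 := hpos u hu0 hu1 b hbt
    have p1 := hpos u hu0 hu1 (b + 1) (by omega)
    have p2 := hpos u hu0 hu1 (b + 2) (by omega)
    have p3 := hpos u hu0 hu1 (b + 3) (by omega)
    have p4 := hpos u hu0 hu1 (b + 4) (by omega)
    have hbR : (b : ℝ) ≤ t := by exact_mod_cast hbt'
    obtain ⟨A, hA⟩ : ∃ A : ℝ, A = (n : ℝ) - t - 1 := ⟨_, rfl⟩
    have hA0 : 0 ≤ A := by rw [hA]; linarith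
    push_cast at r1 r2
    have q1 : A * Psi n b (-u) ≤ ((t : ℝ) + 2) * Psi n (b + 1) (-u) := by
      have e1 : ((n : ℝ) - b) * Psi n b (-u) ≤ ((b : ℝ) + 1) * Psi n (b + 1) (-u) := by
        nlinarith [mul_nonneg hu0 p2, mul_nonneg hu0 p3]
      have e2 : A * Psi n b (-u) ≤ ((n : ℝ) - b) * Psi n b (-u) :=
        mul_le_mul_of_nonneg_right (by rw [hA]; linarith) p0
      have e3 : ((b : ℝ) + 1) * Psi n (b + 1) (-u) ≤ ((t : ℝ) + 2) * Psi n (b + 1) (-u) :=
        mul_le_mul_of_nonneg_right (by linarith) p1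
      linarith
    have q2 : A * Psi n (b + 1) (-u) ≤ ((t : ℝ) + 2) * Psi n (b + 2) (-u) := by
      have e1 : ((n : ℝ) - b - 1) * Psi n (b + 1) (-u) ≤ ((b : ℝ) + 2) * Psi n (b + 2) (-u) := by
        nlinarith [mul_nonneg hu0 p3, mul_nonneg hu0 p4]
      have e2 : A * Psi n (b + 1) (-u) ≤ ((n : ℝ) - b - 1) * Psi n (b + 1) (-u) :=
        mul_le_mul_of_nonneg_right (by rw [hA]; linarith) p1
      have e3 : ((b : ℝ) + 2) * Psi n (b + 2) (-u) ≤ ((t : ℝ) + 2) * Psi n (b + 2) (-u) :=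
        mul_le_mul_of_nonneg_right (by linarith) p2
      linarith
    have ht2 : (0 : ℝ) < (t : ℝ) + 2 := by linarith
    have q3 : A * (A * Psi n b (-u)) ≤ ((t : ℝ) + 2) * (((t : ℝ) + 2) * Psi n (b + 2) (-u)) := by
      calc A * (A * Psi n b (-u)) ≤ A * (((t : ℝ) + 2) * Psi n (b + 1) (-u)) :=
            mul_le_mul_of_nonneg_left q1 hA0
        _ = ((t : ℝ) + 2) * (A * Psi n (b + 1) (-u)) := by ring
        _ ≤ ((t : ℝ) + 2) * (((t : ℝ) + 2) * Psi n (b + 2) (-u)) :=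
            mul_le_mul_of_nonneg_left q2 ht2.le
    rw [hκ, ← hA, div_pow, div_mul_eq_mul_div, div_le_iff₀ (by positivity)]
    nlinarith
  -- the function Psi(-u) exp(κ u) is antitone
  have hderiv : ∀ u : ℝ, HasDerivAt (fun u => Psi n b (-u) * Real.exp (κ * u))
      (-(Psi n (b + 2) (-u)) * Real.exp (κ * u) + Psi n b (-u) * (Real.exp (κ * u) * κ)) u := by
    intro u
    have d1 : HasDerivAt (fun u => Psi n b (-u)) (-(Psi n (b + 2) (-u))) u := by
      have := (Psi_hasDerivAt n b (-u)).comp u (hasDerivAt_neg u)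
      simpa [Function.comp_def] using this
    have d2 : HasDerivAt (fun u => Real.exp (κ * u)) (Real.exp (κ * u) * κ) u := by
      have := ((hasDerivAt_id u).const_mul κ).exp
      simpa using this
    exact d1.mul d2
  have hy2 : (0 : ℝ) ≤ y / 2 := by positivity
  have hanti : AntitoneOn (fun u => Psi n b (-u) * Real.exp (κ * u)) (Set.Icc 0 (y / 2)) := by
    refine antitoneOn_of_deriv_nonpos (convex_Icc _ _)
      (fun u _ => (hderiv u).continuousAt.continuousWithinAt)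
      (fun u _ => (hderiv u).differentiableAt.differentiableWithinAt) ?_
    intro u hu
    rw [interior_Icc] at hu
    rw [(hderiv u).deriv]
    have := hkey u hu.1.le hu.2.le
    have he := Real.exp_pos (κ * u)
    nlinarith
  have hfin := hanti (Set.left_mem_Icc.2 hy2) (Set.right_mem_Icc.2 hy2) hy2
  simp only [neg_zero, mul_zero, Real.exp_zero, mul_one] at hfin
  rw [Psi_at_zero] at hfin
  rw [Real.exp_neg, ← div_eq_mul_inv, le_div_iff₀ (Real.exp_pos _), mul_comm (y / 2) κ]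
  exact hfin

end Pool.Agent.Lib.MP_0430e4_lc.Impr
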