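import Pool.Agent.Lib.MP_0430e4_lc.Impr.Defs

/-!
Module MASS2 (helper37): masses of the deformed levels.
-/

set_option autoImplicit false

namespace Pool.Agent.Lib.MP_0430e4_lc.Impr

open Finset

theorem mass2_choose_step {n b0 c : ℕ} (hc : b0 ≤ c) :
    ((n.choose (c + 1) : ℕ) : ℝ)
      ≤ |(n : ℝ) - b0| / ((b0 : ℝ) + 1) * ((n.choose c : ℕ) : ℝ) := by
  have h := Nat.choose_succ_right_eq n c
  have hb : (0 : ℝ) < (b0 : ℝ) + 1 := by positivity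
  have hcb : (b0 : ℝ) ≤ c := by exact_mod_cast hc
  rcases le_or_gt c n with hcn | hcn
  · have h' : ((n.choose (c + 1) : ℕ) : ℝ) * ((c : ℝ) + 1) =
        ((n.choose c : ℕ) : ℝ) * ((n : ℝ) - c) := by
      have := congrArg (fun z : ℕ => (z : ℝ)) h
      simp only [Nat.cast_mul, Nat.cast_sub hcn, Nat.cast_add, Nat.cast_one] at this
      exact this
    have hcn' : (c : ℝ) ≤ n := by exact_mod_cast hcn
    have habs : |(n : ℝ) - b0| = (n : ℝ) - b0 := abs_of_nonneg (by linarith)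
    rw [habs, div_mul_eq_mul_div, le_div_iff₀ hb]
    have h0 : (0 : ℝ) ≤ ((n.choose (c + 1) : ℕ) : ℝ) := Nat.cast_nonneg _
    have h1 : (0 : ℝ) ≤ ((n.choose c : ℕ) : ℝ) := Nat.cast_nonneg _
    calc ((n.choose (c + 1) : ℕ) : ℝ) * ((b0 : ℝ) + 1)
        ≤ ((n.choose (c + 1) : ℕ) : ℝ) * ((c : ℝ) + 1) :=
          mul_le_mul_of_nonneg_left (by linarith) h0
      _ = ((n.choose c : ℕ) : ℝ) * ((n : ℝ) - c) := h'
      _ ≤ ((n : ℝ) - b0) * ((n.choose c : ℕ) : ℝ) := by nlinarith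
  · rw [Nat.choose_eq_zero_of_lt (by omega)]
    simp only [Nat.cast_zero]
    positivity

theorem mass2_choose_pow {n b0 b : ℕ} (hb : b0 ≤ b) (j : ℕ) :
    ((n.choose (b + j) : ℕ) : ℝ)
      ≤ (|(n : ℝ) - b0| / ((b0 : ℝ) + 1)) ^ j * ((n.choose b : ℕ) : ℝ) := by
  induction j with
  | zero => simp
  | succ j ih =>
    have h := mass2_choose_step (n := n) (b0 := b0) (c := b + j) (by omega)
    have hp : (0 : ℝ) ≤ |(n : ℝ) - b0| / ((b0 : ℝ) + 1) := by positivity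
    calc ((n.choose (b + (j + 1)) : ℕ) : ℝ) = ((n.choose (b + j + 1) : ℕ) : ℝ) := by
          rw [Nat.add_assoc]
      _ ≤ |(n : ℝ) - b0| / ((b0 : ℝ) + 1) * ((n.choose (b + j) : ℕ) : ℝ) := h
      _ ≤ |(n : ℝ) - b0| / ((b0 : ℝ) + 1) *
          ((|(n : ℝ) - b0| / ((b0 : ℝ) + 1)) ^ j * ((n.choose b : ℕ) : ℝ)) :=
          mul_le_mul_of_nonneg_left ih hp
      _ = (|(n : ℝ) - b0| / ((b0 : ℝ) + 1)) ^ (j + 1) * ((n.choose b : ℕ) : ℝ) := by
          rw [pow_succ]; ring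

theorem Psi_plus {n b0 b : ℕ} {y : ℝ} (hy : 0 < y) (hb : b0 ≤ b) (_hbn : b ≤ n) :
    0 ≤ Psi n b (2 * y) ∧ Psi n b (2 * y) ≤ ((n.choose b : ℕ) : ℝ)
      * Real.exp (2 * y * (((n : ℝ) - b0) / ((b0 : ℝ) + 1)) ^ 2) := by
  have hew : ∀ m, 0 ≤ ew (2 * y) m := fun m => by unfold ew; positivity
  constructor
  · unfold Psi
    exact sum_nonneg fun m _ => mul_nonneg (hew m) (Nat.cast_nonneg _)
  · set ρ : ℝ := |(n : ℝ) - b0| / ((b0 : ℝ) + 1) with hρ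
    have hρ0 : 0 ≤ ρ := by rw [hρ]; positivity
    have hρ2 : ρ ^ 2 = (((n : ℝ) - b0) / ((b0 : ℝ) + 1)) ^ 2 := by
      rw [hρ, div_pow, div_pow, sq_abs]
    have h1 : Psi n b (2 * y) ≤ ∑ m ∈ range (n + 1),
        ((n.choose b : ℕ) : ℝ) * ((2 * y * ρ ^ 2) ^ m / (m.factorial : ℝ)) := by
      unfold Psi
      refine sum_le_sum fun m _ => ?_
      have h := mass2_choose_pow (n := n) (b0 := b0) (b := b) hb (2 * m)
      calc ew (2 * y) m * ((n.choose (b + 2 * m) : ℕ) : ℝ)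
          ≤ ew (2 * y) m * (ρ ^ (2 * m) * ((n.choose b : ℕ) : ℝ)) :=
            mul_le_mul_of_nonneg_left h (hew m)
        _ = ((n.choose b : ℕ) : ℝ) * ((2 * y * ρ ^ 2) ^ m / (m.factorial : ℝ)) := by
            unfold ew
            rw [pow_mul, mul_pow (2 * y) (ρ ^ 2) m]
            ring
    rw [← mul_sum] at h1
    refine h1.trans ?_
    rw [← hρ2]
    exact mul_le_mul_of_nonneg_left
      (Real.sum_le_exp_of_nonneg (by positivity) (n + 1)) (Nat.cast_nonneg _)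

theorem mass2_sum_Icc {n t b0 : ℕ} {v : ℤ → ℝ} (htn : t ≤ n)
    (hvs : ∀ z, v z ≠ 0 → (b0 : ℤ) ≤ z ∧ z ≤ t) (f : ℕ → ℝ) :
    ∑ l ∈ range (n + 1), f l * v (l : ℤ) = ∑ b ∈ Icc b0 t, f b * v (b : ℤ) := by
  symm
  refine sum_subset ?_ ?_
  · intro b hb
    simp only [mem_Icc, mem_range] at hb ⊢
    omega
  · intro l _ hl
    have : v (l : ℤ) = 0 := by
      by_contra h
      have := hvs _ h
      apply hl
      simp only [mem_Icc]
      omega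
    rw [this, mul_zero]

theorem mass2_shift {n t b0 m : ℕ} {v : ℤ → ℝ} (_htn : t ≤ n)
    (hvs : ∀ z, v z ≠ 0 → (b0 : ℤ) ≤ z ∧ z ≤ t) :
    ∑ a ∈ range (n + 1), ((n.choose a : ℕ) : ℝ) * v ((a : ℤ) - 2 * (m : ℤ))
      = ∑ b ∈ Icc b0 t, v b * ((n.choose (b + 2 * m) : ℕ) : ℝ) := by
  classical
  have h1 : ∑ b ∈ Icc b0 t, v b * ((n.choose (b + 2 * m) : ℕ) : ℝ)
      = ∑ b ∈ (Icc b0 t).filter (fun b => b + 2 * m ≤ n),
          v b * ((n.choose (b + 2 * m) : ℕ) : ℝ) := by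
    symm
    refine sum_subset (filter_subset _ _) ?_
    intro b hb hb'
    have : n < b + 2 * m := by
      by_contra h
      exact hb' (mem_filter.2 ⟨hb, by omega⟩)
    rw [Nat.choose_eq_zero_of_lt this]
    simp
  have h2 : ∑ a ∈ range (n + 1), ((n.choose a : ℕ) : ℝ) * v ((a : ℤ) - 2 * (m : ℤ))
      = ∑ a ∈ (range (n + 1)).filter (fun a => b0 + 2 * m ≤ a ∧ a ≤ t + 2 * m),
          ((n.choose a : ℕ) : ℝ) * v ((a : ℤ) - 2 * (m : ℤ)) := by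
    symm
    refine sum_subset (filter_subset _ _) ?_
    intro a ha ha'
    have : v ((a : ℤ) - 2 * (m : ℤ)) = 0 := by
      by_contra h
      have := hvs _ h
      exact ha' (mem_filter.2 ⟨ha, by omega⟩)
    rw [this, mul_zero]
  rw [h1, h2]
  refine sum_nbij' (fun a => a - 2 * m) (fun b => b + 2 * m) ?_ ?_ ?_ ?_ ?_
  · intro a ha
    simp only [mem_filter, mem_range, mem_Icc] at ha ⊢
    omega
  · intro b hb
    simp only [mem_filter, mem_range, mem_Icc] at hb ⊢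
    omega
  · intro a ha
    simp only [mem_filter, mem_range] at ha
    show a - 2 * m + 2 * m = a
    omega
  · intro b _
    show b + 2 * m - 2 * m = b
    omega
  · intro a ha
    simp only [mem_filter, mem_range] at ha
    have e : ((a - 2 * m : ℕ) : ℤ) = (a : ℤ) - 2 * (m : ℤ) := by
      have : 2 * m ≤ a := by omega
      push_cast [Nat.cast_sub this]
      ring
    have e2 : a - 2 * m + 2 * m = a := by omega
    show ((n.choose a : ℕ) : ℝ) * v ((a : ℤ) - 2 * (m : ℤ))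
      = v ((a - 2 * m : ℕ) : ℤ) * ((n.choose (a - 2 * m + 2 * m) : ℕ) : ℝ)
    rw [e, e2]
    ring

theorem sum_De {n t b0 : ℕ} (s : ℝ) {v : ℤ → ℝ} (htn : t ≤ n)
    (hvs : ∀ z, v z ≠ 0 → (b0 : ℤ) ≤ z ∧ z ≤ t) :
    ∑ a ∈ range (n + 1), ((n.choose a : ℕ) : ℝ) * De n s v a
      = ∑ b ∈ Icc b0 t, v b * Psi n b s := by
  have h1 : ∑ a ∈ range (n + 1), ((n.choose a : ℕ) : ℝ) * De n s v a
      = ∑ m ∈ range (n + 1), ew s m *
          ∑ a ∈ range (n + 1), ((n.choose a : ℕ) : ℝ) * v ((a : ℤ) - 2 * (m : ℤ)) := by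
    simp only [De, mul_sum]
    rw [sum_comm]
    refine sum_congr rfl fun m _ => sum_congr rfl fun a _ => ?_
    ring
  rw [h1]
  have h2 : ∀ m ∈ range (n + 1), ew s m *
      ∑ a ∈ range (n + 1), ((n.choose a : ℕ) : ℝ) * v ((a : ℤ) - 2 * (m : ℤ))
      = ∑ b ∈ Icc b0 t, ew s m * (v b * ((n.choose (b + 2 * m) : ℕ) : ℝ)) := by
    intro m _
    rw [mass2_shift htn hvs, mul_sum]
  rw [sum_congr rfl h2, sum_comm]
  refine sum_congr rfl fun b _ => ?_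
  unfold Psi
  rw [mul_sum]
  refine sum_congr rfl fun m _ => ?_
  ring

theorem conv_zero {n t b0 : ℕ} {v : ℤ → ℝ} (htn : t ≤ n)
    (hvs : ∀ z, v z ≠ 0 → (b0 : ℤ) ≤ z ∧ z ≤ t) :
    conv n 0 v v = ∑ b ∈ Icc b0 t, ((n.choose b : ℕ) : ℝ) * v b ^ 2 := by
  have h1 : conv n 0 v v
      = ∑ l ∈ range (n + 1), (((n.choose l : ℕ) : ℝ) * v (l : ℤ)) * v (l : ℤ) := by
    unfold conv
    simp only [zero_add, range_one, sum_singleton, Nat.choose_self, Nat.cast_one, one_mul,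
      Nat.sub_zero, Nat.cast_zero, zero_sub, neg_zero, zero_add]
    refine sum_congr rfl fun l _ => ?_
    ring
  rw [h1, mass2_sum_Icc htn hvs (fun l => ((n.choose l : ℕ) : ℝ) * v (l : ℤ))]
  refine sum_congr rfl fun b _ => ?_
  ring

theorem mass2_choose_mono {n b t : ℕ} (hbt : b ≤ t) (htn : 2 * t ≤ n) :
    n.choose b ≤ n.choose t := by
  induction t, hbt using Nat.le_induction with
  | base => exact le_rfl
  | succ t _ ih =>
    exact (ih (by omega)).trans (Nat.choose_le_succ_of_lt_half_left (by omega))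

theorem mass_cs {n t b0 : ℕ} {v : ℤ → ℝ} (hbt : b0 ≤ t) (htn : 2 * t ≤ n) :
    (∑ b ∈ Icc b0 t, v b * ((n.choose b : ℕ) : ℝ)) ^ 2
      ≤ ((t : ℝ) - b0 + 1) * ((n.choose t : ℕ) : ℝ)
        * ∑ b ∈ Icc b0 t, ((n.choose b : ℕ) : ℝ) * v b ^ 2 := by
  have hcs := sum_mul_sq_le_sq_mul_sq (Icc b0 t)
    (fun b => Real.sqrt ((n.choose b : ℕ) : ℝ))
    (fun b => Real.sqrt ((n.choose b : ℕ) : ℝ) * v (b : ℤ))
  have e1 : ∑ b ∈ Icc b0 t, Real.sqrt ((n.choose b : ℕ) : ℝ) *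
      (Real.sqrt ((n.choose b : ℕ) : ℝ) * v (b : ℤ))
      = ∑ b ∈ Icc b0 t, v b * ((n.choose b : ℕ) : ℝ) := by
    refine sum_congr rfl fun b _ => ?_
    rw [← mul_assoc, Real.mul_self_sqrt (Nat.cast_nonneg _)]
    ring
  have e2 : ∑ b ∈ Icc b0 t, Real.sqrt ((n.choose b : ℕ) : ℝ) ^ 2
      = ∑ b ∈ Icc b0 t, ((n.choose b : ℕ) : ℝ) :=
    sum_congr rfl fun b _ => Real.sq_sqrt (Nat.cast_nonneg _)
  have e3 : ∑ b ∈ Icc b0 t, (Real.sqrt ((n.choose b : ℕ) : ℝ) * v (b : ℤ)) ^ 2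
      = ∑ b ∈ Icc b0 t, ((n.choose b : ℕ) : ℝ) * v b ^ 2 :=
    sum_congr rfl fun b _ => by rw [mul_pow, Real.sq_sqrt (Nat.cast_nonneg _)]
  rw [e1, e2, e3] at hcs
  refine hcs.trans ?_
  have h4 : ∑ b ∈ Icc b0 t, ((n.choose b : ℕ) : ℝ)
      ≤ ((t : ℝ) - b0 + 1) * ((n.choose t : ℕ) : ℝ) := by
    have : ∀ b ∈ Icc b0 t, ((n.choose b : ℕ) : ℝ) ≤ ((n.choose t : ℕ) : ℝ) := by
      intro b hb
      rw [mem_Icc] at hb
      exact_mod_cast mass2_choose_mono hb.2 htn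
    refine (sum_le_card_nsmul _ _ _ this).trans (le_of_eq ?_)
    rw [Nat.card_Icc, nsmul_eq_mul]
    congr 1
    have : b0 ≤ t + 1 := by omega
    push_cast [Nat.cast_sub this]
    ring
  refine mul_le_mul_of_nonneg_right h4 (sum_nonneg fun b _ => by positivity)

end Pool.Agent.Lib.MP_0430e4_lc.Impr
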