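import Pool.Agent.Lib.MP_0430e4_lc.Impr.Defs

/-!
# Central binomial coefficients
-/

set_option autoImplicit false

namespace Pool.Agent.Lib.MP_0430e4_lc.Impr

open Finset

theorem bz_nonneg (k : ℕ) (m : ℤ) : 0 ≤ bz k m := by
  unfold bz
  split_ifs
  · positivity
  · exact le_rfl

theorem bz_le_cst (k : ℕ) (m : ℤ) : bz k m ≤ cst k := by
  unfold bz cst
  split_ifs
  · exact_mod_cast Nat.choose_le_middle _ _
  · positivity

theorem cst_pos (k : ℕ) : 0 < cst k := by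
  unfold cst
  exact_mod_cast Nat.choose_pos (Nat.div_le_self k 2)

theorem bz_symm (k : ℕ) (m : ℤ) : bz k ((k : ℤ) - m) = bz k m := by
  unfold bz
  by_cases h0 : 0 ≤ m
  · by_cases h1 : m ≤ k
    · rw [if_pos h0, if_pos (by linarith)]
      obtain ⟨j, rfl⟩ := Int.eq_ofNat_of_zero_le h0
      have hj : j ≤ k := by exact_mod_cast h1
      have e : ((k : ℤ) - (j : ℤ)).toNat = k - j := by omega
      rw [e, Int.toNat_natCast, Nat.choose_symm hj]
    · rw [if_neg (by linarith), if_pos h0, Nat.choose_eq_zero_of_lt (by omega)]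
      simp
  · rw [if_neg h0, if_pos (by omega), Nat.choose_eq_zero_of_lt (by omega)]
    simp

theorem cen_aux (k j : ℕ) :
    (2 * (k : ℝ) - (2 * (((k - k / 2 : ℕ) : ℝ) + (j : ℝ)) - k) ^ 2) * cst k
      ≤ 2 * (k : ℝ) * ((k.choose (k - k / 2 + j) : ℕ) : ℝ) := by
  have he : (k : ℝ) ≤ 2 * ((k - k / 2 : ℕ) : ℝ) := by
    have : k ≤ 2 * (k - k / 2) := by omega
    exact_mod_cast this
  have hc := cst_pos k
  induction j with
  | zero =>
    have h1 : ((k.choose (k - k / 2 + 0) : ℕ) : ℝ) = cst k := by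
      unfold cst
      rw [Nat.add_zero, Nat.choose_symm (Nat.div_le_self k 2)]
    rw [h1]
    apply mul_le_mul_of_nonneg_right _ hc.le
    have := sq_nonneg (2 * (((k - k / 2 : ℕ) : ℝ) + ((0 : ℕ) : ℝ)) - k)
    linarith
  | succ j ih =>
    have hrec : ((k - k / 2 + j + 1 : ℕ) : ℝ) * ((k.choose (k - k / 2 + (j + 1)) : ℕ) : ℝ)
        = ((k : ℝ) - ((k - k / 2 : ℕ) : ℝ) - (j : ℝ)) * ((k.choose (k - k / 2 + j) : ℕ) : ℝ) := by
      have h := Nat.choose_succ_right_eq k (k - k / 2 + j)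
      by_cases hle : k - k / 2 + j ≤ k
      · have h2 : ((k.choose (k - k / 2 + j + 1) * (k - k / 2 + j + 1) : ℕ) : ℝ)
          = ((k.choose (k - k / 2 + j) * (k - (k - k / 2 + j)) : ℕ) : ℝ) := by rw [h]
        rw [Nat.cast_mul, Nat.cast_mul, Nat.cast_sub hle, Nat.cast_add (k - k / 2) j] at h2
        rw [← Nat.add_assoc]
        linarith
      · rw [Nat.choose_eq_zero_of_lt (show k < k - k / 2 + (j + 1) by omega),
          Nat.choose_eq_zero_of_lt (show k < k - k / 2 + j by omega)]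
        simp
    set e : ℝ := ((k - k / 2 : ℕ) : ℝ) with hedef
    set C : ℝ := ((k.choose (k - k / 2 + j) : ℕ) : ℝ) with hC
    set C' : ℝ := ((k.choose (k - k / 2 + (j + 1)) : ℕ) : ℝ) with hC'
    have hC0 : 0 ≤ C' := by positivity
    have hk0 : (0 : ℝ) ≤ k := by positivity
    have hj0 : (0 : ℝ) ≤ j := by positivity
    push_cast at hrec ⊢
    rw [← hedef] at hrec
    set D : ℝ := 2 * (e + j) - k with hD
    have hD0 : 0 ≤ D := by rw [hD]; linarith
    have e1 : 2 * (e + ((j : ℝ) + 1)) - k = D + 2 := by rw [hD]; ring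
    rw [e1]
    have hrec' : ((k : ℝ) + D + 2) * C' = ((k : ℝ) - D) * C := by
      have e2 : (k : ℝ) + D + 2 = 2 * (e + j + 1) := by rw [hD]; ring
      have e3 : (k : ℝ) - D = 2 * ((k : ℝ) - e - j) := by rw [hD]; ring
      rw [e2, e3]
      linarith
    by_cases hDk : D ≤ k
    · have hpos : 0 < (k : ℝ) + D + 2 := by linarith
      have h3 : ((k : ℝ) - D) * ((2 * (k : ℝ) - D ^ 2) * cst k) ≤ ((k : ℝ) - D) * (2 * k * C) :=
        mul_le_mul_of_nonneg_left ih (by linarith)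
      have h4 : ((k : ℝ) + D + 2) * ((2 * (k : ℝ) - (D + 2) ^ 2) * cst k)
          ≤ ((k : ℝ) + D + 2) * (2 * k * C') := by
        have h5 : ((k : ℝ) + D + 2) * (2 * k * C') = 2 * k * (((k : ℝ) - D) * C) := by
          rw [← hrec']; ring
        rw [h5]
        have h6 : 0 ≤ (D ^ 3 + (D + 2) ^ 3) * cst k := by positivity
        have h7 : ((k : ℝ) + D + 2) * ((2 * (k : ℝ) - (D + 2) ^ 2) * cst k)
          = ((k : ℝ) - D) * ((2 * (k : ℝ) - D ^ 2) * cst k) - (D ^ 3 + (D + 2) ^ 3) * cst k := by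
          ring
        rw [h7]
        linarith
      exact le_of_mul_le_mul_left h4 hpos
    · push Not at hDk
      have h8 : 2 * (k : ℝ) - (D + 2) ^ 2 ≤ 0 := by nlinarith
      have h9 : (2 * (k : ℝ) - (D + 2) ^ 2) * cst k ≤ 0 :=
        mul_nonpos_of_nonpos_of_nonneg h8 hc.le
      have h10 : 0 ≤ 2 * (k : ℝ) * C' := by positivity
      linarith

theorem cst_le_bz_aux {k : ℕ} {m : ℤ} (hm : (k : ℤ) ≤ 2 * m) (h : 2 * (2 * m - k) ^ 2 ≤ (k : ℤ)) :
    3 / 4 * cst k ≤ bz k m := by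
  rcases Nat.eq_zero_or_pos k with hk | hk
  · subst hk
    have : m = 0 := by
      have h2 : (2 * m) ^ 2 = 0 := by
        have := sq_nonneg (2 * m)
        push_cast at h
        rw [sub_zero] at h
        omega
      have h3 := pow_eq_zero_iff (two_ne_zero) |>.mp h2
      omega
    subst this
    norm_num [bz, cst]
  · obtain ⟨j, hj⟩ : ∃ j : ℕ, m = ((k - k / 2 + j : ℕ) : ℤ) := by
      refine ⟨(m - ((k - k / 2 : ℕ) : ℤ)).toNat, ?_⟩
      omega
    have hb : bz k m = ((k.choose (k - k / 2 + j) : ℕ) : ℝ) := by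
      unfold bz
      rw [hj, if_pos (by positivity), Int.toNat_natCast]
    rw [hb]
    have hA := cen_aux k j
    have hR : 2 * (2 * (((k - k / 2 : ℕ) : ℝ) + (j : ℝ)) - k) ^ 2 ≤ (k : ℝ) := by
      rw [hj] at h
      have h' : ((2 * (2 * ((k - k / 2 + j : ℕ) : ℤ) - k) ^ 2 : ℤ) : ℝ) ≤ ((k : ℤ) : ℝ) := by
        exact_mod_cast h
      push_cast at h'
      exact h'
    have hkR : (0 : ℝ) < k := by exact_mod_cast hk
    have hc := cst_pos k
    set X : ℝ := (2 * (((k - k / 2 : ℕ) : ℝ) + (j : ℝ)) - k) ^ 2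
    have h1 : (3 / 2 * (k : ℝ)) * cst k ≤ (2 * (k : ℝ) - X) * cst k :=
      mul_le_mul_of_nonneg_right (by linarith) hc.le
    have h2 : 2 * (k : ℝ) * (3 / 4 * cst k) ≤ 2 * (k : ℝ) * ((k.choose (k - k / 2 + j) : ℕ) : ℝ) := by
      linarith
    exact le_of_mul_le_mul_left h2 (by positivity)

theorem cst_le_bz {k : ℕ} {m : ℤ} (h : 2 * (2 * m - k) ^ 2 ≤ (k : ℤ)) :
    3 / 4 * cst k ≤ bz k m := by
  by_cases hm : (k : ℤ) ≤ 2 * m
  · exact cst_le_bz_aux hm h
  · rw [← bz_symm]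
    apply cst_le_bz_aux
    · linarith
    · have : (2 * ((k : ℤ) - m) - k) ^ 2 = (2 * m - k) ^ 2 := by ring
      rw [this]
      exact h

theorem cc_nonneg (k : ℕ) (m : ℤ) (M : ℕ) : 0 ≤ cc k m M := by
  unfold cc
  apply div_nonneg _ (by positivity)
  exact Finset.sum_nonneg fun i _ => mul_nonneg (by positivity) (bz_nonneg _ _)

theorem cc_sum_choose (M : ℕ) (c : ℝ) :
    ∑ i ∈ range (M + 1), ((M.choose i : ℕ) : ℝ) * c = 2 ^ M * c := by
  rw [← Finset.sum_mul]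
  congr 1
  exact_mod_cast Nat.sum_range_choose M

theorem cc_le_cst (k : ℕ) (m : ℤ) (M : ℕ) : cc k m M ≤ cst k := by
  unfold cc
  rw [div_le_iff₀ (by positivity), mul_comm, ← cc_sum_choose]
  exact Finset.sum_le_sum fun i _ => mul_le_mul_of_nonneg_left (bz_le_cst _ _) (by positivity)

theorem cst_le_cc {k : ℕ} {m : ℤ} {M : ℕ}
    (h : 2 * (|2 * m - (k : ℤ)| + 2 * (M : ℤ)) ^ 2 ≤ (k : ℤ)) :
    3 / 4 * cst k ≤ cc k m M := by
  unfold cc
  rw [le_div_iff₀ (by positivity), mul_comm, ← cc_sum_choose]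
  refine Finset.sum_le_sum fun i hi => mul_le_mul_of_nonneg_left (cst_le_bz ?_) (by positivity)
  refine le_trans ?_ h
  have hi' : i ≤ M := by
    have := Finset.mem_range.mp hi
    omega
  have hi'' : (i : ℤ) ≤ M := by exact_mod_cast hi'
  have hi0 : (0 : ℤ) ≤ i := by positivity
  have h1 : |2 * (m + 2 * (i : ℤ) - (M : ℤ)) - (k : ℤ)| ≤ |2 * m - (k : ℤ)| + 2 * (M : ℤ) := by
    have e : 2 * (m + 2 * (i : ℤ) - (M : ℤ)) - (k : ℤ)
        = (2 * m - (k : ℤ)) + (4 * (i : ℤ) - 2 * (M : ℤ)) := by ring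
    rw [e]
    refine (abs_add_le _ _).trans ?_
    have : |4 * (i : ℤ) - 2 * (M : ℤ)| ≤ 2 * (M : ℤ) := by
      rw [abs_le]
      constructor <;> linarith
    linarith
  have h2 : (2 * (m + 2 * (i : ℤ) - (M : ℤ)) - (k : ℤ)) ^ 2
      ≤ (|2 * m - (k : ℤ)| + 2 * (M : ℤ)) ^ 2 := by
    rw [← sq_abs (2 * (m + 2 * (i : ℤ) - (M : ℤ)) - (k : ℤ))]
    exact pow_le_pow_left₀ (abs_nonneg _) h1 2
  linarith

end Pool.Agent.Lib.MP_0430e4_lc.Impr
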