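import Pool.Agent.Lib.MP_0430e4_lc.Impr.Defs

set_option autoImplicit false

namespace Pool.Agent.Lib.MP_0430e4_lc.Impr

open Finset


theorem PhA_eq (N : ℕ) (u : ℝ) (L K : ℕ) (hK : N + 1 ≤ K) :
    Ph N u L = ∑ M ∈ range K, (-u) ^ M / (M.factorial : ℝ) * (N.choose (L + M) : ℝ) := by
  unfold Ph ew
  refine sum_subset (by intro x; simp; omega) ?_
  intro M _ hM
  simp only [mem_range, not_lt] at hM
  rw [Nat.choose_eq_zero_of_lt (by omega)]
  simp

theorem PhA_rec (N : ℕ) (u : ℝ) (L : ℕ) (hL : L ≤ N) :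
    ((N : ℝ) - L) * Ph N u L = ((L : ℝ) + 1 - u) * Ph N u (L + 1) - u * Ph N u (L + 2) := by
  rw [PhA_eq N u L (N + 2) (by omega), PhA_eq N u (L + 1) (N + 2) (by omega),
    PhA_eq N u (L + 2) (N + 1) le_rfl]
  -- sum of (-u)^M/M! (L+1+M) C(N,L+1+M) = sum (-u)^M/M! (N-L-M) C(N,L+M)
  have key : ∀ M : ℕ, ((L : ℝ) + 1 + M) * (N.choose (L + 1 + M) : ℝ) =
      ((N : ℝ) - L - M) * (N.choose (L + M) : ℝ) := by
    intro M
    have h := Nat.choose_succ_right_eq N (L + M)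
    rcases le_or_gt (L + M) N with hle | hgt
    · have h' : ((N.choose (L + M + 1) : ℕ) : ℝ) * ((L + M + 1 : ℕ) : ℝ) =
        (N.choose (L + M) : ℝ) * ((N - (L + M) : ℕ) : ℝ) := by exact_mod_cast h
      rw [Nat.cast_sub hle] at h'
      have e : L + 1 + M = L + M + 1 := by ring
      rw [e]
      push_cast at h' ⊢
      linarith
    · rw [Nat.choose_eq_zero_of_lt (by omega : N < L + 1 + M), Nat.choose_eq_zero_of_lt hgt]
      simp
  -- shift lemma: sum M * (-u)^M/M! f M = -u * sum (-u)^M/M! f (M+1)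
  have shift : ∀ f : ℕ → ℝ, ∑ M ∈ range (N + 2), (M : ℝ) * ((-u) ^ M / (M.factorial : ℝ) * f M) =
      -u * ∑ M ∈ range (N + 1), (-u) ^ M / (M.factorial : ℝ) * f (M + 1) := by
    intro f
    rw [sum_range_succ' _ (N + 1), mul_sum]
    simp only [Nat.cast_zero, zero_mul, add_zero]
    refine sum_congr rfl fun M _ => ?_
    rw [Nat.factorial_succ]
    push_cast
    have h1 : ((M : ℝ) + 1) ≠ 0 := by positivity
    have h2 : (M.factorial : ℝ) ≠ 0 := by positivity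
    field_simp
    ring
  have s1 := shift (fun M => (N.choose (L + 1 + M) : ℝ))
  have s2 := shift (fun M => (N.choose (L + M) : ℝ))
  have e1 : ∑ M ∈ range (N + 2), (-u) ^ M / (M.factorial : ℝ) *
      (((L : ℝ) + 1 + M) * (N.choose (L + 1 + M) : ℝ)) =
      ∑ M ∈ range (N + 2), (-u) ^ M / (M.factorial : ℝ) *
      (((N : ℝ) - L - M) * (N.choose (L + M) : ℝ)) :=
    sum_congr rfl fun M _ => by rw [key M]
  have e2 : ∑ M ∈ range (N + 2), (-u) ^ M / (M.factorial : ℝ) *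
      (((L : ℝ) + 1 + M) * (N.choose (L + 1 + M) : ℝ)) =
      ((L : ℝ) + 1) * ∑ M ∈ range (N + 2), (-u) ^ M / (M.factorial : ℝ) *
        (N.choose (L + 1 + M) : ℝ) +
      ∑ M ∈ range (N + 2), (M : ℝ) * ((-u) ^ M / (M.factorial : ℝ) *
        (N.choose (L + 1 + M) : ℝ)) := by
    rw [mul_sum, ← sum_add_distrib]
    exact sum_congr rfl fun M _ => by ring
  have e3 : ∑ M ∈ range (N + 2), (-u) ^ M / (M.factorial : ℝ) *
      (((N : ℝ) - L - M) * (N.choose (L + M) : ℝ)) =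
      ((N : ℝ) - L) * ∑ M ∈ range (N + 2), (-u) ^ M / (M.factorial : ℝ) *
        (N.choose (L + M) : ℝ) -
      ∑ M ∈ range (N + 2), (M : ℝ) * ((-u) ^ M / (M.factorial : ℝ) *
        (N.choose (L + M) : ℝ)) := by
    rw [mul_sum, ← sum_sub_distrib]
    exact sum_congr rfl fun M _ => by ring
  rw [e2, e3, s1, s2] at e1
  have r1 : ∑ M ∈ range (N + 1), (-u) ^ M / (M.factorial : ℝ) * (N.choose (L + (M + 1)) : ℝ) =
      ∑ M ∈ range (N + 2), (-u) ^ M / (M.factorial : ℝ) * (N.choose (L + 1 + M) : ℝ) := by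
    rw [← PhA_eq N u (L + 1) (N + 2) (by omega), PhA_eq N u (L + 1) (N + 1) le_rfl]
    exact sum_congr rfl fun M _ => by rw [show L + (M + 1) = L + 1 + M by ring]
  have r2 : ∑ M ∈ range (N + 1), (-u) ^ M / (M.factorial : ℝ) * (N.choose (L + 1 + (M + 1)) : ℝ) =
      ∑ M ∈ range (N + 1), (-u) ^ M / (M.factorial : ℝ) * (N.choose (L + 2 + M) : ℝ) :=
    sum_congr rfl fun M _ => by rw [show L + 1 + (M + 1) = L + 2 + M by ring]
  rw [r1, r2] at e1
  linarith

theorem PhA_top (N : ℕ) (u : ℝ) : Ph N u N = 1 := by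
  unfold Ph ew
  rw [sum_range_succ' _ N]
  have : ∑ k ∈ range N, (-u) ^ (k + 1) / ((k + 1).factorial : ℝ) * (N.choose (N + (k + 1)) : ℝ) = 0 :=
    sum_eq_zero fun k _ => by rw [Nat.choose_eq_zero_of_lt (by omega)]; simp
  rw [this]; simp

theorem PhA_above (N : ℕ) (u : ℝ) (L : ℕ) (hL : N < L) : Ph N u L = 0 :=
  sum_eq_zero fun k _ => by rw [Nat.choose_eq_zero_of_lt (by omega)]; simp

theorem PhA_pos (N : ℕ) (u : ℝ) (hu : 0 ≤ u) (L0 : ℕ)
    (h0 : 4 * u * N + 2 * u * (L0 + 1) ≤ (L0 : ℝ) * (L0 + 1)) :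
    ∀ L, L0 ≤ L → L ≤ N → 0 < Ph N u L ∧
      ((L : ℝ) + 1) * Ph N u (L + 1) ≤ 2 * ((N : ℝ) - L) * Ph N u L := by
  have main : ∀ j L, L + j = N → L0 ≤ L → 0 < Ph N u L ∧
      ((L : ℝ) + 1) * Ph N u (L + 1) ≤ 2 * ((N : ℝ) - L) * Ph N u L := by
    intro j
    induction j with
    | zero =>
      intro L hL _
      have : L = N := by omega
      subst this
      rw [PhA_top, PhA_above _ _ _ (Nat.lt_succ_self L)]
      simp
    | succ j ih =>
      intro L hL hL0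
      obtain ⟨hpos, hle⟩ := ih (L + 1) (by omega) (by omega)
      have hrec := PhA_rec N u L (by omega)
      have hLN : (L : ℝ) + 1 ≤ N := by
        have : L + 1 ≤ N := by omega
        exact_mod_cast this
      have hL0' : (L0 : ℝ) ≤ L := by exact_mod_cast hL0
      push_cast at hle
      -- u * Ph(L+2) ≤ u * 2 (N-L-1)/(L+2) Ph(L+1)
      have hL2 : (0 : ℝ) < (L : ℝ) + 2 := by positivity
      have hcond : 2 * u * ((L : ℝ) + 2) + 4 * u * ((N : ℝ) - L - 1) ≤ ((L : ℝ) + 1) * (L + 2) := by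
        -- from h0 and monotonicity
        by_cases hu0 : u = 0
        · subst hu0
          have : (0 : ℝ) ≤ ((L : ℝ) + 1) * (L + 2) := by positivity
          linarith
        · have hupos : 0 < u := lt_of_le_of_ne hu (Ne.symm hu0)
          have h2u : 2 * u ≤ (L0 : ℝ) := by
            by_contra hcon
            push Not at hcon
            have hL0nn : (0 : ℝ) ≤ L0 := Nat.cast_nonneg _
            have : (L0 : ℝ) * (L0 + 1) < 2 * u * (L0 + 1) := by nlinarith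
            have hN : (0 : ℝ) ≤ N := Nat.cast_nonneg _
            nlinarith [mul_nonneg hu hN]
          nlinarith [mul_nonneg hu (by linarith : (0 : ℝ) ≤ (L : ℝ) + 1 - L0),
            mul_nonneg (by linarith : (0 : ℝ) ≤ (L : ℝ) + 1 - L0)
              (by linarith : (0 : ℝ) ≤ (L : ℝ) + 2 - 2 * u), Nat.cast_nonneg (α := ℝ) L]
      have h3 : u * Ph N u (L + 2) * ((L : ℝ) + 2) ≤ u * (2 * ((N : ℝ) - (L + 1)) * Ph N u (L + 1)) := by
        have := mul_le_mul_of_nonneg_left hle hu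
        have e : ((L : ℝ) + 1 + 1) = (L : ℝ) + 2 := by ring
        rw [e] at this
        have e2 : L + 1 + 1 = L + 2 := rfl
        rw [e2] at this
        nlinarith
      have h4 : ((L : ℝ) + 1) / 2 * Ph N u (L + 1) ≤ ((N : ℝ) - L) * Ph N u L := by
        rw [hrec]
        have : (((L : ℝ) + 1) / 2 * Ph N u (L + 1)) * ((L : ℝ) + 2) ≤
            (((L : ℝ) + 1 - u) * Ph N u (L + 1) - u * Ph N u (L + 2)) * ((L : ℝ) + 2) := by
          nlinarith
        exact le_of_mul_le_mul_right this hL2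
      have hNL : (0 : ℝ) < (N : ℝ) - L := by linarith
      constructor
      · have : 0 < ((N : ℝ) - L) * Ph N u L := lt_of_lt_of_le (by positivity) h4
        exact (mul_pos_iff_of_pos_left hNL).1 this
      · linarith
  intro L h1 h2
  exact main (N - L) L (by omega) h1


theorem Ph_rec {N : ℕ} (u : ℝ) {L : ℕ} (hL : 1 ≤ L) :
    ((N : ℝ) - L + 1) * Ph N u (L - 1) = ((L : ℝ) - u) * Ph N u L - u * Ph N u (L + 1) := by
  obtain ⟨L, rfl⟩ : ∃ K, L = K + 1 := ⟨L - 1, by omega⟩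
  rcases le_or_gt L N with h | h
  · have := PhA_rec N u L h
    simp only [Nat.add_sub_cancel]
    push_cast
    rw [show L + 1 + 1 = L + 2 from rfl]
    linarith
  · simp only [Nat.add_sub_cancel]
    rw [PhA_above N u L h, PhA_above N u (L + 1) (by omega), PhA_above N u (L + 1 + 1) (by omega)]
    simp

theorem Ph_big {N L : ℕ} (u : ℝ) (h : N < L) : Ph N u L = 0 := PhA_above N u L h

theorem Ph_pos {N L0 L : ℕ} {u : ℝ} (hu : 0 ≤ u) (hL0 : 1 ≤ L0)
    (hP : 4 * u * N + 2 * u * ((L0 : ℝ) + 1) ≤ (L0 : ℝ) * ((L0 : ℝ) + 1))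
    (hL : L0 ≤ L) (hN : L ≤ N) :
    0 < Ph N u L ∧ ((L : ℝ) + 1) * Ph N u (L + 1) ≤ 2 * ((N : ℝ) - L) * Ph N u L :=
  PhA_pos N u hu L0 hP L hL hN

theorem Ph_ratio {N L0 L : ℕ} {u : ℝ} (hu : 0 ≤ u) (hL0 : 1 ≤ L0)
    (hP : 4 * u * N + 2 * u * ((L0 : ℝ) + 1) ≤ (L0 : ℝ) * ((L0 : ℝ) + 1))
    (hL : L0 ≤ L) (j : ℕ) :
    0 ≤ Ph N u (L + j) ∧ Ph N u (L + j) ≤ (2 * (N : ℝ) / L0) ^ j * Ph N u L := by
  have hnn : ∀ K, L0 ≤ K → 0 ≤ Ph N u K := by
    intro K hK
    rcases le_or_gt K N with h | h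
    · exact (Ph_pos hu hL0 hP hK h).1.le
    · exact (Ph_big u h).ge
  refine ⟨hnn _ (by omega), ?_⟩
  have hL0' : (0 : ℝ) < L0 := by exact_mod_cast hL0
  induction j with
  | zero => simp
  | succ j ih =>
    have hstep : Ph N u (L + (j + 1)) ≤ (2 * (N : ℝ) / L0) * Ph N u (L + j) := by
      rcases le_or_gt (L + j) N with h | h
      · have h1 := (Ph_pos hu hL0 hP (show L0 ≤ L + j by omega) h).2
        have h0 := hnn (L + j) (by omega)
        have h0' := hnn (L + (j + 1)) (by omega)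
        have hcast : (L0 : ℝ) ≤ ((L + j : ℕ) : ℝ) := by exact_mod_cast (show L0 ≤ L + j by omega)
        have hLj : (0 : ℝ) ≤ ((L + j : ℕ) : ℝ) := Nat.cast_nonneg _
        rw [div_mul_eq_mul_div, le_div_iff₀ hL0']
        rw [show L + j + 1 = L + (j + 1) from rfl] at h1
        nlinarith [mul_nonneg h0' (by linarith : (0 : ℝ) ≤ ((L + j : ℕ) : ℝ) + 1 - L0),
          mul_nonneg hLj h0]
      · rw [Ph_big u (show N < L + (j + 1) by omega)]
        have h0 := hnn (L + j) (by omega)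
        positivity
    calc Ph N u (L + (j + 1)) ≤ (2 * (N : ℝ) / L0) * Ph N u (L + j) := hstep
      _ ≤ (2 * (N : ℝ) / L0) * ((2 * (N : ℝ) / L0) ^ j * Ph N u L) :=
          mul_le_mul_of_nonneg_left ih (by positivity)
      _ = (2 * (N : ℝ) / L0) ^ (j + 1) * Ph N u L := by ring

end Pool.Agent.Lib.MP_0430e4_lc.Impr
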