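import Pool.Agent.Lib.MP_0430e4_lc.Impr.Defs

set_option autoImplicit false

namespace Pool.Agent.Lib.MP_0430e4_lc.Impr

open Finset Polynomial


/-- coefficients of `(1+X)^q (1-X)^j` -/
noncomputable def cf (q j i : ℕ) : ℝ := (((1 + X) ^ q * (1 - X) ^ j : ℝ[X])).coeff i

theorem cf_natDegree (q j : ℕ) : (((1 + X) ^ q * (1 - X) ^ j : ℝ[X])).natDegree ≤ q + j := by
  refine (natDegree_mul_le).trans (Nat.add_le_add ?_ ?_)
  · refine (natDegree_pow_le).trans ?_
    have : (1 + X : ℝ[X]).natDegree ≤ 1 := by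
      have := natDegree_add_le (1 : ℝ[X]) X
      simpa using this
    calc q * (1 + X : ℝ[X]).natDegree ≤ q * 1 := Nat.mul_le_mul_left _ this
      _ = q := mul_one _
  · refine (natDegree_pow_le).trans ?_
    have : (1 - X : ℝ[X]).natDegree ≤ 1 := by
      have := natDegree_sub_le (1 : ℝ[X]) X
      simpa using this
    calc j * (1 - X : ℝ[X]).natDegree ≤ j * 1 := Nat.mul_le_mul_left _ this
      _ = j := mul_one _

theorem cf_zero_of_gt (q j i : ℕ) (h : q + j < i) : cf q j i = 0 :=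
  coeff_eq_zero_of_natDegree_lt (lt_of_le_of_lt (cf_natDegree q j) h)

theorem cf_succ_left_zero (q j : ℕ) : cf (q + 1) j 0 = cf q j 0 := by
  unfold cf; rw [pow_succ]
  have : ((1 + X) ^ q * (1 + X) * (1 - X) ^ j : ℝ[X]) =
    (1 + X) ^ q * (1 - X) ^ j + (1 + X) ^ q * (1 - X) ^ j * X := by ring
  rw [this, coeff_add]; simp

theorem cf_succ_left (q j i : ℕ) : cf (q + 1) j (i + 1) = cf q j (i + 1) + cf q j i := by
  unfold cf; rw [pow_succ]
  have : ((1 + X) ^ q * (1 + X) * (1 - X) ^ j : ℝ[X]) =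
    (1 + X) ^ q * (1 - X) ^ j + (1 + X) ^ q * (1 - X) ^ j * X := by ring
  rw [this, coeff_add, coeff_mul_X]

theorem cf_succ_right_zero (q j : ℕ) : cf q (j + 1) 0 = cf q j 0 := by
  unfold cf; rw [pow_succ]
  have : ((1 + X) ^ q * ((1 - X) ^ j * (1 - X)) : ℝ[X]) =
    (1 + X) ^ q * (1 - X) ^ j - (1 + X) ^ q * (1 - X) ^ j * X := by ring
  rw [this, coeff_sub]; simp

theorem cf_succ_right (q j i : ℕ) : cf q (j + 1) (i + 1) = cf q j (i + 1) - cf q j i := by
  unfold cf; rw [pow_succ]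
  have : ((1 + X) ^ q * ((1 - X) ^ j * (1 - X)) : ℝ[X]) =
    (1 + X) ^ q * (1 - X) ^ j - (1 + X) ^ q * (1 - X) ^ j * X := by ring
  rw [this, coeff_sub, coeff_mul_X]

/-- squared norm of the coefficient sequence -/
noncomputable def nsq (q j : ℕ) : ℝ := ∑ i ∈ range (q + j + 1), cf q j i ^ 2

theorem nsq_rec (q j : ℕ) : nsq (q + 1) j + nsq q (j + 1) = 4 * nsq q j := by
  unfold nsq
  have h1 : q + 1 + j + 1 = (q + j + 1) + 1 := by ring
  have h2 : q + (j + 1) + 1 = (q + j + 1) + 1 := by ring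
  rw [h1, h2, ← sum_add_distrib, sum_range_succ' _ (q + j + 1)]
  have e : ∀ i, cf (q + 1) j (i + 1) ^ 2 + cf q (j + 1) (i + 1) ^ 2 =
      2 * cf q j (i + 1) ^ 2 + 2 * cf q j i ^ 2 := by
    intro i; rw [cf_succ_left, cf_succ_right]; ring
  simp only [e, cf_succ_left_zero, cf_succ_right_zero]
  rw [sum_add_distrib, ← mul_sum, ← mul_sum]
  have s : ∑ i ∈ range (q + j + 1), cf q j (i + 1) ^ 2 + cf q j 0 ^ 2 =
      ∑ i ∈ range (q + j + 1), cf q j i ^ 2 := by
    rw [← sum_range_succ' (fun i => cf q j i ^ 2) (q + j + 1), sum_range_succ,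
      cf_zero_of_gt q j (q + j + 1) (by omega)]
    simp
  linarith

theorem nsq_zero (q : ℕ) : nsq q 0 = ((2 * q).choose q : ℝ) := by
  unfold nsq
  have : ∀ i, cf q 0 i = (q.choose i : ℝ) := by
    intro i; unfold cf; simp [coeff_one_add_X_pow]
  simp only [this, add_zero]
  have h := Nat.sum_range_choose_sq q
  exact_mod_cast h

/-- the closed form -/
noncomputable def nf (q j : ℕ) : ℝ :=
  ((2 * j).factorial : ℝ) * ((2 * q).factorial : ℝ) /
    ((j.factorial : ℝ) * (q.factorial : ℝ) * ((q + j).factorial : ℝ))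

theorem nf_rec (q j : ℕ) : nf (q + 1) j + nf q (j + 1) = 4 * nf q j := by
  unfold nf
  have a1 : ((2 * (q + 1)).factorial : ℝ) = (2 * q + 2) * (2 * q + 1) * ((2 * q).factorial : ℝ) := by
    rw [show 2 * (q + 1) = 2 * q + 1 + 1 by ring, Nat.factorial_succ, Nat.factorial_succ]
    push_cast; ring
  have a2 : ((2 * (j + 1)).factorial : ℝ) = (2 * j + 2) * (2 * j + 1) * ((2 * j).factorial : ℝ) := by
    rw [show 2 * (j + 1) = 2 * j + 1 + 1 by ring, Nat.factorial_succ, Nat.factorial_succ]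
    push_cast; ring
  have a3 : ((q + 1 + j).factorial : ℝ) = ((q : ℝ) + j + 1) * ((q + j).factorial : ℝ) := by
    rw [show q + 1 + j = q + j + 1 by ring, Nat.factorial_succ]; push_cast; ring
  have a4 : ((q + (j + 1)).factorial : ℝ) = ((q : ℝ) + j + 1) * ((q + j).factorial : ℝ) := by
    rw [show q + (j + 1) = q + j + 1 by ring, Nat.factorial_succ]; push_cast; ring
  have a5 : ((q + 1).factorial : ℝ) = ((q : ℝ) + 1) * (q.factorial : ℝ) := by
    rw [Nat.factorial_succ]; push_cast; ring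
  have a6 : ((j + 1).factorial : ℝ) = ((j : ℝ) + 1) * (j.factorial : ℝ) := by
    rw [Nat.factorial_succ]; push_cast; ring
  rw [a1, a2, a3, a4, a5, a6]
  have b1 : ((q + j).factorial : ℝ) ≠ 0 := by positivity
  have b2 : (q.factorial : ℝ) ≠ 0 := by positivity
  have b3 : (j.factorial : ℝ) ≠ 0 := by positivity
  have b4 : ((q : ℝ) + j + 1) ≠ 0 := by positivity
  have b5 : ((q : ℝ) + 1) ≠ 0 := by positivity
  have b6 : ((j : ℝ) + 1) ≠ 0 := by positivity
  field_simp
  ring

theorem nsq_eq (q j : ℕ) : nsq q j = nf q j := by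
  induction j generalizing q with
  | zero =>
    rw [nsq_zero]; unfold nf
    have h := Nat.choose_mul_factorial_mul_factorial (show q ≤ 2 * q by omega)
    have h' : ((2 * q).choose q : ℝ) * (q.factorial : ℝ) * ((2 * q - q).factorial : ℝ) =
      ((2 * q).factorial : ℝ) := by exact_mod_cast h
    rw [show 2 * q - q = q by omega] at h'
    have b2 : (q.factorial : ℝ) ≠ 0 := by positivity
    simp only [mul_zero, Nat.factorial_zero, Nat.cast_one, one_mul, add_zero]
    rw [eq_div_iff (by positivity)]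
    linarith
  | succ j ih =>
    have h1 := nsq_rec q j
    have h2 := nf_rec q j
    rw [ih, ih] at h1
    linarith

/-- coefficient bound for even exponents -/
theorem cf_bound (q j i : ℕ) : |cf (2 * q) (2 * j) i| ≤ nf q j := by
  rw [← nsq_eq]
  have e : ((1 + X) ^ (2 * q) * (1 - X) ^ (2 * j) : ℝ[X]) =
      ((1 + X) ^ q * (1 - X) ^ j) * ((1 + X) ^ q * (1 - X) ^ j) := by
    rw [mul_comm 2 q, mul_comm 2 j, pow_mul, pow_mul]; ring
  have h : cf (2 * q) (2 * j) i = ∑ x ∈ antidiagonal i, cf q j x.1 * cf q j x.2 := by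
    unfold cf; rw [e, coeff_mul]
  rw [h]
  have key : ∀ s : Finset ℕ, ∑ i ∈ s, cf q j i ^ 2 ≤ nsq q j := by
    intro s
    unfold nsq
    have : ∑ i ∈ s, cf q j i ^ 2 = ∑ i ∈ s.filter (fun i => i < q + j + 1), cf q j i ^ 2 := by
      rw [sum_filter]
      refine sum_congr rfl fun i _ => ?_
      split_ifs with hi
      · rfl
      · rw [cf_zero_of_gt q j i (by omega)]; simp
    rw [this]
    refine sum_le_sum_of_subset_of_nonneg ?_ fun _ _ _ => sq_nonneg _
    intro x hx
    rw [mem_filter] at hx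
    exact mem_range.2 hx.2
  calc |∑ x ∈ antidiagonal i, cf q j x.1 * cf q j x.2|
      ≤ ∑ x ∈ antidiagonal i, |cf q j x.1 * cf q j x.2| := abs_sum_le_sum_abs _ _
    _ ≤ ∑ x ∈ antidiagonal i, (cf q j x.1 ^ 2 + cf q j x.2 ^ 2) / 2 := by
        refine sum_le_sum fun x _ => ?_
        rw [abs_mul]
        nlinarith [sq_nonneg (|cf q j x.1| - |cf q j x.2|), sq_abs (cf q j x.1),
          sq_abs (cf q j x.2)]
    _ = (∑ x ∈ antidiagonal i, cf q j x.1 ^ 2) / 2 + (∑ x ∈ antidiagonal i, cf q j x.2 ^ 2) / 2 := by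
        rw [← sum_div, sum_add_distrib, add_div]
    _ ≤ nsq q j := by
        have h1 : ∑ x ∈ antidiagonal i, cf q j x.1 ^ 2 ≤ nsq q j := by
          rw [Finset.Nat.sum_antidiagonal_eq_sum_range_succ_mk]
          exact key _
        have h2 : ∑ x ∈ antidiagonal i, cf q j x.2 ^ 2 ≤ nsq q j := by
          have := Finset.Nat.sum_antidiagonal_swap (n := i) (f := fun x : ℕ × ℕ => cf q j x.2 ^ 2)
          simp only [Prod.snd_swap] at this
          rw [← this, Finset.Nat.sum_antidiagonal_eq_sum_range_succ_mk]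
          exact key _
        linarith


/-- The coefficients of `(1 + z)^(2q) (1 - z)^(2j)` are bounded by the square norm of the
coefficients of `(1 + z)^q (1 - z)^j`, which is `(2j)! (2q)! / (j! q! (q+j)!)` (parallelogram
law and induction on `j`). -/
theorem coeff_bound (q j i : ℕ) :
    |((1 + Polynomial.X : Polynomial ℝ) ^ (2 * q) * (1 - Polynomial.X) ^ (2 * j)).coeff i|
      ≤ ((2 * j).factorial : ℝ) * ((2 * q).factorial : ℝ)
        / ((j.factorial : ℝ) * (q.factorial : ℝ) * ((q + j).factorial : ℝ)) :=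
  cf_bound q j i

end Pool.Agent.Lib.MP_0430e4_lc.Impr
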