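import Pool.Agent.Lib.MP_0430e4_lc.Impr.Defs
import Pool.Agent.Lib.MP_0430e4_lc.Impr.NRM

/-!
# Expansion of the walk average of the binomials in second differences
-/

set_option autoImplicit false

namespace Pool.Agent.Lib.MP_0430e4_lc.Impr

open Finset

/-- Coefficient with an integer index. -/
noncomputable def zcf (P : Polynomial ℝ) (z : ℤ) : ℝ := if 0 ≤ z then P.coeff z.toNat else 0

theorem zcf_one_sub (P : Polynomial ℝ) (z : ℤ) :
    zcf ((1 - Polynomial.X) * P) z = zcf P z - zcf P (z - 1) := by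
  unfold zcf
  rcases lt_trichotomy z 0 with h | h | h
  · rw [if_neg (by omega), if_neg (by omega), if_neg (by omega)]; ring
  · subst h
    rw [if_pos le_rfl, if_pos le_rfl, if_neg (by omega)]
    simp [sub_mul]
  · obtain ⟨i, hi⟩ : ∃ i : ℕ, z = (i : ℤ) + 1 := ⟨(z - 1).toNat, by omega⟩
    subst hi
    rw [if_pos (by omega), if_pos (by omega), if_pos (by omega)]
    have e1 : ((i : ℤ) + 1).toNat = i + 1 := by omega
    have e2 : ((i : ℤ) + 1 - 1).toNat = i := by omega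
    rw [e1, e2, sub_mul, one_mul, Polynomial.coeff_sub, Polynomial.coeff_X_mul]

theorem zcf_one_add (P : Polynomial ℝ) (z : ℤ) :
    zcf ((1 + Polynomial.X) * P) z = zcf P z + zcf P (z - 1) := by
  unfold zcf
  rcases lt_trichotomy z 0 with h | h | h
  · rw [if_neg (by omega), if_neg (by omega), if_neg (by omega)]; ring
  · subst h
    rw [if_pos le_rfl, if_pos le_rfl, if_neg (by omega)]
    simp [add_mul]
  · obtain ⟨i, hi⟩ : ∃ i : ℕ, z = (i : ℤ) + 1 := ⟨(z - 1).toNat, by omega⟩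
    subst hi
    rw [if_pos (by omega), if_pos (by omega), if_pos (by omega)]
    have e1 : ((i : ℤ) + 1).toNat = i + 1 := by omega
    have e2 : ((i : ℤ) + 1 - 1).toNat = i := by omega
    rw [e1, e2, add_mul, one_mul, Polynomial.coeff_add, Polynomial.coeff_X_mul]

/-- The second differences of the binomials (normalised). -/
noncomputable def dlt (k : ℕ) (m : ℤ) (j : ℕ) : ℝ :=
  zcf ((1 + Polynomial.X) ^ k * (1 - Polynomial.X) ^ (2 * j)) (m + j) / 2 ^ j

theorem dlt_zero (k : ℕ) (m : ℤ) : dlt k m 0 = bz k m := by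
  unfold dlt zcf bz
  simp only [Nat.mul_zero, pow_zero, mul_one, Nat.cast_zero, add_zero, div_one]
  split_ifs with h
  · rw [Polynomial.coeff_one_add_X_pow]
  · rfl

theorem dlt_succ (k : ℕ) (m : ℤ) (j : ℕ) :
    dlt k m (j + 1) = (dlt k (m + 1) j - 2 * dlt k m j + dlt k (m - 1) j) / 2 := by
  unfold dlt
  have e : ((1 + Polynomial.X : Polynomial ℝ) ^ k * (1 - Polynomial.X) ^ (2 * (j + 1)))
      = (1 - Polynomial.X) * ((1 - Polynomial.X) * ((1 + Polynomial.X) ^ k * (1 - Polynomial.X) ^ (2 * j))) := by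
    ring
  rw [e, zcf_one_sub, zcf_one_sub, zcf_one_sub]
  have e1 : m + ((j + 1 : ℕ) : ℤ) = m + 1 + j := by push_cast; ring
  have e2 : m + 1 + (j : ℤ) - 1 = m + j := by ring
  have e3 : m + (j : ℤ) - 1 = m - 1 + j := by ring
  rw [e1, e2, e3, pow_succ]
  field_simp
  ring

theorem sum_choose_step (M : ℕ) (g : ℕ → ℝ) :
    ∑ i ∈ range (M + 1 + 1), (((M + 1).choose i : ℕ) : ℝ) * g i
      = ∑ i ∈ range (M + 1), ((M.choose i : ℕ) : ℝ) * g i
        + ∑ i ∈ range (M + 1), ((M.choose i : ℕ) : ℝ) * g (i + 1) := by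
  rw [Finset.sum_range_succ']
  have h1 : ∑ i ∈ range (M + 1), (((M + 1).choose (i + 1) : ℕ) : ℝ) * g (i + 1)
      = ∑ i ∈ range (M + 1), ((M.choose i : ℕ) : ℝ) * g (i + 1)
        + ∑ i ∈ range (M + 1), ((M.choose (i + 1) : ℕ) : ℝ) * g (i + 1) := by
    rw [← Finset.sum_add_distrib]
    refine Finset.sum_congr rfl fun i _ => ?_
    rw [Nat.choose_succ_succ]
    push_cast
    ring
  have h2 : ∑ i ∈ range (M + 1), ((M.choose (i + 1) : ℕ) : ℝ) * g (i + 1)
      + ((M.choose 0 : ℕ) : ℝ) * g 0 = ∑ i ∈ range (M + 1), ((M.choose i : ℕ) : ℝ) * g i := by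
    rw [← Finset.sum_range_succ' (fun i => ((M.choose i : ℕ) : ℝ) * g i) (M + 1),
      Finset.sum_range_succ, Nat.choose_succ_self]
    simp
  rw [h1]
  simp only [Nat.choose_zero_right] at h2 ⊢
  linarith

theorem cc_succ (k : ℕ) (m : ℤ) (M : ℕ) :
    cc k m (M + 1) = (cc k (m - 1) M + cc k (m + 1) M) / 2 := by
  unfold cc
  rw [sum_choose_step M (fun i => bz k (m + 2 * (i : ℤ) - ((M + 1 : ℕ) : ℤ)))]
  have h1 : ∑ i ∈ range (M + 1), ((M.choose i : ℕ) : ℝ) * bz k (m + 2 * (i : ℤ) - ((M + 1 : ℕ) : ℤ))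
      = ∑ i ∈ range (M + 1), ((M.choose i : ℕ) : ℝ) * bz k (m - 1 + 2 * (i : ℤ) - (M : ℤ)) := by
    refine Finset.sum_congr rfl fun i _ => ?_
    congr 2
    push_cast
    ring
  have h2 : ∑ i ∈ range (M + 1), ((M.choose i : ℕ) : ℝ)
        * bz k (m + 2 * ((i + 1 : ℕ) : ℤ) - ((M + 1 : ℕ) : ℤ))
      = ∑ i ∈ range (M + 1), ((M.choose i : ℕ) : ℝ) * bz k (m + 1 + 2 * (i : ℤ) - (M : ℤ)) := by
    refine Finset.sum_congr rfl fun i _ => ?_
    congr 2
    push_cast
    ring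
  rw [h1, h2, pow_succ]
  field_simp

theorem cc_eq_dlt (k : ℕ) (M : ℕ) : ∀ m : ℤ,
    cc k m M = ∑ j ∈ range (M + 1), ((M.choose j : ℕ) : ℝ) * dlt k m j := by
  induction M with
  | zero =>
    intro m
    simp [cc, dlt_zero]
  | succ M ih =>
    intro m
    rw [cc_succ, ih, ih, sum_choose_step, ← Finset.sum_add_distrib, ← Finset.sum_add_distrib,
      Finset.sum_div]
    refine Finset.sum_congr rfl fun i _ => ?_
    rw [dlt_succ]
    ring

theorem zcf_bound (q j : ℕ) (z : ℤ) :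
    |zcf ((1 + Polynomial.X) ^ (2 * q) * (1 - Polynomial.X) ^ (2 * j)) z|
      ≤ (((2 * q).choose q : ℕ) : ℝ) * (((2 * j).factorial : ℝ)
        / ((j.factorial : ℝ) * ((q : ℝ) + 1) ^ j)) := by
  have hpos : (0 : ℝ) ≤ (((2 * q).choose q : ℕ) : ℝ) * (((2 * j).factorial : ℝ)
        / ((j.factorial : ℝ) * ((q : ℝ) + 1) ^ j)) := by positivity
  unfold zcf
  split_ifs with h
  · refine (coeff_bound q j z.toNat).trans ?_
    have h1 : ((2 * q).factorial : ℝ)
        = (((2 * q).choose q : ℕ) : ℝ) * (q.factorial : ℝ) * (q.factorial : ℝ) := by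
      have := Nat.choose_mul_factorial_mul_factorial (show q ≤ 2 * q by omega)
      have e : 2 * q - q = q := by omega
      rw [e] at this
      exact_mod_cast this.symm
    have h2 : (q.factorial : ℝ) * ((q : ℝ) + 1) ^ j ≤ ((q + j).factorial : ℝ) := by
      exact_mod_cast Nat.factorial_mul_pow_le_factorial
    rw [h1]
    have hq : (0 : ℝ) < (q.factorial : ℝ) := by exact_mod_cast Nat.factorial_pos q
    have hj : (0 : ℝ) < (j.factorial : ℝ) := by exact_mod_cast Nat.factorial_pos j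
    have hqj : (0 : ℝ) < ((q + j).factorial : ℝ) := by exact_mod_cast Nat.factorial_pos (q + j)
    have hp : (0 : ℝ) < ((q : ℝ) + 1) ^ j := by positivity
    have hJ : (0 : ℝ) ≤ ((2 * j).factorial : ℝ) := by positivity
    have hC : (0 : ℝ) ≤ (((2 * q).choose q : ℕ) : ℝ) := by positivity
    have e1 : ((2 * j).factorial : ℝ) * ((((2 * q).choose q : ℕ) : ℝ) * (q.factorial : ℝ)
        * (q.factorial : ℝ)) / ((j.factorial : ℝ) * (q.factorial : ℝ) * ((q + j).factorial : ℝ))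
        = (((2 * q).choose q : ℕ) : ℝ) * ((2 * j).factorial : ℝ) / (j.factorial : ℝ)
          * ((q.factorial : ℝ) / ((q + j).factorial : ℝ)) := by
      field_simp
    have e2 : (((2 * q).choose q : ℕ) : ℝ) * (((2 * j).factorial : ℝ)
        / ((j.factorial : ℝ) * ((q : ℝ) + 1) ^ j))
        = (((2 * q).choose q : ℕ) : ℝ) * ((2 * j).factorial : ℝ) / (j.factorial : ℝ)
          * (1 / ((q : ℝ) + 1) ^ j) := by
      field_simp
    rw [e1, e2]
    apply mul_le_mul_of_nonneg_left _ (by positivity)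
    rw [div_le_div_iff₀ hqj hp]
    linarith
  · simpa using hpos

theorem dlt_bound (k : ℕ) (m : ℤ) (j : ℕ) :
    |dlt k m j| ≤ 2 * cst k * (((2 * j).factorial : ℝ)
      / ((j.factorial : ℝ) * (2 * (((k / 2 : ℕ) : ℝ) + 1)) ^ j)) := by
  have h2 : (0 : ℝ) < 2 ^ j := by positivity
  unfold dlt
  rw [abs_div, abs_of_pos h2, div_le_iff₀ h2]
  have e0 : 2 * cst k * (((2 * j).factorial : ℝ)
      / ((j.factorial : ℝ) * (2 * (((k / 2 : ℕ) : ℝ) + 1)) ^ j)) * 2 ^ j
      = 2 * cst k * (((2 * j).factorial : ℝ)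
      / ((j.factorial : ℝ) * (((k / 2 : ℕ) : ℝ) + 1) ^ j)) := by
    rw [mul_pow]
    field_simp
  rw [e0]
  have hF : (0 : ℝ) ≤ (((2 * j).factorial : ℝ)
      / ((j.factorial : ℝ) * (((k / 2 : ℕ) : ℝ) + 1) ^ j)) := by positivity
  rcases Nat.even_or_odd' k with ⟨q, hq | hq⟩
  · subst hq
    have e : 2 * q / 2 = q := by omega
    unfold cst
    rw [e] at hF ⊢
    refine (zcf_bound q j _).trans ?_
    apply mul_le_mul_of_nonneg_right _ hF
    have : (0 : ℝ) ≤ (((2 * q).choose q : ℕ) : ℝ) := by positivity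
    linarith
  · subst hq
    have e : (2 * q + 1) / 2 = q := by omega
    unfold cst
    rw [e] at hF ⊢
    have e1 : ((1 + Polynomial.X : Polynomial ℝ) ^ (2 * q + 1) * (1 - Polynomial.X) ^ (2 * j))
        = (1 + Polynomial.X) * ((1 + Polynomial.X) ^ (2 * q) * (1 - Polynomial.X) ^ (2 * j)) := by
      ring
    rw [e1, zcf_one_add]
    refine (abs_add_le _ _).trans ?_
    have h3 := zcf_bound q j (m + j)
    have h4 := zcf_bound q j (m + j - 1)
    have h5 : (((2 * q).choose q : ℕ) : ℝ) ≤ (((2 * q + 1).choose q : ℕ) : ℝ) := by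
      exact_mod_cast Nat.choose_le_choose q (Nat.le_succ _)
    have h6 := mul_le_mul_of_nonneg_right h5 hF
    linarith

theorem exists_dl (k : ℕ) : ∃ dl : ℤ → ℕ → ℝ, (∀ m, dl m 0 = bz k m) ∧
    (∀ m M, cc k m M = ∑ j ∈ range (M + 1), ((M.choose j : ℕ) : ℝ) * dl m j) ∧
    (∀ m j, |dl m j| ≤ 2 * cst k * (((2 * j).factorial : ℝ)
      / ((j.factorial : ℝ) * (2 * (((k / 2 : ℕ) : ℝ) + 1)) ^ j))) :=
  ⟨dlt k, dlt_zero k, fun m M => cc_eq_dlt k M m, dlt_bound k⟩

end Pool.Agent.Lib.MP_0430e4_lc.Impr
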