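import Pool.Agent.Lib.MP_0430e4_lc.Impr.REGR
import Pool.Agent.Lib.MP_0430e4_lc.Impr.CEN
import Pool.Agent.Lib.MP_0430e4_lc.Impr.DELTA
import Pool.Agent.Lib.MP_0430e4_lc.Impr.PHI

/-!
# MP_0430e4_lc, improvement: module REG2
-/

set_option autoImplicit false

namespace Pool.Agent.Lib.MP_0430e4_lc.Impr

open Finset

/-- Product form of the coefficients. -/
theorem reg2_ew (y : ℝ) {M j : ℕ} (h : j ≤ M) :
    ew (-y) M * ((M.choose j : ℕ) : ℝ) = ew (-y) j * ew (-y) (M - j) := by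
  unfold ew
  have h1 : ((M.choose j : ℕ) : ℝ) * (j.factorial : ℝ) * ((M - j).factorial : ℝ)
      = (M.factorial : ℝ) := by
    exact_mod_cast Nat.choose_mul_factorial_mul_factorial h
  have h2 : (j.factorial : ℝ) ≠ 0 := by exact_mod_cast j.factorial_ne_zero
  have h3 : ((M - j).factorial : ℝ) ≠ 0 := by exact_mod_cast (M - j).factorial_ne_zero
  have h4 : (M.factorial : ℝ) ≠ 0 := by exact_mod_cast M.factorial_ne_zero
  have h5 : (-y) ^ M = (-y) ^ j * (-y) ^ (M - j) := by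
    rw [← pow_add, Nat.add_sub_cancel' h]
  have h6 : ((M.choose j : ℕ) : ℝ) ≠ 0 := by exact_mod_cast (Nat.choose_pos h).ne'
  rw [h5, ← h1]
  field_simp

/-- Truncation of the Laguerre sums. -/
theorem reg2_trunc {N L R : ℕ} (u : ℝ) (hR : N < L + R) :
    ∑ M ∈ range R, ew (-u) M * ((N.choose (L + M) : ℕ) : ℝ) = Ph N u L := by
  unfold Ph
  have key : ∀ R' : ℕ, N < L + R' →
      ∑ M ∈ range R', ew (-u) M * ((N.choose (L + M) : ℕ) : ℝ)
        = ∑ M ∈ range (N + 1 - L), ew (-u) M * ((N.choose (L + M) : ℕ) : ℝ) := by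
    intro R' hR'
    symm
    apply Finset.sum_subset
    · intro x hx
      rw [mem_range] at hx ⊢
      omega
    · intro x hx hx'
      rw [mem_range] at hx hx'
      rw [Nat.choose_eq_zero_of_lt (by omega)]
      simp
  rw [key R hR, key (N + 1) (by omega)]

theorem reg2_expand {n k L : ℕ} (hk : k ≤ n) (y : ℝ) {c d : ℕ → ℝ}
    (hc : ∀ M, c M = ∑ j ∈ range (M + 1), ((M.choose j : ℕ) : ℝ) * d j) :
    ∑ M ∈ range (n + 1), ew (-y) M * c M * bz (n - k) ((L : ℤ) + M)
      = ∑ j ∈ range (n + 1), ew (-y) j * d j * Ph (n - k) y (L + j) := by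
  have hbz : ∀ M : ℕ, bz (n - k) ((L : ℤ) + M) = (((n - k).choose (L + M) : ℕ) : ℝ) := by
    intro M
    unfold bz
    rw [if_pos (by positivity)]
    congr 2
  have h1 : ∀ M ∈ range (n + 1), ew (-y) M * c M * bz (n - k) ((L : ℤ) + M)
      = ∑ j ∈ range (M + 1), ew (-y) j * d j
        * (ew (-y) (M - j) * (((n - k).choose (L + j + (M - j)) : ℕ) : ℝ)) := by
    intro M _
    rw [hbz, hc, mul_sum, sum_mul]
    apply sum_congr rfl
    intro j hj
    have hj' : j ≤ M := by rw [mem_range] at hj; omega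
    have h2 := reg2_ew y hj'
    have h3 : L + j + (M - j) = L + M := by omega
    rw [h3]
    calc ew (-y) M * (((M.choose j : ℕ) : ℝ) * d j) * (((n - k).choose (L + M) : ℕ) : ℝ)
        = (ew (-y) M * ((M.choose j : ℕ) : ℝ)) * d j * (((n - k).choose (L + M) : ℕ) : ℝ) := by
          ring
      _ = _ := by rw [h2]; ring
  rw [sum_congr rfl h1]
  rw [Finset.sum_comm' (t' := range (n + 1)) (s' := fun j => Ico j (n + 1)) (by
    intro x z
    simp only [mem_range, mem_Ico]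
    omega)]
  apply sum_congr rfl
  intro j hj
  rw [mem_range] at hj
  rw [Finset.sum_Ico_eq_sum_range, ← mul_sum, ← reg2_trunc y (show n - k < L + j + (n + 1 - j) by omega)]
  congr 1
  apply sum_congr rfl
  intro M _
  rw [Nat.add_sub_cancel_left]

theorem region2_pair {n k a b L0 L : ℕ} {y : ℝ} {m : ℤ} (hk : k ≤ n) (hy : 0 < y)
    (hm : 2 * m = k + a - b) (hL : 2 * (L : ℤ) = a + b - k) (hL0 : 1 ≤ L0) (hLL : L0 ≤ L)
    (hP : 4 * y * n + 2 * y * ((L0 : ℝ) + 1) ≤ (L0 : ℝ) * ((L0 : ℝ) + 1))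
    (hr : 72 * y * n ≤ (L0 : ℝ) * k) (hD : 2 * (2 * m - k) ^ 2 ≤ (k : ℤ)) :
    1 / 2 * cst k * Ph (n - k) y L ≤ LamP n k (-(y / 2)) a b ∧
      LamP n k (-(y / 2)) a b ≤ 5 / 4 * cst k * Ph (n - k) y L := by
  obtain ⟨dl, hd0, hd1, hd2⟩ := exists_dl k
  have hLam : LamP n k (-(y / 2)) a b
      = ∑ j ∈ range (n + 1), ew (-y) j * dl m j * Ph (n - k) y (L + j) := by
    rw [LamP_regroup hk (-(y / 2)) hm hL, show 2 * -(y / 2) = -y by ring]
    exact reg2_expand hk y (hd1 m)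
  have hNn : ((n - k : ℕ) : ℝ) ≤ n := by exact_mod_cast Nat.sub_le n k
  have hL0' : (1 : ℝ) ≤ L0 := by exact_mod_cast hL0
  have hP' : 4 * y * ((n - k : ℕ) : ℝ) + 2 * y * ((L0 : ℝ) + 1) ≤ (L0 : ℝ) * ((L0 : ℝ) + 1) := by
    refine le_trans ?_ hP
    have : y * ((n - k : ℕ) : ℝ) ≤ y * n := by gcongr
    linarith
  have hPh : ∀ j, 0 ≤ Ph (n - k) y (L + j) ∧
      Ph (n - k) y (L + j) ≤ (2 * ((n - k : ℕ) : ℝ) / L0) ^ j * Ph (n - k) y L :=
    fun j => Ph_ratio hy.le hL0 hP' hLL j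
  have hPh0 : 0 ≤ Ph (n - k) y L := (hPh 0).1
  have hc0 := cst_pos k
  set q : ℝ := ((k / 2 : ℕ) : ℝ) with hq
  have hq0 : 0 ≤ q := by positivity
  -- the ratio
  have hkq : (k : ℝ) ≤ 2 * (q + 1) := by
    have : k ≤ 2 * (k / 2 + 1) := by omega
    have h' : (k : ℝ) ≤ 2 * (((k / 2 : ℕ) : ℝ) + 1) := by exact_mod_cast this
    exact h'
  set N : ℝ := ((n - k : ℕ) : ℝ) with hN
  have hN0 : 0 ≤ N := by positivity
  have hρ : 4 * (y * N / ((q + 1) * L0)) ≤ 1 / 9 := by
    rw [mul_div_assoc', div_le_div_iff₀ (by positivity) (by norm_num)]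
    have h1 : y * N ≤ y * n := by gcongr
    have h2 : (L0 : ℝ) * k ≤ L0 * (2 * (q + 1)) := by gcongr
    nlinarith
  have hterm : ∀ j : ℕ, |ew (-y) j * dl m j * Ph (n - k) y (L + j)|
      ≤ 2 * (cst k * Ph (n - k) y L) * (1 / 9) ^ j := by
    intro j
    have h1 : |ew (-y) j| = y ^ j / (j.factorial : ℝ) := by
      unfold ew
      rw [abs_div, abs_pow, abs_neg, abs_of_pos hy, abs_of_nonneg (by positivity : (0:ℝ) ≤ (j.factorial : ℝ))]
    rw [abs_mul, abs_mul, h1, abs_of_nonneg (hPh j).1]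
    have h4 : ((2 * j).factorial : ℝ) ≤ 4 ^ j * ((j.factorial : ℝ) * (j.factorial : ℝ)) := by
      have h5 : ((2 * j).choose j) * (j.factorial * j.factorial) = (2 * j).factorial := by
        have := Nat.choose_mul_factorial_mul_factorial (show j ≤ 2 * j by omega)
        rw [show 2 * j - j = j by omega] at this
        rw [← this, mul_assoc]
      have h6 : (2 * j).choose j ≤ 4 ^ j := by
        calc (2 * j).choose j ≤ 2 ^ (2 * j) := Nat.choose_le_two_pow _ _
          _ = 4 ^ j := by rw [pow_mul]; norm_num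
      have h7 : (2 * j).factorial ≤ 4 ^ j * (j.factorial * j.factorial) := by
        rw [← h5]; exact Nat.mul_le_mul_right _ h6
      exact_mod_cast h7
    have hjf : (0 : ℝ) < (j.factorial : ℝ) := by exact_mod_cast j.factorial_pos
    calc y ^ j / (j.factorial : ℝ) * |dl m j| * Ph (n - k) y (L + j)
        ≤ y ^ j / (j.factorial : ℝ) * (2 * cst k * (((2 * j).factorial : ℝ)
            / ((j.factorial : ℝ) * (2 * (q + 1)) ^ j))) * ((2 * N / L0) ^ j * Ph (n - k) y L) := by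
          gcongr
          · exact (hPh j).1
          · exact hd2 m j
          · exact (hPh j).2
      _ ≤ y ^ j / (j.factorial : ℝ) * (2 * cst k * ((4 ^ j * ((j.factorial : ℝ) * (j.factorial : ℝ)))
            / ((j.factorial : ℝ) * (2 * (q + 1)) ^ j))) * ((2 * N / L0) ^ j * Ph (n - k) y L) := by
          gcongr
      _ = 2 * (cst k * Ph (n - k) y L) * (4 * (y * N / ((q + 1) * L0))) ^ j := by
          have hL0n : (L0 : ℝ) ≠ 0 := by positivity
          have hqn : q + 1 ≠ 0 := by positivity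
          have e1 : (2 * N / L0) ^ j = 2 ^ j * N ^ j / (L0 : ℝ) ^ j := by
            rw [div_pow, mul_pow]
          have e2 : (2 * (q + 1)) ^ j = 2 ^ j * (q + 1) ^ j := mul_pow _ _ _
          have e3 : (4 * (y * N / ((q + 1) * L0))) ^ j
              = 4 ^ j * (y ^ j * N ^ j / ((q + 1) ^ j * (L0 : ℝ) ^ j)) := by
            rw [mul_pow, div_pow, mul_pow, mul_pow]
          rw [e1, e2, e3]
          field_simp
      _ ≤ 2 * (cst k * Ph (n - k) y L) * (1 / 9) ^ j := by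
          gcongr
  have hmain : |LamP n k (-(y / 2)) a b - bz k m * Ph (n - k) y L|
      ≤ 1 / 4 * (cst k * Ph (n - k) y L) := by
    rw [hLam, Finset.sum_range_succ']
    have h0 : ew (-y) 0 * dl m 0 * Ph (n - k) y (L + 0) = bz k m * Ph (n - k) y L := by
      rw [hd0]; unfold ew; simp
    rw [h0, add_sub_cancel_right]
    calc |∑ j ∈ range n, ew (-y) (j + 1) * dl m (j + 1) * Ph (n - k) y (L + (j + 1))|
        ≤ ∑ j ∈ range n, |ew (-y) (j + 1) * dl m (j + 1) * Ph (n - k) y (L + (j + 1))| :=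
          Finset.abs_sum_le_sum_abs _ _
      _ ≤ ∑ j ∈ range n, 2 * (cst k * Ph (n - k) y L) * (1 / 9) ^ (j + 1) :=
          sum_le_sum fun j _ => hterm (j + 1)
      _ = 2 * (cst k * Ph (n - k) y L) * (1 / 9) * ∑ j ∈ range n, ((1 : ℝ) / 9) ^ j := by
          rw [mul_sum]
          apply sum_congr rfl
          intro j _
          ring
      _ ≤ 2 * (cst k * Ph (n - k) y L) * (1 / 9) * (9 / 8) := by
          gcongr
          rw [geom_sum_eq (by norm_num)]
          have : (0 : ℝ) ≤ (1 / 9) ^ n := by positivity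
          rw [div_le_iff_of_neg (by norm_num)]
          linarith
      _ = 1 / 4 * (cst k * Ph (n - k) y L) := by ring
  have hb1 : bz k m * Ph (n - k) y L ≤ cst k * Ph (n - k) y L :=
    mul_le_mul_of_nonneg_right (bz_le_cst k m) hPh0
  have hb2 : 3 / 4 * cst k * Ph (n - k) y L ≤ bz k m * Ph (n - k) y L :=
    mul_le_mul_of_nonneg_right (cst_le_bz hD) hPh0
  rw [abs_le] at hmain
  constructor <;> linarith [hmain.1, hmain.2]

end Pool.Agent.Lib.MP_0430e4_lc.Impr
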