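import Pool.Agent.Lib.MP_0430e4_lc.Impr.PK

/-!
# Module REGR: regrouping of the kernel `LamP` (helper4)
-/

set_option autoImplicit false

namespace Pool.Agent.Lib.MP_0430e4_lc.Impr

open Finset

theorem LamP_odd {n k a b : ℕ} (s : ℝ) (h : (k + a + b) % 2 = 1) : LamP n k s a b = 0 := by
  unfold LamP
  apply sum_eq_zero
  intro i _
  apply sum_eq_zero
  intro j _
  rw [pk_odd (by omega), mul_zero]

theorem regr_bz_big {N : ℕ} {z : ℤ} (h : (N : ℤ) < z) : bz N z = 0 := by
  unfold bz
  split_ifs with h0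
  · rw [Nat.choose_eq_zero_of_lt (by omega)]
    simp
  · rfl

theorem regr_ew_mul (s : ℝ) {M i : ℕ} (h : i ≤ M) :
    ew s i * ew s (M - i) = ew (2 * s) M / 2 ^ M * ((M.choose i : ℕ) : ℝ) := by
  unfold ew
  rw [Nat.cast_choose ℝ h]
  have h1 : (i.factorial : ℝ) ≠ 0 := by exact_mod_cast i.factorial_ne_zero
  have h2 : ((M - i).factorial : ℝ) ≠ 0 := by exact_mod_cast (M - i).factorial_ne_zero
  have h3 : (M.factorial : ℝ) ≠ 0 := by exact_mod_cast M.factorial_ne_zero
  have h4 : s ^ i * s ^ (M - i) = s ^ M := by rw [← pow_add]; congr 1; omega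
  have h5 : (2:ℝ) ^ M ≠ 0 := by positivity
  rw [mul_pow]
  field_simp
  rw [← h4]

theorem LamP_regroup {n k a b : ℕ} (hk : k ≤ n) (s : ℝ) {m L : ℤ} (hm : 2 * m = k + a - b)
    (hL : 2 * L = a + b - k) :
    LamP n k s a b
      = ∑ M ∈ range (n + 1), ew (2 * s) M * cc k m M * bz (n - k) (L + M) := by
  have hpk : ∀ i j : ℕ, pk n k (a + 2 * i) (b + 2 * j)
      = bz k (m + i - j) * bz (n - k) (L + (i + j)) := by
    intro i j
    apply pk_eq hk
    · push_cast; linarith
    · push_cast; linarith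
  set f : ℕ → ℕ → ℝ := fun i j =>
    ew s i * ew s j * (bz k (m + i - j) * bz (n - k) (L + (i + j))) with hf
  have hzero : ∀ i j : ℕ, n < i + j → f i j = 0 := by
    intro i j hij
    have : bz (n - k) (L + (i + j)) = 0 := by
      apply regr_bz_big
      rw [Nat.cast_sub hk]
      omega
    rw [hf]
    simp only [this, mul_zero]
  have h1 : LamP n k s a b = ∑ i ∈ range (n + 1), ∑ j ∈ range (n + 1 - i), f i j := by
    unfold LamP
    apply sum_congr rfl
    intro i _
    have h2 : ∑ j ∈ range (n + 1), ew s i * ew s j * pk n k (a + 2 * i) (b + 2 * j)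
        = ∑ j ∈ range (n + 1), f i j := by
      apply sum_congr rfl
      intro j _
      rw [hpk]
    rw [h2]
    symm
    apply sum_subset
    · intro j hj
      rw [mem_range] at hj ⊢
      omega
    · intro j _ hj
      apply hzero
      rw [mem_range] at hj
      omega
  rw [h1, ← sum_range_diag_flip]
  apply sum_congr rfl
  intro M _
  unfold cc
  rw [sum_div, mul_sum, sum_mul]
  apply sum_congr rfl
  intro i hi
  rw [mem_range] at hi
  have hi' : i ≤ M := by omega
  have e1 : m + (i : ℤ) - ((M - i : ℕ) : ℤ) = m + 2 * (i : ℤ) - (M : ℤ) := by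
    rw [Nat.cast_sub hi']; ring
  have e2 : L + ((i : ℤ) + ((M - i : ℕ) : ℤ)) = L + (M : ℤ) := by
    rw [Nat.cast_sub hi']; ring
  simp only [hf]
  rw [regr_ew_mul s hi', e1, e2]
  ring

end Pool.Agent.Lib.MP_0430e4_lc.Impr
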