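import Pool.Agent.Lib.MP_0430e4_lc.Impr.PAIR
import Pool.Agent.Lib.MP_0430e4_lc.Impr.PHI
import Pool.Agent.Lib.MP_0430e4_lc.Impr.CEN
import Pool.Agent.Lib.MP_0430e4_lc.Impr.REGR
import Pool.Agent.Lib.MP_0430e4_lc.Impr.REG2

/-!
# Module REG2B: positivity in region 2 (helper4)
-/

set_option autoImplicit false

namespace Pool.Agent.Lib.MP_0430e4_lc.Impr

open Finset

/-- In region 2 the kernel is nonnegative, and a shift of `a` by two costs at most a factor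
`t / (4 y)`. -/
theorem region2_kernel {n k t b0 L0 : ℕ} {y : ℝ} (hk : k ≤ n) (hy : 0 < y)
    (hb : 1 ≤ b0) (hbt : b0 ≤ t) (htk : t ≤ k) (hkL : k + 2 * L0 + 1 ≤ 2 * b0) (hL0 : 1 ≤ L0)
    (hP : 4 * y * n + 2 * y * ((L0 : ℝ) + 1) ≤ (L0 : ℝ) * ((L0 : ℝ) + 1))
    (hr : 72 * y * n ≤ (L0 : ℝ) * t) (hD : 2 * (t + 4 - b0) ^ 2 ≤ t)
    {a b : ℕ} (ha : b0 - 1 ≤ a) (hb1 : b0 ≤ b) (hb2 : b ≤ t) :
    (a ≤ t + 3 → 0 ≤ LamP n k (-(y / 2)) a b) ∧
    (a ≤ t + 1 → 4 * y / t * LamP n k (-(y / 2)) (a + 2) b ≤ LamP n k (-(y / 2)) a b) := by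
  rcases Nat.mod_two_eq_zero_or_one (k + a + b) with hpar | hpar
  · obtain ⟨L, hL⟩ : ∃ L : ℕ, 2 * (L : ℤ) = (a : ℤ) + b - k := by
      refine ⟨(a + b - k) / 2, ?_⟩
      omega
    obtain ⟨m, hm⟩ : ∃ m : ℤ, 2 * m = (k : ℤ) + a - b := by
      refine ⟨((k : ℤ) + a - b) / 2, ?_⟩
      omega
    have hLL : L0 ≤ L := by omega
    have ht0 : (0 : ℝ) < t := by exact_mod_cast (by omega : 0 < t)
    have hL0r : (0 : ℝ) < L0 := by exact_mod_cast (by omega : 0 < L0)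
    have hrk : 72 * y * n ≤ (L0 : ℝ) * k := by
      refine hr.trans (mul_le_mul_of_nonneg_left ?_ hL0r.le)
      exact_mod_cast htk
    have hNn : ((n - k : ℕ) : ℝ) ≤ n := by exact_mod_cast Nat.sub_le n k
    have hPN : 4 * y * ((n - k : ℕ) : ℝ) + 2 * y * ((L0 : ℝ) + 1) ≤ (L0 : ℝ) * ((L0 : ℝ) + 1) := by
      have : 4 * y * ((n - k : ℕ) : ℝ) ≤ 4 * y * n := mul_le_mul_of_nonneg_left hNn (by positivity)
      linarith
    have hPh0 := (Ph_ratio (N := n - k) hy.le hL0 hPN hLL 0).1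
    rw [Nat.add_zero] at hPh0
    have hc := cst_pos k
    -- square condition
    have key : ∀ d : ℤ, -((t : ℤ) + 4 - b0) ≤ d → d ≤ (t : ℤ) + 4 - b0 → 2 * d ^ 2 ≤ (k : ℤ) := by
      intro d h1 h2
      have h3 : d ^ 2 ≤ ((t : ℤ) + 4 - b0) ^ 2 := by nlinarith
      have h4 : 2 * ((t : ℤ) + 4 - b0) ^ 2 ≤ t := by
        have : ((t + 4 - b0 : ℕ) : ℤ) = (t : ℤ) + 4 - b0 := by omega
        rw [← this]
        exact_mod_cast hD
      have h5 : (t : ℤ) ≤ k := by exact_mod_cast htk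
      linarith
    refine ⟨fun ha3 => ?_, fun ha1 => ?_⟩
    · have h1 := (region2_pair (n := n) (L := L) hk hy hm hL hL0 hLL hP hrk
        (key _ (by omega) (by omega))).1
      have : 0 ≤ 1 / 2 * cst k * Ph (n - k) y L := by positivity
      linarith
    · have h1 := (region2_pair (n := n) (L := L) hk hy hm hL hL0 hLL hP hrk
        (key _ (by omega) (by omega))).1
      have h2 := (region2_pair (n := n) (a := a + 2) (b := b) (m := m + 1) (L := L + 1) hk hy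
        (by push_cast; linarith) (by push_cast; linarith) hL0 (by omega) hP hrk
        (key _ (by push_cast; omega) (by push_cast; omega))).2
      have h3 := (Ph_ratio (N := n - k) hy.le hL0 hPN hLL 1).2
      rw [pow_one] at h3
      have h4 : 4 * y / t * (5 / 4 * (2 * ((n - k : ℕ) : ℝ) / L0)) ≤ 1 / 2 := by
        rw [show 4 * y / t * (5 / 4 * (2 * ((n - k : ℕ) : ℝ) / L0))
            = 10 * y * ((n - k : ℕ) : ℝ) / (t * L0) by field_simp; ring]
        rw [div_le_iff₀ (by positivity)]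
        have : 10 * y * ((n - k : ℕ) : ℝ) ≤ 10 * y * n := mul_le_mul_of_nonneg_left hNn (by positivity)
        have h0 : 0 ≤ y * (n : ℝ) := by positivity
        nlinarith
      calc 4 * y / t * LamP n k (-(y / 2)) (a + 2) b
          ≤ 4 * y / t * (5 / 4 * cst k * Ph (n - k) y (L + 1)) :=
            mul_le_mul_of_nonneg_left h2 (by positivity)
        _ ≤ 4 * y / t * (5 / 4 * cst k * (2 * ((n - k : ℕ) : ℝ) / L0 * Ph (n - k) y L)) := by
            gcongr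
        _ = 4 * y / t * (5 / 4 * (2 * ((n - k : ℕ) : ℝ) / L0)) * (cst k * Ph (n - k) y L) := by ring
        _ ≤ 1 / 2 * (cst k * Ph (n - k) y L) := by
            gcongr
        _ ≤ LamP n k (-(y / 2)) a b := by linarith
  · refine ⟨fun _ => ?_, fun _ => ?_⟩
    · rw [LamP_odd _ hpar]
    · rw [LamP_odd _ hpar, LamP_odd _ (by omega), mul_zero]

theorem region2 {n k t b0 L0 : ℕ} {y : ℝ} {w u v : ℤ → ℝ} (hk : k ≤ n) (hy : 0 < y)
    (hb : 1 ≤ b0) (hbt : b0 ≤ t) (htk : t ≤ k) (hkL : k + 2 * L0 + 1 ≤ 2 * b0) (hL0 : 1 ≤ L0)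
    (hP : 4 * y * n + 2 * y * ((L0 : ℝ) + 1) ≤ (L0 : ℝ) * ((L0 : ℝ) + 1))
    (hr : 72 * y * n ≤ (L0 : ℝ) * t) (hD : 2 * (t + 4 - b0) ^ 2 ≤ t)
    (hw0 : ∀ z, 0 ≤ w z) (hu0 : ∀ z, 0 ≤ u z) (hv0 : ∀ z, 0 ≤ v z)
    (hws : ∀ z, w z ≠ 0 → (b0 : ℤ) - 1 ≤ z ∧ z ≤ t + 1)
    (hus : ∀ z, u z ≠ 0 → (t : ℤ) + 2 ≤ z ∧ z ≤ t + 3)
    (hvs : ∀ z, v z ≠ 0 → (b0 : ℤ) ≤ z ∧ z ≤ t)
    (hu : ∀ z, u z ≤ 4 * y / t * w (z - 2)) :
    0 ≤ conv n k (De n (-(y / 2)) (fun z => w z - u z)) (De n (-(y / 2)) v) := by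
  have hS : ∀ z : ℤ, (fun z => w z - u z) z ≠ 0 → ∃ a ∈ Icc (b0 - 1) (t + 3), (a : ℤ) = z := by
    intro z hz
    have h : w z ≠ 0 ∨ u z ≠ 0 := by
      by_contra hcon
      push Not at hcon
      exact hz (by simp [hcon.1, hcon.2])
    have h2 : (b0 : ℤ) - 1 ≤ z ∧ z ≤ t + 3 := by
      rcases h with h | h
      · have := hws z h; omega
      · have := hus z h; omega
    refine ⟨z.toNat, ?_, by omega⟩
    rw [mem_Icc]; omega
  have hT : ∀ z : ℤ, v z ≠ 0 → ∃ b ∈ Icc b0 t, (b : ℤ) = z := by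
    intro z hz
    have := hvs z hz
    refine ⟨z.toNat, ?_, by omega⟩
    rw [mem_Icc]; omega
  rw [conv_De hk hS hT, sum_comm]
  apply sum_nonneg
  intro b hbT
  rw [mem_Icc] at hbT
  have hker := fun {a : ℕ} (ha : b0 - 1 ≤ a) =>
    region2_kernel (L0 := L0) hk hy hb hbt htk hkL hL0 hP hr hD ha hbT.1 hbT.2
  have h1 : ∑ a ∈ Icc (b0 - 1) (t + 3), (w a - u a) * v b * LamP n k (-(y / 2)) a b
      = v b * (∑ a ∈ Icc (b0 - 1) (t + 3), w a * LamP n k (-(y / 2)) a b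
        - ∑ a ∈ Icc (b0 - 1) (t + 3), u a * LamP n k (-(y / 2)) a b) := by
    rw [← sum_sub_distrib, mul_sum]
    apply sum_congr rfl
    intro a _
    ring
  rw [h1]
  apply mul_nonneg (hv0 _)
  have h2 : ∑ a ∈ Icc (b0 - 1) (t + 3), u a * LamP n k (-(y / 2)) a b
      = ∑ a ∈ Icc t (t + 1), u ((a : ℤ) + 2) * LamP n k (-(y / 2)) (a + 2) b := by
    have e : Icc (t + 2) (t + 3) ⊆ Icc (b0 - 1) (t + 3) := by
      intro a ha
      rw [mem_Icc] at ha ⊢
      omega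
    rw [← sum_subset e]
    · have e2 : Icc (t + 2) (t + 3) = (Icc t (t + 1)).image (fun a => a + 2) := by
        ext a
        simp only [mem_Icc, mem_image]
        constructor
        · intro h
          exact ⟨a - 2, by omega, by omega⟩
        · rintro ⟨c, hc, rfl⟩
          omega
      rw [e2, sum_image (by intro p _ q _ h; simpa using h)]
      apply sum_congr rfl
      intro a _
      push_cast
      rfl
    · intro a ha ha2
      have : u (a : ℤ) = 0 := by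
        by_contra hne
        have := hus _ hne
        apply ha2
        rw [mem_Icc]
        omega
      rw [this, zero_mul]
  have h3 : ∑ a ∈ Icc t (t + 1), u ((a : ℤ) + 2) * LamP n k (-(y / 2)) (a + 2) b
      ≤ ∑ a ∈ Icc t (t + 1), w a * LamP n k (-(y / 2)) a b := by
    apply sum_le_sum
    intro a ha
    rw [mem_Icc] at ha
    have hk1 := (hker (a := a + 2) (by omega)).1 (by omega)
    have hk2 := (hker (a := a) (by omega)).2 (by omega)
    have hu1 := hu ((a : ℤ) + 2)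
    rw [show (a : ℤ) + 2 - 2 = a by ring] at hu1
    calc u ((a : ℤ) + 2) * LamP n k (-(y / 2)) (a + 2) b
        ≤ 4 * y / t * w a * LamP n k (-(y / 2)) (a + 2) b :=
          mul_le_mul_of_nonneg_right hu1 hk1
      _ = w a * (4 * y / t * LamP n k (-(y / 2)) (a + 2) b) := by ring
      _ ≤ w a * LamP n k (-(y / 2)) a b := mul_le_mul_of_nonneg_left hk2 (hw0 _)
  have h4 : ∑ a ∈ Icc t (t + 1), w a * LamP n k (-(y / 2)) a b
      ≤ ∑ a ∈ Icc (b0 - 1) (t + 3), w a * LamP n k (-(y / 2)) a b := by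
    apply sum_le_sum_of_subset_of_nonneg
    · intro a ha
      rw [mem_Icc] at ha ⊢
      omega
    · intro a ha _
      rw [mem_Icc] at ha
      exact mul_nonneg (hw0 _) ((hker ha.1).1 ha.2)
  rw [h2]
  linarith

end Pool.Agent.Lib.MP_0430e4_lc.Impr
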