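import Pool.Agent.Lib.MP_0430e4_lc.Impr.PK
import Pool.Agent.Lib.MP_0430e4_lc.Impr.REGR
import Pool.Agent.Lib.MP_0430e4_lc.Impr.CEN

/-!
MODULE REG3: comparison of the two kernels of a pair of levels near the top.
-/

set_option autoImplicit false

namespace Pool.Agent.Lib.MP_0430e4_lc.Impr

open Finset

namespace Reg3

theorem bz_succ_mul (N : ℕ) {L : ℤ} (hL : 0 ≤ L) (hLN : (L : ℝ) ≤ N) :
    bz N (L + 1) * ((L : ℝ) + 1) = bz N L * ((N : ℝ) - L) := by
  obtain ⟨L', rfl⟩ := Int.eq_ofNat_of_zero_le hL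
  unfold bz
  rw [if_pos (by omega), if_pos hL]
  have e1 : ((L' : ℤ) + 1).toNat = L' + 1 := by omega
  have e2 : ((L' : ℤ)).toNat = L' := by omega
  rw [e1, e2]
  have hle : L' ≤ N := by exact_mod_cast hLN
  have h1 := Nat.choose_succ_right_eq N L'
  have h2 : ((N.choose (L' + 1) : ℕ) : ℝ) * ((L' : ℝ) + 1) =
      ((N.choose L' : ℕ) : ℝ) * (((N - L' : ℕ)) : ℝ) := by exact_mod_cast h1
  rw [Nat.cast_sub hle] at h2
  push_cast
  exact h2

theorem bz_zero_of_neg (N : ℕ) {L : ℤ} (hL : L < 0) : bz N L = 0 := by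
  unfold bz
  rw [if_neg (by omega)]

theorem ew_succ (s : ℝ) (M : ℕ) : ew s (M + 1) = ew s M * (s / ((M : ℝ) + 1)) := by
  unfold ew
  rw [Nat.factorial_succ, pow_succ]
  have h1 : ((M.factorial : ℕ) : ℝ) ≠ 0 := by positivity
  have h2 : (M : ℝ) + 1 ≠ 0 := by positivity
  push_cast
  field_simp

theorem ew_nonneg {s : ℝ} (hs : 0 ≤ s) (M : ℕ) : 0 ≤ ew s M := by
  unfold ew
  positivity

theorem abs_ew_neg {s : ℝ} (hs : 0 ≤ s) (M : ℕ) : |ew (-s) M| = ew s M := by
  unfold ew
  rw [abs_div, abs_pow, abs_neg, abs_of_nonneg hs, abs_of_nonneg (by positivity)]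

theorem ew_four (s : ℝ) (M : ℕ) : ew (4 * s) M = 4 ^ M * ew s M := by
  unfold ew
  rw [mul_pow]
  ring

end Reg3

open Reg3

theorem region3_pair {n k a b M0 : ℕ} {y : ℝ} {m L : ℤ} (hk : k ≤ n) (hy : 0 < y)
    (hm : 2 * m = k + a - b) (hL : 2 * L = a + b - k) (hM0 : M0 ≤ n)
    (h1 : ∀ M : ℕ, M < M0 → 0 ≤ L + M →
      4 * ((M : ℝ) + 1) * ((L : ℝ) + M + 1) ≤ 3 * y * ((n : ℝ) - k - L - M))
    (hD : 2 * (|2 * m - (k : ℤ)| + 2 * (M0 : ℤ)) ^ 2 ≤ (k : ℤ)) :
    |LamP n k (-(y / 2)) a b| ≤ ((M0 : ℝ) + 1) / 4 ^ M0 * LamP n k (2 * y) a b := by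
  obtain ⟨A, hA⟩ : ∃ A : ℕ → ℝ, ∀ M, A M = ew y M * cc k m M * bz (n - k) (L + M) :=
    ⟨_, fun _ => rfl⟩
  have hA0 : ∀ M, 0 ≤ A M := by
    intro M
    rw [hA]
    exact mul_nonneg (mul_nonneg (ew_nonneg hy.le M) (cc_nonneg k m M)) (Pk.bz_nn _ _)
  have hLm : |LamP n k (-(y / 2)) a b| ≤ ∑ M ∈ range (n + 1), A M := by
    rw [LamP_regroup hk (-(y / 2)) hm hL]
    refine (Finset.abs_sum_le_sum_abs _ _).trans (le_of_eq (Finset.sum_congr rfl fun M _ => ?_))
    have e : 2 * (-(y / 2)) = -y := by ring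
    rw [e, abs_mul, abs_mul, abs_ew_neg hy.le, abs_of_nonneg (cc_nonneg k m M),
      abs_of_nonneg (Pk.bz_nn _ _), hA]
  have hLp : LamP n k (2 * y) a b = ∑ M ∈ range (n + 1), 4 ^ M * A M := by
    rw [LamP_regroup hk (2 * y) hm hL]
    refine Finset.sum_congr rfl fun M _ => ?_
    have e : 2 * (2 * y) = 4 * y := by ring
    rw [e, ew_four, hA]
    ring
  -- monotonicity
  have hmono : ∀ M, M < M0 → A M ≤ A (M + 1) := by
    intro M hM
    by_cases hneg : L + M < 0
    · rw [hA M, bz_zero_of_neg _ hneg, mul_zero]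
      exact hA0 _
    · have hLM : 0 ≤ L + M := by omega
      have h2 := h1 M hM hLM
      have hLMr : (0 : ℝ) ≤ (L : ℝ) + M := by exact_mod_cast hLM
      have hpos1 : (0 : ℝ) < (M : ℝ) + 1 := by positivity
      have hpos2 : (0 : ℝ) < (L : ℝ) + M + 1 := by linarith
      have h3 : (0 : ℝ) < 3 * y * ((n : ℝ) - k - L - M) := lt_of_lt_of_le (by positivity) h2
      have h4 : (0 : ℝ) < (n : ℝ) - k - L - M := by
        by_contra hcon
        have : 3 * y * ((n : ℝ) - k - L - M) ≤ 0 :=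
          mul_nonpos_of_nonneg_of_nonpos (by positivity) (not_lt.1 hcon)
        linarith
      have hnk : ((n - k : ℕ) : ℝ) = (n : ℝ) - k := Nat.cast_sub hk
      have h5 := bz_succ_mul (n - k) (L := L + M) hLM (by rw [hnk]; push_cast; linarith)
      rw [hnk] at h5
      push_cast at h5
      -- the walk averages
      have h6 : 3 / 4 * cc k m M ≤ cc k m (M + 1) := by
        have h7 : 3 / 4 * cst k ≤ cc k m (M + 1) := by
          apply cst_le_cc
          refine le_trans ?_ hD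
          have h8 : (0 : ℤ) ≤ |2 * m - (k : ℤ)| := abs_nonneg _
          have h9 : |2 * m - (k : ℤ)| + 2 * ((M + 1 : ℕ) : ℤ) ≤ |2 * m - (k : ℤ)| + 2 * (M0 : ℤ) := by
            push_cast
            omega
          have h10 : (0 : ℤ) ≤ |2 * m - (k : ℤ)| + 2 * ((M + 1 : ℕ) : ℤ) := by positivity
          have h11 := pow_le_pow_left₀ h10 h9 2
          linarith
        have h8 := cc_le_cst k m M
        linarith
      have e0 := ew_nonneg hy.le M
      have c0 := cc_nonneg k m M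
      have b0 := Pk.bz_nn (n - k) (L + M)
      have b1 := Pk.bz_nn (n - k) (L + ((M + 1 : ℕ) : ℤ))
      have eL : L + ((M + 1 : ℕ) : ℤ) = L + M + 1 := by push_cast; ring
      rw [hA M, hA (M + 1), ew_succ, eL]
      rw [eL] at b1
      -- multiply by the positive denominators
      have key : ew y M * cc k m M * bz (n - k) (L + M) * ((((M : ℝ) + 1) * ((L : ℝ) + M + 1)) * 4) ≤
          ew y M * (y / ((M : ℝ) + 1)) * cc k m (M + 1) * bz (n - k) (L + M + 1) *
            ((((M : ℝ) + 1) * ((L : ℝ) + M + 1)) * 4) := by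
        have e1 : ew y M * (y / ((M : ℝ) + 1)) * cc k m (M + 1) * bz (n - k) (L + M + 1) *
            ((((M : ℝ) + 1) * ((L : ℝ) + M + 1)) * 4) =
            4 * y * (ew y M * cc k m (M + 1) *
              (bz (n - k) (L + M + 1) * ((L : ℝ) + M + 1))) := by
          field_simp
        rw [e1]
        have h5' : bz (n - k) (L + M + 1) * ((L : ℝ) + M + 1) =
            bz (n - k) (L + M) * ((n : ℝ) - k - L - M) := by
          rw [h5]; ring
        rw [h5']
        calc ew y M * cc k m M * bz (n - k) (L + M) * ((((M : ℝ) + 1) * ((L : ℝ) + M + 1)) * 4)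
            = (ew y M * cc k m M * bz (n - k) (L + M)) *
                (4 * ((M : ℝ) + 1) * ((L : ℝ) + M + 1)) := by ring
          _ ≤ (ew y M * cc k m M * bz (n - k) (L + M)) * (3 * y * ((n : ℝ) - k - L - M)) := by
              apply mul_le_mul_of_nonneg_left h2 (by positivity)
          _ = 4 * y * (ew y M * (3 / 4 * cc k m M) *
                (bz (n - k) (L + M) * ((n : ℝ) - k - L - M))) := by ring
          _ ≤ 4 * y * (ew y M * cc k m (M + 1) *
                (bz (n - k) (L + M) * ((n : ℝ) - k - L - M))) := by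
              gcongr
      exact le_of_mul_le_mul_right key (by positivity)
  have hle : ∀ d, d ≤ M0 → A (M0 - d) ≤ A M0 := by
    intro d
    induction d with
    | zero => intro _; simp
    | succ d ih =>
      intro hd
      have h2 := ih (by omega)
      have h3 := hmono (M0 - (d + 1)) (by omega)
      have e : M0 - (d + 1) + 1 = M0 - d := by omega
      rw [e] at h3
      exact h3.trans h2
  have hleM : ∀ M, M ≤ M0 → A M ≤ A M0 := by
    intro M hM
    have := hle (M0 - M) (by omega)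
    have e : M0 - (M0 - M) = M := by omega
    rwa [e] at this
  -- final comparison
  have hc : (0 : ℝ) ≤ ((M0 : ℝ) + 1) / 4 ^ M0 := by positivity
  refine hLm.trans ?_
  rw [hLp]
  have hsplit : ∀ f : ℕ → ℝ, ∑ M ∈ range (n + 1), f M =
      ∑ M ∈ range (M0 + 1), f M + ∑ M ∈ Ico (M0 + 1) (n + 1), f M := by
    intro f
    rw [Finset.sum_range_add_sum_Ico f (by omega)]
  rw [hsplit A, hsplit (fun M => 4 ^ M * A M), mul_add]
  apply add_le_add
  · calc ∑ M ∈ range (M0 + 1), A M ≤ ∑ _M ∈ range (M0 + 1), A M0 :=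
          Finset.sum_le_sum fun M hM => hleM M (by rw [Finset.mem_range] at hM; omega)
      _ = ((M0 : ℝ) + 1) * A M0 := by
          rw [Finset.sum_const, Finset.card_range, nsmul_eq_mul]
          push_cast
          ring
      _ = ((M0 : ℝ) + 1) / 4 ^ M0 * (4 ^ M0 * A M0) := by
          field_simp
      _ ≤ ((M0 : ℝ) + 1) / 4 ^ M0 * ∑ M ∈ range (M0 + 1), 4 ^ M * A M := by
          apply mul_le_mul_of_nonneg_left _ hc
          exact Finset.single_le_sum (f := fun M => 4 ^ M * A M)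
            (fun M _ => mul_nonneg (by positivity) (hA0 M))
            (Finset.mem_range.2 (Nat.lt_succ_self M0))
  · rw [Finset.mul_sum]
    apply Finset.sum_le_sum
    intro M hM
    rw [Finset.mem_Ico] at hM
    have h2 : (4 : ℝ) ^ M0 ≤ 4 ^ M := pow_le_pow_right₀ (by norm_num) (by omega)
    have h3 : (1 : ℝ) ≤ (M0 : ℝ) + 1 := by
      have : (0 : ℝ) ≤ M0 := Nat.cast_nonneg _
      linarith
    have h4 : (1 : ℝ) ≤ ((M0 : ℝ) + 1) / 4 ^ M0 * 4 ^ M := by
      rw [div_mul_eq_mul_div, le_div_iff₀ (by positivity)]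
      calc (1 : ℝ) * 4 ^ M0 ≤ ((M0 : ℝ) + 1) * 4 ^ M := by
            apply mul_le_mul h3 h2 (by positivity) (by positivity)
        _ = _ := rfl
    calc A M = 1 * A M := (one_mul _).symm
      _ ≤ (((M0 : ℝ) + 1) / 4 ^ M0 * 4 ^ M) * A M := by
          apply mul_le_mul_of_nonneg_right h4 (hA0 M)
      _ = ((M0 : ℝ) + 1) / 4 ^ M0 * (4 ^ M * A M) := by ring

end Pool.Agent.Lib.MP_0430e4_lc.Impr
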