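import Pool.Agent.Lib.MP_0430e4_lc.Impr.Defs
import Pool.Agent.Lib.MP_0430e4_lc.Impr.PAIR
import Pool.Agent.Lib.MP_0430e4_lc.Impr.REGR
import Pool.Agent.Lib.MP_0430e4_lc.Impr.REG3

/-!
Module REG3B (helper37): region 3, only absolute values.
-/

set_option autoImplicit false

namespace Pool.Agent.Lib.MP_0430e4_lc.Impr

open Finset

theorem region3 {n k t b0 L0 M0 : ℕ} {y : ℝ} {w u wp v : ℤ → ℝ} (hk : k ≤ n) (hy : 0 < y)
    (hb : 1 ≤ b0) (hbt : b0 ≤ t) (htk : t ≤ k) (hkL : 2 * b0 < k + 2 * L0 + 1) (hM0 : M0 ≤ n)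
    (hM : 4 * (M0 : ℝ) * ((L0 : ℝ) + ((t : ℝ) - b0) + 2 + (M0 : ℝ))
      ≤ 3 * y * ((n : ℝ) - 2 * (t : ℝ) - 3 - 2 * (M0 : ℝ)))
    (hD : 2 * (t + 4 - b0 + 2 * M0) ^ 2 ≤ t)
    (hv0 : ∀ z, 0 ≤ v z)
    (hws : ∀ z, w z - u z ≠ 0 → (b0 : ℤ) - 1 ≤ z ∧ z ≤ t + 3)
    (hwps : ∀ z, wp z ≠ 0 → (b0 : ℤ) - 1 ≤ z ∧ z ≤ t + 3)
    (hvs : ∀ z, v z ≠ 0 → (b0 : ℤ) ≤ z ∧ z ≤ t)
    (hwp : ∀ z, |w z - u z| ≤ 3 * wp z) :
    0 ≤ conv n k (De n (-(y / 2)) (fun z => w z - u z)) (De n (-(y / 2)) v)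
      + 3 * ((M0 : ℝ) + 1) / 4 ^ M0 * conv n k (De n (2 * y) wp) (De n (2 * y) v) := by
  have hS1 : ∀ z : ℤ, (fun z => w z - u z) z ≠ 0 → ∃ a ∈ Icc (b0 - 1) (t + 3), ((a : ℕ) : ℤ) = z := by
    intro z hz
    have h := hws z hz
    refine ⟨z.toNat, ?_, ?_⟩
    · rw [mem_Icc]; omega
    · omega
  have hS2 : ∀ z : ℤ, wp z ≠ 0 → ∃ a ∈ Icc (b0 - 1) (t + 3), ((a : ℕ) : ℤ) = z := by
    intro z hz
    have h := hwps z hz
    refine ⟨z.toNat, ?_, ?_⟩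
    · rw [mem_Icc]; omega
    · omega
  have hT : ∀ z : ℤ, v z ≠ 0 → ∃ b ∈ Icc b0 t, ((b : ℕ) : ℤ) = z := by
    intro z hz
    have h := hvs z hz
    refine ⟨z.toNat, ?_, ?_⟩
    · rw [mem_Icc]; omega
    · omega
  rw [conv_De hk hS1 hT, conv_De hk hS2 hT, mul_sum, ← sum_add_distrib]
  refine sum_nonneg fun a ha => ?_
  rw [mul_sum, ← sum_add_distrib]
  refine sum_nonneg fun b hbb => ?_
  rw [mem_Icc] at ha hbb
  show 0 ≤ (w (a : ℤ) - u (a : ℤ)) * v (b : ℤ) * LamP n k (-(y / 2)) a b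
    + 3 * ((M0 : ℝ) + 1) / 4 ^ M0 * (wp (a : ℤ) * v (b : ℤ) * LamP n k (2 * y) a b)
  rcases Nat.even_or_odd (k + a + b) with hev | hodd
  · obtain ⟨r, hr⟩ := hev
    have hm : 2 * ((r : ℤ) - b) = (k : ℤ) + a - b := by
      have : (k : ℤ) + a + b = r + r := by exact_mod_cast hr
      linarith
    have hL : 2 * ((r : ℤ) - k) = (a : ℤ) + b - k := by
      have : (k : ℤ) + a + b = r + r := by exact_mod_cast hr
      linarith
    have hpair := region3_pair (n := n) (k := k) (a := a) (b := b) (M0 := M0) (y := y)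
      (m := (r : ℤ) - b) (L := (r : ℤ) - k) hk hy hm hL hM0 ?_ ?_
    · have hc : (0 : ℝ) ≤ ((M0 : ℝ) + 1) / 4 ^ M0 := by positivity
      have h1 := mul_le_mul (hwp (a : ℤ)) hpair (abs_nonneg _)
        (le_trans (abs_nonneg _) (hwp (a : ℤ)))
      rw [← abs_mul] at h1
      have h2 := (abs_le.1 h1).1
      have h3 : 0 ≤ v (b : ℤ) * ((w (a : ℤ) - u (a : ℤ)) * LamP n k (-(y / 2)) a b
          + 3 * wp (a : ℤ) * (((M0 : ℝ) + 1) / 4 ^ M0 * LamP n k (2 * y) a b)) :=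
        mul_nonneg (hv0 _) (by linarith)
      calc (0 : ℝ) ≤ _ := h3
        _ = _ := by ring
    · intro M hMM hLM
      have hLle : ((r : ℤ) - k) ≤ (t : ℤ) - b0 + L0 + 1 := by omega
      have hkle : (k : ℤ) + ((r : ℤ) - k) + M ≤ 2 * t + 3 + 2 * M := by omega
      have hM1 : (M : ℤ) + 1 ≤ M0 := by omega
      have e1 : (((r : ℤ) - k : ℤ) : ℝ) ≤ (t : ℝ) - b0 + L0 + 1 := by exact_mod_cast hLle
      have e2 : (k : ℝ) + (((r : ℤ) - k : ℤ) : ℝ) + M ≤ 2 * t + 3 + 2 * M := by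
        exact_mod_cast hkle
      have e3 : (M : ℝ) + 1 ≤ M0 := by exact_mod_cast hM1
      have e4 : (0 : ℝ) ≤ (((r : ℤ) - k : ℤ) : ℝ) + M := by exact_mod_cast hLM
      have e5 : (0 : ℝ) ≤ (M : ℝ) := Nat.cast_nonneg _
      have hprod : ((M : ℝ) + 1) * ((((r : ℤ) - k : ℤ) : ℝ) + M + 1)
          ≤ (M0 : ℝ) * ((L0 : ℝ) + ((t : ℝ) - b0) + 2 + (M0 : ℝ)) := by
        apply mul_le_mul e3 _ (by linarith) (by linarith)
        linarith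
      have hy3 : (0 : ℝ) ≤ 3 * y := by linarith
      have hr2 : 3 * y * ((n : ℝ) - 2 * (t : ℝ) - 3 - 2 * (M0 : ℝ))
          ≤ 3 * y * ((n : ℝ) - k - (((r : ℤ) - k : ℤ) : ℝ) - M) :=
        mul_le_mul_of_nonneg_left (by linarith) hy3
      linarith
    · have habs : |2 * ((r : ℤ) - b) - (k : ℤ)| + 2 * (M0 : ℤ)
          ≤ ((t + 4 - b0 + 2 * M0 : ℕ) : ℤ) := by
        have : 2 * ((r : ℤ) - b) - (k : ℤ) = (a : ℤ) - b := by linarith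
        rw [this]
        have h1 : |(a : ℤ) - b| ≤ (t : ℤ) + 4 - b0 := by
          rw [abs_le]; constructor <;> omega
        omega
      have h0 : 0 ≤ |2 * ((r : ℤ) - b) - (k : ℤ)| + 2 * (M0 : ℤ) := by positivity
      have hsq : (|2 * ((r : ℤ) - b) - (k : ℤ)| + 2 * (M0 : ℤ)) ^ 2
          ≤ ((t + 4 - b0 + 2 * M0 : ℕ) : ℤ) ^ 2 := pow_le_pow_left₀ h0 habs 2
      have hD' : (2 : ℤ) * ((t + 4 - b0 + 2 * M0 : ℕ) : ℤ) ^ 2 ≤ t := by exact_mod_cast hD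
      have htk' : (t : ℤ) ≤ k := by exact_mod_cast htk
      linarith
  · have hodd' : (k + a + b) % 2 = 1 := Nat.odd_iff.1 hodd
    rw [LamP_odd _ hodd', LamP_odd _ hodd']
    simp

end Pool.Agent.Lib.MP_0430e4_lc.Impr
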