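import Pool.Agent.Lib.MP_0430e4_lc.Impr.Defs

/-!
# Facts on the window function (module WIN1)
-/

set_option autoImplicit false

namespace Pool.Agent.Lib.MP_0430e4_lc.Impr

open Finset

namespace Win1

/-- comparison of two quotients by square roots -/
theorem cmp {x y s1 s2 k c : ℝ} (hx : 0 < x) (hy : 0 < y) (hs2 : 0 ≤ s2) (h1 : s1 ≤ k * s2)
    (hk : 0 ≤ k) (hc : 0 ≤ c) (h2 : k ^ 2 * y ≤ c ^ 2 * x) :
    s1 / Real.sqrt x ≤ c * (s2 / Real.sqrt y) := by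
  have hsx : 0 < Real.sqrt x := Real.sqrt_pos.2 hx
  have hsy : 0 < Real.sqrt y := Real.sqrt_pos.2 hy
  have h3 : k * Real.sqrt y ≤ c * Real.sqrt x := by
    apply (pow_le_pow_iff_left₀ (by positivity) (by positivity) two_ne_zero).1
    rw [mul_pow, mul_pow, Real.sq_sqrt hy.le, Real.sq_sqrt hx.le]
    exact h2
  rw [div_le_iff₀ hsx]
  calc s1 ≤ k * s2 := h1
    _ = (k * Real.sqrt y) * (s2 / Real.sqrt y) := by field_simp
    _ ≤ (c * Real.sqrt x) * (s2 / Real.sqrt y) :=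
        mul_le_mul_of_nonneg_right h3 (by positivity)
    _ = c * (s2 / Real.sqrt y) * Real.sqrt x := by ring

theorem sin_half_le {θ φ : ℝ} (h0 : 0 ≤ θ) (h1 : θ / 2 ≤ φ) (h2 : φ ≤ Real.pi - θ / 2) :
    Real.sin (θ / 2) ≤ Real.sin φ := by
  rcases le_total φ (Real.pi / 2) with h | h
  · exact Real.sin_le_sin_of_le_of_le_pi_div_two (by linarith [Real.pi_pos]) h h1
  · rw [← Real.sin_pi_sub φ]
    exact Real.sin_le_sin_of_le_of_le_pi_div_two (by linarith [Real.pi_pos]) (by linarith)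
      (by linarith)

theorem sin_add_le (φ δ : ℝ) (hφ : 0 ≤ Real.sin φ) :
    Real.sin (φ + δ) ≤ Real.sin φ + |Real.sin δ| := by
  rw [Real.sin_add]
  have h1 : Real.sin φ * Real.cos δ ≤ Real.sin φ := by
    nlinarith [Real.cos_le_one δ]
  have h2 : Real.cos φ * Real.sin δ ≤ |Real.sin δ| := by
    calc Real.cos φ * Real.sin δ ≤ |Real.cos φ * Real.sin δ| := le_abs_self _
      _ = |Real.cos φ| * |Real.sin δ| := abs_mul _ _
      _ ≤ 1 * |Real.sin δ| := mul_le_mul_of_nonneg_right (Real.abs_cos_le_one φ) (abs_nonneg _)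
      _ = |Real.sin δ| := one_mul _
  linarith

theorem abs_sin_le1 {θ : ℝ} (h : 0 ≤ Real.sin (θ / 2)) :
    |Real.sin θ| ≤ 2 * Real.sin (θ / 2) := by
  have e : Real.sin θ = 2 * Real.sin (θ / 2) * Real.cos (θ / 2) := by
    rw [← Real.sin_two_mul]; ring_nf
  rw [e, abs_mul, abs_mul, abs_of_nonneg h, abs_of_pos (by norm_num : (0 : ℝ) < 2)]
  have := Real.abs_cos_le_one (θ / 2)
  nlinarith

theorem abs_sin_le2 {θ : ℝ} (h : 0 ≤ Real.sin (θ / 2)) :
    |Real.sin (2 * θ)| ≤ 4 * Real.sin (θ / 2) := by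
  have h1 := abs_sin_le1 h
  rw [Real.sin_two_mul, abs_mul, abs_mul, abs_of_pos (by norm_num : (0 : ℝ) < 2)]
  have h2 := Real.abs_cos_le_one θ
  have h3 := abs_nonneg (Real.sin θ)
  nlinarith

theorem abs_sin_le3 {θ : ℝ} (h : 0 ≤ Real.sin (θ / 2)) :
    |Real.sin (3 * θ)| ≤ 6 * Real.sin (θ / 2) := by
  have h1 := abs_sin_le1 h
  have h2 : |Real.sin (3 * θ)| ≤ 3 * |Real.sin θ| := by
    rw [Real.sin_three_mul]
    have e : 3 * Real.sin θ - 4 * Real.sin θ ^ 3 = Real.sin θ * (3 - 4 * Real.sin θ ^ 2) := by ring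
    rw [e, abs_mul, mul_comm]
    apply mul_le_mul_of_nonneg_right _ (abs_nonneg _)
    have := Real.sin_sq_le_one θ
    have := sq_nonneg (Real.sin θ)
    rw [abs_le]
    constructor <;> linarith
  linarith

theorem sin_three_half {θ : ℝ} (h : 0 ≤ Real.sin (θ / 2)) :
    Real.sin (3 * (θ / 2)) ≤ 3 * Real.sin (θ / 2) := by
  rw [Real.sin_three_mul]
  have : 0 ≤ Real.sin (θ / 2) ^ 3 := by positivity
  linarith

variable {n t J L0 M0 : ℕ} {y : ℝ}

/-- basic numerical facts -/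
theorem basic (P : Par n t J L0 M0 y) : 6400 ≤ t ∧ 100 * J ≤ t ∧ 100 * t ≤ n := by
  have h1 := P.hJt
  have h2 := P.hJ
  have h3 := P.htn
  refine ⟨?_, ?_, h3⟩
  · nlinarith
  · nlinarith

/-- the angle -/
noncomputable def th (J : ℕ) : ℝ := Real.pi / ((J : ℝ) + 1)

/-- the sine -/
noncomputable def sn (t J : ℕ) (z : ℤ) : ℝ := Real.sin (th J * ((t : ℝ) + 1 / 2 - (z : ℝ)))

theorem th_pos (J : ℕ) : 0 < th J := div_pos Real.pi_pos (by positivity)

theorem th_mul (J : ℕ) : th J * ((J : ℝ) + 1) = Real.pi := by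
  unfold th
  field_simp

theorem th_le (J : ℕ) : th J ≤ Real.pi := by
  have h1 := th_mul J
  have h2 := th_pos J
  have h3 : (0 : ℝ) ≤ (J : ℝ) := Nat.cast_nonneg J
  nlinarith

theorem sin_half_pos (J : ℕ) : 0 < Real.sin (th J / 2) := by
  apply Real.sin_pos_of_pos_of_lt_pi
  · have := th_pos J; linarith
  · have := th_le J; have := Real.pi_pos; linarith

theorem angle_range {t J : ℕ} {z : ℤ} (h1 : (t : ℤ) - J ≤ z) (h2 : z ≤ t) :
    th J / 2 ≤ th J * ((t : ℝ) + 1 / 2 - (z : ℝ)) ∧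
      th J * ((t : ℝ) + 1 / 2 - (z : ℝ)) ≤ Real.pi - th J / 2 := by
  have h1' : (t : ℝ) - J ≤ (z : ℝ) := by exact_mod_cast h1
  have h2' : (z : ℝ) ≤ (t : ℝ) := by exact_mod_cast h2
  have hp := th_pos J
  have hm := th_mul J
  constructor
  · nlinarith
  · rw [← hm]
    nlinarith

theorem sn_ge {t J : ℕ} {z : ℤ} (h1 : (t : ℤ) - J ≤ z) (h2 : z ≤ t) :
    Real.sin (th J / 2) ≤ sn t J z :=
  sin_half_le (th_pos J).le (angle_range h1 h2).1 (angle_range h1 h2).2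

theorem sn_pos {t J : ℕ} {z : ℤ} (h1 : (t : ℤ) - J ≤ z) (h2 : z ≤ t) : 0 < sn t J z :=
  (sin_half_pos J).trans_le (sn_ge h1 h2)

theorem sn_sub1 {t J : ℕ} {z : ℤ} (h1 : (t : ℤ) - J ≤ z) (h2 : z ≤ t) :
    sn t J (z - 1) ≤ 3 * sn t J z := by
  have e : sn t J (z - 1) = Real.sin (th J * ((t : ℝ) + 1 / 2 - (z : ℝ)) + th J) := by
    unfold sn
    push_cast
    ring_nf
  rw [e]
  have := sin_add_le (th J * ((t : ℝ) + 1 / 2 - (z : ℝ))) (th J) (sn_pos h1 h2).le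
  have h3 := abs_sin_le1 (sin_half_pos J).le
  have h4 := sn_ge h1 h2
  unfold sn at h4 ⊢
  linarith

theorem sn_sub2 {t J : ℕ} {z : ℤ} (h1 : (t : ℤ) - J ≤ z) (h2 : z ≤ t) :
    sn t J (z - 2) ≤ 5 * sn t J z := by
  have e : sn t J (z - 2) = Real.sin (th J * ((t : ℝ) + 1 / 2 - (z : ℝ)) + 2 * th J) := by
    unfold sn
    push_cast
    ring_nf
  rw [e]
  have := sin_add_le (th J * ((t : ℝ) + 1 / 2 - (z : ℝ))) (2 * th J) (sn_pos h1 h2).le
  have h3 := abs_sin_le2 (sin_half_pos J).le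
  have h4 := sn_ge h1 h2
  unfold sn at h4 ⊢
  linarith

theorem sn_add2 {t J : ℕ} {z : ℤ} (h1 : (t : ℤ) - J ≤ z) (h2 : z ≤ t) :
    sn t J (z + 2) ≤ 5 * sn t J z := by
  have e : sn t J (z + 2) = Real.sin (th J * ((t : ℝ) + 1 / 2 - (z : ℝ)) + -(2 * th J)) := by
    unfold sn
    push_cast
    ring_nf
  rw [e]
  have := sin_add_le (th J * ((t : ℝ) + 1 / 2 - (z : ℝ))) (-(2 * th J)) (sn_pos h1 h2).le
  rw [Real.sin_neg, abs_neg] at this
  have h3 := abs_sin_le2 (sin_half_pos J).le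
  have h4 := sn_ge h1 h2
  unfold sn at h4 ⊢
  linarith

theorem sn_sub3 {t J : ℕ} {z : ℤ} (h1 : (t : ℤ) - J ≤ z) (h2 : z ≤ t) :
    sn t J (z - 3) ≤ 7 * sn t J z := by
  have e : sn t J (z - 3) = Real.sin (th J * ((t : ℝ) + 1 / 2 - (z : ℝ)) + 3 * th J) := by
    unfold sn
    push_cast
    ring_nf
  rw [e]
  have := sin_add_le (th J * ((t : ℝ) + 1 / 2 - (z : ℝ))) (3 * th J) (sn_pos h1 h2).le
  have h3 := abs_sin_le3 (sin_half_pos J).le
  have h4 := sn_ge h1 h2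
  unfold sn at h4 ⊢
  linarith

theorem sn_top (t J : ℕ) : sn t J t = Real.sin (th J / 2) := by
  unfold sn
  push_cast
  ring_nf

theorem sn_top1 (t J : ℕ) : sn t J ((t : ℤ) - 1) = Real.sin (3 * (th J / 2)) := by
  unfold sn
  push_cast
  ring_nf

theorem sn_bot (t J : ℕ) : sn t J ((t : ℤ) - J) = Real.sin (th J / 2) := by
  unfold sn
  have e : th J * ((t : ℝ) + 1 / 2 - (((t : ℤ) - (J : ℤ) : ℤ) : ℝ)) = Real.pi - th J / 2 := by
    push_cast
    rw [← th_mul J]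
    ring
  rw [e, Real.sin_pi_sub]

theorem sn_bot1 (t J : ℕ) : sn t J ((t : ℤ) - J + 1) = Real.sin (3 * (th J / 2)) := by
  unfold sn
  have e : th J * ((t : ℝ) + 1 / 2 - (((t : ℤ) - (J : ℤ) + 1 : ℤ) : ℝ))
      = Real.pi - 3 * (th J / 2) := by
    push_cast
    rw [← th_mul J]
    ring
  rw [e, Real.sin_pi_sub]

theorem win_eq {n t J : ℕ} {z : ℤ} (h1 : (t : ℤ) - J ≤ z) (h2 : z ≤ t) :
    win n t J z = sn t J z / Real.sqrt ((n.choose z.toNat : ℕ) : ℝ) := by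
  unfold win
  rw [if_pos ⟨h1, h2⟩]
  rfl

theorem win_zero {n t J : ℕ} {z : ℤ} (h : ¬ ((t : ℤ) - J ≤ z ∧ z ≤ t)) : win n t J z = 0 := by
  unfold win
  rw [if_neg h]

theorem choose_pos' {n a : ℕ} (h : a ≤ n) : (0 : ℝ) < ((n.choose a : ℕ) : ℝ) := by
  exact_mod_cast Nat.choose_pos h

/-- one step of the binomial ratio -/
theorem choose_step {n a : ℕ} (h : a ≤ n) :
    ((n.choose (a + 1) : ℕ) : ℝ) * ((a : ℝ) + 1) = ((n.choose a : ℕ) : ℝ) * ((n : ℝ) - a) := by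
  have h1 := Nat.choose_succ_right_eq n a
  have h2 : ((n.choose (a + 1) * (a + 1) : ℕ) : ℝ) = ((n.choose a * (n - a) : ℕ) : ℝ) := by
    exact_mod_cast h1
  push_cast [Nat.cast_sub h] at h2
  exact h2

end Win1

section window

variable {n t J L0 M0 : ℕ} {y : ℝ}

open Win1

theorem win_nonneg (P : Par n t J L0 M0 y) (z : ℤ) : 0 ≤ win n t J z := by
  by_cases h : (t : ℤ) - J ≤ z ∧ z ≤ t
  · rw [win_eq h.1 h.2]
    exact div_nonneg (sn_pos h.1 h.2).le (Real.sqrt_nonneg _)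
  · rw [win_zero h]

theorem win_supp {z : ℤ} (h : win n t J z ≠ 0) : (t : ℤ) - J ≤ z ∧ z ≤ t := by
  by_contra hcon
  exact h (win_zero hcon)

theorem win_pos (P : Par n t J L0 M0 y) {z : ℤ} (h1 : (t : ℤ) - J ≤ z) (h2 : z ≤ t) :
    0 < win n t J z := by
  rw [win_eq h1 h2]
  obtain ⟨b1, b2, b3⟩ := basic P
  apply div_pos (sn_pos h1 h2)
  apply Real.sqrt_pos.2
  apply choose_pos'
  omega

theorem win_r1 (P : Par n t J L0 M0 y) {z : ℤ} (h2 : z ≤ t) :
    win n t J (z - 1) ≤ 4 * Real.sqrt ((n : ℝ) / t) * win n t J z := by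
  obtain ⟨b1, b2, b3⟩ := basic P
  by_cases h1 : (t : ℤ) - J ≤ z - 1
  · rw [win_eq h1 (by omega), win_eq (by omega) h2]
    obtain ⟨a, ha⟩ : ∃ a : ℕ, z = (a : ℤ) + 1 := ⟨(z - 1).toNat, by omega⟩
    subst ha
    have e1 : ((a : ℤ) + 1 - 1).toNat = a := by omega
    have e2 : ((a : ℤ) + 1).toNat = a + 1 := by omega
    rw [e1, e2]
    have hat : (a : ℝ) + 1 ≤ t := by
      have : a + 1 ≤ t := by omega
      exact_mod_cast this
    have haJ : 99 * (t : ℝ) ≤ 100 * (a : ℝ) := by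
      have : 99 * t ≤ 100 * a := by omega
      exact_mod_cast this
    have ht : (0 : ℝ) < t := by
      have : 0 < t := by omega
      exact_mod_cast this
    have hn : (0 : ℝ) ≤ n := Nat.cast_nonneg n
    apply cmp (k := 3) (choose_pos' (by omega)) (choose_pos' (by omega))
      (sn_pos (by omega) h2).le (sn_sub1 (by omega) h2) (by norm_num) (by positivity)
    rw [mul_pow, Real.sq_sqrt (by positivity)]
    have hs := choose_step (n := n) (a := a) (by omega)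
    have hc : 0 < ((n.choose a : ℕ) : ℝ) := choose_pos' (by omega)
    have ha1 : (0 : ℝ) < (a : ℝ) + 1 := by positivity
    have hc1 : ((n.choose (a + 1) : ℕ) : ℝ) = ((n.choose a : ℕ) : ℝ) * ((n : ℝ) - a) / ((a : ℝ) + 1) := by
      rw [eq_div_iff ha1.ne']; exact hs
    rw [hc1]
    have key : 3 ^ 2 * (((n : ℝ) - a) / ((a : ℝ) + 1)) ≤ 4 ^ 2 * ((n : ℝ) / t) := by
      rw [← mul_div_assoc, ← mul_div_assoc, div_le_div_iff₀ ha1 ht]
      have : (0 : ℝ) ≤ a := Nat.cast_nonneg a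
      nlinarith
    calc 3 ^ 2 * (((n.choose a : ℕ) : ℝ) * ((n : ℝ) - a) / ((a : ℝ) + 1))
        = ((n.choose a : ℕ) : ℝ) * (3 ^ 2 * (((n : ℝ) - a) / ((a : ℝ) + 1))) := by ring
      _ ≤ ((n.choose a : ℕ) : ℝ) * (4 ^ 2 * ((n : ℝ) / t)) :=
          mul_le_mul_of_nonneg_left key hc.le
      _ = 4 ^ 2 * ((n : ℝ) / t) * ((n.choose a : ℕ) : ℝ) := by ring
  · rw [win_zero (z := z - 1) (by omega)]
    exact mul_nonneg (by positivity) (win_nonneg P z)

theorem win_r3 (P : Par n t J L0 M0 y) {z : ℤ} (h2 : z ≤ t) :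
    win n t J (z - 3) ≤ 8 * ((n : ℝ) / t) * Real.sqrt ((n : ℝ) / t) * win n t J z := by
  obtain ⟨b1, b2, b3⟩ := basic P
  by_cases h1 : (t : ℤ) - J ≤ z - 3
  · rw [win_eq h1 (by omega), win_eq (by omega) h2]
    obtain ⟨a, ha⟩ : ∃ a : ℕ, z = (a : ℤ) + 3 := ⟨(z - 3).toNat, by omega⟩
    subst ha
    have e1 : ((a : ℤ) + 3 - 3).toNat = a := by omega
    have e2 : ((a : ℤ) + 3).toNat = a + 3 := by omega
    rw [e1, e2]
    have haJ : 99 * (t : ℝ) ≤ 100 * (a : ℝ) := by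
      have : 99 * t ≤ 100 * a := by omega
      exact_mod_cast this
    have ht : (0 : ℝ) < t := by
      have : 0 < t := by omega
      exact_mod_cast this
    have hn : (0 : ℝ) ≤ n := Nat.cast_nonneg n
    have ha0 : (0 : ℝ) ≤ a := Nat.cast_nonneg a
    apply cmp (k := 7) (choose_pos' (by omega)) (choose_pos' (by omega))
      (sn_pos (by omega) h2).le (sn_sub3 (by omega) h2) (by norm_num) (by positivity)
    rw [mul_pow, mul_pow, Real.sq_sqrt (by positivity)]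
    have hs1 := choose_step (n := n) (a := a) (by omega)
    have hs2 := choose_step (n := n) (a := a + 1) (by omega)
    have hs3 := choose_step (n := n) (a := a + 1 + 1) (by omega)
    push_cast at hs2 hs3
    have hc : 0 < ((n.choose a : ℕ) : ℝ) := choose_pos' (by omega)
    have ha1 : (0 : ℝ) < (a : ℝ) + 1 := by positivity
    have ha2 : (0 : ℝ) < (a : ℝ) + 1 + 1 := by positivity
    have ha3 : (0 : ℝ) < (a : ℝ) + 1 + 1 + 1 := by positivity
    have hc1 : ((n.choose (a + 1) : ℕ) : ℝ) = ((n.choose a : ℕ) : ℝ) * (((n : ℝ) - a) / ((a : ℝ) + 1)) := by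
      rw [← mul_div_assoc, eq_div_iff ha1.ne']; exact hs1
    have hc2 : ((n.choose (a + 1 + 1) : ℕ) : ℝ) = ((n.choose (a + 1) : ℕ) : ℝ) * (((n : ℝ) - (a + 1)) / ((a : ℝ) + 1 + 1)) := by
      rw [← mul_div_assoc, eq_div_iff ha2.ne']; exact hs2
    have hc3 : ((n.choose (a + 3) : ℕ) : ℝ) = ((n.choose (a + 1 + 1) : ℕ) : ℝ) * (((n : ℝ) - (a + 1 + 1)) / ((a : ℝ) + 1 + 1 + 1)) := by
      rw [← mul_div_assoc, eq_div_iff ha3.ne']; exact hs3
    have q : ∀ c : ℝ, 0 ≤ c → c ≤ n → ∀ d : ℝ, (a : ℝ) ≤ d → 0 < d →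
        0 ≤ ((n : ℝ) - c) / d ∧ ((n : ℝ) - c) / d ≤ 100 / 99 * ((n : ℝ) / t) := by
      intro c hc0 hcn d hd hd0
      constructor
      · exact div_nonneg (by linarith) hd0.le
      · rw [← mul_div_assoc, div_le_div_iff₀ hd0 ht]
        nlinarith
    have hn3 : (a : ℝ) + 1 + 1 ≤ n := by
      have : a + 1 + 1 ≤ n := by omega
      exact_mod_cast this
    obtain ⟨p1, q1⟩ := q a ha0 (by linarith) ((a : ℝ) + 1) (by linarith) ha1
    obtain ⟨p2, q2⟩ := q ((a : ℝ) + 1) (by linarith) (by linarith) ((a : ℝ) + 1 + 1) (by linarith) ha2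
    obtain ⟨p3, q3⟩ := q ((a : ℝ) + 1 + 1) (by linarith) (by linarith) ((a : ℝ) + 1 + 1 + 1) (by linarith) ha3
    rw [hc3, hc2, hc1]
    set R : ℝ := (n : ℝ) / t with hR
    have hR0 : 0 ≤ R := by positivity
    have key : (((n : ℝ) - a) / ((a : ℝ) + 1)) * (((n : ℝ) - (a + 1)) / ((a : ℝ) + 1 + 1)) *
        (((n : ℝ) - (a + 1 + 1)) / ((a : ℝ) + 1 + 1 + 1)) ≤ (100 / 99 * R) * (100 / 99 * R) * (100 / 99 * R) :=
      mul_le_mul (mul_le_mul q1 q2 p2 (by positivity)) q3 p3 (by positivity)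
    calc 7 ^ 2 * (((n.choose a : ℕ) : ℝ) * (((n : ℝ) - a) / ((a : ℝ) + 1)) *
          (((n : ℝ) - (a + 1)) / ((a : ℝ) + 1 + 1)) * (((n : ℝ) - (a + 1 + 1)) / ((a : ℝ) + 1 + 1 + 1)))
        = ((n.choose a : ℕ) : ℝ) * (7 ^ 2 * ((((n : ℝ) - a) / ((a : ℝ) + 1)) *
          (((n : ℝ) - (a + 1)) / ((a : ℝ) + 1 + 1)) * (((n : ℝ) - (a + 1 + 1)) / ((a : ℝ) + 1 + 1 + 1)))) := by ring
      _ ≤ ((n.choose a : ℕ) : ℝ) * (7 ^ 2 * ((100 / 99 * R) * (100 / 99 * R) * (100 / 99 * R))) :=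
          mul_le_mul_of_nonneg_left (mul_le_mul_of_nonneg_left key (by norm_num)) hc.le
      _ ≤ ((n.choose a : ℕ) : ℝ) * (8 ^ 2 * R ^ 2 * R) := by
          apply mul_le_mul_of_nonneg_left _ hc.le
          have : 0 ≤ R ^ 3 := by positivity
          nlinarith
      _ = 8 ^ 2 * R ^ 2 * R * ((n.choose a : ℕ) : ℝ) := by ring
  · rw [win_zero (z := z - 3) (by omega)]
    exact mul_nonneg (by positivity) (win_nonneg P z)

theorem win_r2 (P : Par n t J L0 M0 y) {z : ℤ} (h1 : (t : ℤ) - J + 2 ≤ z) :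
    win n t J z ≤ 6 * t / n * win n t J (z - 2) := by
  obtain ⟨b1, b2, b3⟩ := basic P
  by_cases h2 : z ≤ t
  · rw [win_eq (by omega) h2, win_eq (z := z - 2) (by omega) (by omega)]
    obtain ⟨a, ha⟩ : ∃ a : ℕ, z = (a : ℤ) + 2 := ⟨(z - 2).toNat, by omega⟩
    subst ha
    have e1 : ((a : ℤ) + 2 - 2).toNat = a := by omega
    have e2 : ((a : ℤ) + 2).toNat = a + 2 := by omega
    rw [e1, e2]
    have hat : (a : ℝ) + 2 ≤ t := by
      have : a + 2 ≤ t := by omega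
      exact_mod_cast this
    have ht : (0 : ℝ) < t := by
      have : 0 < t := by omega
      exact_mod_cast this
    have htn : 100 * (t : ℝ) ≤ n := by exact_mod_cast b3
    have hn : (0 : ℝ) < n := by linarith
    have ha0 : (0 : ℝ) ≤ a := Nat.cast_nonneg a
    have hsn : sn t J ((a : ℤ) + 2) ≤ 5 * sn t J ((a : ℤ) + 2 - 2) := by
      have := sn_add2 (t := t) (J := J) (z := (a : ℤ) + 2 - 2) (by omega) (by omega)
      have e : (a : ℤ) + 2 - 2 + 2 = (a : ℤ) + 2 := by ring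
      rwa [e] at this
    apply cmp (k := 5) (choose_pos' (by omega)) (choose_pos' (by omega))
      (sn_pos (by omega) (by omega)).le hsn (by norm_num) (by positivity)
    have hs1 := choose_step (n := n) (a := a) (by omega)
    have hs2 := choose_step (n := n) (a := a + 1) (by omega)
    push_cast at hs2
    have hc : 0 < ((n.choose (a + 2) : ℕ) : ℝ) := choose_pos' (by omega)
    have hd1 : (0 : ℝ) < (n : ℝ) - a := by linarith
    have hd2 : (0 : ℝ) < (n : ℝ) - (a + 1) := by linarith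
    have hc1 : ((n.choose (a + 1) : ℕ) : ℝ) = ((n.choose (a + 2) : ℕ) : ℝ) * (((a : ℝ) + 1 + 1) / ((n : ℝ) - (a + 1))) := by
      rw [← mul_div_assoc, eq_div_iff hd2.ne']; exact hs2.symm
    have hc0 : ((n.choose a : ℕ) : ℝ) = ((n.choose (a + 1) : ℕ) : ℝ) * (((a : ℝ) + 1) / ((n : ℝ) - a)) := by
      rw [← mul_div_assoc, eq_div_iff hd1.ne']; exact hs1.symm
    rw [hc0, hc1]
    have k1 : ((a : ℝ) + 1 + 1) / ((n : ℝ) - (a + 1)) ≤ 100 / 99 * ((t : ℝ) / n) := by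
      rw [← mul_div_assoc, div_le_div_iff₀ hd2 hn]
      nlinarith
    have k2 : ((a : ℝ) + 1) / ((n : ℝ) - a) ≤ 100 / 99 * ((t : ℝ) / n) := by
      rw [← mul_div_assoc, div_le_div_iff₀ hd1 hn]
      nlinarith
    set R : ℝ := (t : ℝ) / n with hR
    have hR0 : 0 ≤ R := by positivity
    have e6 : 6 * (t : ℝ) / n = 6 * R := by rw [hR]; ring
    rw [e6]
    have key : (((a : ℝ) + 1 + 1) / ((n : ℝ) - (a + 1))) * (((a : ℝ) + 1) / ((n : ℝ) - a)) ≤
        (100 / 99 * R) * (100 / 99 * R) :=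
      mul_le_mul k1 k2 (div_nonneg (by linarith) hd1.le) (by positivity)
    calc 5 ^ 2 * (((n.choose (a + 2) : ℕ) : ℝ) * (((a : ℝ) + 1 + 1) / ((n : ℝ) - (a + 1))) *
          (((a : ℝ) + 1) / ((n : ℝ) - a)))
        = ((n.choose (a + 2) : ℕ) : ℝ) * (5 ^ 2 * ((((a : ℝ) + 1 + 1) / ((n : ℝ) - (a + 1))) *
          (((a : ℝ) + 1) / ((n : ℝ) - a)))) := by ring
      _ ≤ ((n.choose (a + 2) : ℕ) : ℝ) * (5 ^ 2 * ((100 / 99 * R) * (100 / 99 * R))) :=
          mul_le_mul_of_nonneg_left (mul_le_mul_of_nonneg_left key (by norm_num)) hc.le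
      _ ≤ ((n.choose (a + 2) : ℕ) : ℝ) * ((6 * R) ^ 2) := by
          apply mul_le_mul_of_nonneg_left _ hc.le
          have : 0 ≤ R ^ 2 := by positivity
          nlinarith
      _ = (6 * R) ^ 2 * ((n.choose (a + 2) : ℕ) : ℝ) := by ring
  · rw [win_zero (z := z) (by omega)]
    exact mul_nonneg (by positivity) (win_nonneg P _)

theorem win_r2' (P : Par n t J L0 M0 y) {z : ℤ} (h2 : z + 2 ≤ t) :
    win n t J z ≤ 7 * n / t * win n t J (z + 2) := by
  obtain ⟨b1, b2, b3⟩ := basic P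
  by_cases h1 : (t : ℤ) - J ≤ z
  · rw [win_eq h1 (by omega), win_eq (z := z + 2) (by omega) (by omega)]
    obtain ⟨a, ha⟩ : ∃ a : ℕ, z = (a : ℤ) := ⟨z.toNat, by omega⟩
    subst ha
    have e1 : ((a : ℤ)).toNat = a := by omega
    have e2 : ((a : ℤ) + 2).toNat = a + 2 := by omega
    rw [e1, e2]
    have haJ : 99 * (t : ℝ) ≤ 100 * (a : ℝ) := by
      have : 99 * t ≤ 100 * a := by omega
      exact_mod_cast this
    have ht : (0 : ℝ) < t := by
      have : 0 < t := by omega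
      exact_mod_cast this
    have hn : (0 : ℝ) ≤ n := Nat.cast_nonneg n
    have ha0 : (0 : ℝ) ≤ a := Nat.cast_nonneg a
    have hsn : sn t J (a : ℤ) ≤ 5 * sn t J ((a : ℤ) + 2) := by
      have := sn_sub2 (t := t) (J := J) (z := (a : ℤ) + 2) (by omega) (by omega)
      have e : (a : ℤ) + 2 - 2 = (a : ℤ) := by ring
      rwa [e] at this
    apply cmp (k := 5) (choose_pos' (by omega)) (choose_pos' (by omega))
      (sn_pos (by omega) (by omega)).le hsn (by norm_num) (by positivity)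
    have hs1 := choose_step (n := n) (a := a) (by omega)
    have hs2 := choose_step (n := n) (a := a + 1) (by omega)
    push_cast at hs2
    have hc : 0 < ((n.choose a : ℕ) : ℝ) := choose_pos' (by omega)
    have ha1 : (0 : ℝ) < (a : ℝ) + 1 := by positivity
    have ha2 : (0 : ℝ) < (a : ℝ) + 1 + 1 := by positivity
    have hc1 : ((n.choose (a + 1) : ℕ) : ℝ) = ((n.choose a : ℕ) : ℝ) * (((n : ℝ) - a) / ((a : ℝ) + 1)) := by
      rw [← mul_div_assoc, eq_div_iff ha1.ne']; exact hs1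
    have hc2 : ((n.choose (a + 2) : ℕ) : ℝ) = ((n.choose (a + 1) : ℕ) : ℝ) * (((n : ℝ) - (a + 1)) / ((a : ℝ) + 1 + 1)) := by
      rw [← mul_div_assoc, eq_div_iff ha2.ne']; exact hs2
    have hn3 : (a : ℝ) + 1 ≤ n := by
      have : a + 1 ≤ n := by omega
      exact_mod_cast this
    have k1 : ((n : ℝ) - a) / ((a : ℝ) + 1) ≤ 100 / 99 * ((n : ℝ) / t) := by
      rw [← mul_div_assoc, div_le_div_iff₀ ha1 ht]
      nlinarith
    have k2 : ((n : ℝ) - (a + 1)) / ((a : ℝ) + 1 + 1) ≤ 100 / 99 * ((n : ℝ) / t) := by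
      rw [← mul_div_assoc, div_le_div_iff₀ ha2 ht]
      nlinarith
    rw [hc2, hc1]
    set R : ℝ := (n : ℝ) / t with hR
    have hR0 : 0 ≤ R := by positivity
    have e6 : 7 * (n : ℝ) / t = 7 * R := by rw [hR]; ring
    rw [e6]
    have key : (((n : ℝ) - a) / ((a : ℝ) + 1)) * (((n : ℝ) - (a + 1)) / ((a : ℝ) + 1 + 1)) ≤
        (100 / 99 * R) * (100 / 99 * R) :=
      mul_le_mul k1 k2 (div_nonneg (by linarith) ha2.le) (by positivity)
    calc 5 ^ 2 * (((n.choose a : ℕ) : ℝ) * (((n : ℝ) - a) / ((a : ℝ) + 1)) *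
          (((n : ℝ) - (a + 1)) / ((a : ℝ) + 1 + 1)))
        = ((n.choose a : ℕ) : ℝ) * (5 ^ 2 * ((((n : ℝ) - a) / ((a : ℝ) + 1)) *
          (((n : ℝ) - (a + 1)) / ((a : ℝ) + 1 + 1)))) := by ring
      _ ≤ ((n.choose a : ℕ) : ℝ) * (5 ^ 2 * ((100 / 99 * R) * (100 / 99 * R))) :=
          mul_le_mul_of_nonneg_left (mul_le_mul_of_nonneg_left key (by norm_num)) hc.le
      _ ≤ ((n.choose a : ℕ) : ℝ) * ((7 * R) ^ 2) := by
          apply mul_le_mul_of_nonneg_left _ hc.le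
          have : 0 ≤ R ^ 2 := by positivity
          nlinarith
      _ = (7 * R) ^ 2 * ((n.choose a : ℕ) : ℝ) := by ring
  · rw [win_zero (z := z) (by omega)]
    exact mul_nonneg (by positivity) (win_nonneg P _)

theorem win_t1 (P : Par n t J L0 M0 y) :
    win n t J ((t : ℤ) - 1) ≤ 3 * Real.sqrt (((n : ℝ) - t + 1) / t) * win n t J t := by
  obtain ⟨b1, b2, b3⟩ := basic P
  have hJ := P.hJ
  rw [win_eq (z := (t : ℤ) - 1) (by omega) (by omega), win_eq (z := (t : ℤ)) (by omega) le_rfl]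
  obtain ⟨a, ha⟩ : ∃ a : ℕ, t = a + 1 := ⟨t - 1, by omega⟩
  have e1 : ((t : ℤ) - 1).toNat = a := by omega
  have e2 : ((t : ℤ)).toNat = a + 1 := by omega
  rw [e1, e2]
  have ht : (0 : ℝ) < t := by
    have : 0 < t := by omega
    exact_mod_cast this
  have hta : (t : ℝ) = (a : ℝ) + 1 := by rw [ha]; push_cast; ring
  have hnt : (t : ℝ) ≤ n := by
    have : t ≤ n := by omega
    exact_mod_cast this
  have hsn : sn t J ((t : ℤ) - 1) ≤ 3 * sn t J t := by
    rw [sn_top1, sn_top]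
    exact sin_three_half (sin_half_pos J).le
  apply cmp (k := 3) (choose_pos' (by omega)) (choose_pos' (by omega))
    (sn_pos (by omega) le_rfl).le hsn (by norm_num) (by positivity)
  rw [mul_pow, Real.sq_sqrt (div_nonneg (by linarith) ht.le)]
  have hs1 := choose_step (n := n) (a := a) (by omega)
  have hc1 : ((n.choose (a + 1) : ℕ) : ℝ) = ((n.choose a : ℕ) : ℝ) * (((n : ℝ) - a) / ((a : ℝ) + 1)) := by
    rw [← mul_div_assoc, eq_div_iff (by positivity)]; exact hs1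
  rw [hc1, hta]
  apply le_of_eq
  ring

theorem win_b1 (P : Par n t J L0 M0 y) :
    win n t J ((t : ℤ) - J + 1)
      ≤ 3 * Real.sqrt (((t : ℝ) - J + 1) / ((n : ℝ) - t + J)) * win n t J ((t : ℤ) - J) := by
  obtain ⟨b1, b2, b3⟩ := basic P
  have hJ := P.hJ
  rw [win_eq (z := (t : ℤ) - J + 1) (by omega) (by omega),
    win_eq (z := (t : ℤ) - J) (by omega) (by omega)]
  obtain ⟨a, ha⟩ : ∃ a : ℕ, t = a + J := ⟨t - J, by omega⟩
  have e1 : ((t : ℤ) - J + 1).toNat = a + 1 := by omega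
  have e2 : ((t : ℤ) - J).toNat = a := by omega
  rw [e1, e2]
  have hta : (t : ℝ) = (a : ℝ) + J := by rw [ha]; push_cast; ring
  have hnt : 100 * (t : ℝ) ≤ n := by exact_mod_cast b3
  have hJ0 : (0 : ℝ) ≤ J := Nat.cast_nonneg J
  have ha0 : (0 : ℝ) ≤ a := Nat.cast_nonneg a
  have ht : (0 : ℝ) < t := by
    have : 0 < t := by omega
    exact_mod_cast this
  have hsn : sn t J ((t : ℤ) - J + 1) ≤ 3 * sn t J ((t : ℤ) - J) := by
    rw [sn_bot1, sn_bot]
    exact sin_three_half (sin_half_pos J).le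
  have hd : (0 : ℝ) < (n : ℝ) - a := by linarith
  apply cmp (k := 3) (choose_pos' (by omega)) (choose_pos' (by omega))
    (sn_pos (by omega) (by omega)).le hsn (by norm_num) (by positivity)
  have e3 : ((t : ℝ) - J + 1) / ((n : ℝ) - t + J) = ((a : ℝ) + 1) / ((n : ℝ) - a) := by
    rw [hta]; ring_nf
  rw [e3, mul_pow, Real.sq_sqrt (div_nonneg (by linarith) hd.le)]
  have hs1 := choose_step (n := n) (a := a) (by omega)
  have hc0 : ((n.choose a : ℕ) : ℝ) = ((n.choose (a + 1) : ℕ) : ℝ) * (((a : ℝ) + 1) / ((n : ℝ) - a)) := by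
    rw [← mul_div_assoc, eq_div_iff hd.ne']; exact hs1.symm
  rw [hc0]
  apply le_of_eq
  ring

end window

end Pool.Agent.Lib.MP_0430e4_lc.Impr
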