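import Pool.Agent.Lib.MP_0430e4_lc.Impr.Defs

/-!
# WIN2: the adjacency inequality for the sine window
-/

set_option autoImplicit false

namespace Pool.Agent.Lib.MP_0430e4_lc.Impr

open Finset

/-- The sine of the window. -/
noncomputable def w2S (t J : ℕ) (z : ℤ) : ℝ :=
  Real.sin (Real.pi / ((J : ℝ) + 1) * ((t : ℝ) + 1 / 2 - (z : ℝ)))

theorem w2S_rec (t J : ℕ) (z : ℤ) :
    w2S t J (z - 1) + w2S t J (z + 1) = 2 * Real.cos (Real.pi / ((J : ℝ) + 1)) * w2S t J z := by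
  unfold w2S
  set θ := Real.pi / ((J : ℝ) + 1) with hθ
  have e1 : θ * ((t : ℝ) + 1 / 2 - ((z - 1 : ℤ) : ℝ)) = θ * ((t : ℝ) + 1 / 2 - (z : ℝ)) + θ := by
    push_cast; ring
  have e2 : θ * ((t : ℝ) + 1 / 2 - ((z + 1 : ℤ) : ℝ)) = θ * ((t : ℝ) + 1 / 2 - (z : ℝ)) - θ := by
    push_cast; ring
  rw [e1, e2, Real.sin_add, Real.sin_sub]
  ring

theorem w2S_top (t J : ℕ) : w2S t J ((t : ℤ) + 1) = - w2S t J (t : ℤ) := by
  unfold w2S
  rw [← Real.sin_neg]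
  congr 1
  push_cast
  ring

theorem w2S_bot (t J : ℕ) : w2S t J ((t : ℤ) - J - 1) = - w2S t J ((t : ℤ) - J) := by
  unfold w2S
  have hJ : ((J : ℝ) + 1) ≠ 0 := by positivity
  have e1 : Real.pi / ((J : ℝ) + 1) * ((t : ℝ) + 1 / 2 - (((t : ℤ) - J - 1 : ℤ) : ℝ))
      = Real.pi / ((J : ℝ) + 1) / 2 + Real.pi := by
    push_cast; field_simp; ring
  have e2 : Real.pi / ((J : ℝ) + 1) * ((t : ℝ) + 1 / 2 - (((t : ℤ) - J : ℤ) : ℝ))
      = Real.pi - Real.pi / ((J : ℝ) + 1) / 2 := by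
    push_cast; field_simp; ring
  rw [e1, e2, Real.sin_add_pi, Real.sin_pi_sub]

theorem w2S_pos (t J : ℕ) {z : ℤ} (h1 : (t : ℤ) - J ≤ z) (h2 : z ≤ t) : 0 < w2S t J z := by
  unfold w2S
  have hJ : (0 : ℝ) < (J : ℝ) + 1 := by positivity
  have h1' : (t : ℝ) - J ≤ (z : ℝ) := by exact_mod_cast h1
  have h2' : (z : ℝ) ≤ t := by exact_mod_cast h2
  apply Real.sin_pos_of_pos_of_lt_pi
  · have : (0 : ℝ) < (t : ℝ) + 1 / 2 - (z : ℝ) := by linarith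
    have := Real.pi_pos
    positivity
  · rw [div_mul_eq_mul_div, div_lt_iff₀ hJ]
    have := Real.pi_pos
    nlinarith

theorem w2_in {n t J : ℕ} {z : ℤ} (h1 : (t : ℤ) - J ≤ z) (h2 : z ≤ t) :
    win n t J z = w2S t J z / Real.sqrt ((n.choose z.toNat : ℕ) : ℝ) := by
  unfold win w2S
  rw [if_pos ⟨h1, h2⟩]

theorem w2_out {n t J : ℕ} {z : ℤ} (h : z < (t : ℤ) - J ∨ (t : ℤ) < z) :
    win n t J z = 0 := by
  unfold win
  rw [if_neg]
  rintro ⟨h1, h2⟩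
  omega

theorem w2_coef {n a : ℕ} (ha : a + 1 ≤ n) :
    Real.sqrt ((n.choose (a + 1) : ℕ) : ℝ) * ((a : ℝ) + 1)
      = Real.sqrt (((a : ℝ) + 1) * ((n : ℝ) - a)) * Real.sqrt ((n.choose a : ℕ) : ℝ) ∧
    Real.sqrt ((n.choose a : ℕ) : ℝ) * ((n : ℝ) - a)
      = Real.sqrt (((a : ℝ) + 1) * ((n : ℝ) - a)) * Real.sqrt ((n.choose (a + 1) : ℕ) : ℝ) := by
  have hc : ((n.choose (a + 1) : ℕ) : ℝ) * ((a : ℝ) + 1) = ((n.choose a : ℕ) : ℝ) * ((n : ℝ) - a) := by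
    have h := Nat.choose_succ_right_eq n a
    have h' : ((n.choose (a + 1) * (a + 1) : ℕ) : ℝ) = ((n.choose a * (n - a) : ℕ) : ℝ) := by
      rw [h]
    push_cast [Nat.cast_sub (by omega : a ≤ n)] at h'
    exact h'
  have hn : (0 : ℝ) ≤ (n : ℝ) - a := by
    have : ((a + 1 : ℕ) : ℝ) ≤ (n : ℝ) := by exact_mod_cast ha
    push_cast at this
    linarith
  have ha0 : (0 : ℝ) ≤ (a : ℝ) + 1 := by positivity
  constructor
  · rw [← Real.sqrt_mul (by positivity)]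
    rw [show ((a : ℝ) + 1) * ((n : ℝ) - a) * ((n.choose a : ℕ) : ℝ)
        = ((n.choose (a + 1) : ℕ) : ℝ) * ((a : ℝ) + 1) ^ 2 by
      rw [show ((n.choose (a + 1) : ℕ) : ℝ) * ((a : ℝ) + 1) ^ 2
        = ((n.choose (a + 1) : ℕ) : ℝ) * ((a : ℝ) + 1) * ((a : ℝ) + 1) by ring, hc]
      ring]
    rw [Real.sqrt_mul (by positivity), Real.sqrt_sq ha0]
  · rw [← Real.sqrt_mul (by positivity)]
    rw [show ((a : ℝ) + 1) * ((n : ℝ) - a) * ((n.choose (a + 1) : ℕ) : ℝ)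
        = ((n.choose a : ℕ) : ℝ) * ((n : ℝ) - a) ^ 2 by
      rw [show ((n.choose a : ℕ) : ℝ) * ((n : ℝ) - a) ^ 2
        = ((n.choose a : ℕ) : ℝ) * ((n : ℝ) - a) * ((n : ℝ) - a) by ring, ← hc]
      ring]
    rw [Real.sqrt_mul (by positivity), Real.sqrt_sq hn]

theorem w2_left {n t J a : ℕ} (htn : t ≤ n) (h1 : (t : ℤ) - J ≤ (a : ℤ)) (h2 : a + 1 ≤ t) :
    ((a : ℝ) + 1) * win n t J (a : ℤ)
      = Real.sqrt (((a : ℝ) + 1) * ((n : ℝ) - a)) * w2S t J (a : ℤ)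
        / Real.sqrt ((n.choose (a + 1) : ℕ) : ℝ) := by
  rw [w2_in h1 (by omega)]
  have p1 : 0 < Real.sqrt ((n.choose a : ℕ) : ℝ) := by
    apply Real.sqrt_pos.mpr; exact_mod_cast Nat.choose_pos (by omega)
  have p2 : 0 < Real.sqrt ((n.choose (a + 1) : ℕ) : ℝ) := by
    apply Real.sqrt_pos.mpr; exact_mod_cast Nat.choose_pos (by omega)
  have hc := (w2_coef (n := n) (a := a) (by omega)).1
  simp only [Int.toNat_natCast]
  rw [← mul_div_assoc, div_eq_div_iff p1.ne' p2.ne']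
  calc ((a : ℝ) + 1) * w2S t J (a : ℤ) * Real.sqrt ((n.choose (a + 1) : ℕ) : ℝ)
      = (Real.sqrt ((n.choose (a + 1) : ℕ) : ℝ) * ((a : ℝ) + 1)) * w2S t J (a : ℤ) := by ring
    _ = _ := by rw [hc]; ring

theorem w2_right {n t J a : ℕ} (htn : t ≤ n) (h1 : (t : ℤ) - J ≤ (a : ℤ) + 1) (h2 : a + 1 ≤ t) :
    ((n : ℝ) - a) * win n t J ((a : ℤ) + 1)
      = Real.sqrt (((a : ℝ) + 1) * ((n : ℝ) - a)) * w2S t J ((a : ℤ) + 1)
        / Real.sqrt ((n.choose a : ℕ) : ℝ) := by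
  rw [w2_in h1 (by omega)]
  have p1 : 0 < Real.sqrt ((n.choose a : ℕ) : ℝ) := by
    apply Real.sqrt_pos.mpr; exact_mod_cast Nat.choose_pos (by omega)
  have p2 : 0 < Real.sqrt ((n.choose (a + 1) : ℕ) : ℝ) := by
    apply Real.sqrt_pos.mpr; exact_mod_cast Nat.choose_pos (by omega)
  have hc := (w2_coef (n := n) (a := a) (by omega)).2
  have e : ((a : ℤ) + 1).toNat = a + 1 := by omega
  rw [e]
  rw [← mul_div_assoc, div_eq_div_iff p2.ne' p1.ne']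
  calc ((n : ℝ) - a) * w2S t J ((a : ℤ) + 1) * Real.sqrt ((n.choose a : ℕ) : ℝ)
      = (Real.sqrt ((n.choose a : ℕ) : ℝ) * ((n : ℝ) - a)) * w2S t J ((a : ℤ) + 1) := by ring
    _ = _ := by rw [hc]; ring

/-- `W_{b0} ≤ W_{a+1}` for `b0 ≤ a + 1 ≤ t`. -/
theorem w2_W {n t J a : ℕ} (htn : 2 * t ≤ n) (hJ : J ≤ t) (h1 : (t : ℤ) - J ≤ (a : ℤ) + 1)
    (h2 : a + 1 ≤ t) : Wc n t J ≤ Real.sqrt (((a : ℝ) + 1) * ((n : ℝ) - a)) := by
  unfold Wc
  apply Real.sqrt_le_sqrt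
  have h1' : (t : ℝ) - J ≤ (a : ℝ) + 1 := by exact_mod_cast h1
  have h2' : (a : ℝ) + 1 ≤ t := by exact_mod_cast h2
  have h3 : 2 * (t : ℝ) ≤ n := by exact_mod_cast htn
  nlinarith

theorem w2_Wc_nonneg (n t J : ℕ) : 0 ≤ Wc n t J := Real.sqrt_nonneg _

/-- The left neighbour. -/
theorem w2_lower_left {n t J a : ℕ} (htn : 2 * t ≤ n) (hJ : J ≤ t) (h1 : (t : ℤ) - J ≤ (a : ℤ))
    (h2 : a + 1 ≤ t) :
    Wc n t J * w2S t J (a : ℤ) / Real.sqrt ((n.choose (a + 1) : ℕ) : ℝ)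
      ≤ ((a : ℝ) + 1) * win n t J (a : ℤ) := by
  rw [w2_left (by omega) h1 h2]
  apply div_le_div_of_nonneg_right _ (Real.sqrt_nonneg _)
  apply mul_le_mul_of_nonneg_right (w2_W htn hJ (by omega) h2)
  exact (w2S_pos t J h1 (by omega)).le

/-- The right neighbour. -/
theorem w2_lower_right {n t J a : ℕ} (htn : 2 * t ≤ n) (hJ : J ≤ t)
    (h1 : (t : ℤ) - J ≤ (a : ℤ) + 1) (h2 : a + 1 ≤ t) :
    Wc n t J * w2S t J ((a : ℤ) + 1) / Real.sqrt ((n.choose a : ℕ) : ℝ)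
      ≤ ((n : ℝ) - a) * win n t J ((a : ℤ) + 1) := by
  rw [w2_right (by omega) h1 h2]
  apply div_le_div_of_nonneg_right _ (Real.sqrt_nonneg _)
  apply mul_le_mul_of_nonneg_right (w2_W htn hJ (by omega) h2)
  exact (w2S_pos t J h1 (by omega)).le

/-! ### The three inequalities -/

theorem w2_par {n t J L0 M0 : ℕ} {y : ℝ} (P : Par n t J L0 M0 y) :
    4 ≤ J ∧ J + 1 ≤ t ∧ 2 * t ≤ n := by
  have h1 := P.hJ
  have h2 := P.hJt
  have h3 := P.htn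
  refine ⟨h1, ?_, by omega⟩
  nlinarith

variable {n t J L0 M0 : ℕ} {y : ℝ}

theorem win_adj_t (P : Par n t J L0 M0 y) :
    (Wc n t J + Wc n t J / (J : ℝ) ^ 2) * win n t J t
      ≤ adjP n (win n t J) t - lev n t J * win n t J t := by
  obtain ⟨hJ, hJt, htn⟩ := w2_par P
  obtain ⟨a, rfl⟩ : ∃ a, t = a + 1 := ⟨t - 1, by omega⟩
  have hL := w2_lower_left (n := n) (t := a + 1) (J := J) (a := a) htn (by omega)
    (by push_cast; omega) le_rfl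
  have hR : win n (a + 1) J (((a + 1 : ℕ) : ℤ) + 1) = 0 := w2_out (Or.inr (by omega))
  have hrec := w2S_rec (a + 1) J ((a + 1 : ℕ) : ℤ)
  rw [w2S_top] at hrec
  have e0 : ((a + 1 : ℕ) : ℤ) - 1 = (a : ℤ) := by push_cast; ring
  rw [e0] at hrec
  unfold adjP lev
  rw [hR, e0]
  have hin : win n (a + 1) J ((a + 1 : ℕ) : ℤ)
      = w2S (a + 1) J ((a + 1 : ℕ) : ℤ) / Real.sqrt ((n.choose (a + 1) : ℕ) : ℝ) := by
    rw [w2_in (by omega) le_rfl]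
    simp only [Int.toNat_natCast]
  rw [hin]
  have hs : w2S (a + 1) J (a : ℤ)
      = (2 * Real.cos (Real.pi / ((J : ℝ) + 1)) + 1) * w2S (a + 1) J ((a + 1 : ℕ) : ℤ) := by
    linarith
  rw [hs] at hL
  have hc : ((((a + 1 : ℕ) : ℤ)) : ℝ) = (a : ℝ) + 1 := by push_cast; ring
  rw [hc]
  have key : Wc n (a + 1) J * ((2 * Real.cos (Real.pi / ((J : ℝ) + 1)) + 1)
      * w2S (a + 1) J ((a + 1 : ℕ) : ℤ)) / Real.sqrt ((n.choose (a + 1) : ℕ) : ℝ)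
      = (2 * Real.cos (Real.pi / ((J : ℝ) + 1)) * Wc n (a + 1) J + Wc n (a + 1) J)
        * (w2S (a + 1) J ((a + 1 : ℕ) : ℤ) / Real.sqrt ((n.choose (a + 1) : ℕ) : ℝ)) := by
    ring
  rw [key] at hL
  linarith

theorem win_adj_b (P : Par n t J L0 M0 y) :
    (Wc n t J + Wc n t J / (J : ℝ) ^ 2) * win n t J ((t : ℤ) - J)
      ≤ adjP n (win n t J) ((t : ℤ) - J) - lev n t J * win n t J ((t : ℤ) - J) := by
  obtain ⟨hJ, hJt, htn⟩ := w2_par P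
  obtain ⟨a, ha⟩ : ∃ a : ℕ, (t : ℤ) - J = (a : ℤ) := ⟨t - J, by omega⟩
  have hR := w2_lower_right (n := n) (t := t) (J := J) (a := a) htn (by omega)
    (by omega) (by omega)
  have hL : win n t J ((a : ℤ) - 1) = 0 := w2_out (Or.inl (by omega))
  have hrec := w2S_rec t J ((t : ℤ) - J)
  rw [w2S_bot, ha] at hrec
  unfold adjP lev
  rw [ha, hL]
  have hin : win n t J (a : ℤ)
      = w2S t J (a : ℤ) / Real.sqrt ((n.choose a : ℕ) : ℝ) := by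
    rw [w2_in (by omega) (by omega)]
    simp only [Int.toNat_natCast]
  rw [hin]
  have hs : w2S t J ((a : ℤ) + 1)
      = (2 * Real.cos (Real.pi / ((J : ℝ) + 1)) + 1) * w2S t J (a : ℤ) := by
    linarith
  rw [hs] at hR
  have hc : ((a : ℤ) : ℝ) = (a : ℝ) := by push_cast; ring
  rw [hc]
  have key : Wc n t J * ((2 * Real.cos (Real.pi / ((J : ℝ) + 1)) + 1)
      * w2S t J (a : ℤ)) / Real.sqrt ((n.choose a : ℕ) : ℝ)
      = (2 * Real.cos (Real.pi / ((J : ℝ) + 1)) * Wc n t J + Wc n t J)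
        * (w2S t J (a : ℤ) / Real.sqrt ((n.choose a : ℕ) : ℝ)) := by
    ring
  rw [key] at hR
  linarith

theorem win_adj (P : Par n t J L0 M0 y) {z : ℤ} (h1 : (t : ℤ) - J ≤ z) (h2 : z ≤ t) :
    Wc n t J / (J : ℝ) ^ 2 * win n t J z
      ≤ adjP n (win n t J) z - lev n t J * win n t J z := by
  obtain ⟨hJ, hJt, htn⟩ := w2_par P
  have hW := w2_Wc_nonneg n t J
  have hpos : 0 ≤ win n t J z := by
    rw [w2_in h1 h2]
    exact div_nonneg (w2S_pos t J h1 h2).le (Real.sqrt_nonneg _)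
  rcases eq_or_lt_of_le h2 with h2' | h2'
  · subst h2'
    have := win_adj_t P
    nlinarith [mul_nonneg hW hpos]
  rcases eq_or_lt_of_le h1 with h1' | h1'
  · subst h1'
    have := win_adj_b P
    nlinarith [mul_nonneg hW hpos]
  obtain ⟨a, rfl⟩ : ∃ a : ℕ, z = (a : ℤ) + 1 := ⟨(z - 1).toNat, by omega⟩
  have hL := w2_lower_left (n := n) (t := t) (J := J) (a := a) htn (by omega)
    (by omega) (by omega)
  have hR := w2_lower_right (n := n) (t := t) (J := J) (a := a + 1) htn (by omega)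
    (by push_cast; omega) (by omega)
  have hrec := w2S_rec t J ((a : ℤ) + 1)
  unfold adjP lev
  have hin : win n t J ((a : ℤ) + 1)
      = w2S t J ((a : ℤ) + 1) / Real.sqrt ((n.choose (a + 1) : ℕ) : ℝ) := by
    rw [w2_in (by omega) (by omega)]
    have e : ((a : ℤ) + 1).toNat = a + 1 := by omega
    rw [e]
  have e1 : (a : ℤ) + 1 - 1 = (a : ℤ) := by ring
  have e2 : ((a + 1 : ℕ) : ℤ) = (a : ℤ) + 1 := by push_cast; ring
  rw [e2] at hR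
  rw [e1] at hrec ⊢
  rw [hin]
  have hc : (((a : ℤ) + 1 : ℤ) : ℝ) = (a : ℝ) + 1 := by push_cast; ring
  rw [hc]
  have hc2 : (((a + 1 : ℕ)) : ℝ) = (a : ℝ) + 1 := by push_cast; ring
  rw [hc2] at hR
  have key : Wc n t J * w2S t J (a : ℤ) / Real.sqrt ((n.choose (a + 1) : ℕ) : ℝ)
      + Wc n t J * w2S t J ((a : ℤ) + 1 + 1) / Real.sqrt ((n.choose (a + 1) : ℕ) : ℝ)
      = 2 * Real.cos (Real.pi / ((J : ℝ) + 1)) * Wc n t J
        * (w2S t J ((a : ℤ) + 1) / Real.sqrt ((n.choose (a + 1) : ℕ) : ℝ)) := by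
    rw [← add_div, ← mul_add, hrec]
    ring
  linarith

end Pool.Agent.Lib.MP_0430e4_lc.Impr
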