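import Pool.Agent.Lib.MP_0430e4_lc.Impr.Defs
import Pool.Agent.Lib.MP_0430e4_lc.Impr.WIN1
import Pool.Agent.Lib.MP_0430e4_lc.Impr.WIN2

/-!
# WIN3: the defect functions of the sine window
-/

set_option autoImplicit false

namespace Pool.Agent.Lib.MP_0430e4_lc.Impr

open Finset

section window

variable {n t J L0 M0 : ℕ} {y : ℝ}

/-! ### Preparations -/

theorem w3_sqrt {c x : ℝ} (hc : 0 ≤ c) : Real.sqrt (c ^ 2 * x) = c * Real.sqrt x := by
  rw [Real.sqrt_mul (by positivity), Real.sqrt_sq hc]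

theorem w3_par (P : Par n t J L0 M0 y) :
    4 ≤ J ∧ 100 * J ≤ t ∧ 6400 ≤ t ∧ 100 * t ≤ n := by
  have h1 := P.hJ
  have h2 := P.hJt
  have h3 := P.htn
  refine ⟨h1, ?_, ?_, h3⟩
  · nlinarith
  · nlinarith

/-- the defect of the window outside its support -/
theorem w3_eq (s : ℝ) (z : ℤ) :
    wOf n (lev n t J) s (win n t J) z
      = (adjP n (win n t J) z - lev n t J * win n t J z)
        + 2 * s * (win n t J (z - 3) - win n t J (z - 1)) := by
  unfold wOf
  rfl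

theorem wOf_supp {s : ℝ} {z : ℤ} (h : wOf n (lev n t J) s (win n t J) z ≠ 0) :
    (t : ℤ) - J - 1 ≤ z ∧ z ≤ t + 3 := by
  by_contra hc
  apply h
  rw [w3_eq]
  unfold adjP
  have hz : z < (t : ℤ) - J - 1 ∨ (t : ℤ) + 3 < z := by omega
  have a1 : win n t J (z - 1) = 0 := w2_out (by omega)
  have a2 : win n t J (z + 1) = 0 := w2_out (by omega)
  have a3 : win n t J z = 0 := w2_out (by omega)
  have a4 : win n t J (z - 3) = 0 := w2_out (by omega)
  rw [a1, a2, a3, a4]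
  ring

/-- values of the defect: left end -/
theorem w3_left (s : ℝ) :
    wOf n (lev n t J) s (win n t J) ((t : ℤ) - J - 1)
      = ((n : ℝ) - ((t : ℝ) - J - 1)) * win n t J ((t : ℤ) - J) := by
  rw [w3_eq]
  unfold adjP
  have a1 : win n t J ((t : ℤ) - J - 1 - 1) = 0 := w2_out (by omega)
  have a2 : (t : ℤ) - J - 1 + 1 = (t : ℤ) - J := by ring
  have a3 : win n t J ((t : ℤ) - J - 1) = 0 := w2_out (by omega)
  have a4 : win n t J ((t : ℤ) - J - 1 - 3) = 0 := w2_out (by omega)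
  rw [a1, a2, a3, a4]
  push_cast
  ring

/-- `z = t + 1` -/
theorem w3_t1 (s : ℝ) :
    wOf n (lev n t J) s (win n t J) ((t : ℤ) + 1)
      = ((t : ℝ) + 1) * win n t J t + 2 * s * (win n t J ((t : ℤ) - 2) - win n t J t) := by
  rw [w3_eq]
  unfold adjP
  have a1 : (t : ℤ) + 1 - 1 = t := by ring
  have a2 : win n t J ((t : ℤ) + 1 + 1) = 0 := w2_out (by omega)
  have a3 : win n t J ((t : ℤ) + 1) = 0 := w2_out (by omega)
  have a4 : (t : ℤ) + 1 - 3 = (t : ℤ) - 2 := by ring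
  rw [a1, a2, a3, a4]
  push_cast
  ring

/-- `z ≥ t + 2` -/
theorem w3_t2 (s : ℝ) {z : ℤ} (hz : (t : ℤ) + 2 ≤ z) :
    wOf n (lev n t J) s (win n t J) z = 2 * s * win n t J (z - 3) := by
  rw [w3_eq]
  unfold adjP
  have a1 : win n t J (z - 1) = 0 := w2_out (by omega)
  have a2 : win n t J (z + 1) = 0 := w2_out (by omega)
  have a3 : win n t J z = 0 := w2_out (by omega)
  rw [a1, a2, a3]
  ring

/-- The window decays slowly: two steps. -/
theorem w3_two (P : Par n t J L0 M0 y) :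
    y * win n t J ((t : ℤ) - 2) ≤ 16 / 324 * win n t J t := by
  obtain ⟨hJ, hJt, ht, htn⟩ := w3_par P
  have h1 := win_r1 P (z := (t : ℤ)) le_rfl
  have h2 := win_r1 P (z := (t : ℤ) - 1) (by omega)
  have e : (t : ℤ) - 1 - 1 = (t : ℤ) - 2 := by ring
  rw [e] at h2
  have hv := win_nonneg P (t : ℤ)
  have ht0 : (0 : ℝ) < t := by exact_mod_cast (by omega : 0 < t)
  have hnt : (0 : ℝ) ≤ (n : ℝ) / t := by positivity
  have hs := Real.mul_self_sqrt hnt
  have hs0 := Real.sqrt_nonneg ((n : ℝ) / t)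
  have h3 : win n t J ((t : ℤ) - 2) ≤ 16 * ((n : ℝ) / t) * win n t J t := by
    calc win n t J ((t : ℤ) - 2) ≤ 4 * Real.sqrt ((n : ℝ) / t) * win n t J ((t : ℤ) - 1) := h2
      _ ≤ 4 * Real.sqrt ((n : ℝ) / t) * (4 * Real.sqrt ((n : ℝ) / t) * win n t J t) :=
        mul_le_mul_of_nonneg_left h1 (by positivity)
      _ = 16 * (Real.sqrt ((n : ℝ) / t) * Real.sqrt ((n : ℝ) / t)) * win n t J t := by ring
      _ = _ := by rw [hs]
  have hy := P.y0
  have hr := P.hr1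
  have hyn : y * ((n : ℝ) / t) ≤ 1 / 324 := by
    rw [← mul_div_assoc, div_le_div_iff₀ ht0 (by norm_num)]
    linarith
  calc y * win n t J ((t : ℤ) - 2) ≤ y * (16 * ((n : ℝ) / t) * win n t J t) :=
        mul_le_mul_of_nonneg_left h3 hy.le
    _ = 16 * (y * ((n : ℝ) / t)) * win n t J t := by ring
    _ ≤ 16 * (1 / 324) * win n t J t := by
        apply mul_le_mul_of_nonneg_right _ hv
        linarith
    _ = _ := by ring

/-- Lower bound of `W`. -/
theorem w3_W (P : Par n t J L0 M0 y) : 9 / 10 * Real.sqrt ((t : ℝ) * n) ≤ Wc n t J := by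
  obtain ⟨hJ, hJt, ht, htn⟩ := w3_par P
  unfold Wc
  have h1 : 100 * (J : ℝ) ≤ t := by exact_mod_cast hJt
  have h2 : (6400 : ℝ) ≤ t := by exact_mod_cast ht
  have h3 : 100 * (t : ℝ) ≤ n := by exact_mod_cast htn
  have hJ0 : (0 : ℝ) ≤ J := by positivity
  rw [show (9 / 10 : ℝ) * Real.sqrt ((t : ℝ) * n) = Real.sqrt ((81 / 100) * ((t : ℝ) * n)) by
    rw [show (81 / 100 : ℝ) = (9 / 10) ^ 2 by norm_num, w3_sqrt (by norm_num)]]
  apply Real.sqrt_le_sqrt
  have a1 : (9 / 10) * (t : ℝ) ≤ (t : ℝ) - J := by linarith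
  have a2 : (9 / 10) * (n : ℝ) ≤ (n : ℝ) - t + J + 1 := by linarith
  calc (81 / 100) * ((t : ℝ) * n) = ((9 / 10) * (t : ℝ)) * ((9 / 10) * (n : ℝ)) := by ring
    _ ≤ _ := mul_le_mul a1 a2 (by positivity) (by linarith)

/-- `σ = W / J^2` dominates. -/
theorem w3_sig (P : Par n t J L0 M0 y) :
    y * (8 * ((n : ℝ) / t) * Real.sqrt ((n : ℝ) / t)) ≤ 1 / 10 * (Wc n t J / (J : ℝ) ^ 2) := by
  obtain ⟨hJ, hJt, ht, htn⟩ := w3_par P
  have hW := w3_W P
  have h2 : (6400 : ℝ) ≤ t := by exact_mod_cast ht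
  have h3 : 100 * (t : ℝ) ≤ n := by exact_mod_cast htn
  have hJ0 : (0 : ℝ) < J := by exact_mod_cast (by omega : 0 < J)
  have ht0 : (0 : ℝ) < t := by linarith
  have hn0 : (0 : ℝ) < n := by linarith
  have hs := P.hs
  have hy := P.y0
  -- sqrt (n / t) = sqrt (t n) / t
  have e : Real.sqrt ((n : ℝ) / t) = Real.sqrt ((t : ℝ) * n) / t := by
    rw [show (n : ℝ) / t = ((t : ℝ) * n) / (t : ℝ) ^ 2 by field_simp]
    rw [Real.sqrt_div (by positivity), Real.sqrt_sq ht0.le]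
  rw [e]
  have hq := Real.sqrt_nonneg ((t : ℝ) * n)
  set q := Real.sqrt ((t : ℝ) * n)
  have hJ2 : (0 : ℝ) < (J : ℝ) ^ 2 := by positivity
  have ht2 : (0 : ℝ) < (t : ℝ) ^ 2 := by positivity
  calc y * (8 * ((n : ℝ) / t) * (q / t)) = 8 * (y * (J : ℝ) ^ 2 * n) / ((t : ℝ) ^ 2) * q / (J : ℝ) ^ 2 := by
        field_simp
    _ ≤ (8 / 100) * q / (J : ℝ) ^ 2 := by
        apply div_le_div_of_nonneg_right _ hJ2.le
        apply mul_le_mul_of_nonneg_right _ hq
        rw [div_le_iff₀ ht2]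
        linarith
    _ ≤ 1 / 10 * (Wc n t J / (J : ℝ) ^ 2) := by
        rw [← mul_div_assoc]
        apply div_le_div_of_nonneg_right _ hJ2.le
        linarith

/-- `y sqrt (n / t)` is much smaller. -/
theorem w3_sig1 (P : Par n t J L0 M0 y) :
    y * (4 * Real.sqrt ((n : ℝ) / t)) ≤ 1 / 1000 * (Wc n t J / (J : ℝ) ^ 2) := by
  obtain ⟨hJ, hJt, ht, htn⟩ := w3_par P
  have h := w3_sig P
  have h2 : (6400 : ℝ) ≤ t := by exact_mod_cast ht
  have h3 : 100 * (t : ℝ) ≤ n := by exact_mod_cast htn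
  have ht0 : (0 : ℝ) < t := by linarith
  have hnt : (100 : ℝ) ≤ (n : ℝ) / t := by
    rw [le_div_iff₀ ht0]
    exact h3
  have hy := P.y0
  have hs0 := Real.sqrt_nonneg ((n : ℝ) / t)
  have h4 : y * (8 * 100 * Real.sqrt ((n : ℝ) / t)) ≤ y * (8 * ((n : ℝ) / t) * Real.sqrt ((n : ℝ) / t)) := by
    apply mul_le_mul_of_nonneg_left _ hy.le
    apply mul_le_mul_of_nonneg_right _ hs0
    linarith
  have hW : 0 ≤ Wc n t J / (J : ℝ) ^ 2 := div_nonneg (w2_Wc_nonneg n t J) (by positivity)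
  linarith

/-- Inside the window. -/
theorem w3_in (P : Par n t J L0 M0 y) {z : ℤ} (h2 : z ≤ t) :
    y * win n t J (z - 3) ≤ 1 / 10 * (Wc n t J / (J : ℝ) ^ 2) * win n t J z ∧
    y * win n t J (z - 1) ≤ 1 / 1000 * (Wc n t J / (J : ℝ) ^ 2) * win n t J z := by
  have hv := win_nonneg P z
  have hy := P.y0
  constructor
  · calc y * win n t J (z - 3)
        ≤ y * (8 * ((n : ℝ) / t) * Real.sqrt ((n : ℝ) / t) * win n t J z) :=
          mul_le_mul_of_nonneg_left (win_r3 P h2) hy.le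
      _ = y * (8 * ((n : ℝ) / t) * Real.sqrt ((n : ℝ) / t)) * win n t J z := by ring
      _ ≤ _ := mul_le_mul_of_nonneg_right (w3_sig P) hv
  · calc y * win n t J (z - 1)
        ≤ y * (4 * Real.sqrt ((n : ℝ) / t) * win n t J z) :=
          mul_le_mul_of_nonneg_left (win_r1 P h2) hy.le
      _ = y * (4 * Real.sqrt ((n : ℝ) / t)) * win n t J z := by ring
      _ ≤ _ := mul_le_mul_of_nonneg_right (w3_sig1 P) hv

theorem wm_nonneg (P : Par n t J L0 M0 y) {z : ℤ} (h2 : z ≤ t + 1) :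
    0 ≤ wOf n (lev n t J) (-(y / 2)) (win n t J) z := by
  obtain ⟨hJ, hJt, ht, htn⟩ := w3_par P
  have hy := P.y0
  by_cases h0 : z < (t : ℤ) - J - 1
  · by_cases hne : wOf n (lev n t J) (-(y / 2)) (win n t J) z = 0
    · rw [hne]
    · have := wOf_supp hne
      omega
  rcases eq_or_lt_of_le (not_lt.mp h0) with h1 | h1
  · rw [← h1, w3_left]
    apply mul_nonneg _ (win_nonneg P _)
    have h3 : 100 * (t : ℝ) ≤ n := by exact_mod_cast htn
    have : (0 : ℝ) ≤ t := by positivity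
    have : (0 : ℝ) ≤ J := by positivity
    linarith
  rcases eq_or_lt_of_le h2 with h3 | h3
  · rw [h3, w3_t1]
    have hv := win_nonneg P (t : ℤ)
    have htwo := w3_two P
    have ht' : (6400 : ℝ) ≤ t := by exact_mod_cast ht
    have : 0 ≤ y * win n t J t := mul_nonneg hy.le hv
    nlinarith
  · have hadj := win_adj P (z := z) (by omega) (by omega)
    obtain ⟨i1, i2⟩ := w3_in P (z := z) (by omega)
    have hv := win_nonneg P z
    have hv1 := win_nonneg P (z - 1)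
    have hW : 0 ≤ Wc n t J / (J : ℝ) ^ 2 := div_nonneg (w2_Wc_nonneg n t J) (by positivity)
    rw [w3_eq]
    have := mul_nonneg hW hv
    have := mul_nonneg hy.le hv1
    nlinarith

theorem wm_neg_nonpos (P : Par n t J L0 M0 y) {z : ℤ} (h1 : (t : ℤ) + 2 ≤ z) :
    wOf n (lev n t J) (-(y / 2)) (win n t J) z ≤ 0 := by
  rw [w3_t2 _ h1]
  have := mul_nonneg P.y0.le (win_nonneg P (z - 3))
  linarith

/-- `v (t-1) ≤ (4/t) w (t)`. -/
theorem w3_top (P : Par n t J L0 M0 y) :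
    (t : ℝ) * win n t J ((t : ℤ) - 1) ≤ 4 * wOf n (lev n t J) (-(y / 2)) (win n t J) t := by
  obtain ⟨hJ, hJt, ht, htn⟩ := w3_par P
  have hy := P.y0
  have hadj := win_adj_t P
  obtain ⟨i1, i2⟩ := w3_in P (z := (t : ℤ)) le_rfl
  have hv := win_nonneg P (t : ℤ)
  have hv1 := win_nonneg P ((t : ℤ) - 1)
  have hW : 0 ≤ Wc n t J / (J : ℝ) ^ 2 := div_nonneg (w2_Wc_nonneg n t J) (by positivity)
  have hlow : Wc n t J * win n t J t ≤ wOf n (lev n t J) (-(y / 2)) (win n t J) t := by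
    rw [w3_eq]
    have h1 := mul_nonneg hW hv
    have h2 := mul_nonneg hy.le hv1
    nlinarith
  have ht0 : (0 : ℝ) < t := by exact_mod_cast (by omega : 0 < t)
  have h1 : 100 * (J : ℝ) ≤ t := by exact_mod_cast hJt
  have h3 : 100 * (t : ℝ) ≤ n := by exact_mod_cast htn
  have hJ0 : (0 : ℝ) ≤ J := by positivity
  have hcmp : (t : ℝ) * (3 * Real.sqrt (((n : ℝ) - t + 1) / t)) ≤ 4 * Wc n t J := by
    unfold Wc
    have e : (t : ℝ) * Real.sqrt (((n : ℝ) - t + 1) / t) = Real.sqrt ((t : ℝ) * ((n : ℝ) - t + 1)) := by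
      rw [show (t : ℝ) * ((n : ℝ) - t + 1) = (t : ℝ) ^ 2 * (((n : ℝ) - t + 1) / t) by field_simp]
      rw [Real.sqrt_mul (by positivity), Real.sqrt_sq ht0.le]
    calc (t : ℝ) * (3 * Real.sqrt (((n : ℝ) - t + 1) / t))
        = 3 * ((t : ℝ) * Real.sqrt (((n : ℝ) - t + 1) / t)) := by ring
      _ = 3 * Real.sqrt ((t : ℝ) * ((n : ℝ) - t + 1)) := by rw [e]
      _ = Real.sqrt (9 * ((t : ℝ) * ((n : ℝ) - t + 1))) := by
          rw [show (9 : ℝ) = 3 ^ 2 by norm_num, w3_sqrt (by norm_num)]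
      _ ≤ Real.sqrt (16 * (((t : ℝ) - (J : ℝ)) * ((n : ℝ) - (t : ℝ) + (J : ℝ) + 1))) := by
          apply Real.sqrt_le_sqrt
          have a1 : 9 * (t : ℝ) ≤ 16 * ((t : ℝ) - J) := by linarith
          have a2 : (n : ℝ) - t + 1 ≤ (n : ℝ) - t + J + 1 := by linarith
          calc 9 * ((t : ℝ) * ((n : ℝ) - t + 1)) = (9 * (t : ℝ)) * ((n : ℝ) - t + 1) := by ring
            _ ≤ (16 * ((t : ℝ) - J)) * ((n : ℝ) - t + J + 1) :=
                mul_le_mul a1 a2 (by linarith) (by linarith)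
            _ = _ := by ring
      _ = 4 * Real.sqrt (((t : ℝ) - (J : ℝ)) * ((n : ℝ) - (t : ℝ) + (J : ℝ) + 1)) := by
          rw [show (16 : ℝ) = 4 ^ 2 by norm_num, w3_sqrt (by norm_num)]
  have htt := win_t1 P
  calc (t : ℝ) * win n t J ((t : ℤ) - 1)
      ≤ (t : ℝ) * (3 * Real.sqrt (((n : ℝ) - t + 1) / t) * win n t J t) :=
        mul_le_mul_of_nonneg_left htt ht0.le
    _ = (t : ℝ) * (3 * Real.sqrt (((n : ℝ) - t + 1) / t)) * win n t J t := by ring
    _ ≤ 4 * Wc n t J * win n t J t := mul_le_mul_of_nonneg_right hcmp hv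
    _ ≤ _ := by linarith

theorem wm_neg (P : Par n t J L0 M0 y) {z : ℤ} (h1 : (t : ℤ) + 2 ≤ z) (h2 : z ≤ t + 3) :
    -wOf n (lev n t J) (-(y / 2)) (win n t J) z
      ≤ 4 * y / t * wOf n (lev n t J) (-(y / 2)) (win n t J) (z - 2) := by
  obtain ⟨hJ, hJt, ht, htn⟩ := w3_par P
  have hy := P.y0
  have ht0 : (0 : ℝ) < t := by exact_mod_cast (by omega : 0 < t)
  have ht' : (6400 : ℝ) ≤ t := by exact_mod_cast ht
  rw [w3_t2 _ h1]
  rcases eq_or_lt_of_le h1 with h3 | h3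
  · subst h3
    have e1 : (t : ℤ) + 2 - 3 = (t : ℤ) - 1 := by ring
    have e2 : (t : ℤ) + 2 - 2 = (t : ℤ) := by ring
    rw [e1, e2]
    have h := w3_top P
    rw [div_mul_eq_mul_div, le_div_iff₀ ht0]
    have := mul_le_mul_of_nonneg_left h hy.le
    linarith
  · have hz : z = (t : ℤ) + 3 := by omega
    subst hz
    have e1 : (t : ℤ) + 3 - 3 = (t : ℤ) := by ring
    have e2 : (t : ℤ) + 3 - 2 = (t : ℤ) + 1 := by ring
    rw [e1, e2, w3_t1]
    have htwo := w3_two P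
    have hv := win_nonneg P (t : ℤ)
    have hyv := mul_nonneg hy.le hv
    rw [div_mul_eq_mul_div, le_div_iff₀ ht0]
    have hlow : (t : ℝ) * win n t J t ≤ 4 * (((t : ℝ) + 1) * win n t J t
        + 2 * (-(y / 2)) * (win n t J ((t : ℤ) - 2) - win n t J t)) := by
      nlinarith
    have := mul_le_mul_of_nonneg_left hlow hy.le
    linarith

theorem wm_corner1 (P : Par n t J L0 M0 y) :
    wOf n (lev n t J) (-(y / 2)) (win n t J) ((t : ℤ) + 1) * win n t J ((t : ℤ) - 1)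
      ≤ 8 * (wOf n (lev n t J) (-(y / 2)) (win n t J) t * win n t J t) := by
  obtain ⟨hJ, hJt, ht, htn⟩ := w3_par P
  have hy := P.y0
  have ht0 : (0 : ℝ) < t := by exact_mod_cast (by omega : 0 < t)
  have ht' : (6400 : ℝ) ≤ t := by exact_mod_cast ht
  have hv := win_nonneg P (t : ℤ)
  have hv1 := win_nonneg P ((t : ℤ) - 1)
  have hv2 := win_nonneg P ((t : ℤ) - 2)
  have h := w3_top P
  have hup : wOf n (lev n t J) (-(y / 2)) (win n t J) ((t : ℤ) + 1) ≤ 2 * (t : ℝ) * win n t J t := by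
    rw [w3_t1]
    have h1 := mul_nonneg hy.le hv2
    have h2 : y * win n t J t ≤ 1 * win n t J t := mul_le_mul_of_nonneg_right P.y1 hv
    nlinarith
  calc wOf n (lev n t J) (-(y / 2)) (win n t J) ((t : ℤ) + 1) * win n t J ((t : ℤ) - 1)
      ≤ (2 * (t : ℝ) * win n t J t) * win n t J ((t : ℤ) - 1) :=
        mul_le_mul_of_nonneg_right hup hv1
    _ = 2 * win n t J t * ((t : ℝ) * win n t J ((t : ℤ) - 1)) := by ring
    _ ≤ 2 * win n t J t * (4 * wOf n (lev n t J) (-(y / 2)) (win n t J) t) :=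
        mul_le_mul_of_nonneg_left h (by linarith)
    _ = _ := by ring

theorem wm_corner2 (P : Par n t J L0 M0 y) :
    wOf n (lev n t J) (-(y / 2)) (win n t J) ((t : ℤ) - J - 1) * win n t J ((t : ℤ) - J + 1)
      ≤ 8 * (wOf n (lev n t J) (-(y / 2)) (win n t J) ((t : ℤ) - J)
        * win n t J ((t : ℤ) - J)) := by
  obtain ⟨hJ, hJt, ht, htn⟩ := w3_par P
  have hy := P.y0
  have ht0 : (0 : ℝ) < t := by exact_mod_cast (by omega : 0 < t)
  have ht' : (6400 : ℝ) ≤ t := by exact_mod_cast ht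
  have h1 : 100 * (J : ℝ) ≤ t := by exact_mod_cast hJt
  have h3 : 100 * (t : ℝ) ≤ n := by exact_mod_cast htn
  have hJ0 : (0 : ℝ) ≤ J := by positivity
  have hv := win_nonneg P ((t : ℤ) - J)
  rw [w3_left]
  have hadj := win_adj_b P
  have hW : 0 ≤ Wc n t J / (J : ℝ) ^ 2 := div_nonneg (w2_Wc_nonneg n t J) (by positivity)
  have hlow : Wc n t J * win n t J ((t : ℤ) - J)
      ≤ wOf n (lev n t J) (-(y / 2)) (win n t J) ((t : ℤ) - J) := by
    rw [w3_eq]
    have a1 : win n t J ((t : ℤ) - J - 3) = 0 := w2_out (by omega)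
    have a2 : win n t J ((t : ℤ) - J - 1) = 0 := w2_out (by omega)
    rw [a1, a2]
    have := mul_nonneg hW hv
    nlinarith
  have hcmp : ((n : ℝ) - ((t : ℝ) - J - 1))
      * (3 * Real.sqrt (((t : ℝ) - J + 1) / ((n : ℝ) - t + J))) ≤ 8 * Wc n t J := by
    unfold Wc
    set B := (t : ℝ) - J with hB
    set N := (n : ℝ) - t + J with hN
    have hB1 : 6000 ≤ B := by rw [hB]; linarith
    have hN1 : 6000 ≤ N := by rw [hN]; linarith
    have e0 : (n : ℝ) - ((t : ℝ) - J - 1) = N + 1 := by rw [hN]; ring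
    have e1 : (n : ℝ) - (B - 1) = N + 1 := by rw [hN, hB]; ring
    rw [e1]
    have hN0 : (0 : ℝ) < N := by linarith
    have hN0' : (0 : ℝ) ≤ N + 1 := by linarith
    calc (N + 1) * (3 * Real.sqrt ((B + 1) / N))
        = Real.sqrt ((3 * (N + 1)) ^ 2 * ((B + 1) / N)) := by
          rw [Real.sqrt_mul (by positivity), Real.sqrt_sq (by positivity)]
          ring
      _ ≤ Real.sqrt (64 * (B * (N + 1))) := by
          apply Real.sqrt_le_sqrt
          rw [← mul_div_assoc, div_le_iff₀ hN0]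
          have : 9 * (N + 1) * (B + 1) ≤ 64 * B * N := by nlinarith
          nlinarith
      _ = 8 * Real.sqrt (B * (N + 1)) := by
          rw [show (64 : ℝ) = 8 ^ 2 by norm_num, w3_sqrt (by norm_num)]
  have hbb := win_b1 P
  have hn0 : (0 : ℝ) ≤ (n : ℝ) - ((t : ℝ) - J - 1) := by linarith
  calc ((n : ℝ) - ((t : ℝ) - J - 1)) * win n t J ((t : ℤ) - J) * win n t J ((t : ℤ) - J + 1)
      ≤ ((n : ℝ) - ((t : ℝ) - J - 1)) * win n t J ((t : ℤ) - J)
        * (3 * Real.sqrt (((t : ℝ) - J + 1) / ((n : ℝ) - t + J)) * win n t J ((t : ℤ) - J)) :=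
        mul_le_mul_of_nonneg_left hbb (mul_nonneg hn0 hv)
    _ = (((n : ℝ) - ((t : ℝ) - J - 1))
        * (3 * Real.sqrt (((t : ℝ) - J + 1) / ((n : ℝ) - t + J))))
          * win n t J ((t : ℤ) - J) * win n t J ((t : ℤ) - J) := by ring
    _ ≤ (8 * Wc n t J) * win n t J ((t : ℤ) - J) * win n t J ((t : ℤ) - J) := by
        apply mul_le_mul_of_nonneg_right _ hv
        exact mul_le_mul_of_nonneg_right hcmp hv
    _ = 8 * ((Wc n t J * win n t J ((t : ℤ) - J)) * win n t J ((t : ℤ) - J)) := by ring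
    _ ≤ _ := by
        apply mul_le_mul_of_nonneg_left _ (by norm_num)
        exact mul_le_mul_of_nonneg_right hlow hv

theorem wm_dom (P : Par n t J L0 M0 y) (z : ℤ) :
    |wOf n (lev n t J) (-(y / 2)) (win n t J) z|
      ≤ 3 * wOf n (lev n t J) (2 * y) (win n t J) z := by
  obtain ⟨hJ, hJt, ht, htn⟩ := w3_par P
  have hy := P.y0
  have ht' : (6400 : ℝ) ≤ t := by exact_mod_cast ht
  have h3 : 100 * (t : ℝ) ≤ n := by exact_mod_cast htn
  by_cases h0 : z < (t : ℤ) - J - 1 ∨ (t : ℤ) + 3 < z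
  · have e1 : wOf n (lev n t J) (-(y / 2)) (win n t J) z = 0 := by
      by_contra hne
      have := wOf_supp hne
      omega
    have e2 : wOf n (lev n t J) (2 * y) (win n t J) z = 0 := by
      by_contra hne
      have := wOf_supp hne
      omega
    rw [e1, e2]
    simp
  push Not at h0
  obtain ⟨h0, h0'⟩ := h0
  rcases eq_or_lt_of_le h0 with h1 | h1
  · rw [← h1, w3_left, w3_left]
    have hv := win_nonneg P ((t : ℤ) - J)
    have hJ0 : (0 : ℝ) ≤ J := by positivity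
    have h : 0 ≤ ((n : ℝ) - ((t : ℝ) - J - 1)) * win n t J ((t : ℤ) - J) :=
      mul_nonneg (by linarith) hv
    rw [abs_of_nonneg h]
    linarith
  by_cases h2 : z ≤ (t : ℤ) + 1
  · rw [abs_of_nonneg (wm_nonneg P h2)]
    rcases eq_or_lt_of_le h2 with h4 | h4
    · rw [h4, w3_t1, w3_t1]
      have hv := win_nonneg P (t : ℤ)
      have hv2 := win_nonneg P ((t : ℤ) - 2)
      have h5 := mul_nonneg hy.le hv2
      have h6 : y * win n t J t ≤ 1 * win n t J t := mul_le_mul_of_nonneg_right P.y1 hv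
      nlinarith
    · have hadj := win_adj P (z := z) (by omega) (by omega)
      obtain ⟨i1, i2⟩ := w3_in P (z := z) (by omega)
      have hv := win_nonneg P z
      have hv1 := win_nonneg P (z - 1)
      have hv3 := win_nonneg P (z - 3)
      have hW : 0 ≤ Wc n t J / (J : ℝ) ^ 2 := div_nonneg (w2_Wc_nonneg n t J) (by positivity)
      rw [w3_eq, w3_eq]
      have j1 := mul_nonneg hW hv
      have j2 := mul_nonneg hy.le hv1
      have j3 := mul_nonneg hy.le hv3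
      nlinarith
  · have h4 : (t : ℤ) + 2 ≤ z := by omega
    rw [w3_t2 _ h4, w3_t2 _ h4]
    have hv := win_nonneg P (z - 3)
    have j := mul_nonneg hy.le hv
    rw [abs_of_nonpos (by linarith)]
    linarith

end window

end Pool.Agent.Lib.MP_0430e4_lc.Impr
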