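import Pool.Agent.Lib.MP_0430e4_lc.Impr.REG1
import Pool.Agent.Lib.MP_0430e4_lc.Impr.REG2B
import Pool.Agent.Lib.MP_0430e4_lc.Impr.REG3B
import Pool.Agent.Lib.MP_0430e4_lc.Impr.WIN3
import Pool.Agent.Lib.MP_0430e4_lc.Impr.MASS1
import Pool.Agent.Lib.MP_0430e4_lc.Impr.MASS2
import Pool.Agent.Lib.MP_0430e4_lc.Impr.CUBE2
import Pool.Agent.Lib.MP_0430e4_lc.Impr.COMM

/-!
# The finite certificate
-/

set_option autoImplicit false

namespace Pool.Agent.Lib.MP_0430e4_lc.Impr

open Finset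

theorem De_nonneg {n : ℕ} {s : ℝ} (hs : 0 ≤ s) {v : ℤ → ℝ} (hv : ∀ z, 0 ≤ v z) (a : ℤ) :
    0 ≤ De n s v a := by
  unfold De ew
  apply Finset.sum_nonneg
  intro m _
  have := hv (a - 2 * (m : ℤ))
  positivity

theorem conv_nonneg {n k : ℕ} {F G : ℤ → ℝ} (hF : ∀ z, 0 ≤ F z) (hG : ∀ z, 0 ≤ G z) :
    0 ≤ conv n k F G := by
  unfold conv
  apply Finset.sum_nonneg
  intro i _
  apply Finset.sum_nonneg
  intro l _
  have h1 := hF ((i : ℤ) + (l : ℤ))
  have h2 := hG ((k : ℤ) - (i : ℤ) + (l : ℤ))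
  positivity

section

variable {n t J L0 M0 : ℕ} {y : ℝ}

theorem Par.J_le (P : Par n t J L0 M0 y) : 800 * J ≤ t := by
  have h1 := P.hJt
  have h2 := P.hJ
  nlinarith

theorem Par.t_ge (P : Par n t J L0 M0 y) : 6400 ≤ t := by
  have h1 := P.hJt
  have h2 := P.hJ
  nlinarith

theorem pos_main (P : Par n t J L0 M0 y) {w u wp : ℤ → ℝ}
    (hw0 : ∀ z, 0 ≤ w z) (hu0 : ∀ z, 0 ≤ u z)
    (hws : ∀ z, w z ≠ 0 → (t : ℤ) - J - 1 ≤ z ∧ z ≤ t + 1)
    (hus : ∀ z, u z ≠ 0 → (t : ℤ) + 2 ≤ z ∧ z ≤ t + 3)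
    (hwps : ∀ z, wp z ≠ 0 → (t : ℤ) - J - 1 ≤ z ∧ z ≤ t + 3)
    (hu : ∀ z, u z ≤ 4 * y / t * w (z - 2))
    (hc1 : w ((t : ℤ) + 1) * win n t J ((t : ℤ) - 1) ≤ 8 * (w t * win n t J t))
    (hc2 : w ((t : ℤ) - J - 1) * win n t J ((t : ℤ) - J + 1)
      ≤ 8 * (w ((t : ℤ) - J) * win n t J ((t : ℤ) - J)))
    (hwp : ∀ z, |w z - u z| ≤ 3 * wp z) :
    (∀ k ≤ n, 0 ≤ conv n k (De n (-(y / 2)) (fun z => w z - u z))
        (De n (-(y / 2)) (win n t J))
      + 3 * ((M0 : ℝ) + 1) / 4 ^ M0 * conv n k (De n (2 * y) wp) (De n (2 * y) (win n t J))) ∧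
    1 / 2 * conv n 0 w (win n t J)
      ≤ conv n 0 (De n (-(y / 2)) (fun z => w z - u z)) (De n (-(y / 2)) (win n t J)) := by
  have hJt := P.J_le
  have ht := P.t_ge
  have hJ := P.hJ
  have htn := P.htn
  have hL3 := P.hL3
  have hv0 := win_nonneg P
  have hwp0 : ∀ z, 0 ≤ wp z := by
    intro z
    have h1 := hwp z
    have h2 := abs_nonneg (w z - u z)
    linarith
  obtain ⟨b0, hb0⟩ : ∃ b0 : ℕ, b0 + J = t := ⟨t - J, by omega⟩
  have hb0' : (t : ℤ) - J = (b0 : ℤ) := by omega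
  have hb0r : (t : ℝ) - (b0 : ℝ) = (J : ℝ) := by
    rw [← hb0]
    push_cast
    ring
  rw [hb0'] at hc2
  simp only [hb0'] at hws hwps
  have hvs : ∀ z, win n t J z ≠ 0 → (b0 : ℤ) ≤ z ∧ z ≤ t := by
    intro z hz
    have := win_supp hz
    rw [hb0'] at this
    exact this
  have hv1 : ∀ z : ℤ, (b0 : ℤ) + 2 ≤ z → win n t J z ≤ 6 * t / n * win n t J (z - 2) := by
    intro z hz
    exact win_r2 P (by omega)
  have hv2 : ∀ z : ℤ, z + 2 ≤ (t : ℤ) → win n t J z ≤ 7 * n / t * win n t J (z + 2) := by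
    intro z hz
    exact win_r2' P hz
  have hr1 : ∀ k : ℕ, k ≤ t → 1 / 2 * conv n k w (win n t J)
      ≤ conv n k (De n (-(y / 2)) (fun z => w z - u z)) (De n (-(y / 2)) (win n t J)) := by
    intro k hk
    exact region1 (b0 := b0) (t := t) (by omega) P.y0 (by omega) (by omega) (by omega) (by omega)
      hk (by omega) P.hr1 hw0 hu0 hv0 hws hus hvs hu hv1 hv2 hc1 hc2
  refine ⟨?_, hr1 0 (by omega)⟩
  intro k hk
  have hplus : 0 ≤ 3 * ((M0 : ℝ) + 1) / 4 ^ M0
      * conv n k (De n (2 * y) wp) (De n (2 * y) (win n t J)) := by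
    have hy := P.y0
    have h1 : 0 ≤ conv n k (De n (2 * y) wp) (De n (2 * y) (win n t J)) :=
      conv_nonneg (fun z => De_nonneg (by linarith) hwp0 z) (fun z => De_nonneg (by linarith) hv0 z)
    positivity
  by_cases hkt : k ≤ t
  · have h1 := hr1 k hkt
    have h2 : 0 ≤ conv n k w (win n t J) := conv_nonneg hw0 hv0
    linarith
  · by_cases hkL : k + 2 * L0 + 1 ≤ 2 * b0
    · have hD : 2 * (t + 4 - b0) ^ 2 ≤ t := by
        have h3 := P.hJt
        have h4 : t + 4 - b0 = J + 4 := by omega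
        rw [h4]
        nlinarith
      have h1 := region2 (b0 := b0) (t := t) (L0 := L0) hk P.y0 (by omega) (by omega)
        (by omega) hkL P.hL0 P.hL1 P.hL2 hD hw0 hu0 hv0 hws hus hvs hu
      linarith
    · have hD : 2 * (t + 4 - b0 + 2 * M0) ^ 2 ≤ t := by
        have h3 := P.hM2
        have h4 : t + 4 - b0 = J + 4 := by omega
        rw [h4]
        exact h3
      have hM0n : M0 ≤ n := by
        have h3 := P.hM2
        nlinarith
      have hws' : ∀ z, w z - u z ≠ 0 → (b0 : ℤ) - 1 ≤ z ∧ z ≤ t + 3 := by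
        intro z hz
        by_cases h3 : w z = 0
        · have h4 : u z ≠ 0 := by
            intro h5
            rw [h3, h5] at hz
            simp at hz
          have := hus z h4
          omega
        · have := hws z h3
          omega
      exact region3 (b0 := b0) (t := t) (L0 := L0) hk P.y0 (by omega) (by omega) (by omega)
        (by omega) hM0n (by rw [hb0r]; exact P.hM1) hD hv0 hws' hwps hvs hwp

theorem finite_cert (P : Par n t J L0 M0 y) :
    ∃ h : (Fin n → Bool) → ℝ, Tensor.IsCert (lev n t J) h ∧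
      Tensor.val h ≤ 2 * ((J : ℝ) + 1) * ((n.choose t : ℕ) : ℝ)
        * (Real.exp (-(y * (((n : ℝ) - t - 1) / ((t : ℝ) + 2)) ^ 2))
          + 3 * ((M0 : ℝ) + 1) / 4 ^ M0
            * Real.exp (4 * y * (((n : ℝ) - t + J) / ((t : ℝ) - J + 1)) ^ 2)) := by
  have hJt := P.J_le
  have ht := P.t_ge
  have hJ := P.hJ
  have htn := P.htn
  have hy := P.y0
  have hv0 := win_nonneg P
  set v := win n t J with hv
  set l := lev n t J with hl
  set wm := wOf n l (-(y / 2)) v with hwm
  set wp := wOf n l (2 * y) v with hwp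
  have hvneg : ∀ z < 0, v z = 0 := by
    intro z hz
    by_contra h
    have := win_supp h
    omega
  -- first application
  have hA := pos_main P (w := fun z => max (wm z) 0) (u := fun z => max (-wm z) 0) (wp := wp)
    (fun z => le_max_right _ _) (fun z => le_max_right _ _)
    (by
      intro z hz
      have h1 : 0 < wm z := by
        by_contra h
        exact hz (max_eq_right (not_lt.1 h))
      have h2 := wOf_supp (n := n) (t := t) (J := J) h1.ne'
      refine ⟨h2.1, ?_⟩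
      by_contra h3
      have h4 := wm_neg_nonpos P (z := z) (by omega)
      linarith)
    (by
      intro z hz
      have h1 : wm z < 0 := by
        by_contra h
        exact hz (max_eq_right (by linarith))
      have h2 := wOf_supp (n := n) (t := t) (J := J) h1.ne
      refine ⟨?_, h2.2⟩
      by_contra h3
      have h4 := wm_nonneg P (z := z) (by omega)
      linarith)
    (by
      intro z hz
      exact wOf_supp (n := n) (t := t) (J := J) hz)
    (by
      intro z
      have h0 : (0 : ℝ) ≤ 4 * y / t * max (wm (z - 2)) 0 := by positivity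
      by_cases h1 : 0 ≤ wm z
      · simp only [max_eq_right (neg_nonpos.2 h1)]
        exact h0
      · have h1 : wm z < 0 := not_le.1 h1
        have h2 := wOf_supp (n := n) (t := t) (J := J) h1.ne
        have h5 : (t : ℤ) + 2 ≤ z := by
          by_contra h3
          have h4 := wm_nonneg P (z := z) (by omega)
          linarith
        have h6 := wm_neg P h5 h2.2
        simp only [max_eq_left (neg_nonneg.2 h1.le)]
        refine h6.trans ?_
        apply mul_le_mul_of_nonneg_left (le_max_left _ _)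
        positivity)
    (by
      have h1 : 0 ≤ wm ((t : ℤ) + 1) := wm_nonneg P (by omega)
      have h2 : 0 ≤ wm (t : ℤ) := wm_nonneg P (by omega)
      show max (wm ((t : ℤ) + 1)) 0 * _ ≤ 8 * (max (wm (t : ℤ)) 0 * _)
      rw [max_eq_left h1, max_eq_left h2]
      exact wm_corner1 P)
    (by
      have h1 : 0 ≤ wm ((t : ℤ) - J - 1) := wm_nonneg P (by omega)
      have h2 : 0 ≤ wm ((t : ℤ) - J) := wm_nonneg P (by omega)
      show max (wm ((t : ℤ) - J - 1)) 0 * _ ≤ 8 * (max (wm ((t : ℤ) - J)) 0 * _)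
      rw [max_eq_left h1, max_eq_left h2]
      exact wm_corner2 P)
    (by
      intro z
      have h1 : max (wm z) 0 - max (-wm z) 0 = wm z := by
        rcases le_total 0 (wm z) with h | h
        · rw [max_eq_left h, max_eq_right (by linarith)]
          ring
        · rw [max_eq_right h, max_eq_left (by linarith)]
          ring
      simp only [h1]
      exact wm_dom P z)
  have hfun : (fun z => max (wm z) 0 - max (-wm z) 0) = wm := by
    funext z
    rcases le_total 0 (wm z) with h | h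
    · rw [max_eq_left h, max_eq_right (by linarith)]
      ring
    · rw [max_eq_right h, max_eq_left (by linarith)]
      ring
  rw [hfun] at hA
  -- second application
  have hvt1 : v ((t : ℤ) + 1) = 0 := by
    by_contra h
    have := win_supp h
    omega
  have hvb1 : v ((t : ℤ) - J - 1) = 0 := by
    by_contra h
    have := win_supp h
    omega
  have hB := pos_main P (w := v) (u := fun _ => 0) (wp := v) hv0 (fun _ => le_rfl)
    (by
      intro z hz
      have := win_supp hz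
      omega)
    (by
      intro z hz
      exact absurd rfl hz)
    (by
      intro z hz
      have := win_supp hz
      omega)
    (by
      intro z
      have := hv0 (z - 2)
      positivity)
    (by
      rw [hvt1]
      have := hv0 t
      simp only [zero_mul]
      positivity)
    (by
      rw [hvb1]
      have := hv0 ((t : ℤ) - J)
      simp only [zero_mul]
      positivity)
    (by
      intro z
      have := hv0 z
      rw [sub_zero, abs_of_nonneg this]
      linarith)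
  simp only [sub_zero] at hB
  obtain ⟨b0, hb0⟩ : ∃ b0 : ℕ, b0 + J = t := ⟨t - J, by omega⟩
  have hb0' : (t : ℤ) - J = (b0 : ℤ) := by omega
  have hvs : ∀ z, v z ≠ 0 → (b0 : ℤ) ≤ z ∧ z ≤ t := by
    intro z hz
    have := win_supp hz
    rw [hb0'] at this
    exact this
  set α : ℝ := 3 * ((M0 : ℝ) + 1) / 4 ^ M0 with hα
  have hα0 : 0 ≤ α := by positivity
  set S2 : ℝ := conv n 0 v v with hS2
  have hS2e : S2 = ∑ b ∈ Icc b0 t, ((n.choose b : ℕ) : ℝ) * v b ^ 2 :=
    conv_zero (by omega) hvs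
  have hS2pos : 0 < S2 := by
    rw [hS2e]
    have h1 : 0 < ((n.choose t : ℕ) : ℝ) * v t ^ 2 := by
      have h2 : 0 < ((n.choose t : ℕ) : ℝ) := by
        exact_mod_cast Nat.choose_pos (by omega)
      have h3 : 0 < v t := win_pos P (by omega) le_rfl
      positivity
    refine lt_of_lt_of_le h1 ?_
    apply Finset.single_le_sum (f := fun b : ℕ => ((n.choose b : ℕ) : ℝ) * v b ^ 2)
      (fun b _ => by positivity)
    rw [Finset.mem_Icc]
    omega
  have hplus : 0 ≤ α * conv n 0 (De n (2 * y) v) (De n (2 * y) v) := by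
    have h1 : 0 ≤ conv n 0 (De n (2 * y) v) (De n (2 * y) v) :=
      conv_nonneg (fun z => De_nonneg (by linarith) hv0 z) (fun z => De_nonneg (by linarith) hv0 z)
    positivity
  have hden : 1 / 2 * S2 ≤ conv n 0 (De n (-(y / 2)) v) (De n (-(y / 2)) v)
      + α * conv n 0 (De n (2 * y) v) (De n (2 * y) v) := by
    have := hB.2
    linarith
  obtain ⟨h, hcert, hval⟩ := cert_of_profiles (n := n) (α := α) (l := l) hα0
    (Fm := De n (-(y / 2)) v) (Fp := De n (2 * y) v) (Gm := De n (-(y / 2)) wm)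
    (Gp := De n (2 * y) wp)
    (fun a _ ha => comm_De hvneg ha) (fun a _ ha => comm_De hvneg ha)
    hB.1 hA.1 (by linarith)
  refine ⟨h, hcert, ?_⟩
  rw [hval]
  -- masses
  set κ : ℝ := ((n : ℝ) - t - 1) / ((t : ℝ) + 2) with hκ
  set κp : ℝ := ((n : ℝ) - t + J) / ((t : ℝ) - J + 1) with hκp
  have hb0r : (b0 : ℝ) = (t : ℝ) - J := by
    have : ((b0 + J : ℕ) : ℝ) = (t : ℝ) := by rw [hb0]
    push_cast at this
    linarith
  set Q : ℝ := ∑ b ∈ Icc b0 t, v b * ((n.choose b : ℕ) : ℝ) with hQ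
  have hQ0 : 0 ≤ Q := Finset.sum_nonneg fun b _ => mul_nonneg (hv0 _) (by positivity)
  have hQ2 : Q ^ 2 ≤ ((J : ℝ) + 1) * ((n.choose t : ℕ) : ℝ) * S2 := by
    have h1 := mass_cs (n := n) (t := t) (b0 := b0) (v := v) (by omega) (by omega)
    rw [hS2e]
    have h2 : (t : ℝ) - b0 + 1 = (J : ℝ) + 1 := by
      rw [hb0r]
      ring
    rw [h2] at h1
    exact h1
  have hm0 : 0 ≤ ∑ b ∈ range (n + 1), ((n.choose b : ℕ) : ℝ) * De n (-(y / 2)) v b ∧
      ∑ b ∈ range (n + 1), ((n.choose b : ℕ) : ℝ) * De n (-(y / 2)) v b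
        ≤ Q * Real.exp (-(y / 2 * κ ^ 2)) := by
    rw [sum_De (-(y / 2)) (by omega : t ≤ n) hvs]
    have hpsi : ∀ b ∈ Icc b0 t, 0 ≤ Psi n b (-(y / 2)) ∧ Psi n b (-(y / 2))
        ≤ ((n.choose b : ℕ) : ℝ) * Real.exp (-(y / 2 * κ ^ 2)) := by
      intro b hb
      rw [Finset.mem_Icc] at hb
      exact Psi_minus (b0 := b0) hy (by omega) hb.1 hb.2 htn (by omega) P.hm (by omega)
    constructor
    · exact Finset.sum_nonneg fun b hb => mul_nonneg (hv0 _) (hpsi b hb).1
    · rw [hQ, Finset.sum_mul]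
      apply Finset.sum_le_sum
      intro b hb
      rw [mul_assoc]
      exact mul_le_mul_of_nonneg_left (hpsi b hb).2 (hv0 _)
  have hp0 : 0 ≤ ∑ b ∈ range (n + 1), ((n.choose b : ℕ) : ℝ) * De n (2 * y) v b ∧
      ∑ b ∈ range (n + 1), ((n.choose b : ℕ) : ℝ) * De n (2 * y) v b
        ≤ Q * Real.exp (2 * y * κp ^ 2) := by
    rw [sum_De (2 * y) (by omega : t ≤ n) hvs]
    have hpsi : ∀ b ∈ Icc b0 t, 0 ≤ Psi n b (2 * y) ∧ Psi n b (2 * y)
        ≤ ((n.choose b : ℕ) : ℝ) * Real.exp (2 * y * κp ^ 2) := by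
      intro b hb
      rw [Finset.mem_Icc] at hb
      have h1 := Psi_plus (n := n) (b0 := b0) (b := b) hy hb.1 (by omega)
      rw [hb0r] at h1
      have h2 : (n : ℝ) - (t - J) = n - t + J := by ring
      rw [h2] at h1
      exact h1
    constructor
    · exact Finset.sum_nonneg fun b hb => mul_nonneg (hv0 _) (hpsi b hb).1
    · rw [hQ, Finset.sum_mul]
      apply Finset.sum_le_sum
      intro b hb
      rw [mul_assoc]
      exact mul_le_mul_of_nonneg_left (hpsi b hb).2 (hv0 _)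
  have hm2 : (∑ b ∈ range (n + 1), ((n.choose b : ℕ) : ℝ) * De n (-(y / 2)) v b) ^ 2
      ≤ Q ^ 2 * Real.exp (-(y * κ ^ 2)) := by
    have h1 := pow_le_pow_left₀ hm0.1 hm0.2 2
    refine h1.trans (le_of_eq ?_)
    rw [mul_pow, ← Real.exp_nat_mul]
    congr 2
    push_cast
    ring
  have hp2 : (∑ b ∈ range (n + 1), ((n.choose b : ℕ) : ℝ) * De n (2 * y) v b) ^ 2
      ≤ Q ^ 2 * Real.exp (4 * y * κp ^ 2) := by
    have h1 := pow_le_pow_left₀ hp0.1 hp0.2 2
    refine h1.trans (le_of_eq ?_)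
    rw [mul_pow, ← Real.exp_nat_mul]
    congr 2
    push_cast
    ring
  set E : ℝ := Real.exp (-(y * κ ^ 2)) + α * Real.exp (4 * y * κp ^ 2) with hE
  have hE0 : 0 ≤ E := by positivity
  rw [div_le_iff₀ (by linarith)]
  calc (∑ b ∈ range (n + 1), ((n.choose b : ℕ) : ℝ) * De n (-(y / 2)) v b) ^ 2
        + α * (∑ b ∈ range (n + 1), ((n.choose b : ℕ) : ℝ) * De n (2 * y) v b) ^ 2
      ≤ Q ^ 2 * Real.exp (-(y * κ ^ 2)) + α * (Q ^ 2 * Real.exp (4 * y * κp ^ 2)) :=
        add_le_add hm2 (mul_le_mul_of_nonneg_left hp2 hα0)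
    _ = Q ^ 2 * E := by
        rw [hE]
        ring
    _ ≤ ((J : ℝ) + 1) * ((n.choose t : ℕ) : ℝ) * S2 * E := mul_le_mul_of_nonneg_right hQ2 hE0
    _ = 2 * ((J : ℝ) + 1) * ((n.choose t : ℕ) : ℝ) * E * (1 / 2 * S2) := by ring
    _ ≤ _ := mul_le_mul_of_nonneg_left hden (by positivity)

end

end Pool.Agent.Lib.MP_0430e4_lc.Impr
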