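import Pool.Agent.Lib.MP_0430e4_lc.Impr.Param

/-!
# Parameters for the asymptotics (module ASY0)
-/

set_option autoImplicit false

namespace Pool.Agent.Lib.MP_0430e4_lc.Impr

open Finset

theorem asy_bounds {x : ℝ} (hx : 10 ≤ x) :
    x ^ 14 ≤ nX x ∧ (nX x : ℝ) ≤ x ^ 14 + 1 ∧ x ^ 3 ≤ jX x ∧ (jX x : ℝ) ≤ x ^ 3 + 1 ∧
    x ^ 9 ≤ tX x ∧ (tX x : ℝ) ≤ x ^ 9 + 25 * x ^ 3 ∧
    (x ^ 5)⁻¹ * (nX x : ℝ) * (1 + 20 / (jX x : ℝ) ^ 2) + jX x ≤ tX x ∧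
    21 / 200 * x ^ 4 ≤ lX x ∧ (lX x : ℝ) ≤ 21 / 200 * x ^ 4 + 1 ∧
    x ^ 4 / 80 - 1 ≤ mX x ∧ (mX x : ℝ) ≤ x ^ 4 / 80 := by
  have hx0 : (0 : ℝ) < x := by linarith
  have hn1 : x ^ 14 ≤ nX x := Nat.le_ceil _
  have hn2 : (nX x : ℝ) ≤ x ^ 14 + 1 := (Nat.ceil_lt_add_one (by positivity)).le
  have hj1 : x ^ 3 ≤ jX x := Nat.le_ceil _
  have hj2 : (jX x : ℝ) ≤ x ^ 3 + 1 := (Nat.ceil_lt_add_one (by positivity)).le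
  have hl1 : 21 / 200 * x ^ 4 ≤ lX x := Nat.le_ceil _
  have hl2 : (lX x : ℝ) ≤ 21 / 200 * x ^ 4 + 1 := (Nat.ceil_lt_add_one (by positivity)).le
  have hm2 : (mX x : ℝ) ≤ x ^ 4 / 80 := Nat.floor_le (by positivity)
  have hm1 : x ^ 4 / 80 - 1 ≤ mX x := (Nat.sub_one_lt_floor _).le
  have hx5 : (0 : ℝ) < x ^ 5 := by positivity
  have hx3 : (0 : ℝ) < x ^ 3 := by positivity
  have hjpos : (0 : ℝ) < (jX x : ℝ) := lt_of_lt_of_le hx3 hj1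
  have hfac : (1 : ℝ) ≤ 1 + 20 / (jX x : ℝ) ^ 2 := by
    have : (0 : ℝ) ≤ 20 / (jX x : ℝ) ^ 2 := by positivity
    linarith
  have hnpos : (0 : ℝ) ≤ (nX x : ℝ) := Nat.cast_nonneg _
  have ht : (tX x : ℝ) = (⌈(x ^ 5)⁻¹ * (nX x : ℝ) * (1 + 20 / (jX x : ℝ) ^ 2)⌉₊ : ℝ) + jX x := by
    unfold tX
    push_cast
    ring
  have ht7 : (x ^ 5)⁻¹ * (nX x : ℝ) * (1 + 20 / (jX x : ℝ) ^ 2) + jX x ≤ tX x := by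
    rw [ht]
    have := Nat.le_ceil ((x ^ 5)⁻¹ * (nX x : ℝ) * (1 + 20 / (jX x : ℝ) ^ 2))
    linarith
  have ht5 : x ^ 9 ≤ tX x := by
    have h1 : x ^ 9 = (x ^ 5)⁻¹ * x ^ 14 := by
      field_simp
    have h2 : (x ^ 5)⁻¹ * x ^ 14 ≤ (x ^ 5)⁻¹ * (nX x : ℝ) :=
      mul_le_mul_of_nonneg_left hn1 (by positivity)
    have h3 : (x ^ 5)⁻¹ * (nX x : ℝ) * 1 ≤ (x ^ 5)⁻¹ * (nX x : ℝ) * (1 + 20 / (jX x : ℝ) ^ 2) :=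
      mul_le_mul_of_nonneg_left hfac (by positivity)
    linarith
  have ht6 : (tX x : ℝ) ≤ x ^ 9 + 25 * x ^ 3 := by
    have hceil : (⌈(x ^ 5)⁻¹ * (nX x : ℝ) * (1 + 20 / (jX x : ℝ) ^ 2)⌉₊ : ℝ)
        ≤ (x ^ 5)⁻¹ * (nX x : ℝ) * (1 + 20 / (jX x : ℝ) ^ 2) + 1 :=
      (Nat.ceil_lt_add_one (by positivity)).le
    have hj6 : x ^ 6 ≤ (jX x : ℝ) ^ 2 := by
      calc x ^ 6 = (x ^ 3) ^ 2 := by ring
        _ ≤ (jX x : ℝ) ^ 2 := pow_le_pow_left₀ hx3.le hj1 2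
    have h20 : 20 / (jX x : ℝ) ^ 2 ≤ 20 / x ^ 6 :=
      div_le_div_of_nonneg_left (by norm_num) (by positivity) hj6
    have hb : (x ^ 5)⁻¹ * (nX x : ℝ) * (1 + 20 / (jX x : ℝ) ^ 2)
        ≤ (x ^ 5)⁻¹ * (x ^ 14 + 1) * (1 + 20 / x ^ 6) := by
      apply mul_le_mul
      · exact mul_le_mul_of_nonneg_left hn2 (by positivity)
      · linarith
      · linarith
      · positivity
    have he : (x ^ 5)⁻¹ * (x ^ 14 + 1) * (1 + 20 / x ^ 6)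
        = x ^ 9 + 20 * x ^ 3 + (x ^ 5)⁻¹ + 20 * (x ^ 11)⁻¹ := by
      field_simp
      ring
    have h5 : (x ^ 5)⁻¹ ≤ 1 := inv_le_one_of_one_le₀ (one_le_pow₀ (by linarith))
    have h11 : (x ^ 11)⁻¹ ≤ 1 := inv_le_one_of_one_le₀ (one_le_pow₀ (by linarith))
    have hx3' : (1000 : ℝ) ≤ x ^ 3 := by
      calc (1000 : ℝ) = 10 ^ 3 := by norm_num
        _ ≤ x ^ 3 := pow_le_pow_left₀ (by norm_num) hx 3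
    rw [ht]
    linarith
  exact ⟨hn1, hn2, hj1, hj2, ht5, ht6, ht7, hl1, hl2, hm1, hm2⟩

end Pool.Agent.Lib.MP_0430e4_lc.Impr
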