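import Pool.Agent.Lib.MP_0430e4_lc.Impr.ASY0

/-!
# Improvement of the MRRW bound near `δ = 1/2`: the parameters satisfy the standing assumptions
-/

set_option autoImplicit false

namespace Pool.Agent.Lib.MP_0430e4_lc.Impr

theorem asy_par : ∃ x0 : ℝ, ∀ x ≥ x0, Par (nX x) (tX x) (jX x) (lX x) (mX x) (yX x) := by
  refine ⟨1000, fun x hx => ?_⟩
  have hx' : (1000 : ℝ) ≤ x := hx
  have hx0 : 0 < x := by linarith
  obtain ⟨hn1, hn2, hJ1, hJ2, ht1, ht2, -, hL1, hL2, hM1, hM2⟩ :=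
    asy_bounds (x := x) (by linarith)
  have step : ∀ k : ℕ, 1000 * x ^ k ≤ x ^ (k + 1) := by
    intro k
    rw [pow_succ, mul_comm]
    exact mul_le_mul_of_nonneg_left hx' (by positivity)
  have p0 : (1 : ℝ) ≤ x := by linarith
  have p3 : (1000 : ℝ) ^ 3 ≤ x ^ 3 := by gcongr
  have p4 := step 3
  have p5 := step 4
  have p6 := step 5
  have p7 := step 6
  have p8 := step 7
  have p9 := step 8
  have p10 := step 9
  have p11 := step 10
  have p12 := step 11
  have p13 := step 12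
  have p14 := step 13
  norm_num at p3 p4 p5 p6 p7 p8 p9 p10 p11 p12 p13 p14
  have hy0 : 0 < yX x := by unfold yX; positivity
  have hyx : yX x * (400 * x ^ 6) = 1 := by
    unfold yX
    exact inv_mul_cancel₀ (by positivity)
  have hy1 : yX x ≤ 1 / 400 := by
    by_contra hcon
    push Not at hcon
    have h6 : 1 ≤ x ^ 6 := one_le_pow₀ p0
    nlinarith
  set N : ℝ := (nX x : ℝ) with hN
  set T : ℝ := (tX x : ℝ) with hT
  set J : ℝ := (jX x : ℝ) with hJ
  set L : ℝ := (lX x : ℝ) with hL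
  set M : ℝ := (mX x : ℝ) with hM
  set y : ℝ := yX x with hy
  -- bounds for `y N`
  have hZ1 : x ^ 8 / 400 ≤ y * N := by
    have : x ^ 8 / 400 = y * x ^ 14 := by
      have e : x ^ 8 / 400 = x ^ 8 / 400 * (y * (400 * x ^ 6)) := by rw [hyx, mul_one]
      rw [e]; ring
    rw [this]
    gcongr
  have hZ2 : y * N ≤ x ^ 8 / 400 + 1 := by
    have e1 : x ^ 8 / 400 = y * x ^ 14 := by
      have e : x ^ 8 / 400 = x ^ 8 / 400 * (y * (400 * x ^ 6)) := by rw [hyx, mul_one]
      rw [e]; ring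
    rw [e1]
    nlinarith
  have hyT : y * (2 * T + 3 + 2 * M) ≤ 3 * x ^ 3 / 400 := by
    have e1 : 2 * T + 3 + 2 * M ≤ 3 * x ^ 9 := by
      have : x ^ 4 ≤ x ^ 9 := by linarith
      have : x ^ 3 ≤ x ^ 9 := by linarith
      linarith
    have e2 : 3 * x ^ 3 / 400 = y * (3 * x ^ 9) := by
      have e : 3 * x ^ 3 / 400 = 3 * x ^ 3 / 400 * (y * (400 * x ^ 6)) := by rw [hyx, mul_one]
      rw [e]; ring
    rw [e2]
    gcongr
  have hN0 : 0 < N := by linarith
  have hT0 : 0 < T := by linarith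
  have hJ0 : 0 < J := by linarith
  have hL0 : 0 < L := by linarith
  have hM0 : 0 < M := by linarith
  refine ⟨?_, ?_, ?_, hy0, by linarith, ?_, ?_, ?_, ?_, ?_, ?_, ?_, ?_, ?_⟩
  · -- hJ
    have : (4 : ℝ) ≤ J := by linarith
    rw [hJ] at this
    exact_mod_cast this
  · -- hJt
    have h : 100 * (J + 4) ^ 2 ≤ T := by
      have e1 : (J + 4) ^ 2 ≤ (2 * x ^ 3) ^ 2 := by
        gcongr; linarith
      have e2 : 100 * (2 * x ^ 3) ^ 2 = 400 * x ^ 6 := by ring
      linarith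
    rw [hJ, hT] at h
    exact_mod_cast h
  · -- htn
    have h : 100 * T ≤ N := by linarith
    rw [hT, hN] at h
    exact_mod_cast h
  · -- hr1
    linarith [mul_assoc 324 y N]
  · -- hm
    have e1 : y * N ≤ x ^ 8 := by linarith
    have e2 : N ≤ 2 * x ^ 14 := by linarith
    calc 10 * y * N ^ 2 = 10 * ((y * N) * N) := by ring
      _ ≤ 10 * (x ^ 8 * (2 * x ^ 14)) := by gcongr
      _ = 20 * x ^ 22 := by ring
      _ ≤ x ^ 27 := by
        have := step 22
        have := step 23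
        have := step 24
        have := step 25
        have := step 26
        norm_num at *
        linarith [pow_pos hx0 22]
      _ = (x ^ 9) ^ 3 := by ring
      _ ≤ T ^ 3 := by gcongr
  · -- hs
    have e1 : y * N ≤ x ^ 8 := by linarith
    have e2 : J ≤ 2 * x ^ 3 := by linarith
    calc 100 * y * J ^ 2 * N = 100 * ((y * N) * J ^ 2) := by ring
      _ ≤ 100 * (x ^ 8 * (2 * x ^ 3) ^ 2) := by gcongr
      _ = 400 * x ^ 14 := by ring
      _ ≤ x ^ 18 := by
        have q1 := step 14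
        have q2 := step 15
        have q3 := step 16
        have q4 := step 17
        norm_num at q1 q2 q3 q4
        linarith [pow_pos hx0 14]
      _ = (x ^ 9) ^ 2 := by ring
      _ ≤ T ^ 2 := by gcongr
  · -- hL0
    have : (1 : ℝ) ≤ L := by linarith
    rw [hL] at this
    exact_mod_cast this
  · -- hL1
    have e1 : 2 * y * (L + 1) ≤ L := by nlinarith
    have e2 : (21 / 200 * x ^ 4) ^ 2 ≤ L ^ 2 := by gcongr
    have e3 : (21 / 200 * x ^ 4) ^ 2 = 441 / 40000 * x ^ 8 := by ring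
    nlinarith
  · -- hL2
    have e1 : (21 / 200 * x ^ 4) * x ^ 9 ≤ L * T := by gcongr
    have e2 : (21 / 200 * x ^ 4) * x ^ 9 = 21 / 200 * x ^ 13 := by ring
    nlinarith
  · -- hL3
    have h : 2 * J + 2 + 2 * L ≤ T := by linarith
    rw [hJ, hL, hT] at h
    exact_mod_cast h
  · -- hM1
    have e1 : 4 * M * (L + J + 2 + M)
        ≤ 4 * (x ^ 4 / 80) * (21 / 200 * x ^ 4 + 1 + (x ^ 3 + 1) + 2 + x ^ 4 / 80) := by
      gcongr
    have e2 : 4 * (x ^ 4 / 80) * (21 / 200 * x ^ 4 + 1 + (x ^ 3 + 1) + 2 + x ^ 4 / 80)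
        = 47 / 8000 * x ^ 8 + x ^ 7 / 20 + x ^ 4 / 5 := by ring
    have e3 : 3 * y * (N - 2 * T - 3 - 2 * M) = 3 * (y * N) - 3 * (y * (2 * T + 3 + 2 * M)) := by
      ring
    rw [e3]
    linarith
  · -- hM2
    have h : 2 * (J + 4 + 2 * M) ^ 2 ≤ T := by
      have e1 : (J + 4 + 2 * M) ^ 2 ≤ (x ^ 4) ^ 2 := by
        gcongr; linarith
      have e2 : 2 * (x ^ 4) ^ 2 = 2 * x ^ 8 := by ring
      linarith
    rw [hJ, hM, hT] at h
    exact_mod_cast h

end Pool.Agent.Lib.MP_0430e4_lc.Impr
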