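import Pool.Agent.Lib.MP_0430e4_lc.Impr.ASY0

set_option autoImplicit false

namespace Pool.Agent.Lib.MP_0430e4_lc.Impr

open Finset

theorem asy_level_aux {n J t τ e : ℝ} (hτ0 : 0 < τ) (hτ1 : τ ≤ 1 / 1000) (hJ : 100 ≤ J)
    (he : e = 20 / J ^ 2) (hn : 0 < n) (ht : τ * n * (1 + e) + J ≤ t) (ht2 : t ≤ n / 2) :
    2 * Real.sqrt (τ * (1 - τ)) * n ≤
      2 * Real.cos (Real.pi / (J + 1)) * Real.sqrt ((t - J) * (n - t + J + 1)) -
        Real.sqrt ((t - J) * (n - t + J + 1)) / J ^ 2 := by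
  have hJ0 : 0 < J := by linarith
  have hJ2 : (10000 : ℝ) ≤ J ^ 2 := by nlinarith
  have he0 : 0 < e := by rw [he]; positivity
  have he1 : e ≤ 1 / 100 := by
    rw [he, div_le_iff₀ (by positivity)]
    linarith
  obtain ⟨b, hb⟩ : ∃ b, b = t - J := ⟨_, rfl⟩
  obtain ⟨T, hT⟩ : ∃ T, T = τ * n * (1 + e) := ⟨_, rfl⟩
  have hT0 : 0 < T := by rw [hT]; positivity
  have hTb : T ≤ b := by linarith
  have hb2 : b ≤ n / 2 := by linarith
  have hW : T * (n - T) ≤ (t - J) * (n - t + J + 1) := by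
    have e1 : (t - J) * (n - t + J + 1) = b * (n - b + 1) := by rw [hb]; ring
    rw [e1]
    nlinarith
  obtain ⟨W, hWd⟩ : ∃ W, W = Real.sqrt ((t - J) * (n - t + J + 1)) := ⟨_, rfl⟩
  rw [← hWd]
  have hW0 : 0 ≤ W := by rw [hWd]; exact Real.sqrt_nonneg _
  have hcos : 1 - (Real.pi / (J + 1)) ^ 2 / 2 ≤ Real.cos (Real.pi / (J + 1)) :=
    Real.one_sub_sq_div_two_le_cos
  have hpi : Real.pi ^ 2 ≤ 10 := by
    have := Real.pi_lt_d2
    have := Real.pi_pos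
    nlinarith
  have hpiJ : (Real.pi / (J + 1)) ^ 2 ≤ 10 / J ^ 2 := by
    rw [div_pow]
    have h1 : J ^ 2 ≤ (J + 1) ^ 2 := by nlinarith
    calc Real.pi ^ 2 / (J + 1) ^ 2 ≤ 10 / (J + 1) ^ 2 := div_le_div_of_nonneg_right hpi (by positivity)
      _ ≤ 10 / J ^ 2 := div_le_div_of_nonneg_left (by norm_num) (by positivity) h1
  have hcoef : 2 * (1 - 11 / 40 * e) ≤ 2 * Real.cos (Real.pi / (J + 1)) - 1 / J ^ 2 := by
    have h1 : 2 * (1 - 11 / 40 * e) = 2 - 10 / J ^ 2 - 1 / J ^ 2 := by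
      rw [he]
      field_simp
      ring
    rw [h1]
    linarith
  have hmain : Real.sqrt (τ * (1 - τ)) * n ≤ (1 - 11 / 40 * e) * W := by
    have hc0 : 0 ≤ 1 - 11 / 40 * e := by linarith
    have e1 : Real.sqrt (τ * (1 - τ)) * n = Real.sqrt (τ * (1 - τ) * n ^ 2) := by
      rw [Real.sqrt_mul (x := τ * (1 - τ)) (by nlinarith) (n ^ 2), Real.sqrt_sq hn.le]
    have e2 : (1 - 11 / 40 * e) * W =
        Real.sqrt ((1 - 11 / 40 * e) ^ 2 * ((t - J) * (n - t + J + 1))) := by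
      rw [Real.sqrt_mul (sq_nonneg _), Real.sqrt_sq hc0, hWd]
    rw [e1, e2]
    apply Real.sqrt_le_sqrt
    have h1 : (1 - 11 / 20 * e) ≤ (1 - 11 / 40 * e) ^ 2 := by nlinarith [sq_nonneg e]
    have h2 : 0 ≤ 1 - 11 / 20 * e := by linarith
    have hTn : 0 ≤ T * (n - T) := by
      apply mul_nonneg hT0.le
      linarith
    have h3 : (1 - 11 / 20 * e) * (T * (n - T)) ≤
        (1 - 11 / 40 * e) ^ 2 * ((t - J) * (n - t + J + 1)) :=
      mul_le_mul h1 hW hTn (sq_nonneg _)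
    refine le_trans ?_ h3
    have e3 : T * (n - T) = τ * n ^ 2 * ((1 + e) * (1 - τ * (1 + e))) := by rw [hT]; ring
    rw [e3]
    have h4 : 1 - τ ≤ (1 - 11 / 20 * e) * ((1 + e) * (1 - τ * (1 + e))) := by
      have h5 : (1 - 11 / 20 * e) * ((1 + e) * (1 - τ * (1 + e))) - (1 - τ) =
          e * ((1 - τ) * (9 / 20 - 11 / 20 * e) - τ * (1 + 9 / 20 * e - 11 / 20 * e ^ 2)) := by
        ring
      have h6 : 0 ≤ (1 - τ) * (9 / 20 - 11 / 20 * e) - τ * (1 + 9 / 20 * e - 11 / 20 * e ^ 2) := by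
        have h7 : (999 / 1000) * (4 / 10) ≤ (1 - τ) * (9 / 20 - 11 / 20 * e) :=
          mul_le_mul (by linarith) (by linarith) (by norm_num) (by linarith)
        have h8 : τ * (1 + 9 / 20 * e - 11 / 20 * e ^ 2) ≤ 1 / 1000 * 2 := by
          apply mul_le_mul hτ1 _ _ (by norm_num)
          · nlinarith [sq_nonneg e]
          · nlinarith [sq_nonneg e]
        linarith
      have h9 := mul_nonneg he0.le h6
      linarith
    calc τ * (1 - τ) * n ^ 2 = τ * n ^ 2 * (1 - τ) := by ring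
      _ ≤ τ * n ^ 2 * ((1 - 11 / 20 * e) * ((1 + e) * (1 - τ * (1 + e)))) :=
          mul_le_mul_of_nonneg_left h4 (by positivity)
      _ = _ := by ring
  have h10 : 2 * (1 - 11 / 40 * e) * W ≤ (2 * Real.cos (Real.pi / (J + 1)) - 1 / J ^ 2) * W :=
    mul_le_mul_of_nonneg_right hcoef hW0
  have e5 : (2 * Real.cos (Real.pi / (J + 1)) - 1 / J ^ 2) * W =
      2 * Real.cos (Real.pi / (J + 1)) * W - W / J ^ 2 := by ring
  linarith

theorem asy_level : ∃ x0 : ℝ, ∀ x ≥ x0,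
    2 * Real.sqrt ((x ^ 5)⁻¹ * (1 - (x ^ 5)⁻¹)) * (nX x : ℝ) ≤ lev (nX x) (tX x) (jX x) := by
  refine ⟨10, fun x hx => ?_⟩
  obtain ⟨n1, n2, j1, j2, t1, t2, t3, -, -, -, -⟩ := asy_bounds hx
  unfold lev Wc
  have hx0 : (0 : ℝ) < x := by linarith
  have hx3 : (1000 : ℝ) ≤ x ^ 3 := by
    calc (1000 : ℝ) = 10 ^ 3 := by norm_num
      _ ≤ x ^ 3 := pow_le_pow_left₀ (by norm_num) hx 3
  have hx5 : (100000 : ℝ) ≤ x ^ 5 := by
    calc (100000 : ℝ) = 10 ^ 5 := by norm_num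
      _ ≤ x ^ 5 := pow_le_pow_left₀ (by norm_num) hx 5
  have hx14 : 0 < x ^ 14 := by positivity
  refine asy_level_aux (by positivity) ?_ (by linarith) rfl (by linarith) ?_ ?_
  · rw [inv_le_comm₀ (by positivity) (by norm_num)]
    linarith
  · exact t3
  · have h1 : x ^ 14 = x ^ 5 * x ^ 9 := by ring
    have h2 : x ^ 3 ≤ x ^ 9 := pow_le_pow_right₀ (by linarith) (by norm_num)
    have h3 : 100000 * x ^ 9 ≤ x ^ 14 := by
      rw [h1]
      exact mul_le_mul_of_nonneg_right hx5 (by positivity)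
    linarith

end Pool.Agent.Lib.MP_0430e4_lc.Impr
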