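import Pool.Agent.Lib.MP_0430e4_lc.Impr.ASY0

/-!
# MP_0430e4_lc, improvement: module ASY4
-/

set_option autoImplicit false

namespace Pool.Agent.Lib.MP_0430e4_lc.Impr

open Finset

/-- Real form of `asy_exp`. -/
theorem asy4_real {x N T J : ℝ} {M : ℕ} (hx : 10 ^ 10 ≤ x) (hn1 : x ^ 14 ≤ N)
    (hn2 : N ≤ x ^ 14 + 1) (hj1 : x ^ 3 ≤ J) (hj2 : J ≤ x ^ 3 + 1) (ht1 : x ^ 9 ≤ T)
    (ht2 : T ≤ x ^ 9 + 25 * x ^ 3) (hm1 : x ^ 4 / 80 - 1 ≤ M) (hm2 : (M : ℝ) ≤ x ^ 4 / 80) :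
    2 * (J + 1) * (Real.exp (-((400 * x ^ 6)⁻¹ * ((N - T - 1) / (T + 2)) ^ 2))
          + 3 * ((M : ℝ) + 1) / 4 ^ M
            * Real.exp (4 * (400 * x ^ 6)⁻¹ * ((N - T + J) / (T - J + 1)) ^ 2))
      ≤ Real.exp (-(9 / 4000 * x ^ 4)) := by
  have hx0 : 0 < x := by linarith [show (0 : ℝ) < 10 ^ 10 by norm_num]
  have hx1 : 1 ≤ x := by linarith [show (1 : ℝ) ≤ 10 ^ 10 by norm_num]
  have p3 : 1 ≤ x ^ 3 := one_le_pow₀ hx1
  have p3x : x ≤ x ^ 3 := le_self_pow₀ hx1 (by norm_num)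
  have p4 : x ^ 3 ≤ x ^ 4 := pow_le_pow_right₀ hx1 (by norm_num)
  have p5 : x ^ 3 ≤ x ^ 5 := pow_le_pow_right₀ hx1 (by norm_num)
  have p8 : x ^ 5 ≤ x ^ 8 := pow_le_pow_right₀ hx1 (by norm_num)
  have p9 : x ^ 8 ≤ x ^ 9 := pow_le_pow_right₀ hx1 (by norm_num)
  have p39 : 1000 * x ^ 3 ≤ x ^ 9 := by
    have h : x ^ 9 = x ^ 6 * x ^ 3 := by ring
    rw [h]
    gcongr
    have : x ≤ x ^ 6 := le_self_pow₀ hx1 (by norm_num)
    linarith [show (1000 : ℝ) ≤ 10 ^ 10 by norm_num]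
  have p14 : 10000 * x ^ 9 ≤ x ^ 14 := by
    have h : x ^ 14 = x ^ 5 * x ^ 9 := by ring
    rw [h]
    gcongr
    linarith [show (10000 : ℝ) ≤ 10 ^ 10 by norm_num]
  -- first ratio
  have r1 : 49 / 50 * x ^ 5 ≤ (N - T - 1) / (T + 2) := by
    have hT : 0 < T + 2 := by linarith
    rw [le_div_iff₀ hT]
    have h1 : 49 / 50 * x ^ 5 * (T + 2) ≤ 49 / 50 * x ^ 5 * (x ^ 9 + 25 * x ^ 3 + 2) := by
      gcongr
    have h2 : 49 / 50 * x ^ 5 * (x ^ 9 + 25 * x ^ 3 + 2)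
        = 49 / 50 * x ^ 14 + 49 / 2 * x ^ 8 + 49 / 25 * x ^ 5 := by ring
    rw [h2] at h1
    linarith
  have e1 : -((400 * x ^ 6)⁻¹ * ((N - T - 1) / (T + 2)) ^ 2) ≤ -(24 / 10000 * x ^ 4) := by
    have h1 : (49 / 50 * x ^ 5) ^ 2 ≤ ((N - T - 1) / (T + 2)) ^ 2 := by gcongr
    have h2 : (400 * x ^ 6)⁻¹ * (49 / 50 * x ^ 5) ^ 2 = 2401 / 1000000 * x ^ 4 := by
      field_simp
      norm_num
    have h3 : (400 * x ^ 6)⁻¹ * (49 / 50 * x ^ 5) ^ 2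
        ≤ (400 * x ^ 6)⁻¹ * ((N - T - 1) / (T + 2)) ^ 2 := by gcongr
    rw [h2] at h3
    have h4 : 0 ≤ x ^ 4 := by positivity
    linarith
  -- second ratio
  have r2 : (N - T + J) / (T - J + 1) ≤ 101 / 100 * x ^ 5 := by
    have hT : 0 < T - J + 1 := by linarith
    rw [div_le_iff₀ hT]
    have h1 : 101 / 100 * x ^ 5 * (x ^ 9 - x ^ 3) ≤ 101 / 100 * x ^ 5 * (T - J + 1) := by
      gcongr
      linarith
    have h2 : 101 / 100 * x ^ 5 * (x ^ 9 - x ^ 3) = 101 / 100 * x ^ 14 - 101 / 100 * x ^ 8 := by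
      ring
    rw [h2] at h1
    linarith
  have r2' : 0 ≤ (N - T + J) / (T - J + 1) := by
    apply div_nonneg <;> linarith
  have e2 : 4 * (400 * x ^ 6)⁻¹ * ((N - T + J) / (T - J + 1)) ^ 2 ≤ 10201 / 1000000 * x ^ 4 := by
    have h1 : ((N - T + J) / (T - J + 1)) ^ 2 ≤ (101 / 100 * x ^ 5) ^ 2 := by gcongr
    have h2 : 4 * (400 * x ^ 6)⁻¹ * (101 / 100 * x ^ 5) ^ 2 = 10201 / 1000000 * x ^ 4 := by
      field_simp
      norm_num
    rw [← h2]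
    gcongr
  -- power of 4
  have e3 : 1 / (4 : ℝ) ^ M ≤ 4 * Real.exp (-(173 / 10000 * x ^ 4)) := by
    have hl2 := Real.log_two_gt_d9
    have hlog4 : Real.log 4 = 2 * Real.log 2 := by
      rw [show (4 : ℝ) = 2 ^ 2 by norm_num, Real.log_pow]
      norm_num
    have h1 : 1 / (4 : ℝ) ^ M = Real.exp (-(M * Real.log 4)) := by
      rw [Real.exp_neg, mul_comm, Real.exp_mul, Real.exp_log (by norm_num), Real.rpow_natCast,
        one_div]
    have h2 : 4 * Real.exp (-(173 / 10000 * x ^ 4))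
        = Real.exp (Real.log 4 - 173 / 10000 * x ^ 4) := by
      rw [sub_eq_add_neg, Real.exp_add, Real.exp_log (by norm_num)]
    rw [h1, h2]
    apply Real.exp_le_exp.mpr
    have h3 : (x ^ 4 / 80 - 1) * Real.log 4 ≤ M * Real.log 4 := by
      gcongr
    have h4 : 173 / 10000 * x ^ 4 ≤ x ^ 4 / 80 * Real.log 4 := by
      rw [hlog4]
      have : 0 < x ^ 4 := by positivity
      nlinarith
    nlinarith
  -- polynomial prefactors
  have hJ1 : J + 1 ≤ 2 * x ^ 3 := by linarith [show (2 : ℝ) ≤ 10 ^ 10 by norm_num]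
  have hJ0 : 0 ≤ J + 1 := by linarith
  have hM1 : (M : ℝ) + 1 ≤ x ^ 4 := by linarith [show (2 : ℝ) ≤ 10 ^ 10 by norm_num]
  have f1 : 8 * x ^ 3 ≤ Real.exp (15 / 100000 * x ^ 4) := by
    have h1 := Real.quadratic_le_exp_of_nonneg (show 0 ≤ 15 / 100000 * x ^ 4 by positivity)
    have h2 : (15 / 100000 * x ^ 4) ^ 2 / 2 = 225 / 20000000000 * x ^ 5 * x ^ 3 := by ring
    have h3 : 8 ≤ 225 / 20000000000 * x ^ 5 := by
      have : x ≤ x ^ 5 := le_self_pow₀ hx1 (by norm_num)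
      norm_num at hx
      linarith
    have h4 : 8 * x ^ 3 ≤ 225 / 20000000000 * x ^ 5 * x ^ 3 := by gcongr
    have h5 : 0 ≤ 15 / 100000 * x ^ 4 := by positivity
    linarith
  have f2 : 96 * x ^ 7 ≤ Real.exp (475 / 100000 * x ^ 4) := by
    have h1 := Real.quadratic_le_exp_of_nonneg (show 0 ≤ 475 / 100000 * x ^ 4 by positivity)
    have h2 : (475 / 100000 * x ^ 4) ^ 2 / 2 = 225625 / 20000000000 * x * x ^ 7 := by ring
    have h3 : 96 ≤ 225625 / 20000000000 * x := by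
      norm_num at hx
      linarith
    have h4 : 96 * x ^ 7 ≤ 225625 / 20000000000 * x * x ^ 7 := by gcongr
    have h5 : 0 ≤ 475 / 100000 * x ^ 4 := by positivity
    linarith
  -- first half
  have A1 : 2 * (J + 1) * Real.exp (-((400 * x ^ 6)⁻¹ * ((N - T - 1) / (T + 2)) ^ 2))
      ≤ 1 / 2 * Real.exp (-(9 / 4000 * x ^ 4)) := by
    calc 2 * (J + 1) * Real.exp (-((400 * x ^ 6)⁻¹ * ((N - T - 1) / (T + 2)) ^ 2))
        ≤ 2 * (2 * x ^ 3) * Real.exp (-(24 / 10000 * x ^ 4)) := by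
          gcongr
      _ = 1 / 2 * (8 * x ^ 3) * Real.exp (-(24 / 10000 * x ^ 4)) := by ring
      _ ≤ 1 / 2 * Real.exp (15 / 100000 * x ^ 4) * Real.exp (-(24 / 10000 * x ^ 4)) := by
          gcongr
      _ = 1 / 2 * Real.exp (-(9 / 4000 * x ^ 4)) := by
          rw [mul_assoc, ← Real.exp_add]
          congr 2
          ring
  have A2 : 2 * (J + 1) * (3 * ((M : ℝ) + 1) / 4 ^ M
            * Real.exp (4 * (400 * x ^ 6)⁻¹ * ((N - T + J) / (T - J + 1)) ^ 2))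
      ≤ 1 / 2 * Real.exp (-(9 / 4000 * x ^ 4)) := by
    have h0 : 3 * ((M : ℝ) + 1) / 4 ^ M = 3 * ((M : ℝ) + 1) * (1 / 4 ^ M) := by ring
    rw [h0]
    calc 2 * (J + 1) * (3 * ((M : ℝ) + 1) * (1 / 4 ^ M)
            * Real.exp (4 * (400 * x ^ 6)⁻¹ * ((N - T + J) / (T - J + 1)) ^ 2))
        ≤ 2 * (2 * x ^ 3) * (3 * x ^ 4 * (4 * Real.exp (-(173 / 10000 * x ^ 4)))
            * Real.exp (10201 / 1000000 * x ^ 4)) := by
          gcongr
      _ = 1 / 2 * (96 * x ^ 7) * (Real.exp (-(173 / 10000 * x ^ 4))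
            * Real.exp (10201 / 1000000 * x ^ 4)) := by ring
      _ ≤ 1 / 2 * Real.exp (475 / 100000 * x ^ 4) * (Real.exp (-(173 / 10000 * x ^ 4))
            * Real.exp (10201 / 1000000 * x ^ 4)) := by
          gcongr
      _ = 1 / 2 * Real.exp (475 / 100000 * x ^ 4 + (-(173 / 10000 * x ^ 4)
            + 10201 / 1000000 * x ^ 4)) := by
          rw [Real.exp_add, Real.exp_add]
          ring
      _ ≤ 1 / 2 * Real.exp (-(9 / 4000 * x ^ 4)) := by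
          gcongr
          have : 0 ≤ x ^ 4 := by positivity
          linarith
  rw [mul_add]
  linarith

theorem asy_exp : ∃ x0 : ℝ, ∀ x ≥ x0,
    2 * ((jX x : ℝ) + 1) * (Real.exp (-(yX x * (((nX x : ℝ) - tX x - 1) / ((tX x : ℝ) + 2)) ^ 2))
          + 3 * ((mX x : ℝ) + 1) / 4 ^ (mX x)
            * Real.exp (4 * yX x * (((nX x : ℝ) - tX x + jX x) / ((tX x : ℝ) - jX x + 1)) ^ 2))
      ≤ Real.exp (-(9 / 4000 * x ^ 4)) := by
  refine ⟨10 ^ 10, fun x hx => ?_⟩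
  obtain ⟨hn1, hn2, hj1, hj2, ht1, ht2, -, -, -, hm1, hm2⟩ :=
    asy_bounds (x := x) (le_trans (by norm_num) hx)
  exact asy4_real hx hn1 hn2 hj1 hj2 ht1 ht2 hm1 hm2

end Pool.Agent.Lib.MP_0430e4_lc.Impr
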