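import Pool.Agent.Lib.MP_0430e4_lc.Impr.Defs

/-! MODULE BEQ: near `1/2` the second MRRW bound agrees with the first. -/

set_option autoImplicit false

namespace Pool.Agent.Lib.MP_0430e4_lc.Impr

open Finset Filter Topology

/-- `h(x) = H₂((1 - √(1 - x)) / 2)` in bits. -/
noncomputable def hB (x : ℝ) : ℝ :=
  Real.binEntropy (1 / 2 - 1 / 2 * Real.sqrt (1 - x)) / Real.log 2

namespace Beq

theorem log_diff_ge {x : ℝ} (hx0 : 0 ≤ x) (hx1 : x < 1) :
    2 * x ≤ Real.log (1 + x) - Real.log (1 - x) := by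
  have h := Real.hasSum_log_sub_log_of_abs_lt_one (x := x) (by rw [abs_of_nonneg hx0]; exact hx1)
  have h1 := h.summable.sum_le_tsum (Finset.range 1) (fun k _ => by positivity)
  rw [h.tsum_eq] at h1
  simpa using h1

theorem pinsker {x : ℝ} (hx0 : 0 ≤ x) (hx1 : x < 1) :
    Real.binEntropy (1 / 2 - x / 2) ≤ Real.log 2 - x ^ 2 / 2 := by
  have hderiv : ∀ z : ℝ, 0 ≤ z → z < 1 →
      HasDerivAt (fun z => Real.binEntropy (1 / 2 - z / 2) + z ^ 2 / 2)
        ((Real.log (1 - (1 / 2 - z / 2)) - Real.log (1 / 2 - z / 2)) * (-(1 / 2)) + z) z := by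
    intro z hz0 hz1
    have d1 : HasDerivAt (fun z : ℝ => 1 / 2 - z / 2) (-(1 / 2)) z := by
      have := ((hasDerivAt_id z).div_const 2).const_sub (1 / 2)
      simpa using this
    have d2 := (Real.hasDerivAt_binEntropy (p := 1 / 2 - z / 2) (by linarith) (by linarith)).comp z d1
    have d3 : HasDerivAt (fun z : ℝ => z ^ 2 / 2) z z := by
      have := (hasDerivAt_pow 2 z).div_const 2
      simpa using this
    exact d2.add d3
  have hanti : AntitoneOn (fun z => Real.binEntropy (1 / 2 - z / 2) + z ^ 2 / 2) (Set.Ico 0 1) := by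
    refine antitoneOn_of_deriv_nonpos (convex_Ico _ _)
      (fun z hz => (hderiv z hz.1 hz.2).continuousAt.continuousWithinAt)
      (fun z hz => ?_) ?_
    · rw [interior_Ico] at hz
      exact (hderiv z hz.1.le hz.2).differentiableAt.differentiableWithinAt
    · intro z hz
      rw [interior_Ico] at hz
      rw [(hderiv z hz.1.le hz.2).deriv]
      have h1 := log_diff_ge hz.1.le hz.2
      have e1 : 1 - (1 / 2 - z / 2) = (1 + z) / 2 := by ring
      have e2 : 1 / 2 - z / 2 = (1 - z) / 2 := by ring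
      rw [e1, e2, Real.log_div (by linarith [hz.1]) (by norm_num),
        Real.log_div (by linarith [hz.2]) (by norm_num)]
      linarith
  have h := hanti (Set.left_mem_Ico.2 zero_lt_one) ⟨hx0, hx1⟩ hx0
  simp only [zero_div, sub_zero] at h
  have e : Real.binEntropy (1 / 2) = Real.log 2 := by
    rw [one_div]; exact Real.binEntropy_two_inv
  rw [e] at h
  norm_num at h
  linarith

/-- `τ(w) = 1/2 - √(1-w²)/2`. -/
theorem tau_bounds {w : ℝ} (hw0 : 0 < w) (hw1 : w ≤ 1 / 100) :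
    w ^ 2 / 4 ≤ 1 / 2 - 1 / 2 * Real.sqrt (1 - w ^ 2) ∧
      1 / 2 - 1 / 2 * Real.sqrt (1 - w ^ 2) ≤ 1 / 4 ∧ 99 / 100 ≤ Real.sqrt (1 - w ^ 2) := by
  have h1 : Real.sqrt (1 - w ^ 2) ≤ 1 - w ^ 2 / 2 := by
    rw [Real.sqrt_le_left (by nlinarith)]
    nlinarith [sq_nonneg (w ^ 2)]
  have h2 : 99 / 100 ≤ Real.sqrt (1 - w ^ 2) := by
    apply Real.le_sqrt_of_sq_le
    nlinarith
  refine ⟨by linarith, by linarith, h2⟩

theorem ent_diff {u s : ℝ} (hu : 0 < u) (hus : u ≤ s) (hs : s ≤ 1 / 100) :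
    Real.binEntropy (1 / 2 - 1 / 2 * Real.sqrt (1 - s ^ 2))
      - Real.binEntropy (1 / 2 - 1 / 2 * Real.sqrt (1 - u ^ 2)) ≤ (s - u) / 2 := by
  have hderiv : ∀ w : ℝ, 0 < w → w ≤ 1 / 100 →
      HasDerivAt (fun w => Real.binEntropy (1 / 2 - 1 / 2 * Real.sqrt (1 - w ^ 2)) - w / 2)
        ((Real.log (1 - (1 / 2 - 1 / 2 * Real.sqrt (1 - w ^ 2)))
          - Real.log (1 / 2 - 1 / 2 * Real.sqrt (1 - w ^ 2)))
          * (w / (2 * Real.sqrt (1 - w ^ 2))) - 1 / 2) w := by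
    intro w hw0 hw1
    obtain ⟨b1, b2, b3⟩ := tau_bounds hw0 hw1
    have hpos : (0 : ℝ) < 1 - w ^ 2 := by nlinarith
    have d0 : HasDerivAt (fun w : ℝ => 1 - w ^ 2) (-(2 * w)) w := by
      have := (hasDerivAt_pow 2 w).const_sub 1
      simpa using this
    have d1 := d0.sqrt hpos.ne'
    have d2 : HasDerivAt (fun w : ℝ => 1 / 2 - 1 / 2 * Real.sqrt (1 - w ^ 2))
        (w / (2 * Real.sqrt (1 - w ^ 2))) w := by
      have := (d1.const_mul (1 / 2)).const_sub (1 / 2)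
      refine this.congr_deriv ?_
      have : Real.sqrt (1 - w ^ 2) ≠ 0 := (Real.sqrt_pos.2 hpos).ne'
      field_simp
    have hw2 : 0 < w ^ 2 / 4 := by positivity
    have d3 := (Real.hasDerivAt_binEntropy
      (p := 1 / 2 - 1 / 2 * Real.sqrt (1 - w ^ 2)) (by linarith) (by linarith)).comp w d2
    have d4 : HasDerivAt (fun w : ℝ => w / 2) (1 / 2) w := by
      have := (hasDerivAt_id w).div_const 2
      simpa using this
    exact d3.sub d4
  have hanti : AntitoneOn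
      (fun w => Real.binEntropy (1 / 2 - 1 / 2 * Real.sqrt (1 - w ^ 2)) - w / 2)
      (Set.Icc u s) := by
    refine antitoneOn_of_deriv_nonpos (convex_Icc _ _)
      (fun w hw => (hderiv w (lt_of_lt_of_le hu hw.1)
        (hw.2.trans hs)).continuousAt.continuousWithinAt)
      (fun w hw => ?_) ?_
    · rw [interior_Icc] at hw
      exact (hderiv w (hu.trans hw.1) (hw.2.le.trans hs)).differentiableAt.differentiableWithinAt
    · intro w hw
      rw [interior_Icc] at hw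
      have hw0 : 0 < w := hu.trans hw.1
      have hw1 : w ≤ 1 / 100 := hw.2.le.trans hs
      rw [(hderiv w hw0 hw1).deriv]
      obtain ⟨b1, b2, b3⟩ := tau_bounds hw0 hw1
      obtain ⟨τ, hτ⟩ : ∃ τ : ℝ, τ = 1 / 2 - 1 / 2 * Real.sqrt (1 - w ^ 2) := ⟨_, rfl⟩
      obtain ⟨r, hr⟩ : ∃ r : ℝ, r = Real.sqrt (1 - w ^ 2) := ⟨_, rfl⟩
      rw [← hτ] at b1 b2 ⊢
      rw [← hr] at b3 ⊢
      have hτ0 : 0 < τ := lt_of_lt_of_le (by positivity) b1
      have l1 : Real.log (1 - τ) ≤ 0 := Real.log_nonpos (by linarith) (by linarith)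
      -- -log τ ≤ 4 log (√2/√w)...: use log τ ≥ log (w^2/4) = 4 log (√(w/2))
      have l2 : Real.log (w ^ 2 / 4) ≤ Real.log τ := Real.log_le_log (by positivity) b1
      obtain ⟨g, hg⟩ : ∃ g : ℝ, g = Real.sqrt (w / 2) := ⟨_, rfl⟩
      have hg0 : 0 < g := by rw [hg]; exact Real.sqrt_pos.2 (by positivity)
      have hg2 : g ^ 2 = w / 2 := by rw [hg]; exact Real.sq_sqrt (by positivity)
      have l3 : Real.log (w ^ 2 / 4) = 4 * Real.log g := by
        have : w ^ 2 / 4 = g ^ 4 := by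
          have : g ^ 4 = (g ^ 2) ^ 2 := by ring
          rw [this, hg2]; ring
        rw [this, Real.log_pow]
        norm_num
      have l4 : -Real.log g ≤ 1 / g := by
        rw [← Real.log_inv, one_div]
        have := Real.log_le_sub_one_of_pos (inv_pos.2 hg0)
        linarith
      have l5 : Real.log (1 - τ) - Real.log τ ≤ 4 / g := by
        have : (4 : ℝ) / g = 4 * (1 / g) := by ring
        rw [this]
        linarith
      have hwg : w = 2 * g ^ 2 := by rw [hg2]; ring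
      have hgs : g ≤ 1 / 14 := by
        have : g ^ 2 ≤ (1 / 14) ^ 2 := by rw [hg2]; norm_num; linarith
        exact (sq_le_sq₀ hg0.le (by norm_num)).1 this
      have hfac : 0 ≤ w / (2 * r) := by positivity
      have l6 : (Real.log (1 - τ) - Real.log τ) * (w / (2 * r)) ≤ 4 / g * (w / (2 * r)) :=
        mul_le_mul_of_nonneg_right l5 hfac
      have l7 : 4 / g * (w / (2 * r)) ≤ 1 / 2 := by
        have hr0 : 0 < r := by linarith
        have : 4 / g * (w / (2 * r)) = 4 * g / r := by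
          rw [hwg]; field_simp
        rw [this, div_le_iff₀ hr0]
        linarith
      linarith
  have h := hanti (Set.left_mem_Icc.2 hus) (Set.right_mem_Icc.2 hus) hus
  simp only at h
  linarith

end Beq

open Beq

theorem B_ge : ∃ δ₁ : ℝ, 0 < δ₁ ∧ δ₁ < 1 / 2 ∧ ∀ δ : ℝ, δ₁ < δ → δ < 1 / 2 →
    ∀ u : ℝ, 0 < u → u ≤ 1 - 2 * δ →
      Real.binEntropy (1 / 2 - Real.sqrt (δ * (1 - δ))) / Real.log 2
        ≤ 1 + hB (u ^ 2) - hB (u ^ 2 + 2 * δ * u + 2 * δ) := by
  refine ⟨199 / 400, by norm_num, by norm_num, ?_⟩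
  intro δ hδ1 hδ2 u hu0 hu1
  obtain ⟨s, hs⟩ : ∃ s : ℝ, s = 1 - 2 * δ := ⟨_, rfl⟩
  rw [← hs] at hu1
  have hs0 : 0 < s := by rw [hs]; linarith
  have hs1 : s ≤ 1 / 100 := by rw [hs]; linarith
  have hδs : δ = (1 - s) / 2 := by rw [hs]; ring
  have hlog : 0 < Real.log 2 := Real.log_pos (by norm_num)
  have e1 : Real.sqrt (δ * (1 - δ)) = 1 / 2 * Real.sqrt (1 - s ^ 2) := by
    have : δ * (1 - δ) = (1 / 2) ^ 2 * (1 - s ^ 2) := by rw [hδs]; ring
    rw [this, Real.sqrt_mul (by positivity), Real.sqrt_sq (by norm_num)]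
  have e2 : 1 - (u ^ 2 + 2 * δ * u + 2 * δ) = (1 + u) * (s - u) := by rw [hδs]; ring
  have hv0 : 0 ≤ (1 + u) * (s - u) := mul_nonneg (by linarith) (by linarith)
  have hv1 : (1 + u) * (s - u) < 1 := by nlinarith
  have h1 := ent_diff hu0 hu1 hs1
  have h2 := pinsker (Real.sqrt_nonneg ((1 + u) * (s - u)))
    (by rw [Real.sqrt_lt' one_pos]; simpa using hv1)
  rw [Real.sq_sqrt hv0] at h2
  unfold hB
  rw [e1, e2]
  have e3 : 1 / 2 - 1 / 2 * Real.sqrt ((1 + u) * (s - u)) =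
      1 / 2 - Real.sqrt ((1 + u) * (s - u)) / 2 := by ring
  rw [e3]
  rw [div_le_iff₀ hlog]
  have e4 : (1 + Real.binEntropy (1 / 2 - 1 / 2 * Real.sqrt (1 - u ^ 2)) / Real.log 2 -
      Real.binEntropy (1 / 2 - Real.sqrt ((1 + u) * (s - u)) / 2) / Real.log 2) * Real.log 2 =
      Real.log 2 + Real.binEntropy (1 / 2 - 1 / 2 * Real.sqrt (1 - u ^ 2)) -
      Real.binEntropy (1 / 2 - Real.sqrt ((1 + u) * (s - u)) / 2) := by
    field_simp
  rw [e4]
  have h3 : (s - u) ≤ (1 + u) * (s - u) := by nlinarith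
  linarith

end Pool.Agent.Lib.MP_0430e4_lc.Impr
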