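import Mathlib

/-!
# Improvement of the MRRW bound near `δ = 1/2`: definitions
-/

set_option autoImplicit false

namespace Pool.Agent.Lib.MP_0430e4_lc.Impr

open Finset

/-- Binomial coefficient with an integer lower index. -/
noncomputable def bz (N : ℕ) (z : ℤ) : ℝ := if 0 ≤ z then ((N.choose z.toNat : ℕ) : ℝ) else 0

/-- Hamming weight. -/
def wt {n : ℕ} (y : Fin n → Bool) : ℕ := (univ.filter fun i => y i = true).card

/-- Convolution on the cube. -/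
noncomputable def cv {n : ℕ} (f g : (Fin n → Bool) → ℝ) (x : Fin n → Bool) : ℝ :=
  ∑ y, f y * g (fun i => xor (x i) (y i))

/-- Coefficients of the exponential series. -/
noncomputable def ew (s : ℝ) (m : ℕ) : ℝ := s ^ m / (m.factorial : ℝ)

/-- Intersection numbers of the cube: the number of `y` with `|y| = a`, `|x + y| = b`,
where `|x| = k`. -/
noncomputable def pk (n k a b : ℕ) : ℝ :=
  ∑ i ∈ range (k + 1), ∑ l ∈ range (n - k + 1),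
    if i + l = a ∧ k + l = b + i then
      ((k.choose i : ℕ) : ℝ) * (((n - k).choose l : ℕ) : ℝ) else 0

/-- Convolution of two radial functions with profiles `F`, `G`, at a word of weight `k`. -/
noncomputable def conv (n k : ℕ) (F G : ℤ → ℝ) : ℝ :=
  ∑ i ∈ range (k + 1), ∑ l ∈ range (n - k + 1),
    ((k.choose i : ℕ) : ℝ) * (((n - k).choose l : ℕ) : ℝ) *
      (F ((i : ℤ) + (l : ℤ)) * G ((k : ℤ) - (i : ℤ) + (l : ℤ)))

/-- `exp (s E^2)` applied to the profile `v`, where `(E v) a = v (a - 1)`. -/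
noncomputable def De (n : ℕ) (s : ℝ) (v : ℤ → ℝ) (a : ℤ) : ℝ :=
  ∑ m ∈ range (n + 1), ew s m * v (a - 2 * (m : ℤ))

/-- The adjacency operator of the cube on profiles. -/
noncomputable def adjP (n : ℕ) (v : ℤ → ℝ) (a : ℤ) : ℝ :=
  (a : ℝ) * v (a - 1) + ((n : ℝ) - (a : ℝ)) * v (a + 1)

/-- `w = A v - l v + 2 s (E^3 - E) v`. -/
noncomputable def wOf (n : ℕ) (l s : ℝ) (v : ℤ → ℝ) (a : ℤ) : ℝ :=
  adjP n v a - l * v a + 2 * s * (v (a - 3) - v (a - 1))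

/-- The kernel of a pair of levels. -/
noncomputable def LamP (n k : ℕ) (s : ℝ) (a b : ℕ) : ℝ :=
  ∑ i ∈ range (n + 1), ∑ j ∈ range (n + 1), ew s i * ew s j * pk n k (a + 2 * i) (b + 2 * j)

/-- Average of `C(k, .)` over the `±1` walks of length `M` started at `m`. -/
noncomputable def cc (k : ℕ) (m : ℤ) (M : ℕ) : ℝ :=
  (∑ i ∈ range (M + 1), ((M.choose i : ℕ) : ℝ) * bz k (m + 2 * (i : ℤ) - (M : ℤ))) / 2 ^ M

/-- The central binomial coefficient `C(k, ⌊k/2⌋)`. -/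
noncomputable def cst (k : ℕ) : ℝ := ((k.choose (k / 2) : ℕ) : ℝ)

/-- Laguerre type sums. -/
noncomputable def Ph (N : ℕ) (u : ℝ) (L : ℕ) : ℝ :=
  ∑ M ∈ range (N + 1), ew (-u) M * ((N.choose (L + M) : ℕ) : ℝ)

/-- Masses of the deformed levels. -/
noncomputable def Psi (n b : ℕ) (s : ℝ) : ℝ :=
  ∑ m ∈ range (n + 1), ew s m * ((n.choose (b + 2 * m) : ℕ) : ℝ)

/-- `W = sqrt ((t - J) (n - t + J + 1))`. -/
noncomputable def Wc (n t J : ℕ) : ℝ :=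
  Real.sqrt (((t : ℝ) - (J : ℝ)) * ((n : ℝ) - (t : ℝ) + (J : ℝ) + 1))

/-- The level of the certificate. -/
noncomputable def lev (n t J : ℕ) : ℝ :=
  2 * Real.cos (Real.pi / ((J : ℝ) + 1)) * Wc n t J - Wc n t J / (J : ℝ) ^ 2

/-- The window function. -/
noncomputable def win (n t J : ℕ) (a : ℤ) : ℝ :=
  if (t : ℤ) - (J : ℤ) ≤ a ∧ a ≤ (t : ℤ) then
    Real.sin (Real.pi / ((J : ℝ) + 1) * ((t : ℝ) + 1 / 2 - (a : ℝ)))
      / Real.sqrt ((n.choose a.toNat : ℕ) : ℝ)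
  else 0

/-- The standing assumptions on the parameters. -/
structure Par (n t J L0 M0 : ℕ) (y : ℝ) : Prop where
  hJ : 4 ≤ J
  hJt : 100 * (J + 4) ^ 2 ≤ t
  htn : 100 * t ≤ n
  y0 : 0 < y
  y1 : y ≤ 1
  hr1 : 324 * y * (n : ℝ) ≤ (t : ℝ)
  hm : 10 * y * (n : ℝ) ^ 2 ≤ (t : ℝ) ^ 3
  hs : 100 * y * (J : ℝ) ^ 2 * (n : ℝ) ≤ (t : ℝ) ^ 2
  hL0 : 1 ≤ L0
  hL1 : 4 * y * (n : ℝ) + 2 * y * ((L0 : ℝ) + 1) ≤ (L0 : ℝ) * ((L0 : ℝ) + 1)
  hL2 : 72 * y * (n : ℝ) ≤ (L0 : ℝ) * (t : ℝ)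
  hL3 : 2 * J + 2 + 2 * L0 ≤ t
  hM1 : 4 * (M0 : ℝ) * ((L0 : ℝ) + (J : ℝ) + 2 + (M0 : ℝ))
      ≤ 3 * y * ((n : ℝ) - 2 * (t : ℝ) - 3 - 2 * (M0 : ℝ))
  hM2 : 2 * (J + 4 + 2 * M0) ^ 2 ≤ t

end Pool.Agent.Lib.MP_0430e4_lc.Impr
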