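import Pool.Agent.Lib.MP_0430e4_lc.Impr.ASM
import Pool.Agent.Lib.MP_0430e4_lc.Impr.ASY1
import Pool.Agent.Lib.MP_0430e4_lc.Impr.ASY2
import Pool.Agent.Lib.MP_0430e4_lc.Impr.ASY3
import Pool.Agent.Lib.MP_0430e4_lc.Impr.ASY4
import Pool.Agent.Lib.MP_0430e4_lc.TensorRate

/-!
# The improved bound
-/

set_option autoImplicit false

namespace Pool.Agent.Lib.MP_0430e4_lc.Impr

open Finset Filter

theorem log_small : ∃ x0 : ℝ, ∀ x ≥ x0, Real.log x ≤ x / 800000 := by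
  have h := Real.isLittleO_log_id_atTop.bound (c := 1 / 800000) (by norm_num)
  rw [eventually_atTop] at h
  obtain ⟨a, ha⟩ := h
  refine ⟨max a 1, fun x hx => ?_⟩
  have h1 := ha x (le_trans (le_max_left _ _) hx)
  have h2 : 1 ≤ x := le_trans (le_max_right _ _) hx
  rw [Real.norm_of_nonneg (Real.log_nonneg h2)] at h1
  simp only [id, Real.norm_eq_abs] at h1
  rw [abs_of_nonneg (by linarith)] at h1
  linarith

theorem core_bound : ∃ x0 : ℝ, 10 ≤ x0 ∧ ∀ x ≥ x0, ∀ δ : ℝ, 0 ≤ δ →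
    2 * Real.sqrt ((x ^ 5)⁻¹ * (1 - (x ^ 5)⁻¹)) = 1 - 2 * δ →
    Tensor.ell δ ≤ Real.binEntropy ((x ^ 5)⁻¹) / Real.log 2 - ((x ^ 5)⁻¹) ^ 2 / 400 := by
  obtain ⟨x1, h1⟩ := asy_par
  obtain ⟨x2, h2⟩ := asy_level
  obtain ⟨x3, h3⟩ := asy_choose
  obtain ⟨x4, h4⟩ := asy_exp
  obtain ⟨x5, h5⟩ := log_small
  refine ⟨max 10 (max x1 (max x2 (max x3 (max x4 x5)))), le_max_left _ _, ?_⟩
  intro x hx δ hδ hlev
  have hx10 : 10 ≤ x := le_trans (le_max_left _ _) hx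
  have hx' := le_trans (le_max_right _ _) hx
  have hx1 : x1 ≤ x := le_trans (le_max_left _ _) hx'
  have hx' := le_trans (le_max_right _ _) hx'
  have hx2 : x2 ≤ x := le_trans (le_max_left _ _) hx'
  have hx' := le_trans (le_max_right _ _) hx'
  have hx3 : x3 ≤ x := le_trans (le_max_left _ _) hx'
  have hx' := le_trans (le_max_right _ _) hx'
  have hx4 : x4 ≤ x := le_trans (le_max_left _ _) hx'
  have hx5 : x5 ≤ x := le_trans (le_max_right _ _) hx'
  have P := h1 x hx1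
  have hL := h2 x hx2
  have hC := h3 x hx3
  have hE := h4 x hx4
  have hlog := h5 x hx5
  obtain ⟨hn1, hn2, -, -, ht1, -⟩ := asy_bounds hx10
  set n := nX x with hn
  set t := tX x with ht
  set J := jX x with hJ
  set τ : ℝ := (x ^ 5)⁻¹ with hτ
  have hx0 : 0 < x := by linarith
  obtain ⟨h, hcert, hval⟩ := finite_cert P
  have hnpos : (0 : ℝ) < n := lt_of_lt_of_le (by positivity) hn1
  have hn1' : 1 ≤ n := by
    have : 0 < n := by exact_mod_cast hnpos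
    omega
  have hcert' : Tensor.IsCert ((1 - 2 * δ) * n) h := by
    apply hcert.mono
    rw [← hlev]
    exact hL
  have hell := Tensor.ell_le_of_cert hδ hn1' hcert'
  refine hell.trans ?_
  have htn : t ≤ n := by
    have := P.htn
    omega
  have hch : (0 : ℝ) < ((n.choose t : ℕ) : ℝ) := by
    exact_mod_cast Nat.choose_pos htn
  have hval1 : 1 ≤ Tensor.val h := Tensor.one_le_val hcert
  have hval2 : Tensor.val h ≤ ((n.choose t : ℕ) : ℝ) * Real.exp (-(9 / 4000 * x ^ 4)) := by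
    refine hval.trans ?_
    calc _ = ((n.choose t : ℕ) : ℝ) * (2 * ((J : ℝ) + 1)
        * (Real.exp (-(yX x * (((n : ℝ) - t - 1) / ((t : ℝ) + 2)) ^ 2))
          + 3 * ((mX x : ℝ) + 1) / 4 ^ (mX x)
            * Real.exp (4 * yX x * (((n : ℝ) - t + J) / ((t : ℝ) - J + 1)) ^ 2))) := by ring
      _ ≤ _ := mul_le_mul_of_nonneg_left hE hch.le
  have hlogval : Real.log (Tensor.val h) ≤ n * Real.binEntropy τ + 200 * x ^ 3 * Real.log x
      - 9 / 4000 * x ^ 4 := by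
    have h6 := Real.log_le_log (by linarith) hval2
    rw [Real.log_mul hch.ne' (Real.exp_pos _).ne', Real.log_exp] at h6
    linarith
  have hlog3 : 200 * x ^ 3 * Real.log x ≤ 1 / 4000 * x ^ 4 := by
    have h6 : 200 * x ^ 3 * Real.log x ≤ 200 * x ^ 3 * (x / 800000) :=
      mul_le_mul_of_nonneg_left hlog (by positivity)
    refine h6.trans (le_of_eq ?_)
    ring
  have hln2 : Real.log 2 ≤ 0.6931471808 := Real.log_two_lt_d9.le
  have hln2' : 0 < Real.log 2 := Real.log_pos (by norm_num)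
  have hτ2 : (n : ℝ) * τ ^ 2 ≤ x ^ 4 + 1 := by
    have h6 : τ ^ 2 = (x ^ 10)⁻¹ := by
      rw [hτ, inv_pow]
      congr 1
      ring
    rw [h6, ← div_eq_mul_inv, div_le_iff₀ (by positivity)]
    have h7 : (1 : ℝ) ≤ x ^ 10 := one_le_pow₀ (by linarith)
    nlinarith
  have hx4 : (10000 : ℝ) ≤ x ^ 4 := by
    calc (10000 : ℝ) = 10 ^ 4 := by norm_num
      _ ≤ x ^ 4 := pow_le_pow_left₀ (by norm_num) hx10 4
  have hkey : Real.log (Tensor.val h) ≤ n * (Real.binEntropy τ - Real.log 2 * (τ ^ 2 / 400)) := by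
    have h8 : Real.log 2 * ((n : ℝ) * τ ^ 2) ≤ 0.6931471808 * (x ^ 4 + 1) := by
      apply mul_le_mul hln2 hτ2 (by positivity) (by norm_num)
    nlinarith
  rw [Real.logb, div_div, div_le_iff₀ (by positivity)]
  have h9 : (Real.binEntropy τ / Real.log 2 - τ ^ 2 / 400) * (Real.log 2 * n)
      = n * (Real.binEntropy τ - Real.log 2 * (τ ^ 2 / 400)) := by
    field_simp
  rw [h9]
  exact hkey

theorem main_bound : ∃ δ₀ : ℝ, δ₀ < 1 / 2 ∧ 0 < δ₀ ∧ ∀ δ : ℝ, δ₀ < δ → δ < 1 / 2 →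
    Tensor.ell δ ≤ Real.binEntropy (1 / 2 - Real.sqrt (δ * (1 - δ))) / Real.log 2
      - (1 / 2 - Real.sqrt (δ * (1 - δ))) ^ 2 / 400 := by
  obtain ⟨x0, hx0, hmain⟩ := core_bound
  have hx0' : 0 < x0 := by linarith
  refine ⟨1 / 2 - (x0 ^ 5)⁻¹ / 4, by have : 0 < (x0 ^ 5)⁻¹ := by positivity
                                     linarith, ?_, ?_⟩
  · have h1 : (x0 ^ 5)⁻¹ ≤ 1 := inv_le_one_of_one_le₀ (one_le_pow₀ (by linarith))
    linarith
  intro δ h1 h2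
  set s := Real.sqrt (δ * (1 - δ)) with hs
  have hδ0 : 0 < δ := by
    have h3 : (x0 ^ 5)⁻¹ ≤ 1 := inv_le_one_of_one_le₀ (one_le_pow₀ (by linarith))
    linarith
  have hδ1 : 0 < 1 - δ := by linarith
  have hs2 : s ^ 2 = δ * (1 - δ) := Real.sq_sqrt (by positivity)
  have hs0 : 0 ≤ s := Real.sqrt_nonneg _
  have hs1 : s < 1 / 2 := by
    by_contra h
    have h3 : 1 / 2 ≤ s := not_lt.1 h
    nlinarith
  have hs3 : δ ≤ s := by
    rw [hs]
    apply Real.le_sqrt_of_sq_le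
    nlinarith
  set τ := 1 / 2 - s with hτ
  have hτ0 : 0 < τ := by linarith
  have hτ1 : τ ≤ (x0 ^ 5)⁻¹ / 4 := by linarith
  set x : ℝ := τ ^ (-(1 / 5) : ℝ) with hx
  have hxpos : 0 < x := Real.rpow_pos_of_pos hτ0 _
  have hx5 : (x ^ 5)⁻¹ = τ := by
    have h3 : x ^ 5 = τ⁻¹ := by
      rw [hx, ← Real.rpow_natCast, ← Real.rpow_mul hτ0.le]
      norm_num
      exact Real.rpow_neg_one τ
    rw [h3, inv_inv]
  have hxx : x0 ≤ x := by
    by_contra h
    have h3 : x < x0 := not_le.1 h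
    have h4 : x ^ 5 < x0 ^ 5 := pow_lt_pow_left₀ h3 hxpos.le (by norm_num)
    have h5 : (x0 ^ 5)⁻¹ < (x ^ 5)⁻¹ := inv_strictAnti₀ (by positivity) h4
    rw [hx5] at h5
    have h6 : 0 < (x0 ^ 5)⁻¹ := by positivity
    linarith
  have h := hmain x hxx δ hδ0.le (by
    rw [hx5]
    have h3 : τ * (1 - τ) = (1 / 2 - δ) ^ 2 := by
      rw [hτ]
      nlinarith
    rw [h3, Real.sqrt_sq (by linarith)]
    ring)
  rw [hx5] at h
  exact h

end Pool.Agent.Lib.MP_0430e4_lc.Impr
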