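import Pool.Agent.Lib.MP_0430e4_lc.Impr.Defs

/-!
# Improvement of the MRRW bound near `δ = 1/2`: the choice of the parameters
-/

set_option autoImplicit false

namespace Pool.Agent.Lib.MP_0430e4_lc.Impr

noncomputable def nX (x : ℝ) : ℕ := ⌈x ^ 14⌉₊
noncomputable def jX (x : ℝ) : ℕ := ⌈x ^ 3⌉₊
noncomputable def tX (x : ℝ) : ℕ := ⌈(x ^ 5)⁻¹ * (nX x : ℝ) * (1 + 20 / (jX x : ℝ) ^ 2)⌉₊ + jX x
noncomputable def yX (x : ℝ) : ℝ := (400 * x ^ 6)⁻¹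
noncomputable def lX (x : ℝ) : ℕ := ⌈21 / 200 * x ^ 4⌉₊
noncomputable def mX (x : ℝ) : ℕ := ⌊x ^ 4 / 80⌋₊

end Pool.Agent.Lib.MP_0430e4_lc.Impr
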