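import Pool.Agent.Lib.MP_0430e4_lc.Impr.Defs
import Pool.Agent.Lib.MP_0430e4_lc.Impr.PAIR
import Pool.Agent.Lib.MP_0430e4_lc.Impr.PK

/-!
# Improvement of the MRRW bound: region 1 (`k ≤ t`)
-/

set_option autoImplicit false
set_option linter.unusedVariables false

namespace Pool.Agent.Lib.MP_0430e4_lc.Impr

open Finset

/-! # Region 1 of the certificate: `k ≤ t` -/

/-- Sum over pairs of levels. -/
noncomputable def r1_dsum (N : ℕ) (g : ℕ → ℕ → ℝ) : ℝ :=
  ∑ a ∈ range N, ∑ b ∈ range N, g a b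

theorem r1_down (g : ℕ → ℝ) (hg : ∀ b, 0 ≤ g b) (N m : ℕ) :
    ∑ b ∈ range N, (if m ≤ b then g (b - m) else 0) ≤ ∑ b ∈ range N, g b := by
  rcases le_total N m with h | h
  · have : ∑ b ∈ range N, (if m ≤ b then g (b - m) else 0) = 0 := by
      refine Finset.sum_eq_zero fun b hb => ?_
      have := Finset.mem_range.1 hb
      rw [if_neg (by omega)]
    rw [this]
    exact Finset.sum_nonneg fun b _ => hg b
  · obtain ⟨M, rfl⟩ := Nat.exists_eq_add_of_le h
    rw [Finset.sum_range_add]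
    have h0 : ∑ b ∈ range m, (if m ≤ b then g (b - m) else 0) = 0 := by
      refine Finset.sum_eq_zero fun b hb => ?_
      have := Finset.mem_range.1 hb
      rw [if_neg (by omega)]
    rw [h0, zero_add]
    have h1 : ∑ x ∈ range M, (if m ≤ m + x then g (m + x - m) else 0) = ∑ x ∈ range M, g x := by
      refine Finset.sum_congr rfl fun x _ => ?_
      rw [if_pos (by omega), Nat.add_sub_cancel_left]
    rw [h1]
    exact Finset.sum_le_sum_of_subset_of_nonneg
      (by intro x hx; simp only [Finset.mem_range] at *; omega) fun b _ _ => hg b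

theorem r1_up (g : ℕ → ℝ) (hg : ∀ b, 0 ≤ g b) (N m : ℕ) (h0 : ∀ b, N ≤ b → g b = 0) :
    ∑ b ∈ range N, g (b + m) ≤ ∑ b ∈ range N, g b := by
  have h1 : ∑ b ∈ range (m + N), g b = ∑ b ∈ range m, g b + ∑ b ∈ range N, g (m + b) :=
    Finset.sum_range_add g m N
  have h2 : ∑ b ∈ range (N + m), g b = ∑ b ∈ range N, g b + ∑ b ∈ range m, g (N + b) :=
    Finset.sum_range_add g N m
  have h3 : ∑ b ∈ range m, g (N + b) = 0 :=
    Finset.sum_eq_zero fun b _ => h0 _ (by omega)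
  have h4 : 0 ≤ ∑ b ∈ range m, g b := Finset.sum_nonneg fun b _ => hg b
  have h5 : ∑ b ∈ range N, g (b + m) = ∑ b ∈ range N, g (m + b) :=
    Finset.sum_congr rfl fun b _ => by rw [Nat.add_comm]
  rw [Nat.add_comm m N] at h1
  linarith

theorem r1_dsum_mono {N : ℕ} {g h : ℕ → ℕ → ℝ} (H : ∀ a b, g a b ≤ h a b) :
    r1_dsum N g ≤ r1_dsum N h :=
  Finset.sum_le_sum fun a _ => Finset.sum_le_sum fun b _ => H a b

theorem r1_dsum_nonneg {N : ℕ} {g : ℕ → ℕ → ℝ} (H : ∀ a b, 0 ≤ g a b) : 0 ≤ r1_dsum N g :=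
  Finset.sum_nonneg fun a _ => Finset.sum_nonneg fun b _ => H a b

theorem r1_dsum_mul {N : ℕ} (c : ℝ) (g : ℕ → ℕ → ℝ) : r1_dsum N (fun a b => c * g a b) = c * r1_dsum N g := by
  simp only [r1_dsum, Finset.mul_sum]

theorem r1_dsum_add {N : ℕ} (g h : ℕ → ℕ → ℝ) :
    r1_dsum N (fun a b => g a b + h a b) = r1_dsum N g + r1_dsum N h := by
  simp only [r1_dsum, Finset.sum_add_distrib]

theorem r1_dsum_sub {N : ℕ} (g h : ℕ → ℕ → ℝ) :
    r1_dsum N (fun a b => g a b - h a b) = r1_dsum N g - r1_dsum N h := by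
  simp only [r1_dsum, Finset.sum_sub_distrib]

theorem r1_dsum_comm {N : ℕ} (g : ℕ → ℕ → ℝ) : r1_dsum N g = r1_dsum N (fun a b => g b a) := by
  simp only [r1_dsum]
  rw [Finset.sum_comm]

/-- shift of `b` down -/
theorem r1_dsum_b_down {N m : ℕ} {g : ℕ → ℕ → ℝ} (H : ∀ a b, 0 ≤ g a b) :
    r1_dsum N (fun a b => if m ≤ b then g a (b - m) else 0) ≤ r1_dsum N g :=
  Finset.sum_le_sum fun a _ => r1_down (g a) (H a) N m

/-- shift of `b` up -/
theorem r1_dsum_b_up {N m : ℕ} {g : ℕ → ℕ → ℝ} (H : ∀ a b, 0 ≤ g a b)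
    (h0 : ∀ a b, N ≤ b → g a b = 0) :
    r1_dsum N (fun a b => g a (b + m)) ≤ r1_dsum N g :=
  Finset.sum_le_sum fun a _ => r1_up (g a) (H a) N m (h0 a)

/-- shift of `a` up -/
theorem r1_dsum_a_up {N m : ℕ} {g : ℕ → ℕ → ℝ} (H : ∀ a b, 0 ≤ g a b)
    (h0 : ∀ a b, N ≤ a → g a b = 0) :
    r1_dsum N (fun a b => g (a + m) b) ≤ r1_dsum N g := by
  rw [r1_dsum_comm (fun a b => g (a + m) b), r1_dsum_comm g]
  exact r1_dsum_b_up (g := fun a b => g b a) (fun a b => H b a) (fun a b h => h0 b a h)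

/-- shift of `a` down -/
theorem r1_dsum_a_down {N m : ℕ} {g : ℕ → ℕ → ℝ} (H : ∀ a b, 0 ≤ g a b) :
    r1_dsum N (fun a b => if m ≤ a then g (a - m) b else 0) ≤ r1_dsum N g := by
  rw [r1_dsum_comm (fun a b => if m ≤ a then g (a - m) b else 0), r1_dsum_comm g]
  exact r1_dsum_b_down (g := fun a b => g b a) (fun a b => H b a)

section

variable {n k t b0 : ℕ} {w v : ℤ → ℝ}

/-- The term of the pair `(a, b)` shifted by `(2i, 2j)`. -/
noncomputable def r1_tm (n k : ℕ) (w v : ℤ → ℝ) (i j a b : ℕ) : ℝ :=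
  w a * v b * pk n k (a + 2 * i) (b + 2 * j)

theorem r1_tm_nonneg (hw0 : ∀ z, 0 ≤ w z) (hv0 : ∀ z, 0 ≤ v z) (i j a b : ℕ) :
    0 ≤ r1_tm n k w v i j a b :=
  mul_nonneg (mul_nonneg (hw0 _) (hv0 _)) (pk_nonneg _ _ _ _)

/-- `K = 81 n / t`, step in the first index. -/
theorem r1_step_a (hk : k ≤ n) (ht : 100 ≤ t) (htn : t ≤ n)
    (hb3 : 2 * (t : ℤ) ≤ 3 * (2 * (b0 : ℤ) - 1 - k))
    (hw0 : ∀ z, 0 ≤ w z) (hv0 : ∀ z, 0 ≤ v z)
    (hws : ∀ z, w z ≠ 0 → (b0 : ℤ) - 1 ≤ z ∧ z ≤ t + 1)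
    (hvs : ∀ z, v z ≠ 0 → (b0 : ℤ) ≤ z ∧ z ≤ t)
    (hv1 : ∀ z : ℤ, (b0 : ℤ) + 2 ≤ z → v z ≤ 6 * t / n * v (z - 2))
    (hc2 : w ((b0 : ℤ) - 1) * v ((b0 : ℤ) + 1) ≤ 8 * (w b0 * v b0)) (i : ℕ) :
    r1_dsum (t + 4) (r1_tm n k w v (i + 1) 0) ≤ 81 * n / t * r1_dsum (t + 4) (r1_tm n k w v i 0) := by
  have hn : 0 < n := by omega
  have hnR : (0 : ℝ) < n := by exact_mod_cast hn
  have htR : (0 : ℝ) < t := by exact_mod_cast (by omega : 0 < t)
  set r : ℝ := 3 * n / t with hr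
  have hr0 : 0 < r := by positivity
  have hb3R : 2 * (t : ℝ) ≤ 3 * (2 * (b0 : ℝ) - 1 - k) := by exact_mod_cast hb3
  have hLL : ∀ a b : ℝ, 2 * (b0 : ℝ) - 1 ≤ a + b → 2 * (n : ℝ) ≤ r * (a + b - k) := by
    intro a b hab
    rw [hr, div_mul_eq_mul_div, le_div_iff₀ htR]
    nlinarith
  have key : ∀ a b : ℕ, r1_tm n k w v (i + 1) 0 a b ≤
      r * r1_tm n k w v i 0 a b
        + ((6 * t / n * r ^ 2) * (if 2 ≤ b then r1_tm n k w v i 0 a (b - 2) else 0)
        + (8 * r) * (if 1 ≤ b then r1_tm n k w v i 0 (a + 1) (b - 1) else 0)) := by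
    intro a b
    have P1 : 0 ≤ r * r1_tm n k w v i 0 a b := mul_nonneg hr0.le (r1_tm_nonneg hw0 hv0 _ _ _ _)
    have P2 : 0 ≤ (6 * t / n * r ^ 2) * (if 2 ≤ b then r1_tm n k w v i 0 a (b - 2) else 0) := by
      refine mul_nonneg (by positivity) ?_
      split_ifs
      · exact r1_tm_nonneg hw0 hv0 _ _ _ _
      · exact le_rfl
    have P3 : 0 ≤ (8 * r) * (if 1 ≤ b then r1_tm n k w v i 0 (a + 1) (b - 1) else 0) := by
      refine mul_nonneg (by positivity) ?_
      split_ifs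
      · exact r1_tm_nonneg hw0 hv0 _ _ _ _
      · exact le_rfl
    by_cases hwa : w a = 0
    · have : r1_tm n k w v (i + 1) 0 a b = 0 := by simp [r1_tm, hwa]
      rw [this]; linarith
    by_cases hvb : v b = 0
    · have : r1_tm n k w v (i + 1) 0 a b = 0 := by simp [r1_tm, hvb]
      rw [this]; linarith
    obtain ⟨ha1, ha2⟩ := hws _ hwa
    obtain ⟨hb1, hb2⟩ := hvs _ hvb
    have haR : (b0 : ℝ) - 1 ≤ a := by
      have : (b0 : ℝ) ≤ a + 1 := by exact_mod_cast (by omega : b0 ≤ a + 1)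
      linarith
    have hbR : (b0 : ℝ) ≤ b := by exact_mod_cast hb1
    by_cases hc : b ≤ a + 2 * i + 1
    · -- first inequality
      have h1 : pk n k (a + 2 * i + 2) (b + 2 * 0) ≤ r * pk n k (a + 2 * i) (b + 2 * 0) := by
        refine pk_shift1 hk hr0 (by omega) hn ?_
        apply hLL
        push_cast
        have : (0 : ℝ) ≤ i := Nat.cast_nonneg i
        linarith
      have h2 : r1_tm n k w v (i + 1) 0 a b ≤ r * r1_tm n k w v i 0 a b := by
        have h3 : a + 2 * (i + 1) = a + 2 * i + 2 := by ring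
        simp only [r1_tm]
        rw [h3]
        calc w a * v b * pk n k (a + 2 * i + 2) (b + 2 * 0)
            ≤ w a * v b * (r * pk n k (a + 2 * i) (b + 2 * 0)) :=
              mul_le_mul_of_nonneg_left h1 (mul_nonneg (hw0 _) (hv0 _))
          _ = _ := by ring
      linarith
    · by_cases hc' : b0 + 2 ≤ b
      · have h2b : 2 ≤ b := by omega
        obtain ⟨c, rfl⟩ := Nat.exists_eq_add_of_le' h2b
        have h1 : pk n k (a + 2 * i + 2) (c + 2) ≤ r ^ 2 * pk n k (a + 2 * i) c := by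
          refine pk_shift12 hk hr0 hn ?_
          apply hLL
          push_cast
          have : (0 : ℝ) ≤ i := Nat.cast_nonneg i
          have : (b0 : ℝ) ≤ c := by exact_mod_cast (by omega : b0 ≤ c)
          linarith
        have hv' : v ((c + 2 : ℕ) : ℤ) ≤ 6 * t / n * v c := by
          have := hv1 ((c + 2 : ℕ) : ℤ) (by exact_mod_cast hc')
          have e : (((c + 2 : ℕ) : ℤ) - 2) = (c : ℤ) := by push_cast; ring
          rwa [e] at this
        have h2 : r1_tm n k w v (i + 1) 0 a (c + 2) ≤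
            (6 * t / n * r ^ 2) * (if 2 ≤ c + 2 then r1_tm n k w v i 0 a (c + 2 - 2) else 0) := by
          rw [if_pos (by omega), Nat.add_sub_cancel]
          have h3 : a + 2 * (i + 1) = a + 2 * i + 2 := by ring
          simp only [r1_tm, mul_zero, add_zero]
          rw [h3]
          calc w a * v ((c + 2 : ℕ) : ℤ) * pk n k (a + 2 * i + 2) (c + 2)
              ≤ w a * (6 * t / n * v c) * (r ^ 2 * pk n k (a + 2 * i) c) := by
                refine mul_le_mul (mul_le_mul_of_nonneg_left hv' (hw0 _)) h1 (pk_nonneg _ _ _ _) ?_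
                exact mul_nonneg (hw0 _) (mul_nonneg (by positivity) (hv0 _))
            _ = _ := by ring
        linarith
      · -- corner
        have hi : i = 0 := by omega
        have hbe : b = b0 + 1 := by omega
        have hae : a + 1 = b0 := by omega
        subst hi
        subst hbe
        have h1 : pk n k (b0 + 1) (b0 + 1) ≤ r * pk n k b0 b0 := by
          refine pk_shift11 hk hr0 hn ?_
          apply hLL
          linarith
        have e1 : ((a : ℕ) : ℤ) = (b0 : ℤ) - 1 := by omega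
        have h2 : r1_tm n k w v (0 + 1) 0 a (b0 + 1) ≤
            (8 * r) * (if 1 ≤ b0 + 1 then r1_tm n k w v 0 0 (a + 1) (b0 + 1 - 1) else 0) := by
          rw [if_pos (by omega), Nat.add_sub_cancel, hae]
          have h3 : a + 2 * (0 + 1) = b0 + 1 := by omega
          simp only [r1_tm, mul_zero, add_zero]
          rw [h3, e1]
          calc w ((b0 : ℤ) - 1) * v ((b0 + 1 : ℕ) : ℤ) * pk n k (b0 + 1) (b0 + 1)
              ≤ (8 * (w b0 * v b0)) * (r * pk n k b0 b0) := by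
                refine mul_le_mul ?_ h1 (pk_nonneg _ _ _ _) ?_
                · push_cast; exact hc2
                · exact mul_nonneg (by norm_num) (mul_nonneg (hw0 _) (hv0 _))
            _ = _ := by ring
        linarith
  have T := r1_dsum_mono (N := t + 4) key
  rw [r1_dsum_add, r1_dsum_add, r1_dsum_mul, r1_dsum_mul, r1_dsum_mul] at T
  have T2 := r1_dsum_b_down (N := t + 4) (m := 2) (r1_tm_nonneg (n := n) (k := k) hw0 hv0 i 0)
  have T3 : r1_dsum (t + 4) (fun a b => if 1 ≤ b then r1_tm n k w v i 0 (a + 1) (b - 1) else 0)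
      ≤ r1_dsum (t + 4) (r1_tm n k w v i 0) := by
    refine (r1_dsum_b_down (N := t + 4) (m := 1) (g := fun a b => r1_tm n k w v i 0 (a + 1) b)
      (fun a b => r1_tm_nonneg hw0 hv0 _ _ _ _)).trans ?_
    refine r1_dsum_a_up (r1_tm_nonneg hw0 hv0 i 0) ?_
    intro a b hab
    have : w a = 0 := by
      by_contra h
      have := (hws _ h).2
      omega
    simp [r1_tm, this]
  have S0 : 0 ≤ r1_dsum (t + 4) (r1_tm n k w v i 0) := r1_dsum_nonneg (r1_tm_nonneg hw0 hv0 i 0)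
  have c2 : 6 * t / n * r ^ 2 = 54 * n / t := by
    rw [hr]; field_simp; ring
  have c0 : 0 ≤ 6 * t / n * r ^ 2 := by positivity
  calc r1_dsum (t + 4) (r1_tm n k w v (i + 1) 0) ≤ _ := T
    _ ≤ r * r1_dsum (t + 4) (r1_tm n k w v i 0) + ((6 * t / n * r ^ 2) * r1_dsum (t + 4) (r1_tm n k w v i 0)
        + (8 * r) * r1_dsum (t + 4) (r1_tm n k w v i 0)) := by
        gcongr
    _ = 81 * n / t * r1_dsum (t + 4) (r1_tm n k w v i 0) := by
        rw [c2, hr]; ring

/-- step in the second index -/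
theorem r1_step_b (hk : k ≤ n) (ht : 100 ≤ t) (htn : t ≤ n)
    (hb3 : 2 * (t : ℤ) ≤ 3 * (2 * (b0 : ℤ) - 1 - k))
    (hw0 : ∀ z, 0 ≤ w z) (hv0 : ∀ z, 0 ≤ v z)
    (hws : ∀ z, w z ≠ 0 → (b0 : ℤ) - 1 ≤ z ∧ z ≤ t + 1)
    (hvs : ∀ z, v z ≠ 0 → (b0 : ℤ) ≤ z ∧ z ≤ t)
    (hv2 : ∀ z : ℤ, z + 2 ≤ (t : ℤ) → v z ≤ 7 * n / t * v (z + 2))
    (hc1 : w ((t : ℤ) + 1) * v ((t : ℤ) - 1) ≤ 8 * (w t * v t)) (hbt : b0 ≤ t) (j : ℕ) :
    r1_dsum (t + 4) (r1_tm n k w v 0 (j + 1)) ≤ 81 * n / t * r1_dsum (t + 4) (r1_tm n k w v 0 j) := by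
  have hn : 0 < n := by omega
  have hnR : (0 : ℝ) < n := by exact_mod_cast hn
  have htR : (0 : ℝ) < t := by exact_mod_cast (by omega : 0 < t)
  set r : ℝ := 3 * n / t with hr
  have hr0 : 0 < r := by positivity
  have hb3R : 2 * (t : ℝ) ≤ 3 * (2 * (b0 : ℝ) - 1 - k) := by exact_mod_cast hb3
  have hLL : ∀ a b : ℝ, 2 * (b0 : ℝ) - 1 ≤ a + b → 2 * (n : ℝ) ≤ r * (a + b - k) := by
    intro a b hab
    rw [hr, div_mul_eq_mul_div, le_div_iff₀ htR]
    nlinarith
  have key : ∀ a b : ℕ, r1_tm n k w v 0 (j + 1) a b ≤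
      r * r1_tm n k w v 0 j a b
        + ((7 * n / t) * r1_tm n k w v 0 j a (b + 2)
        + (8 * r) * (if 1 ≤ a then r1_tm n k w v 0 j (a - 1) (b + 1) else 0)) := by
    intro a b
    have P1 : 0 ≤ r * r1_tm n k w v 0 j a b := mul_nonneg hr0.le (r1_tm_nonneg hw0 hv0 _ _ _ _)
    have P2 : 0 ≤ (7 * n / t) * r1_tm n k w v 0 j a (b + 2) :=
      mul_nonneg (by positivity) (r1_tm_nonneg hw0 hv0 _ _ _ _)
    have P3 : 0 ≤ (8 * r) * (if 1 ≤ a then r1_tm n k w v 0 j (a - 1) (b + 1) else 0) := by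
      refine mul_nonneg (by positivity) ?_
      split_ifs
      · exact r1_tm_nonneg hw0 hv0 _ _ _ _
      · exact le_rfl
    by_cases hwa : w a = 0
    · have : r1_tm n k w v 0 (j + 1) a b = 0 := by simp [r1_tm, hwa]
      rw [this]; linarith
    by_cases hvb : v b = 0
    · have : r1_tm n k w v 0 (j + 1) a b = 0 := by simp [r1_tm, hvb]
      rw [this]; linarith
    obtain ⟨ha1, ha2⟩ := hws _ hwa
    obtain ⟨hb1, hb2⟩ := hvs _ hvb
    have haR : (b0 : ℝ) - 1 ≤ a := by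
      have : (b0 : ℝ) ≤ a + 1 := by exact_mod_cast (by omega : b0 ≤ a + 1)
      linarith
    have hbR : (b0 : ℝ) ≤ b := by exact_mod_cast hb1
    by_cases hc : a ≤ b + 2 * j + 1
    · have h1 : pk n k (a + 2 * 0) (b + 2 * j + 2) ≤ r * pk n k (a + 2 * 0) (b + 2 * j) := by
        refine pk_shift2 hk hr0 (by omega) hn ?_
        apply hLL
        push_cast
        have : (0 : ℝ) ≤ j := Nat.cast_nonneg j
        linarith
      have h2 : r1_tm n k w v 0 (j + 1) a b ≤ r * r1_tm n k w v 0 j a b := by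
        have h3 : b + 2 * (j + 1) = b + 2 * j + 2 := by ring
        simp only [r1_tm]
        rw [h3]
        calc w a * v b * pk n k (a + 2 * 0) (b + 2 * j + 2)
            ≤ w a * v b * (r * pk n k (a + 2 * 0) (b + 2 * j)) :=
              mul_le_mul_of_nonneg_left h1 (mul_nonneg (hw0 _) (hv0 _))
          _ = _ := by ring
      linarith
    · by_cases hc' : b + 2 ≤ t
      · have hv' : v b ≤ 7 * n / t * v ((b + 2 : ℕ) : ℤ) := by
          have := hv2 (b : ℤ) (by exact_mod_cast hc')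
          have e : ((b : ℤ) + 2) = ((b + 2 : ℕ) : ℤ) := by push_cast; ring
          rwa [e] at this
        have h2 : r1_tm n k w v 0 (j + 1) a b ≤ (7 * n / t) * r1_tm n k w v 0 j a (b + 2) := by
          have h3 : b + 2 * (j + 1) = b + 2 + 2 * j := by ring
          simp only [r1_tm]
          rw [h3]
          calc w a * v b * pk n k (a + 2 * 0) (b + 2 + 2 * j)
              ≤ w a * (7 * n / t * v ((b + 2 : ℕ) : ℤ)) * pk n k (a + 2 * 0) (b + 2 + 2 * j) := by
                refine mul_le_mul_of_nonneg_right ?_ (pk_nonneg _ _ _ _)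
                exact mul_le_mul_of_nonneg_left hv' (hw0 _)
            _ = _ := by ring
        linarith
      · -- corner
        have hj : j = 0 := by omega
        have hae : a = t + 1 := by omega
        have hbe : b + 1 = t := by omega
        subst hj
        subst hae
        have h1 : pk n k (t + 1) (t + 1) ≤ r * pk n k t t := by
          refine pk_shift11 hk hr0 hn ?_
          apply hLL
          have : (b0 : ℝ) ≤ t := by exact_mod_cast hbt
          linarith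
        have e1 : ((b : ℕ) : ℤ) = (t : ℤ) - 1 := by omega
        have h2 : r1_tm n k w v 0 (0 + 1) (t + 1) b ≤
            (8 * r) * (if 1 ≤ t + 1 then r1_tm n k w v 0 0 (t + 1 - 1) (b + 1) else 0) := by
          rw [if_pos (by omega), Nat.add_sub_cancel, hbe]
          have h3 : b + 2 * (0 + 1) = t + 1 := by omega
          simp only [r1_tm, mul_zero, add_zero]
          rw [h3, e1]
          calc w ((t + 1 : ℕ) : ℤ) * v ((t : ℤ) - 1) * pk n k (t + 1) (t + 1)
              ≤ (8 * (w t * v t)) * (r * pk n k t t) := by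
                refine mul_le_mul ?_ h1 (pk_nonneg _ _ _ _) ?_
                · push_cast; exact hc1
                · exact mul_nonneg (by norm_num) (mul_nonneg (hw0 _) (hv0 _))
            _ = _ := by ring
        linarith
  have T := r1_dsum_mono (N := t + 4) key
  rw [r1_dsum_add, r1_dsum_add, r1_dsum_mul, r1_dsum_mul, r1_dsum_mul] at T
  have hvz : ∀ a b, t + 4 ≤ b → r1_tm n k w v 0 j a b = 0 := by
    intro a b hab
    have : v b = 0 := by
      by_contra h
      have := (hvs _ h).2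
      omega
    simp [r1_tm, this]
  have T2 : r1_dsum (t + 4) (fun a b => r1_tm n k w v 0 j a (b + 2)) ≤ r1_dsum (t + 4) (r1_tm n k w v 0 j) :=
    r1_dsum_b_up (r1_tm_nonneg hw0 hv0 0 j) hvz
  have T3 : r1_dsum (t + 4) (fun a b => if 1 ≤ a then r1_tm n k w v 0 j (a - 1) (b + 1) else 0)
      ≤ r1_dsum (t + 4) (r1_tm n k w v 0 j) := by
    refine (r1_dsum_a_down (N := t + 4) (m := 1) (g := fun a b => r1_tm n k w v 0 j a (b + 1))
      (fun a b => r1_tm_nonneg hw0 hv0 _ _ _ _)).trans ?_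
    exact r1_dsum_b_up (r1_tm_nonneg hw0 hv0 0 j) hvz
  have S0 : 0 ≤ r1_dsum (t + 4) (r1_tm n k w v 0 j) := r1_dsum_nonneg (r1_tm_nonneg hw0 hv0 0 j)
  calc r1_dsum (t + 4) (r1_tm n k w v 0 (j + 1)) ≤ _ := T
    _ ≤ r * r1_dsum (t + 4) (r1_tm n k w v 0 j) + ((7 * n / t) * r1_dsum (t + 4) (r1_tm n k w v 0 j)
        + (8 * r) * r1_dsum (t + 4) (r1_tm n k w v 0 j)) := by
        gcongr
    _ ≤ 81 * n / t * r1_dsum (t + 4) (r1_tm n k w v 0 j) := by
        have : 81 * (n : ℝ) / t * r1_dsum (t + 4) (r1_tm n k w v 0 j) = (r + (7 * n / t + 8 * r)) *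
          r1_dsum (t + 4) (r1_tm n k w v 0 j) + (47 * n / t) * r1_dsum (t + 4) (r1_tm n k w v 0 j) := by
          rw [hr]; ring
        rw [this]
        have : 0 ≤ (47 * n / t) * r1_dsum (t + 4) (r1_tm n k w v 0 j) := mul_nonneg (by positivity) S0
        linarith

/-- step in both indices -/
theorem r1_step_ab (hk : k ≤ n) (ht : 100 ≤ t) (htn : t ≤ n)
    (hb3 : 2 * (t : ℤ) ≤ 3 * (2 * (b0 : ℤ) - 1 - k))
    (hw0 : ∀ z, 0 ≤ w z) (hv0 : ∀ z, 0 ≤ v z)
    (hws : ∀ z, w z ≠ 0 → (b0 : ℤ) - 1 ≤ z ∧ z ≤ t + 1)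
    (hvs : ∀ z, v z ≠ 0 → (b0 : ℤ) ≤ z ∧ z ≤ t) (i j : ℕ) :
    r1_dsum (t + 4) (r1_tm n k w v (i + 1) (j + 1))
      ≤ (81 * n / t) ^ 2 * r1_dsum (t + 4) (r1_tm n k w v i j) := by
  have hn : 0 < n := by omega
  have hnR : (0 : ℝ) < n := by exact_mod_cast hn
  have htR : (0 : ℝ) < t := by exact_mod_cast (by omega : 0 < t)
  set r : ℝ := 3 * n / t with hr
  have hr0 : 0 < r := by positivity
  have hb3R : 2 * (t : ℝ) ≤ 3 * (2 * (b0 : ℝ) - 1 - k) := by exact_mod_cast hb3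
  have hLL : ∀ a b : ℝ, 2 * (b0 : ℝ) - 1 ≤ a + b → 2 * (n : ℝ) ≤ r * (a + b - k) := by
    intro a b hab
    rw [hr, div_mul_eq_mul_div, le_div_iff₀ htR]
    nlinarith
  have hrK : r ≤ 81 * n / t := by
    rw [hr]
    have : (0 : ℝ) ≤ n / t := by positivity
    have e1 : 3 * (n : ℝ) / t = 3 * (n / t) := by ring
    have e2 : 81 * (n : ℝ) / t = 81 * (n / t) := by ring
    rw [e1, e2]; linarith
  rw [← r1_dsum_mul]
  refine r1_dsum_mono fun a b => ?_
  by_cases hwa : w a = 0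
  · simp [r1_tm, hwa]
  by_cases hvb : v b = 0
  · simp [r1_tm, hvb]
  obtain ⟨ha1, ha2⟩ := hws _ hwa
  obtain ⟨hb1, hb2⟩ := hvs _ hvb
  have haR : (b0 : ℝ) - 1 ≤ a := by
    have : (b0 : ℝ) ≤ a + 1 := by exact_mod_cast (by omega : b0 ≤ a + 1)
    linarith
  have hbR : (b0 : ℝ) ≤ b := by exact_mod_cast hb1
  have h1 : pk n k (a + 2 * i + 2) (b + 2 * j + 2) ≤ r ^ 2 * pk n k (a + 2 * i) (b + 2 * j) := by
    refine pk_shift12 hk hr0 hn ?_
    apply hLL
    push_cast
    have : (0 : ℝ) ≤ i := Nat.cast_nonneg i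
    have : (0 : ℝ) ≤ j := Nat.cast_nonneg j
    linarith
  have h3 : a + 2 * (i + 1) = a + 2 * i + 2 := by ring
  have h4 : b + 2 * (j + 1) = b + 2 * j + 2 := by ring
  simp only [r1_tm]
  rw [h3, h4]
  have hr2 : r ^ 2 ≤ (81 * n / t) ^ 2 := by gcongr
  calc w a * v b * pk n k (a + 2 * i + 2) (b + 2 * j + 2)
      ≤ w a * v b * ((81 * n / t) ^ 2 * pk n k (a + 2 * i) (b + 2 * j)) := by
        refine mul_le_mul_of_nonneg_left ?_ (mul_nonneg (hw0 _) (hv0 _))
        exact h1.trans (mul_le_mul_of_nonneg_right hr2 (pk_nonneg _ _ _ _))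
    _ = _ := by ring

theorem r1_step_all (hk : k ≤ n) (hbt : b0 ≤ t) (ht : 100 ≤ t) (htn : t ≤ n)
    (hb3 : 2 * (t : ℤ) ≤ 3 * (2 * (b0 : ℤ) - 1 - k))
    (hw0 : ∀ z, 0 ≤ w z) (hv0 : ∀ z, 0 ≤ v z)
    (hws : ∀ z, w z ≠ 0 → (b0 : ℤ) - 1 ≤ z ∧ z ≤ t + 1)
    (hvs : ∀ z, v z ≠ 0 → (b0 : ℤ) ≤ z ∧ z ≤ t)
    (hv1 : ∀ z : ℤ, (b0 : ℤ) + 2 ≤ z → v z ≤ 6 * t / n * v (z - 2))
    (hv2 : ∀ z : ℤ, z + 2 ≤ (t : ℤ) → v z ≤ 7 * n / t * v (z + 2))
    (hc1 : w ((t : ℤ) + 1) * v ((t : ℤ) - 1) ≤ 8 * (w t * v t))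
    (hc2 : w ((b0 : ℤ) - 1) * v ((b0 : ℤ) + 1) ≤ 8 * (w b0 * v b0)) (i j : ℕ) :
    r1_dsum (t + 4) (r1_tm n k w v i j) ≤ (81 * n / t) ^ (i + j) * r1_dsum (t + 4) (r1_tm n k w v 0 0) := by
  have hK : (0 : ℝ) ≤ 81 * n / t := by positivity
  induction i generalizing j with
  | zero =>
    induction j with
    | zero => simp
    | succ j ih =>
      have h1 := r1_step_b hk ht htn hb3 hw0 hv0 hws hvs hv2 hc1 hbt j
      calc r1_dsum (t + 4) (r1_tm n k w v 0 (j + 1)) ≤ _ := h1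
        _ ≤ 81 * n / t * ((81 * n / t) ^ (0 + j) * r1_dsum (t + 4) (r1_tm n k w v 0 0)) :=
          mul_le_mul_of_nonneg_left ih hK
        _ = _ := by ring
  | succ i ih =>
    cases j with
    | zero =>
      have h1 := r1_step_a hk ht htn hb3 hw0 hv0 hws hvs hv1 hc2 i
      calc r1_dsum (t + 4) (r1_tm n k w v (i + 1) 0) ≤ _ := h1
        _ ≤ 81 * n / t * ((81 * n / t) ^ (i + 0) * r1_dsum (t + 4) (r1_tm n k w v 0 0)) :=
          mul_le_mul_of_nonneg_left (ih 0) hK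
        _ = _ := by ring
    | succ j =>
      have h1 := r1_step_ab hk ht htn hb3 hw0 hv0 hws hvs i j
      calc r1_dsum (t + 4) (r1_tm n k w v (i + 1) (j + 1)) ≤ _ := h1
        _ ≤ (81 * n / t) ^ 2 * ((81 * n / t) ^ (i + j) * r1_dsum (t + 4) (r1_tm n k w v 0 0)) :=
          mul_le_mul_of_nonneg_left (ih j) (by positivity)
        _ = _ := by ring

end

/-- Region 1. -/
theorem region1 {n k t b0 : ℕ} {y : ℝ} {w u v : ℤ → ℝ} (hk : k ≤ n) (hy : 0 < y)
    (hb : 1 ≤ b0) (hbt : b0 ≤ t) (ht : 100 ≤ t) (htn : t ≤ n) (hkt : k ≤ t)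
    (hb3 : 2 * (t : ℤ) ≤ 3 * (2 * (b0 : ℤ) - 1 - k)) (hyn : 324 * y * (n : ℝ) ≤ (t : ℝ))
    (hw0 : ∀ z, 0 ≤ w z) (hu0 : ∀ z, 0 ≤ u z) (hv0 : ∀ z, 0 ≤ v z)
    (hws : ∀ z, w z ≠ 0 → (b0 : ℤ) - 1 ≤ z ∧ z ≤ t + 1)
    (hus : ∀ z, u z ≠ 0 → (t : ℤ) + 2 ≤ z ∧ z ≤ t + 3)
    (hvs : ∀ z, v z ≠ 0 → (b0 : ℤ) ≤ z ∧ z ≤ t)
    (hu : ∀ z, u z ≤ 4 * y / t * w (z - 2))
    (hv1 : ∀ z : ℤ, (b0 : ℤ) + 2 ≤ z → v z ≤ 6 * t / n * v (z - 2))
    (hv2 : ∀ z : ℤ, z + 2 ≤ (t : ℤ) → v z ≤ 7 * n / t * v (z + 2))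
    (hc1 : w ((t : ℤ) + 1) * v ((t : ℤ) - 1) ≤ 8 * (w t * v t))
    (hc2 : w ((b0 : ℤ) - 1) * v ((b0 : ℤ) + 1) ≤ 8 * (w b0 * v b0)) :
    1 / 2 * conv n k w v
      ≤ conv n k (De n (-(y / 2)) (fun z => w z - u z)) (De n (-(y / 2)) v) := by
  have hn : 0 < n := by omega
  have hnR : (0 : ℝ) < n := by exact_mod_cast hn
  have htR : (0 : ℝ) < t := by exact_mod_cast (by omega : 0 < t)
  have ht100 : (100 : ℝ) ≤ t := by exact_mod_cast ht
  set K : ℝ := 81 * n / t with hK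
  have hK0 : 0 < K := by positivity
  set N : ℕ := t + 4 with hN
  have suppV : ∀ z : ℤ, v z ≠ 0 → ∃ b ∈ range N, (b : ℤ) = z := by
    intro z hz
    obtain ⟨h1, h2⟩ := hvs z hz
    refine ⟨z.toNat, Finset.mem_range.2 (by omega), Int.toNat_of_nonneg (by omega)⟩
  have suppW : ∀ z : ℤ, w z ≠ 0 → ∃ b ∈ range N, (b : ℤ) = z := by
    intro z hz
    obtain ⟨h1, h2⟩ := hws z hz
    refine ⟨z.toNat, Finset.mem_range.2 (by omega), Int.toNat_of_nonneg (by omega)⟩
  have suppWU : ∀ z : ℤ, w z - u z ≠ 0 → ∃ b ∈ range N, (b : ℤ) = z := by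
    intro z hz
    by_cases h : w z = 0
    · have hu' : u z ≠ 0 := by
        intro h'
        exact hz (by rw [h, h', sub_zero])
      obtain ⟨h1, h2⟩ := hus z hu'
      refine ⟨z.toNat, Finset.mem_range.2 (by omega), Int.toNat_of_nonneg (by omega)⟩
    · exact suppW z h
  -- S and U
  have hS := r1_step_all hk hbt ht htn hb3 hw0 hv0 hws hvs hv1 hv2 hc1 hc2
  set S : ℕ → ℕ → ℝ := fun i j => r1_dsum N (r1_tm n k w v i j) with hSdef
  set U : ℕ → ℕ → ℝ := fun i j => r1_dsum N (r1_tm n k u v i j) with hUdef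
  have S00 : conv n k w v = S 0 0 := by
    rw [conv_eq_pk hk suppW suppV]
    simp only [hSdef, r1_dsum, r1_tm, mul_zero, add_zero]
  have hS0 : 0 ≤ S 0 0 := r1_dsum_nonneg (r1_tm_nonneg hw0 hv0 0 0)
  have hSn : ∀ i j, 0 ≤ S i j := fun i j => r1_dsum_nonneg (r1_tm_nonneg hw0 hv0 i j)
  have hUn : ∀ i j, 0 ≤ U i j := fun i j => r1_dsum_nonneg (r1_tm_nonneg hu0 hv0 i j)
  have hU : ∀ i j, U i j ≤ 4 * y / t * (K ^ (i + j + 1) * S 0 0) := by
    intro i j
    have h1 : U i j ≤ 4 * y / t * S (i + 1) j := by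
      have hA : U i j ≤ r1_dsum N (fun a b => 4 * y / t *
          (if 2 ≤ a then r1_tm n k w v (i + 1) j (a - 2) b else 0)) := by
        refine r1_dsum_mono fun a b => ?_
        by_cases hua : u a = 0
        · have : r1_tm n k u v i j a b = 0 := by simp [r1_tm, hua]
          rw [this]
          refine mul_nonneg (by positivity) ?_
          split_ifs
          · exact r1_tm_nonneg hw0 hv0 _ _ _ _
          · exact le_rfl
        · obtain ⟨h1, h2⟩ := hus _ hua
          have h2a : 2 ≤ a := by omega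
          obtain ⟨c, rfl⟩ := Nat.exists_eq_add_of_le' h2a
          rw [if_pos h2a, Nat.add_sub_cancel]
          have hu' : u ((c + 2 : ℕ) : ℤ) ≤ 4 * y / t * w c := by
            have := hu ((c + 2 : ℕ) : ℤ)
            have e : (((c + 2 : ℕ) : ℤ) - 2) = (c : ℤ) := by push_cast; ring
            rwa [e] at this
          have e2 : c + 2 + 2 * i = c + 2 * (i + 1) := by ring
          simp only [r1_tm]
          rw [e2]
          calc u ((c + 2 : ℕ) : ℤ) * v b * pk n k (c + 2 * (i + 1)) (b + 2 * j)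
              ≤ (4 * y / t * w c) * v b * pk n k (c + 2 * (i + 1)) (b + 2 * j) := by
                refine mul_le_mul_of_nonneg_right ?_ (pk_nonneg _ _ _ _)
                exact mul_le_mul_of_nonneg_right hu' (hv0 _)
            _ = _ := by ring
      rw [r1_dsum_mul] at hA
      refine hA.trans (mul_le_mul_of_nonneg_left ?_ (by positivity))
      exact r1_dsum_a_down (r1_tm_nonneg hw0 hv0 (i + 1) j)
    refine h1.trans (mul_le_mul_of_nonneg_left ?_ (by positivity))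
    have := hS (i + 1) j
    have e : i + 1 + j = i + j + 1 := by ring
    rw [e] at this
    exact this
  -- expansion
  have hexp : conv n k (De n (-(y / 2)) (fun z => w z - u z)) (De n (-(y / 2)) v)
      = ∑ i ∈ range (n + 1), ∑ j ∈ range (n + 1),
          ew (-(y / 2)) i * ew (-(y / 2)) j * (S i j - U i j) := by
    rw [conv_De hk (w := fun z => w z - u z) suppWU suppV]
    have e1 : ∀ a ∈ range N, ∀ b ∈ range N,
        (w a - u a) * v b * LamP n k (-(y / 2)) a b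
          = ∑ i ∈ range (n + 1), ∑ j ∈ range (n + 1), ew (-(y / 2)) i * ew (-(y / 2)) j *
            (r1_tm n k w v i j a b - r1_tm n k u v i j a b) := by
      intro a _ b _
      simp only [LamP, Finset.mul_sum, r1_tm]
      refine Finset.sum_congr rfl fun i _ => Finset.sum_congr rfl fun j _ => ?_
      ring
    rw [Finset.sum_congr rfl fun a ha => Finset.sum_congr rfl fun b hb => e1 a ha b hb]
    have e2 : ∀ i j, ew (-(y / 2)) i * ew (-(y / 2)) j * (S i j - U i j)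
        = ∑ a ∈ range N, ∑ b ∈ range N, ew (-(y / 2)) i * ew (-(y / 2)) j *
            (r1_tm n k w v i j a b - r1_tm n k u v i j a b) := by
      intro i j
      simp only [hSdef, hUdef, r1_dsum]
      rw [← Finset.sum_sub_distrib, Finset.mul_sum]
      refine Finset.sum_congr rfl fun a _ => ?_
      rw [← Finset.sum_sub_distrib, Finset.mul_sum]
    rw [Finset.sum_congr rfl fun i _ => Finset.sum_congr rfl fun j _ => e2 i j]
    -- now commute sums
    rw [Finset.sum_congr rfl fun a _ => Finset.sum_comm]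
    rw [Finset.sum_comm]
    refine Finset.sum_congr rfl fun i _ => ?_
    rw [Finset.sum_congr rfl fun a _ => Finset.sum_comm]
    rw [Finset.sum_comm]
  rw [hexp, S00]
  -- termwise lower bound
  set q : ℝ := 1 + 4 * y / t * K with hq
  have hq0 : 0 < q := by positivity
  have habs : ∀ i, |ew (-(y / 2)) i| = ew (y / 2) i := by
    intro i
    unfold ew
    rw [abs_div, abs_pow, abs_neg, abs_of_pos (by positivity : (0 : ℝ) < y / 2), Nat.abs_cast]
  have hew : ∀ i, 0 ≤ ew (y / 2) i := by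
    intro i
    simp only [ew]; positivity
  have hterm : ∀ i j : ℕ, (if i = 0 ∧ j = 0 then 2 * S 0 0 else 0)
      - (ew (y / 2) i * K ^ i) * (ew (y / 2) j * K ^ j) * (q * S 0 0)
      ≤ ew (-(y / 2)) i * ew (-(y / 2)) j * (S i j - U i j) := by
    intro i j
    by_cases hij : i = 0 ∧ j = 0
    · obtain ⟨rfl, rfl⟩ := hij
      have h1 := hU 0 0
      simp only [ew, pow_zero, Nat.factorial_zero, Nat.cast_one, div_one, zero_add, pow_one,
        mul_one, one_mul, and_self, if_true] at h1 ⊢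
      rw [hq]
      nlinarith
    · rw [if_neg hij]
      have h1 := hS i j
      have h2 := hU i j
      have h3 : |S i j - U i j| ≤ K ^ i * K ^ j * (q * S 0 0) := by
        have h4 : |S i j - U i j| ≤ S i j + U i j := by
          rw [abs_le]; constructor <;> linarith [hSn i j, hUn i j]
        have h5 : K ^ (i + j) * S 0 0 + 4 * y / t * (K ^ (i + j + 1) * S 0 0)
            = K ^ i * K ^ j * (q * S 0 0) := by rw [hq]; ring
        have h6 : S i j ≤ K ^ (i + j) * S 0 0 := h1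
        linarith
      have h7 : |ew (-(y / 2)) i * ew (-(y / 2)) j * (S i j - U i j)|
          ≤ ew (y / 2) i * ew (y / 2) j * (K ^ i * K ^ j * (q * S 0 0)) := by
        rw [abs_mul, abs_mul, habs, habs]
        exact mul_le_mul_of_nonneg_left h3 (mul_nonneg (hew i) (hew j))
      have h8 := neg_abs_le (ew (-(y / 2)) i * ew (-(y / 2)) j * (S i j - U i j))
      have h9 : ew (y / 2) i * ew (y / 2) j * (K ^ i * K ^ j * (q * S 0 0))
          = (ew (y / 2) i * K ^ i) * (ew (y / 2) j * K ^ j) * (q * S 0 0) := by ring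
      linarith
  have hsum : ∑ i ∈ range (n + 1), ∑ j ∈ range (n + 1), ((if i = 0 ∧ j = 0 then 2 * S 0 0 else 0)
      - (ew (y / 2) i * K ^ i) * (ew (y / 2) j * K ^ j) * (q * S 0 0))
      = 2 * S 0 0 - (∑ i ∈ range (n + 1), ew (y / 2) i * K ^ i) ^ 2 * (q * S 0 0) := by
    simp only [Finset.sum_sub_distrib]
    congr 1
    · rw [Finset.sum_eq_single 0]
      · rw [Finset.sum_eq_single 0]
        · simp
        · intro j _ hj
          rw [if_neg (by tauto)]
        · intro h; exact absurd (Finset.mem_range.2 (by omega)) h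
      · intro i _ hi
        exact Finset.sum_eq_zero fun j _ => by rw [if_neg (by tauto)]
      · intro h; exact absurd (Finset.mem_range.2 (by omega)) h
    · rw [sq, Finset.sum_mul_sum, Finset.sum_mul]
      refine Finset.sum_congr rfl fun i _ => ?_
      rw [Finset.sum_mul]
  have hE : ∑ i ∈ range (n + 1), ew (y / 2) i * K ^ i ≤ Real.exp (y / 2 * K) := by
    have := Real.sum_le_exp_of_nonneg (x := y / 2 * K) (by positivity) (n + 1)
    refine le_trans (le_of_eq ?_) this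
    refine Finset.sum_congr rfl fun i _ => ?_
    simp only [ew]
    rw [mul_pow]; ring
  have hE0 : 0 ≤ ∑ i ∈ range (n + 1), ew (y / 2) i * K ^ i :=
    Finset.sum_nonneg fun i _ => mul_nonneg (hew i) (by positivity)
  have hyK : y * K ≤ 1 / 4 := by
    rw [hK]
    have : y * (81 * n / t) = (324 * y * n) / t / 4 := by ring
    rw [this]
    have : (324 * y * n) / t ≤ 1 := by rw [div_le_one htR]; exact hyn
    linarith
  have hE2 : (∑ i ∈ range (n + 1), ew (y / 2) i * K ^ i) ^ 2 ≤ 4 / 3 := by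
    calc (∑ i ∈ range (n + 1), ew (y / 2) i * K ^ i) ^ 2 ≤ (Real.exp (y / 2 * K)) ^ 2 := by
          gcongr
      _ = Real.exp (y * K) := by rw [← Real.exp_nat_mul]; congr 1; push_cast; ring
      _ ≤ Real.exp (1 / 4) := Real.exp_le_exp.2 hyK
      _ ≤ 4 / 3 := by
          have := Real.exp_bound_div_one_sub_of_interval (x := 1 / 4) (by norm_num) (by norm_num)
          norm_num at this ⊢
          exact this
  have hq1 : q ≤ 101 / 100 := by
    rw [hq]
    have : 4 * y / t * K = 4 * (y * K) / t := by ring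
    rw [this]
    have : 4 * (y * K) / t ≤ 1 / 100 := by
      rw [div_le_iff₀ htR]; linarith
    linarith
  have hfin := Finset.sum_le_sum fun i (_ : i ∈ range (n + 1)) =>
    Finset.sum_le_sum fun j (_ : j ∈ range (n + 1)) => hterm i j
  rw [hsum] at hfin
  refine le_trans ?_ hfin
  have hA : (∑ i ∈ range (n + 1), ew (y / 2) i * K ^ i) ^ 2 * (q * S 0 0)
      ≤ 4 / 3 * (101 / 100 * S 0 0) := by
    refine mul_le_mul hE2 (mul_le_mul_of_nonneg_right hq1 hS0) (mul_nonneg hq0.le hS0) (by norm_num)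
  linarith

end Pool.Agent.Lib.MP_0430e4_lc.Impr
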